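import Mathlib

/-!
# Localisations at a prime element and away from an element, inside the fraction field
-/

set_option linter.unusedSectionVars false
set_option linter.unusedVariables false
set_option linter.unnecessarySimpa false

namespace Pool.Agent.V5helper94.Kol

open Polynomial nonZeroDivisors

section Loc

variable {S K : Type} [CommRing S] [IsDomain S] [Field K] [Algebra S K] [IsFractionRing S K]

/-- The submonoid of elements not divisible by the prime `h`. -/
def notDvd (h : S) (hh : Prime h) : Submonoid S where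
  carrier := {s | ¬ h ∣ s}
  mul_mem' := by
    intro a b ha hb hab
    exact (hh.dvd_or_dvd hab).elim ha hb
  one_mem' := fun h1 => hh.not_isUnit (isUnit_of_dvd_one h1)

theorem notDvd_le (h : S) (hh : Prime h) : notDvd h hh ≤ S⁰ := by
  intro s hs
  refine mem_nonZeroDivisors_of_ne_zero ?_
  rintro rfl
  exact hs (dvd_zero h)

/-- The local ring `S_(h)` as a subring of `K`. -/
noncomputable def locAt (K : Type) [Field K] [Algebra S K] [IsFractionRing S K] (h : S)
    (hh : Prime h) : Subalgebra S K :=
  Localization.subalgebra.ofField K (notDvd h hh) (notDvd_le h hh)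

theorem mem_locAt {h : S} {hh : Prime h} {g : K} :
    g ∈ locAt K h hh ↔ ∃ F G : S, ¬ h ∣ G ∧ g = algebraMap S K F * (algebraMap S K G)⁻¹ := by
  constructor
  · rintro ⟨a, s, hs, rfl⟩
    exact ⟨a, s, hs, rfl⟩
  · rintro ⟨a, s, hs, rfl⟩
    exact ⟨a, s, hs, rfl⟩

theorem amap_ne_zero {G : S} (hG : G ≠ 0) : algebraMap S K G ≠ 0 := by
  intro h
  exact hG ((IsFractionRing.injective S K) (by rw [h, map_zero]))

theorem mem_locAt' {h : S} {hh : Prime h} {g : K} :
    g ∈ locAt K h hh ↔ ∃ F G : S, ¬ h ∣ G ∧ g * algebraMap S K G = algebraMap S K F := by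
  rw [mem_locAt]
  constructor
  · rintro ⟨F, G, hG, rfl⟩
    have hG0 : algebraMap S K G ≠ 0 := amap_ne_zero (fun h0 => hG (h0 ▸ dvd_zero h))
    exact ⟨F, G, hG, by field_simp⟩
  · rintro ⟨F, G, hG, e⟩
    have hG0 : algebraMap S K G ≠ 0 := amap_ne_zero (fun h0 => hG (h0 ▸ dvd_zero h))
    exact ⟨F, G, hG, by rw [← e]; field_simp⟩

theorem inv_mem_locAt {h : S} {hh : Prime h} {G : S} (hG : ¬ h ∣ G) :
    (algebraMap S K G)⁻¹ ∈ locAt K h hh := by
  rw [mem_locAt]
  exact ⟨1, G, hG, by simp⟩

theorem amap_mem_locAt {h : S} (hh : Prime h) (F : S) :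
    algebraMap S K F ∈ locAt K h hh := (locAt K h hh).algebraMap_mem F

/-- `F / h ^ k ∈ S_(h)` iff `h ^ k ∣ F`. -/
theorem mul_mem_locAt_iff {h : S} {hh : Prime h} (k : ℕ) (F : S) :
    algebraMap S K F * ((algebraMap S K h) ^ k)⁻¹ ∈ locAt K h hh ↔ h ^ k ∣ F := by
  have h0 : algebraMap S K h ≠ 0 := amap_ne_zero hh.ne_zero
  constructor
  · intro hm
    obtain ⟨E, G, hG, e⟩ := mem_locAt'.mp hm
    have e2 : F * G = h ^ k * E := by
      apply IsFractionRing.injective S K
      rw [map_mul, map_mul, ← e, map_pow]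
      field_simp
    have : h ^ k ∣ F * G := ⟨E, e2⟩
    exact (hh.pow_dvd_of_dvd_mul_right k hG this)
  · rintro ⟨E, rfl⟩
    have : algebraMap S K (h ^ k * E) * ((algebraMap S K h) ^ k)⁻¹ = algebraMap S K E := by
      rw [map_mul, map_pow]; field_simp
    rw [this]
    exact amap_mem_locAt hh E

/-- an element of `S_(h)` not divisible by `h` is a unit -/
theorem inv_mem_of_not_mul {h : S} {hh : Prime h} {g : K} (hg : g ∈ locAt K h hh)
    (hn : g * (algebraMap S K h)⁻¹ ∉ locAt K h hh) : g⁻¹ ∈ locAt K h hh := by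
  obtain ⟨F, G, hG, rfl⟩ := mem_locAt.mp hg
  have hF : ¬ h ∣ F := by
    rintro ⟨E, rfl⟩
    apply hn
    have h0 : algebraMap S K h ≠ 0 := amap_ne_zero hh.ne_zero
    have : algebraMap S K (h * E) * (algebraMap S K G)⁻¹ * (algebraMap S K h)⁻¹ =
      algebraMap S K E * (algebraMap S K G)⁻¹ := by
      rw [map_mul]; field_simp
    rw [this]
    exact (locAt K h hh).mul_mem (amap_mem_locAt hh E) (inv_mem_locAt hG)
  rw [mul_inv, inv_inv]
  exact (locAt K h hh).mul_mem (inv_mem_locAt hF) (amap_mem_locAt hh G)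

theorem inv_h_not_mem {h : S} {hh : Prime h} : (algebraMap S K h)⁻¹ ∉ locAt K h hh := by
  intro hm
  have h1 := (mul_mem_locAt_iff (K := K) (hh := hh) 1 (1 : S)).mp (by simpa using hm)
  rw [pow_one] at h1
  exact hh.not_isUnit (isUnit_of_dvd_one h1)

/-- the maximal ideal of `S_(h)` is prime -/
theorem mul_inv_prime {h : S} {hh : Prime h} {g g' : K} (hg : g ∈ locAt K h hh)
    (hg' : g' ∈ locAt K h hh) (hm : g * g' * (algebraMap S K h)⁻¹ ∈ locAt K h hh) :
    g * (algebraMap S K h)⁻¹ ∈ locAt K h hh ∨ g' * (algebraMap S K h)⁻¹ ∈ locAt K h hh := by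
  by_cases h1 : g * (algebraMap S K h)⁻¹ ∈ locAt K h hh
  · exact Or.inl h1
  · right
    have h2 := inv_mem_of_not_mul hg h1
    by_cases hg0 : g = 0
    · subst hg0
      exact absurd (by simpa using (locAt K h hh).zero_mem) h1
    have : g' * (algebraMap S K h)⁻¹ = g⁻¹ * (g * g' * (algebraMap S K h)⁻¹) := by
      field_simp
    rw [this]
    exact (locAt K h hh).mul_mem h2 hm

/-- Elements of `K` integral over a subring which is mapped by a ring homomorphism into an integrally
closed ring. -/
theorem mem_of_isIntegral_map {A : Type} [CommRing A] [Algebra A K] {L : Type} [CommRing L]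
    [IsDomain L] {K' : Type} [Field K'] [Algebra L K'] [IsFractionRing L K'] [IsIntegrallyClosed L]
    (φ : K →+* K') (hφ : ∀ a : A, ∃ l : L, algebraMap L K' l = φ (algebraMap A K a)) {f : K}
    (hf : IsIntegral A f) : ∃ l : L, algebraMap L K' l = φ f := by
  have hinj : Function.Injective (algebraMap L K') := IsFractionRing.injective L K'
  choose m hm using hφ
  let μ : A →+* L :=
    { toFun := m
      map_one' := hinj (by rw [hm, map_one, map_one, map_one])
      map_mul' := fun a b => hinj (by rw [hm, map_mul, map_mul, map_mul, hm, hm])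
      map_zero' := hinj (by rw [hm, map_zero, map_zero, map_zero])
      map_add' := fun a b => hinj (by rw [hm, map_add, map_add, map_add, hm, hm]) }
  have h1 : IsIntegral L (φ f) := by
    refine hf.map_of_comp_eq μ φ ?_
    ext a
    exact hm a
  exact IsIntegrallyClosed.isIntegral_iff.mp h1

instance locAt_isIntegrallyClosed [IsIntegrallyClosed S] (h : S) (hh : Prime h) :
    IsIntegrallyClosed (locAt K h hh) := by
  have : IsLocalization (notDvd h hh) (locAt K h hh) :=
    Localization.subalgebra.isLocalization_ofField K _ _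
  exact isIntegrallyClosed_of_isLocalization (R := S) _ (notDvd h hh) (notDvd_le h hh)

instance locAt_isFractionRing (h : S) (hh : Prime h) :
    IsFractionRing (locAt K h hh) K :=
  Localization.subalgebra.isFractionRing_ofField K _ _

/-- `S[1/h]` inside `K`. -/
noncomputable def awayAt (K : Type) [Field K] [Algebra S K] [IsFractionRing S K] (h : S)
    (hh : h ≠ 0) : Subalgebra S K :=
  Localization.subalgebra.ofField K (Submonoid.powers h) (powers_le_nonZeroDivisors_of_noZeroDivisors hh)

theorem mem_awayAt {h : S} {hh : h ≠ 0} {g : K} :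
    g ∈ awayAt K h hh ↔ ∃ (F : S) (n : ℕ), g * (algebraMap S K h) ^ n = algebraMap S K F := by
  have h0 : algebraMap S K h ≠ 0 := amap_ne_zero hh
  constructor
  · rintro ⟨a, s, ⟨n, rfl⟩, rfl⟩
    refine ⟨a, n, ?_⟩
    simp only [map_pow]
    field_simp
  · rintro ⟨F, n, e⟩
    refine ⟨F, h ^ n, ⟨n, rfl⟩, ?_⟩
    rw [← e, map_pow]
    field_simp

instance awayAt_isIntegrallyClosed [IsIntegrallyClosed S] (h : S) (hh : h ≠ 0) :
    IsIntegrallyClosed (awayAt K h hh) := by
  have : IsLocalization (Submonoid.powers h) (awayAt K h hh) :=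
    Localization.subalgebra.isLocalization_ofField K _ _
  exact isIntegrallyClosed_of_isLocalization (R := S) _ (Submonoid.powers h)
    (powers_le_nonZeroDivisors_of_noZeroDivisors hh)

instance awayAt_isFractionRing (h : S) (hh : h ≠ 0) :
    IsFractionRing (awayAt K h hh) K :=
  Localization.subalgebra.isFractionRing_ofField K _ _

end Loc

end Pool.Agent.V5helper94.Kol
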