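import Pool.Agent.V5helper94.Kol.SurfDefs
import Pool.Agent.V5helper94.Kol.Loc

/-!
# The ring attached to an arrangement of planes in three-space
-/

set_option linter.unusedSectionVars false
set_option linter.unusedVariables false

namespace Pool.Agent.V5helper94.Kol

open Polynomial nonZeroDivisors

/-- `ℂ[z]` -/
def R1 : Type := Polynomial ℂ

noncomputable instance : CommRing R1 := inferInstanceAs (CommRing ℂ[X])
instance : IsDomain R1 := inferInstanceAs (IsDomain ℂ[X])
instance : UniqueFactorizationMonoid R1 := inferInstanceAs (UniqueFactorizationMonoid ℂ[X])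
instance : IsNoetherianRing R1 := inferInstanceAs (IsNoetherianRing ℂ[X])
noncomputable instance : Algebra ℂ R1 := inferInstanceAs (Algebra ℂ ℂ[X])

/-- the variable `z` -/
noncomputable def vz : R1 := (X : ℂ[X])

/-- the constants in `ℂ[z]` -/
noncomputable def kc : ℂ →+* R1 := algebraMap ℂ R1

theorem vz_prime : Prime vz := (prime_X : Prime (X : ℂ[X]))

theorem vz_ne_zero : vz ≠ 0 := vz_prime.ne_zero

theorem kc_injective : Function.Injective kc := (algebraMap ℂ R1).injective

theorem kc_ne_zero {c : ℂ} (h : c ≠ 0) : kc c ≠ 0 := (map_ne_zero_iff kc kc_injective).mpr h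

/-- `ℂ[z][x]` -/
abbrev R2 : Type := Polynomial R1
/-- `ℂ[z][x][Y]` -/
abbrev P3 : Type := Polynomial R2

/-- constants in `ℂ[z, x]` -/
noncomputable def cc (c : ℂ) : R2 := C (kc c)
/-- `z` in `ℂ[z, x]` -/
noncomputable def zz : R2 := C vz

/-- `b z - a x` -/
noncomputable def aa (a b : ℂ) : R2 := cc b * zz - cc a * X
/-- `x - δ z` -/
noncomputable def bb (δ : ℂ) : R2 := X - C (kc δ * vz)
/-- `ε z` -/
noncomputable def ee (ε : ℂ) : R2 := cc ε * zz

/-- the linear form `Y + a x - b z` -/
noncomputable def pl (a b : ℂ) : P3 := X - C (aa a b)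

theorem cc_zero : cc 0 = 0 := by simp [cc]
theorem cc_one : cc 1 = 1 := by simp [cc]
theorem cc_add (a b : ℂ) : cc (a + b) = cc a + cc b := by simp [cc]
theorem cc_sub (a b : ℂ) : cc (a - b) = cc a - cc b := by simp [cc]
theorem cc_mul (a b : ℂ) : cc (a * b) = cc a * cc b := by simp [cc]
theorem cc_neg (a : ℂ) : cc (-a) = - cc a := by simp [cc]

theorem cc_isUnit {c : ℂ} (h : c ≠ 0) : IsUnit (cc c) := by
  refine IsUnit.of_mul_eq_one (cc c⁻¹) ?_
  rw [← cc_mul, mul_inv_cancel₀ h, cc_one]

theorem bb_eq (δ : ℂ) : bb δ = X - cc δ * zz := by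
  simp [bb, cc, zz]

theorem bb_prime (δ : ℂ) : Prime (bb δ) := prime_X_sub_C _

theorem Cbb_prime (δ : ℂ) : Prime (C (bb δ) : P3) := prime_C_iff.mpr (bb_prime δ)

theorem zz_prime : Prime zz := prime_C_iff.mpr vz_prime

theorem Czz_prime : Prime (C zz : P3) := prime_C_iff.mpr zz_prime

theorem pl_prime (a b : ℂ) : Prime (pl a b) := prime_X_sub_C _

theorem pl_ne_zero (a b : ℂ) : pl a b ≠ 0 := (pl_prime a b).ne_zero

theorem bb_ne_zero (δ : ℂ) : bb δ ≠ 0 := (bb_prime δ).ne_zero

theorem zz_ne_zero : zz ≠ 0 := zz_prime.ne_zero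

/-- `z` is not divisible by `x - δ z`. -/
theorem not_bb_dvd_zz {δ c : ℂ} (hc : c ≠ 0) : ¬ bb δ ∣ cc c * zz := by
  intro h
  have h1 := Polynomial.dvd_iff_isRoot.mp h
  simp only [Polynomial.IsRoot, cc, zz, eval_mul, eval_C] at h1
  rcases mul_eq_zero.mp h1 with h2 | h2
  · exact kc_ne_zero hc h2
  · exact vz_ne_zero h2

theorem not_bb_dvd_zz' {δ : ℂ} : ¬ bb δ ∣ zz := by
  have := not_bb_dvd_zz (δ := δ) (one_ne_zero)
  rwa [cc_one, one_mul] at this

theorem not_bb_dvd_bb {δ δ' : ℂ} (h : δ ≠ δ') : ¬ bb δ ∣ bb δ' := by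
  intro hd
  have h1 := Polynomial.dvd_iff_isRoot.mp hd
  simp only [Polynomial.IsRoot, bb, eval_sub, eval_X, eval_C] at h1
  rw [← sub_mul, ← map_sub] at h1
  rcases mul_eq_zero.mp h1 with h2 | h2
  · exact kc_ne_zero (sub_ne_zero.mpr h) h2
  · exact vz_ne_zero h2

theorem not_C_dvd_C {r s : R2} (h : ¬ r ∣ s) : ¬ (C r : P3) ∣ C s := by
  intro h1
  exact h (by
    have := (Polynomial.C_dvd_iff_dvd_coeff _ _).mp h1 0
    simpa using this)

/-- the substitution `Y ↦ c + b Y` -/
noncomputable def phi (c b : R2) : P3 →ₐ[R2] P3 := Polynomial.aeval (C c + C b * X)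

@[simp] theorem phi_X (c b : R2) : phi c b X = C c + C b * X := by simp [phi]

@[simp] theorem phi_C (c b r : R2) : phi c b (C r) = C r := by
  have := (phi c b).commutes r
  simpa [Polynomial.algebraMap_apply] using this

theorem phi_eq_comp (c b : R2) (F : P3) : phi c b F = F.comp (C c + C b * X) := by
  rw [phi, Polynomial.aeval_def, Polynomial.comp, Polynomial.algebraMap_eq]

theorem phi_injective (c : R2) {b : R2} (hb : b ≠ 0) : Function.Injective (phi c b) := by
  rw [injective_iff_map_eq_zero]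
  intro F hF
  rw [phi_eq_comp] at hF
  rcases Polynomial.comp_eq_zero_iff.mp hF with h | h
  · exact h
  · exfalso
    have h2 := congrArg (fun F : P3 => F.coeff 1) h.2
    simp at h2
    exact hb h2

/-- the local substitution at the line `α = (δ, ε)`: `Y ↦ ε z + (x - δ z) Y` -/
noncomputable def sub (α : ℂ × ℂ) : P3 →ₐ[R2] P3 := phi (ee α.2) (bb α.1)

section field

variable (K : Type) [Field K] [Algebra P3 K] [IsFractionRing P3 K]

/-- the embedding of polynomials into the field -/
noncomputable abbrev em : P3 →+* K := algebraMap P3 K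

theorem em_injective : Function.Injective (em K) := IsFractionRing.injective P3 K

variable {K}

theorem em_ne_zero {F : P3} (h : F ≠ 0) : em K F ≠ 0 := amap_ne_zero h

/-- extension of `phi` to the field -/
noncomputable def hphi (c : R2) (b : R2) (hb : b ≠ 0) : K →+* K :=
  IsFractionRing.lift (g := (algebraMap P3 K).comp (phi c b).toRingHom)
    ((em_injective K).comp (phi_injective c hb))

@[simp] theorem hphi_em (c b : R2) (hb : b ≠ 0) (F : P3) :
    hphi c b hb (em K F) = em K (phi c b F) :=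
  IsFractionRing.lift_algebraMap _ _

/-- its extension to the field -/
noncomputable def hsub (α : ℂ × ℂ) : K →+* K := hphi (ee α.2) (bb α.1) (bb_ne_zero _)

@[simp] theorem hsub_em (α : ℂ × ℂ) (F : P3) : hsub α (em K F) = em K (sub α F) := hphi_em _ _ _ _

end field

@[simp] theorem sub_C (α : ℂ × ℂ) (r : R2) : sub α (C r) = C r := phi_C _ _ _

@[simp] theorem sub_X (α : ℂ × ℂ) : sub α X = C (ee α.2) + C (bb α.1) * X := phi_X _ _

theorem sub_injective (α : ℂ × ℂ) : Function.Injective (sub α) := phi_injective _ (bb_ne_zero _)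

theorem sub_pl (α : ℂ × ℂ) (a b : ℂ) :
    sub α (pl a b) = C (bb α.1) * (X + C (cc a)) + C (cc (α.2 + a * α.1 - b) * zz) := by
  have h : ee α.2 - aa a b = bb α.1 * cc a + cc (α.2 + a * α.1 - b) * zz := by
    rw [ee, aa, bb_eq, cc_sub, cc_add, cc_mul]
    ring
  have h2 : (C (ee α.2) - C (aa a b) : P3) = C (bb α.1 * cc a + cc (α.2 + a * α.1 - b) * zz) := by
    rw [← C_sub, h]
  rw [pl, map_sub, sub_X, sub_C, add_sub_right_comm, h2]
  rw [C_add, C_mul]
  ring

/-- local ring of `ℂ[z,x,Y]` at `x - δ z` -/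
noncomputable def LL (K : Type) [Field K] [Algebra P3 K] [IsFractionRing P3 K] (δ : ℂ) :
    Subalgebra P3 K := locAt K (C (bb δ)) (Cbb_prime δ)

section arrangement

variable {ι : Type} [Fintype ι] [DecidableEq ι] (p q : ι → ℂ)

/-- the product of all the linear forms -/
noncomputable def PP : P3 := ∏ i, pl (p i) (q i)

theorem PP_ne_zero : PP p q ≠ 0 := Finset.prod_ne_zero_iff.mpr fun i _ => pl_ne_zero _ _

/-- the line `α` is contained in the plane `i` -/
def onL (α : ℂ × ℂ) (i : ι) : Prop := α.2 + p i * α.1 = q i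

/-- the intersection of the planes `i` and `j` -/
noncomputable def ipt (i j : ι) : ℂ × ℂ :=
  ((q j - q i) / (p j - p i), q i - p i * ((q j - q i) / (p j - p i)))

theorem onL_ipt_left (i j : ι) : onL p q (ipt p q i j) i := by
  simp [onL, ipt]

theorem onL_ipt_right (hp : Function.Injective p) {i j : ι} (h : i ≠ j) :
    onL p q (ipt p q i j) j := by
  have h1 : p j - p i ≠ 0 := fun h0 => h (hp (sub_eq_zero.mp h0)).symm
  simp only [onL, ipt]
  field_simp
  ring

theorem eq_ipt (hp : Function.Injective p) {i j : ι} (h : i ≠ j) {α : ℂ × ℂ} (hi : onL p q α i)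
    (hj : onL p q α j) : α = ipt p q i j := by
  have h1 : p j - p i ≠ 0 := fun h0 => h (hp (sub_eq_zero.mp h0)).symm
  simp only [onL] at hi hj
  have h2 : α.1 = (q j - q i) / (p j - p i) := by
    rw [eq_div_iff h1, ← hi, ← hj]; ring
  ext
  · exact h2
  · simp only [ipt]
    rw [← h2, ← hi]; ring

theorem eq_of_fst (i : ι) {α β : ℂ × ℂ} (hα : onL p q α i) (hβ : onL p q β i) (h : α.1 = β.1) :
    α = β := by
  simp only [onL] at hα hβ
  ext
  · exact h
  · have := hα.trans hβ.symm
    rw [h] at this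
    exact add_right_cancel this

open Classical in
/-- the multiple lines of the arrangement -/
noncomputable def pts : Finset (ℂ × ℂ) :=
  (Finset.univ.filter fun x : ι × ι => x.1 ≠ x.2).image fun x => ipt p q x.1 x.2

theorem ipt_mem_pts {i j : ι} (h : i ≠ j) : ipt p q i j ∈ pts p q := by
  classical
  unfold pts
  rw [Finset.mem_image]
  exact ⟨(i, j), by simp [h], rfl⟩

theorem mem_pts (hp : Function.Injective p) {α : ℂ × ℂ} :
    α ∈ pts p q ↔ ∃ i j, i ≠ j ∧ onL p q α i ∧ onL p q α j := by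
  classical
  constructor
  · intro h
    unfold pts at h
    rw [Finset.mem_image] at h
    obtain ⟨⟨i, j⟩, hij, rfl⟩ := h
    simp only [Finset.mem_filter, Finset.mem_univ, true_and, ne_eq] at hij
    exact ⟨i, j, hij, onL_ipt_left p q i j, onL_ipt_right p q hp hij⟩
  · rintro ⟨i, j, h, hi, hj⟩
    rw [eq_ipt p q hp h hi hj]
    exact ipt_mem_pts p q h

/-- The ring of the arrangement: elements regular off the planes and regular along each of the
exceptional divisors. -/
noncomputable def BB (K : Type) [Field K] [Algebra P3 K] [IsFractionRing P3 K] [Algebra ℂ K]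
    [IsScalarTower ℂ P3 K] : Subalgebra ℂ K where
  carrier := {g | g ∈ awayAt K (PP p q) (PP_ne_zero p q) ∧ ∀ α ∈ pts p q, hsub α g ∈ LL K α.1}
  mul_mem' := fun ha hb => ⟨Subalgebra.mul_mem _ ha.1 hb.1, fun α hα => by
    rw [map_mul]; exact Subalgebra.mul_mem _ (ha.2 α hα) (hb.2 α hα)⟩
  add_mem' := fun ha hb => ⟨Subalgebra.add_mem _ ha.1 hb.1, fun α hα => by
    rw [map_add]; exact Subalgebra.add_mem _ (ha.2 α hα) (hb.2 α hα)⟩
  algebraMap_mem' := fun c => by
    have h : algebraMap ℂ K c = em K (C (cc c)) := by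
      rw [IsScalarTower.algebraMap_apply ℂ P3 K]; rfl
    rw [h]
    refine ⟨Subalgebra.algebraMap_mem _ _, fun α hα => ?_⟩
    rw [hsub_em, sub_C]
    exact Subalgebra.algebraMap_mem _ _

end arrangement

end Pool.Agent.V5helper94.Kol
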