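import Pool.Agent.V5helper94.Kol.Defs

/-!
# Statement of the blow-up theorem

`chart R J F` is the affine chart `R[J/F]` of the blow-up of the fractional ideal `J`.
`BlowUpHyp R J F r` are the hypotheses of `blowUp_resolution` (file `Blow.lean`).
-/

namespace Pool.Agent.V5helper94.Kol

open AlgebraicGeometry

variable {K : Type} [Field K] [Algebra ℂ K]

/-- The chart `{f : f * F ^ n ∈ J ^ n for some n}` of the blow-up of `J`, for `F ∈ J`. -/
def chart (R : Subalgebra ℂ K) (J : Submodule R K) (F : K) (hF : F ∈ J) : Subalgebra ℂ K where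
  carrier := {f | ∃ n : ℕ, f * F ^ n ∈ J ^ n}
  mul_mem' := by
    rintro a b ⟨m, hm⟩ ⟨n, hn⟩
    refine ⟨m + n, ?_⟩
    have h := Submodule.mul_mem_mul hm hn
    rw [← pow_add] at h
    rwa [show a * b * F ^ (m + n) = a * F ^ m * (b * F ^ n) by ring]
  add_mem' := by
    rintro a b ⟨m, hm⟩ ⟨n, hn⟩
    refine ⟨m + n, ?_⟩
    have h1 := Submodule.mul_mem_mul hm (Submodule.pow_mem_pow J hF n)
    have h2 := Submodule.mul_mem_mul hn (Submodule.pow_mem_pow J hF m)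
    rw [← pow_add] at h1 h2
    rw [add_comm n m] at h2
    rw [show (a + b) * F ^ (m + n) = a * F ^ m * F ^ n + b * F ^ n * F ^ m by ring]
    exact add_mem h1 h2
  algebraMap_mem' := by
    intro c
    refine ⟨0, ?_⟩
    rw [pow_zero, pow_zero, mul_one, Submodule.mem_one]
    exact ⟨algebraMap ℂ R c, rfl⟩

theorem mem_chart {R : Subalgebra ℂ K} {J : Submodule R K} {F : K} {hF : F ∈ J} {f : K} :
    f ∈ chart R J F hF ↔ ∃ n : ℕ, f * F ^ n ∈ J ^ n := Iff.rfl

/-- The hypotheses of `blowUp_resolution`. -/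
structure BlowUpHyp (R : Subalgebra ℂ K) (J : Submodule R K) {ι : Type} (F : ι → K) (r : ι → ℕ) :
    Prop where
  /-- `J` is finitely generated over `R` -/
  fg : J.FG
  /-- `J ⊆ R` -/
  le : ∀ g ∈ J, g ∈ R
  /-- `r` orders the charts -/
  inj : Function.Injective r
  mem : ∀ i, F i ∈ J
  ne : ∀ i, F i ≠ 0
  /-- The charts cover the blow-up: `P n ⊆ J ^ n` is the degree `n` part of a homogeneous prime
  ideal of the Rees algebra `⊕ J ^ n`. -/
  cover : ∀ P : ℕ → Submodule R K, (∀ n, P n ≤ J ^ n) →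
    (∀ m n : ℕ, ∀ a ∈ J ^ m, ∀ b ∈ P n, a * b ∈ P (m + n)) →
    (∀ m n : ℕ, ∀ a ∈ J ^ m, ∀ b ∈ J ^ n, a * b ∈ P (m + n) → a ∈ P m ∨ b ∈ P n) →
    ¬ J ≤ P 1 → ∃ i, F i ∉ P 1
  smooth : ∀ i, Algebra.Smooth ℂ (chart R J (F i) (mem i))
  /-- Splittings of the rings `chart2 prev m` of the overlaps `U prev ∩ U m` -/
  split : ∀ m, (∃ b, r b < r m) → ∃ prev, r prev < r m ∧
    ∀ f : K, (∃ n : ℕ, f * (F prev * F m) ^ n ∈ J ^ (2 * n)) →
      ∃ f1 ∈ chart R J (F m) (mem m), ∃ f2 : K,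
        (∀ b, r b < r m → f2 ∈ chart R J (F b) (mem b)) ∧ f = f1 + f2

/-- The statement of `blowUp_resolution`. -/
def BlowUpResolution : Prop :=
  ∀ (K : Type) [Field K] [Algebra ℂ K] (R : Subalgebra ℂ K) [Algebra.FiniteType ℂ R]
    (J : Submodule R K) {ι : Type} [Finite ι] [Nonempty ι] (F : ι → K) (r : ι → ℕ),
    BlowUpHyp R J F r →
    ∃ (Z : Scheme.{0}) (π : Z ⟶ Spec (.of R)),
      IsResolution (Spec.map (CommRingCat.ofHom (algebraMap ℂ R))) π ∧ CechH1Vanishes Z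

end Pool.Agent.V5helper94.Kol
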