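import Pool.Agent.V5helper94.Kol.Rees8
import Pool.Agent.V5helper94.Kol.BlowDefs

/-!
# Blow-ups as resolutions of singularities with vanishing first Cech cohomology
-/

namespace Pool.Agent.V5helper94.Kol

open AlgebraicGeometry Polynomial HomogeneousLocalization CategoryTheory TopologicalSpace

section

variable {R K : Type} [CommRing R] [Field K] [Algebra R K] {J : Submodule R K}

theorem cech_proj {ι : Type} [Finite ι] [Nonempty ι] (F : ι → K) (r : ι → ℕ)
    (hr : Function.Injective r) (hF : ∀ i, F i ∈ J ^ 1) (hF0 : ∀ i, F i ≠ 0)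
    (hcov : ⨆ i, Proj.basicOpen (reesPart J) (mono J 1 (F i) (hF i)) = ⊤)
    (S : ι → AddSubgroup K) (hS : ∀ i y, y ∈ S i ↔ ∃ n : ℕ, y * F i ^ n ∈ J ^ n)
    (split : ∀ m, (∃ b, r b < r m) → ∃ prev, r prev < r m ∧
      ∀ f : K, (∃ n : ℕ, f * (F prev * F m) ^ n ∈ J ^ (2 * n)) →
        ∃ f1 ∈ S m, ∃ f2 : K, (∀ b, r b < r m → f2 ∈ S b) ∧ f = f1 + f2) :
    CechH1Vanishes (Proj (reesPart J)) := by
  classical
  cases nonempty_fintype ι
  set m : ι → rees J := fun i => mono J 1 (F i) (hF i) with hm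
  have hmd : ∀ i, m i ∈ reesPart J 1 := fun i => mono_mem _
  have hmK : ∀ i, evalK J (m i) = F i := fun i => evalK_mono _
  set P : rees J := ∏ i, m i with hP
  have hPK : evalK J P ≠ 0 := by
    rw [hP, map_prod]
    exact Finset.prod_ne_zero_iff.mpr fun i _ => by rw [hmK]; exact hF0 i
  have hg : ∀ i, ∃ (g : rees J) (e : ℕ), g ∈ reesPart J e ∧ P = m i * g := by
    intro i
    refine ⟨∏ x ∈ Finset.univ.erase i, m x, ∑ x ∈ Finset.univ.erase i, 1, ?_, ?_⟩
    · exact SetLike.prod_mem_graded _ _ _ fun k _ => hmd k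
    · exact (Finset.mul_prod_erase _ m (Finset.mem_univ i)).symm
  choose g e hge hPg using hg
  obtain ⟨i0⟩ := (inferInstance : Nonempty ι)
  have hPd : P ∈ reesPart J (1 + e i0) := by
    rw [hPg i0]; exact SetLike.mul_mem_graded (hmd i0) (hge i0)
  set w : rees J := P * P with hw
  have hwd : w ∈ reesPart J ((1 + e i0) + (1 + e i0)) := SetLike.mul_mem_graded hPd hPd
  have hd : 0 < (1 + e i0) + (1 + e i0) := by omega
  have hwK : evalK J w ≠ 0 := by rw [hw, map_mul]; exact mul_ne_zero hPK hPK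
  set Z := Proj (reesPart J) with hZ
  set U : ι → Z.Opens := fun i => Proj.basicOpen (reesPart J) (m i) with hU
  have hWP : Proj.basicOpen (reesPart J) w ≤ Proj.basicOpen (reesPart J) P :=
    Proj.basicOpen_mono _ _ _ ⟨P, rfl⟩
  have hW : ∀ i, Proj.basicOpen (reesPart J) w ≤ U i := fun i =>
    hWP.trans (Proj.basicOpen_mono _ _ _ ⟨g i, hPg i⟩)
  have hW2 : ∀ i j, Proj.basicOpen (reesPart J) w ≤ U i ⊓ U j := fun i j => le_inf (hW i) (hW j)
  have hW3 : ∀ i j k, Proj.basicOpen (reesPart J) w ≤ U i ⊓ U j ⊓ U k :=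
    fun i j k => le_inf (hW2 i j) (hW k)
  have hUU : ∀ i j, U i ⊓ U j = Proj.basicOpen (reesPart J) (m i * m j) :=
    fun i j => (Proj.basicOpen_mul _ _ _).symm
  have hr1 : ∀ i y, (∃ s, rho w hwK hwd hd (U i) (hW i) s = y) ↔ y ∈ S i := by
    intro i y
    rw [range_rho hwK hwd hd (hW i) (hmd i) Nat.one_pos
      (SetLike.mul_mem_graded (hge i) hPd) (by rw [hw, ← mul_assoc, ← hPg i]) rfl y, hS, hmK]
    simp only [mul_one]
  have hr2 : ∀ i j y, (∃ s, rho w hwK hwd hd (U i ⊓ U j) (hW2 i j) s = y) ↔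
      ∃ n : ℕ, y * (F i * F j) ^ n ∈ J ^ (2 * n) := by
    intro i j y
    rw [range_rho hwK hwd hd (hW2 i j) (SetLike.mul_mem_graded (hmd i) (hmd j)) (by omega)
      (SetLike.mul_mem_graded (hge i) (hge j))
      (by rw [hw]; nth_rw 1 [hPg i]; rw [hPg j]; ring) (hUU i j) y, map_mul, hmK, hmK]
    simp only [one_add_one_eq_two]
    exact exists_congr fun n => by rw [mul_comm n 2]
  have hinj : ∀ (V : Z.Opens) (hV : Proj.basicOpen (reesPart J) w ≤ V),
      Function.Injective (rho w hwK hwd hd V hV) :=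
    fun V hV => rho_injective hwK hwd hd hV (hF i0) (hF0 i0)
  refine ⟨ι, inferInstance, U, fun i => Proj.isAffineOpen_basicOpen _ _ (hmd i) Nat.one_pos,
    hcov, ?_⟩
  intro G hG
  have key := cech_abstract r hr S
    (fun i j => {y | ∃ n : ℕ, y * (F i * F j) ^ n ∈ J ^ (2 * n)}) ?_ split
    (fun i j => rho w hwK hwd hd (U i ⊓ U j) (hW2 i j) (G i j)) ?_ ?_
  · obtain ⟨h, h1, h2⟩ := key
    choose t ht using fun i => (hr1 i (h i)).mpr (h1 i)
    refine ⟨t, fun i j => hinj _ (hW2 i j) ?_⟩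
    rw [map_sub, rho_res hwK hwd hd (hW2 i j), rho_res hwK hwd hd (hW2 i j), ht, ht]
    exact h2 i j
  · rintro i j x y hx ⟨k, hk⟩
    obtain ⟨n, hn⟩ := (hS i x).mp hx
    refine ⟨n + k, ?_⟩
    have hij : F i * F j ∈ J ^ 2 := by
      rw [pow_two, ← pow_one J]
      exact Submodule.mul_mem_mul (hF i) (hF j)
    have hj : F j ∈ J := by simpa using hF j
    have a1 : x * F i ^ n * F j ^ n * (F i * F j) ^ k ∈ J ^ (2 * (n + k)) := by
      have := Submodule.mul_mem_mul (Submodule.mul_mem_mul hn (Submodule.pow_mem_pow J hj n))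
        (Submodule.pow_mem_pow _ hij k)
      rw [← pow_add, ← pow_mul, ← pow_add] at this
      rwa [show 2 * (n + k) = n + n + 2 * k by ring]
    have a2 : y * (F i * F j) ^ k * (F i * F j) ^ n ∈ J ^ (2 * (n + k)) := by
      have := Submodule.mul_mem_mul hk (Submodule.pow_mem_pow _ hij n)
      rw [← pow_mul, ← pow_add] at this
      rwa [show 2 * (n + k) = 2 * k + 2 * n by ring]
    rw [show (x + y) * (F i * F j) ^ (n + k) = x * F i ^ n * F j ^ n * (F i * F j) ^ k +
      y * (F i * F j) ^ k * (F i * F j) ^ n by ring]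
    exact add_mem a1 a2
  · intro i j
    exact (hr2 i j _).mp ⟨_, rfl⟩
  · intro i j k
    have h3 := congrArg (rho w hwK hwd hd (U i ⊓ U j ⊓ U k) (hW3 i j k)) (hG i j k)
    rw [map_add, rho_res hwK hwd hd (hW3 i j k), rho_res hwK hwd hd (hW3 i j k),
      rho_res hwK hwd hd (hW3 i j k)] at h3
    exact h3

end

/-- **Blow-ups as resolutions with vanishing first cohomology.** -/
theorem blowUp_resolution : BlowUpResolution := by
  intro K _ _ R _ J ι _ _ F r H
  have hF : ∀ i, F i ∈ J ^ 1 := fun i => by rw [pow_one]; exact H.mem i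
  have hinj : Function.Injective (algebraMap R K) := Subtype.val_injective
  have hle : ∀ g ∈ J, g ∈ (algebraMap R K).range := fun g hg => ⟨⟨g, H.le g hg⟩, rfl⟩
  have hcov := iSup_eq_top F hF H.cover
  obtain ⟨i0⟩ := (inferInstance : Nonempty ι)
  refine ⟨Proj (reesPart J), projTo J, ⟨isIntegral_proj (hF i0) (H.ne i0), ?_,
    isProper_projTo H.fg hinj, birational_projTo hle hinj _ (H.mem i0) (H.ne i0)⟩, ?_⟩
  · exact smooth_projTo F hF H.ne hcov (fun i => chart R J (F i) (H.mem i)) (fun i y => Iff.rfl)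
      H.smooth
  · exact cech_proj F r H.inj hF H.ne hcov
      (fun i => (chart R J (F i) (H.mem i)).toSubring.toAddSubgroup) (fun i y => Iff.rfl) H.split

end Pool.Agent.V5helper94.Kol
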