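import Pool.Agent.V5helper94.Kol.Deriv

/-!
# Calculations with three-forms
-/

set_option linter.unusedSectionVars false
set_option linter.unusedVariables false

namespace Pool.Agent.V5helper94.Kol

section forms

variable {K : Type} [Field K] [Algebra ℂ K]

/-- `u ∧ v ∧ w` -/
noncomputable def W3 (u v w : Ω[K⁄ℂ]) : ⋀[K]^3 (Ω[K⁄ℂ]) := exteriorPower.ιMulti K 3 ![u, v, w]

theorem W3_add_right (u v w w' : Ω[K⁄ℂ]) : W3 u v (w + w') = W3 u v w + W3 u v w' := by
  have h := (exteriorPower.ιMulti K 3 (M := Ω[K⁄ℂ])).map_update_add ![u, v, w] 2 w w'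
  have h1 : ∀ x, Function.update ![u, v, w] 2 x = ![u, v, x] := by
    intro x; ext i; fin_cases i <;> simp
  rw [h1, h1, h1] at h
  exact h

theorem W3_smul_right (c : K) (u v w : Ω[K⁄ℂ]) : W3 u v (c • w) = c • W3 u v w := by
  have h := (exteriorPower.ιMulti K 3 (M := Ω[K⁄ℂ])).map_update_smul ![u, v, w] 2 c w
  have h1 : ∀ x, Function.update ![u, v, w] 2 x = ![u, v, x] := by
    intro x; ext i; fin_cases i <;> simp
  rw [h1, h1] at h
  exact h

theorem W3_add_mid (u v v' w : Ω[K⁄ℂ]) : W3 u (v + v') w = W3 u v w + W3 u v' w := by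
  have h := (exteriorPower.ιMulti K 3 (M := Ω[K⁄ℂ])).map_update_add ![u, v, w] 1 v v'
  have h1 : ∀ x, Function.update ![u, v, w] 1 x = ![u, x, w] := by
    intro x; ext i; fin_cases i <;> simp
  rw [h1, h1, h1] at h
  exact h

theorem W3_smul_mid (c : K) (u v w : Ω[K⁄ℂ]) : W3 u (c • v) w = c • W3 u v w := by
  have h := (exteriorPower.ιMulti K 3 (M := Ω[K⁄ℂ])).map_update_smul ![u, v, w] 1 c v
  have h1 : ∀ x, Function.update ![u, v, w] 1 x = ![u, x, w] := by
    intro x; ext i; fin_cases i <;> simp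
  rw [h1, h1] at h
  exact h

theorem W3_self_right (u v : Ω[K⁄ℂ]) : W3 u v v = 0 :=
  (exteriorPower.ιMulti K 3 (M := Ω[K⁄ℂ])).map_eq_zero_of_eq ![u, v, v] (i := 1) (j := 2) (by simp)
    (by decide)

theorem W3_self_left (u v : Ω[K⁄ℂ]) : W3 u u v = 0 :=
  (exteriorPower.ιMulti K 3 (M := Ω[K⁄ℂ])).map_eq_zero_of_eq ![u, u, v] (i := 0) (j := 1) (by simp)
    (by decide)

theorem W3_self_mid (u v : Ω[K⁄ℂ]) : W3 u v u = 0 :=
  (exteriorPower.ιMulti K 3 (M := Ω[K⁄ℂ])).map_eq_zero_of_eq ![u, v, u] (i := 0) (j := 2) (by simp)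
    (by decide)

theorem W3_swap (u v w : Ω[K⁄ℂ]) : W3 u w v = - W3 u v w := by
  have h := W3_self_right u (v + w)
  rw [W3_add_right, W3_add_mid, W3_add_mid, W3_self_right, W3_self_right, zero_add, add_zero] at h
  exact eq_neg_of_add_eq_zero_left h

theorem wd_eq (a b c : K) : wd a b c = W3 (KaehlerDifferential.D ℂ K a) (KaehlerDifferential.D ℂ K b)
    (KaehlerDifferential.D ℂ K c) := rfl

/-- two linear forms -/
theorem wd_linear (z x Y : K) (a b a' b' : ℂ) :
    wd z (Y + algebraMap ℂ K a * x - algebraMap ℂ K b * z)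
      (Y + algebraMap ℂ K a' * x - algebraMap ℂ K b' * z) = algebraMap ℂ K (a - a') • wd z x Y := by
  have h : ∀ (c : ℂ) (g : K), KaehlerDifferential.D ℂ K (algebraMap ℂ K c * g) =
      algebraMap ℂ K c • KaehlerDifferential.D ℂ K g := by
    intro c g
    rw [Derivation.leibniz, Derivation.map_algebraMap, smul_zero, add_zero]
  have h2 : ∀ (a b : ℂ), KaehlerDifferential.D ℂ K (Y + algebraMap ℂ K a * x - algebraMap ℂ K b * z) =
      KaehlerDifferential.D ℂ K Y + algebraMap ℂ K a • KaehlerDifferential.D ℂ K x +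
        (- algebraMap ℂ K b) • KaehlerDifferential.D ℂ K z := by
    intro a b
    rw [map_sub, map_add, h, h, neg_smul, sub_eq_add_neg]
  simp only [wd_eq, h2, W3_add_mid, W3_add_right, W3_smul_mid,
    W3_smul_right, W3_self_right, W3_self_left, W3_self_mid, smul_zero, add_zero, zero_add]
  rw [W3_swap _ (KaehlerDifferential.D ℂ K x) (KaehlerDifferential.D ℂ K Y), map_sub]
  module

/-- the basic element of the module of coefficients at an exceptional divisor -/
theorem coeff_key {A : Type} [CommRing A] [Algebra A K] (ω₀ : ⋀[K]^3 (Ω[K⁄ℂ])) (z l f v g : A) (m : K) (κ : K)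
    (hl : algebraMap A K l ≠ 0) (hg : algebraMap A K g * algebraMap A K l = algebraMap A K f * m)
    (hw : wd (algebraMap A K z) (algebraMap A K l) m = κ • ω₀) :
    algebraMap A K f ^ 2 * κ * (algebraMap A K l)⁻¹ ∈ formCoeffs A ω₀ := by
  change (algebraMap A K f ^ 2 * κ * (algebraMap A K l)⁻¹) • ω₀ ∈ regularForms A K
  set Z := algebraMap A K z
  set L := algebraMap A K l
  set F := algebraMap A K f
  set G := algebraMap A K g
  have hm : m = L * (m * L⁻¹) := by field_simp
  set V := m * L⁻¹ with hV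
  have hG : G = F * V := by
    rw [hV]; field_simp; exact hg
  have h1 : wd Z L m = L • wd Z L V := by
    rw [hm, wd_eq, Derivation.leibniz, W3_add_right, W3_smul_right, W3_smul_right, W3_self_right,
      smul_zero, add_zero, wd_eq]
  have h2 : wd Z L G = F • wd Z L V + V • wd Z L F := by
    rw [hG, wd_eq, Derivation.leibniz, W3_add_right, W3_smul_right, W3_smul_right, wd_eq, wd_eq]
  have h3 : (F ^ 2 * κ * L⁻¹) • ω₀ = F • wd Z L G - G • wd Z L F := by
    have h4 : κ • ω₀ = L • wd Z L V := by rw [← hw, h1]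
    have h5 : (F ^ 2 * κ * L⁻¹) • ω₀ = (F ^ 2 * L⁻¹) • (κ • ω₀) := by
      rw [smul_smul]; congr 1; ring
    rw [h5, h4, h2, smul_smul, smul_add, smul_smul, smul_smul, hG]
    have h6 : F ^ 2 * L⁻¹ * L = F * F := by field_simp
    rw [h6]
    module
  rw [h3]
  refine AddSubgroup.sub_mem _ ?_ ?_
  · exact AddSubgroup.subset_closure ⟨f, z, l, g, rfl⟩
  · exact AddSubgroup.subset_closure ⟨g, z, l, f, rfl⟩

end forms

end Pool.Agent.V5helper94.Kol
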