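import Pool.Agent.V5helper94.Kol.Smooth3
import Pool.Agent.V5helper94.Kol.Wedge

/-!
# Centres of discrete valuation rings are primes of height one
-/

set_option linter.unusedSectionVars false
set_option linter.unusedVariables false

namespace Pool.Agent.V5helper94.Kol

open Polynomial nonZeroDivisors

section center

variable {A K : Type} [CommRing A] [IsDomain A] [Field K] [Algebra A K]

/-- The data of a discrete valuation ring `V` of `K` which is a localisation of `A`. -/
structure IsCentered (A : Type) [CommRing A] [IsDomain A] [Algebra A K] (V : Subring K) (b : A) : Prop where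
  inj : Function.Injective (algebraMap A K)
  le : ∀ a : A, algebraMap A K a ∈ V
  ne : b ≠ 0
  inv : ∀ g ∈ V, g * (algebraMap A K b)⁻¹ ∉ V → g⁻¹ ∈ V
  prime : ∀ g ∈ V, ∀ g' ∈ V, g * g' * (algebraMap A K b)⁻¹ ∈ V →
    g * (algebraMap A K b)⁻¹ ∈ V ∨ g' * (algebraMap A K b)⁻¹ ∈ V
  unit : (algebraMap A K b)⁻¹ ∉ V
  disc : ∀ g : K, g ≠ 0 → ∃ m : ℕ, g * (algebraMap A K b ^ m)⁻¹ ∉ V
  gen : ∀ g ∈ V, ∃ x y : A, algebraMap A K y * (algebraMap A K b)⁻¹ ∉ V ∧
    g * algebraMap A K y = algebraMap A K x

variable {V : Subring K} {b : A}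

/-- the centre of `V` on `A` -/
def centre (h : IsCentered (K := K) A V b) : Ideal A where
  carrier := {a | algebraMap A K a * (algebraMap A K b)⁻¹ ∈ V}
  add_mem' := by
    intro x y hx hy
    change algebraMap A K (x + y) * _ ∈ V
    rw [map_add, add_mul]
    exact V.add_mem hx hy
  zero_mem' := by
    change algebraMap A K 0 * _ ∈ V
    rw [map_zero, zero_mul]
    exact V.zero_mem
  smul_mem' := by
    intro c x hx
    change algebraMap A K (c * x) * _ ∈ V
    rw [map_mul, mul_assoc]
    exact V.mul_mem (h.le c) hx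

theorem mem_centre (h : IsCentered (K := K) A V b) {a : A} :
    a ∈ centre h ↔ algebraMap A K a * (algebraMap A K b)⁻¹ ∈ V := Iff.rfl

theorem centre_isPrime (h : IsCentered (K := K) A V b) : (centre h).IsPrime := by
  constructor
  · rw [Ideal.ne_top_iff_one]
    intro h1
    rw [mem_centre, map_one, one_mul] at h1
    exact h.unit h1
  · intro x y hxy
    rw [mem_centre, map_mul] at hxy
    exact h.prime _ (h.le x) _ (h.le y) hxy

theorem centre_eq (h : IsCentered (K := K) A V b) (q : Ideal A) (hq : q.IsPrime) (hle : q ≤ centre h)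
    (hne : q ≠ ⊥) : q = centre h := by
  apply le_antisymm hle
  have hb0 : algebraMap A K b ≠ 0 := fun h0 => h.ne (h.inj (by rw [h0, map_zero]))
  obtain ⟨a, ha, ha0⟩ := Submodule.exists_mem_ne_zero_of_ne_bot hne
  have haK : algebraMap A K a ≠ 0 := fun h0 => ha0 (h.inj (by rw [h0, map_zero]))
  -- the order of `a`
  classical
  have hex := h.disc _ haK
  set m := Nat.find hex with hm
  have hm1 : algebraMap A K a * (algebraMap A K b ^ m)⁻¹ ∉ V := Nat.find_spec hex
  have hm0 : m ≠ 0 := by
    intro h0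
    rw [h0, pow_zero, inv_one, mul_one] at hm1
    exact hm1 (h.le a)
  obtain ⟨k, hk⟩ := Nat.exists_eq_succ_of_ne_zero hm0
  have hk1 : algebraMap A K a * (algebraMap A K b ^ k)⁻¹ ∈ V := by
    by_contra hcon
    have := Nat.find_min' hex hcon
    omega
  have hk2 : algebraMap A K a * (algebraMap A K b ^ k)⁻¹ * (algebraMap A K b)⁻¹ ∉ V := by
    rw [hk, Nat.succ_eq_add_one, pow_succ, mul_inv, ← mul_assoc] at hm1
    exact hm1
  obtain ⟨x, y, hy, hxy⟩ := h.gen _ hk1
  have hyq : y ∉ q := fun h1 => hy (hle h1)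
  have hx : x ∉ centre h := by
    intro hx
    rw [mem_centre, ← hxy] at hx
    have h1 : algebraMap A K a * (algebraMap A K b ^ k)⁻¹ * algebraMap A K y * (algebraMap A K b)⁻¹ ∈ V :=
      hx
    rcases h.prime _ hk1 _ (h.le y) h1 with h2 | h2
    · exact hk2 h2
    · exact hy h2
  have hxq : x ∉ q := fun h1 => hx (hle h1)
  have e1 : y * a = b ^ k * x := by
    apply h.inj
    rw [map_mul, map_mul, map_pow, ← hxy]
    field_simp
  have hbq : b ∈ q := by
    have h1 : b ^ k * x ∈ q := by rw [← e1]; exact q.mul_mem_left _ ha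
    rcases hq.mem_or_mem h1 with h2 | h2
    · exact hq.mem_of_pow_mem _ h2
    · exact absurd h2 hxq
  intro g hg
  obtain ⟨x', y', hy', hxy'⟩ := h.gen _ ((mem_centre h).mp hg)
  have e2 : y' * g = b * x' := by
    apply h.inj
    rw [map_mul, map_mul, ← hxy']
    field_simp
  have h1 : y' * g ∈ q := by rw [e2]; exact q.mul_mem_right _ hbq
  rcases hq.mem_or_mem h1 with h2 | h2
  · exact absurd (hle h2) hy'
  · exact h2

theorem b_mem_centre (h : IsCentered (K := K) A V b) : b ∈ centre h := by
  have hb0 : algebraMap A K b ≠ 0 := fun h0 => h.ne (h.inj (by rw [h0, map_zero]))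
  rw [mem_centre, mul_inv_cancel₀ hb0]
  exact V.one_mem

theorem centre_height (h : IsCentered (K := K) A V b) : (centre h).height = 1 := by
  have hp := centre_isPrime h
  apply le_antisymm
  · have : (centre h).height ≤ ((1 : ℕ) : ℕ∞) := by
      rw [Ideal.height_le_iff]
      intro q hq hlt
      have : q = ⊥ := by
        by_contra hne
        exact hlt.ne (centre_eq h q hq hlt.le hne)
      rw [this, Ideal.height_bot]
      norm_num
    exact_mod_cast this
  · rw [Order.one_le_iff_ne_zero]
    rw [Ne, Ideal.height_eq_zero_iff_eq_bot]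
    intro h0
    have := b_mem_centre h
    rw [h0] at this
    exact h.ne ((Submodule.mem_bot _).mp this)

/-- The upper bound for pluricanonical forms along a divisor. -/
theorem pluri_upper [Algebra ℂ K] (h : IsCentered (K := K) A V b) (D : Fin 3 → Derivation ℂ K K)
    (hD : ∀ i, ∀ g ∈ V, D i g ∈ V) (ω₀ : ⋀[K]^3 (Ω[K⁄ℂ])) (n : ℕ) {f : K}
    (hf : f ∈ pluriForms A ω₀ n) : f * (evalForm D ω₀) ^ n ∈ V := by
  obtain ⟨s, hs, hsf⟩ := hf (centre h) (centre_isPrime h) (centre_height h)
  have h1 := formCoeffs_pow_eval V h.le D hD ω₀ n _ hsf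
  rw [mem_centre] at hs
  have h2 := h.inv _ (h.le s) hs
  have hs0 : algebraMap A K s ≠ 0 := by
    intro h0
    rw [h0, zero_mul] at hs
    exact hs V.zero_mem
  have h3 := V.mul_mem h2 h1
  have : (algebraMap A K s)⁻¹ * (algebraMap A K s * f * evalForm D ω₀ ^ n) =
      f * evalForm D ω₀ ^ n := by field_simp
  rwa [this] at h3

end center

end Pool.Agent.V5helper94.Kol
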