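import Pool.Agent.V5helper94.Kol.Norm

/-!
# Charts of the ring of the arrangement
-/

set_option linter.unusedSectionVars false
set_option linter.unusedVariables false

namespace Pool.Agent.V5helper94.Kol

open Polynomial nonZeroDivisors

variable {ι : Type} [Fintype ι] [DecidableEq ι] (p q : ι → ℂ)
variable {K : Type} [Field K] [Algebra P3 K] [IsFractionRing P3 K] [Algebra ℂ K] [IsScalarTower ℂ P3 K]

open Classical in
/-- product of the planes not containing the line `α` -/
noncomputable def offP (α : ℂ × ℂ) : P3 := ∏ l ∈ Finset.univ.filter (fun l => ¬ onL p q α l), lf p q l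

theorem offP_ne_zero (α : ℂ × ℂ) : offP p q α ≠ 0 :=
  Finset.prod_ne_zero_iff.mpr fun i _ => lf_ne_zero p q i

theorem lf_dvd_offP {α : ℂ × ℂ} {l : ι} (h : ¬ onL p q α l) : lf p q l ∣ offP p q α := by
  classical
  exact Finset.dvd_prod_of_mem _ (by simp [h])

/-- three planes not in a pencil -/
theorem zz_of_three (hp : Function.Injective p) {i j l : ι} (hij : i ≠ j)
    (hl : ¬ onL p q (ipt p q i j) l) (M : Ideal P3) (h1 : lf p q i ∈ M) (h2 : lf p q j ∈ M)
    (h3 : lf p q l ∈ M) : C zz ∈ M := by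
  have hji : p j - p i ≠ 0 := sub_ne_zero.mpr fun h => hij (hp h).symm
  set c : ℂ := -(p j - p i) * q l + (p l - p i) * q j + (p j - p l) * q i with hc
  have hc0 : c ≠ 0 := by
    intro h0
    apply hl
    simp only [onL, ipt]
    have : (p j - p i) * q l = (p l - p i) * q j + (p j - p l) * q i := by linear_combination -h0
    field_simp
    linear_combination -this
  have key : C (cc (p j - p i)) * lf p q l - C (cc (p l - p i)) * lf p q j
      - C (cc (p j - p l)) * lf p q i = C (cc c) * C zz := by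
    simp only [lf, pl, aa, hc, cc_add, cc_sub, cc_mul, cc_neg, C_add, C_sub, C_mul, C_neg]
    ring
  have h4 : C (cc c) * C zz ∈ M := by
    rw [← key]
    exact M.sub_mem (M.sub_mem (M.mul_mem_left _ h3) (M.mul_mem_left _ h2)) (M.mul_mem_left _ h1)
  have h5 : C (cc c⁻¹) * (C (cc c) * C zz) = C zz := by
    rw [← mul_assoc, ← C_mul, ← cc_mul, inv_mul_cancel₀ hc0, cc_one, C_1, one_mul]
  rw [← h5]
  exact M.mul_mem_left _ h4

/-- the charts cover the part where `z` does not vanish -/
theorem chart_cover [Nontrivial ι] (hp : Function.Injective p) (M : Ideal P3) [hM : M.IsPrime]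
    (hz : C zz ∉ M) : PP p q ∉ M ∨ ∃ α ∈ pts p q, offP p q α ∉ M := by
  by_contra hcon
  push Not at hcon
  obtain ⟨h1, h2⟩ := hcon
  obtain ⟨i, _, hi⟩ := (hM.prod_mem_iff (s := Finset.univ)).mp h1
  obtain ⟨j, hj⟩ := exists_ne i
  obtain ⟨l, hl, hlM⟩ := (hM.prod_mem_iff).mp (h2 _ (ipt_mem_pts p q hj.symm))
  simp only [Finset.mem_filter, Finset.mem_univ, true_and] at hl
  have hil : i ≠ l := by
    rintro rfl
    exact hl (onL_ipt_left p q _ _)
  obtain ⟨k, hk, hkM⟩ := (hM.prod_mem_iff).mp (h2 _ (ipt_mem_pts p q hil))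
  simp only [Finset.mem_filter, Finset.mem_univ, true_and] at hk
  exact hz (zz_of_three p q hp hil hk M hi hlM hkM)

/-! ### the chart at a multiple line -/

/-- ring homomorphisms out of `P3` agreeing on the constants and variables are equal -/
theorem P3_hom_ext {T : Type} [CommRing T] {f g : P3 →+* T} (h1 : ∀ r : R1, f (C (C r)) = g (C (C r)))
    (h2 : f (C X) = g (C X)) (h3 : f X = g X) : f = g := by
  refine Polynomial.ringHom_ext (fun a => ?_) h3
  have : f.comp C = g.comp C := Polynomial.ringHom_ext (fun r => h1 r) h2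
  exact congrArg (fun φ : R2 →+* T => φ a) this

/-- `x ↦ δ z + x Y`, `Y ↦ ε z + x (1 - a Y)` -/
noncomputable def lam (α : ℂ × ℂ) (a : ℂ) : P3 →+* P3 :=
  eval₂RingHom (eval₂RingHom (C.comp C) (C (cc α.1 * zz) + C X * X))
    (C (ee α.2) + C X * (1 - C (cc a) * X))

theorem lam_CC (α : ℂ × ℂ) (a : ℂ) (r : R1) : lam α a (C (C r)) = C (C r) := by
  simp [lam]

theorem lam_CX (α : ℂ × ℂ) (a : ℂ) : lam α a (C X) = C (cc α.1 * zz) + C X * X := by
  simp [lam]

theorem lam_X (α : ℂ × ℂ) (a : ℂ) : lam α a X = C (ee α.2) + C X * (1 - C (cc a) * X) := by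
  simp [lam]

variable (K) in
/-- `x ↦ ℓ`, `Y ↦ b / ℓ` -/
noncomputable def tht (α : ℂ × ℂ) (i : ι) : P3 →+* K :=
  eval₂RingHom (eval₂RingHom ((em K).comp (C.comp C)) (em K (lf p q i)))
    (em K (C (bb α.1)) * (em K (lf p q i))⁻¹)

theorem tht_CC (α : ℂ × ℂ) (i : ι) (r : R1) : tht p q K α i (C (C r)) = em K (C (C r)) := by
  simp [tht]

theorem tht_CX (α : ℂ × ℂ) (i : ι) : tht p q K α i (C X) = em K (lf p q i) := by
  simp [tht]

theorem tht_X (α : ℂ × ℂ) (i : ι) :
    tht p q K α i X = em K (C (bb α.1)) * (em K (lf p q i))⁻¹ := by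
  simp [tht]

/-- the form of the plane in coordinates adapted to `α` -/
theorem lf_eq {α : ℂ × ℂ} {i : ι} (h : onL p q α i) :
    lf p q i = X - C (ee α.2) + C (cc (p i)) * C (bb α.1) := by
  simp only [onL] at h
  simp only [lf, pl, aa, ee, bb_eq, ← h, cc_add, cc_mul, C_add, C_sub, C_mul]
  ring

theorem cczz_eq (c : ℂ) : cc c * zz = C (kc c * vz) := by simp [cc, zz]

theorem tht_lam {α : ℂ × ℂ} {i : ι} (h : onL p q α i) : (tht p q K α i).comp (lam α (p i)) = em K := by
  have h0 : em K (lf p q i) ≠ 0 := em_ne_zero (lf_ne_zero p q i)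
  have hcz : ∀ c : ℂ, tht p q K α i (C (cc c * zz)) = em K (C (cc c * zz)) := fun c => by
    rw [cczz_eq, tht_CC]
  have hcc : ∀ c : ℂ, tht p q K α i (C (cc c)) = em K (C (cc c)) := fun c => tht_CC p q _ _ _
  refine P3_hom_ext (fun r => ?_) ?_ ?_
  · rw [RingHom.comp_apply, lam_CC, tht_CC]
  · rw [RingHom.comp_apply, lam_CX, map_add, map_mul _ (C X) X, hcz, tht_CX, tht_X]
    have : em K (C X) = em K (C (cc α.1 * zz)) + em K (C (bb α.1)) := by
      rw [← map_add, ← C_add, bb_eq]; congr 2; ring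
    rw [this]
    field_simp
  · rw [RingHom.comp_apply, lam_X, map_add, map_mul, map_sub, map_one, map_mul, ee, hcz, hcc, tht_CX, tht_X]
    have : em K X = em K (C (cc α.2 * zz)) + em K (lf p q i) - em K (C (cc (p i))) * em K (C (bb α.1)) := by
      rw [← map_mul, ← map_add, ← map_sub, lf_eq p q h, ee]; congr 1; ring
    rw [this]
    field_simp
    ring

theorem lam_injective {α : ℂ × ℂ} {i : ι} (h : onL p q α i) : Function.Injective (lam α (p i)) := by
  have h1 : Function.Injective ((tht p q (FractionRing P3) α i).comp (lam α (p i))) := by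
    rw [tht_lam p q h]; exact em_injective _
  exact Function.Injective.of_comp h1

theorem lam_lf {α : ℂ × ℂ} {i : ι} (h : onL p q α i) : lam α (p i) (lf p q i) = C X := by
  have h1 : lam α (p i) (C (bb α.1)) = C X * X := by
    rw [bb, C_sub, map_sub, lam_CX, lam_CC, cczz_eq]; ring
  have h2 : ∀ c : ℂ, lam α (p i) (C (cc c)) = C (cc c) := fun c => lam_CC _ _ _
  have h3 : lam α (p i) (C (ee α.2)) = C (ee α.2) := by rw [ee, cczz_eq, lam_CC]
  rw [lf_eq p q h, map_add, map_sub, map_mul, lam_X, h1, h2, h3]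
  ring

theorem lam_bb (α : ℂ × ℂ) (a : ℂ) : lam α a (C (bb α.1)) = C X * X := by
  rw [bb, C_sub, map_sub, lam_CX, lam_CC, cczz_eq]; ring

/-- the other planes through `α` -/
theorem lam_lf' {α : ℂ × ℂ} {i l : ι} (h : onL p q α i) (hl : onL p q α l) :
    lam α (p i) (lf p q l) = C X * (1 + C (cc (p l - p i)) * X) := by
  have h2 : ∀ c : ℂ, lam α (p i) (C (cc c)) = C (cc c) := fun c => lam_CC _ _ _
  have h3 : lf p q l = lf p q i + C (cc (p l - p i)) * C (bb α.1) := by
    rw [lf_eq p q h, lf_eq p q hl, cc_sub, C_sub]; ring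
  rw [h3, map_add, lam_lf p q h, map_mul, h2, lam_bb]
  ring

variable (K) in
/-- `x ↦ δ z + x Y`, `Y ↦ (1 - a Y) / Y` -/
noncomputable def nu0 (α : ℂ × ℂ) (a : ℂ) : P3 →+* K :=
  eval₂RingHom ((em K).comp (eval₂RingHom (C.comp C) (C (cc α.1 * zz) + C X * X)))
    (em K (1 - C (cc a) * X) * (em K X)⁻¹)

theorem nu0_sub (α : ℂ × ℂ) (a : ℂ) (F : P3) : nu0 K α a (sub α F) = em K (lam α a F) := by
  have hX : em K X ≠ 0 := em_ne_zero X_ne_zero
  have h1 : (nu0 K α a).comp (sub α).toRingHom = (em K).comp (lam α a) := by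
    refine P3_hom_ext (fun r => ?_) ?_ ?_
    · simp [nu0, lam]
    · simp [nu0, lam]
    · rw [RingHom.comp_apply, RingHom.comp_apply, lam_X]
      change nu0 K α a (sub α X) = _
      rw [sub_X, map_add, map_mul]
      have e1 : nu0 K α a (C (ee α.2)) = em K (C (ee α.2)) := by
        rw [ee, cczz_eq]; simp [nu0]
      have e2 : nu0 K α a (C (bb α.1)) = em K (C X * X) := by
        have : nu0 K α a (C (bb α.1)) = em K (lam α a (C (bb α.1))) := by simp [nu0, lam]
        rw [this, lam_bb]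
      have e3 : nu0 K α a X = em K (1 - C (cc a) * X) * (em K X)⁻¹ := by simp [nu0]
      rw [e1, e2, e3, map_add, map_mul, map_mul]
      field_simp
  exact congrArg (fun φ : P3 →+* K => φ F) h1

theorem nu0_away (α : ℂ × ℂ) (a : ℂ) (F : P3) : ∃ (H : P3) (n : ℕ), nu0 K α a F * em K X ^ n = em K H := by
  have h1 : ∀ F : P3, nu0 K α a F ∈ awayAt K (X : P3) X_ne_zero := by
    intro F
    induction F using Polynomial.induction_on with
    | C r =>
      have : nu0 K α a (C r) = em K ((eval₂RingHom (C.comp C) (C (cc α.1 * zz) + C X * X)) r) := by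
        simp [nu0]
      rw [this]
      exact Subalgebra.algebraMap_mem _ _
    | add F G hF hG => rw [map_add]; exact add_mem hF hG
    | monomial n r h =>
      rw [pow_succ, ← mul_assoc, map_mul]
      refine mul_mem h ?_
      have e3 : nu0 K α a X = em K (1 - C (cc a) * X) * (em K X)⁻¹ := by simp [nu0]
      have hX : em K X ≠ 0 := em_ne_zero X_ne_zero
      rw [e3, mem_awayAt]
      refine ⟨1 - C (cc a) * X, 1, ?_⟩
      change _ * em K X ^ 1 = _
      field_simp
  obtain ⟨H, n, e⟩ := mem_awayAt.mp (h1 F)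
  exact ⟨H, n, e⟩

theorem CX_prime : Prime (C X : P3) := prime_C_iff.mpr prime_X

theorem not_CX_dvd_X : ¬ (C X : P3) ∣ X := by
  intro h
  have h1 := (Polynomial.C_dvd_iff_dvd_coeff _ _).mp h 1
  simp at h1
  exact prime_X.not_isUnit (isUnit_of_dvd_one h1)

/-- order along `α` can be computed in the chart -/
theorem pow_dvd_lam (α : ℂ × ℂ) (a : ℂ) (F : P3) (k : ℕ) (h : C (bb α.1) ^ k ∣ sub α F) :
    (C X : P3) ^ k ∣ lam α a F := by
  obtain ⟨H, hH⟩ := h
  obtain ⟨H', n, hn⟩ := nu0_away (K := FractionRing P3) α a H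
  have h1 := nu0_sub (K := FractionRing P3) α a F
  have e2 : nu0 (FractionRing P3) α a (C (bb α.1)) = em _ (C X * X) := by
    have : nu0 (FractionRing P3) α a (C (bb α.1)) = em _ (lam α a (C (bb α.1))) := by simp [nu0, lam]
    rw [this, lam_bb]
  rw [hH, map_mul, map_pow, e2] at h1
  have h2 : lam α a F * X ^ n = (C X * X) ^ k * H' := by
    apply em_injective (FractionRing P3)
    rw [map_mul, ← h1, map_mul (em _) ((C X * X) ^ k), map_pow (em _) (C X * X), ← hn, map_pow]
    ring
  have h3 : (C X : P3) ^ k ∣ lam α a F * X ^ n := by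
    rw [h2, mul_pow, mul_assoc]
    exact dvd_mul_right _ _
  exact CX_prime.pow_dvd_of_dvd_mul_right k (fun h => not_CX_dvd_X (CX_prime.dvd_of_dvd_pow h)) h3

end Pool.Agent.V5helper94.Kol
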