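import Pool.Agent.V5helper94.Kol.SurfDefs

/-!
# Plane curves with prescribed multiplicities at points of a cuspidal cubic

`f ∈ ℂ[x][y]` of total degree at most `d`, having multiplicity at least `m s` at the points
`(s, s³)` of the cubic `y = x³`.
-/

set_option linter.unusedSectionVars false
set_option linter.unusedVariables false
set_option linter.unusedSimpArgs false

namespace Pool.Agent.V5helper94.Kol

open Polynomial

variable {𝔽 : Type} [Field 𝔽]

/-- polynomials of total degree at most `d` (more generally: less than `d`) -/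
def TD (d : ℕ) : Submodule 𝔽 (𝔽[X][X]) where
  carrier := {f | ∀ b a, d ≤ a + b → (f.coeff b).coeff a = 0}
  add_mem' := by
    intro f g hf hg b a h
    rw [coeff_add, coeff_add, hf b a h, hg b a h, add_zero]
  zero_mem' := by intro b a _; simp
  smul_mem' := by
    intro c f hf b a h
    rw [coeff_smul, coeff_smul, hf b a h, smul_zero]

theorem mem_TD {d : ℕ} {f : 𝔽[X][X]} : f ∈ TD d ↔ ∀ b a, d ≤ a + b → (f.coeff b).coeff a = 0 := Iff.rfl

/-- the substitution `Y ↦ y₀ + (x - x₀) Y` -/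
noncomputable def loc (x₀ y₀ : 𝔽) : 𝔽[X][X] →+* 𝔽[X][X] :=
  eval₂RingHom C (C (C y₀) + C (X - C x₀) * X)

theorem loc_C (x₀ y₀ : 𝔽) (r : 𝔽[X]) : loc x₀ y₀ (C r) = C r := by simp [loc]
theorem loc_X (x₀ y₀ : 𝔽) : loc x₀ y₀ X = C (C y₀) + C (X - C x₀) * X := by simp [loc]

theorem loc_smul (x₀ y₀ c : 𝔽) (f : 𝔽[X][X]) : loc x₀ y₀ (c • f) = c • loc x₀ y₀ f := by
  have h : ∀ g : 𝔽[X][X], c • g = C (C c) * g := by
    intro g
    ext b a
    rw [coeff_smul, coeff_smul, coeff_C_mul, coeff_C_mul, smul_eq_mul]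
  rw [h, h, map_mul, loc_C]

/-- multiplicity at least `m` at `(x₀, y₀)` -/
def multGe (x₀ y₀ : 𝔽) (m : ℕ) (f : 𝔽[X][X]) : Prop := C (X - C x₀) ^ m ∣ loc x₀ y₀ f

/-- the Taylor shift to the point `(x₀, y₀)` -/
noncomputable def tay (x₀ y₀ : 𝔽) : 𝔽[X][X] →+* 𝔽[X][X] :=
  eval₂RingHom (C.comp (eval₂RingHom C (X + C x₀))) (X + C (C y₀))

theorem tay_smul (x₀ y₀ c : 𝔽) (f : 𝔽[X][X]) : tay x₀ y₀ (c • f) = c • tay x₀ y₀ f := by
  have h : ∀ g : 𝔽[X][X], c • g = C (C c) * g := by
    intro g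
    ext b a
    rw [coeff_smul, coeff_smul, coeff_C_mul, coeff_C_mul, smul_eq_mul]
  rw [h, h, map_mul]
  congr 1
  simp [tay]

/-- back substitution -/
noncomputable def unt (x₀ : 𝔽) : 𝔽[X][X] →+* 𝔽[X][X] :=
  eval₂RingHom (C.comp (eval₂RingHom C (X - C x₀))) (C (X - C x₀) * X)

theorem unt_tay (x₀ y₀ : 𝔽) (f : 𝔽[X][X]) : unt x₀ (tay x₀ y₀ f) = loc x₀ y₀ f := by
  have h : (unt x₀).comp (tay x₀ y₀) = loc x₀ y₀ := by
    refine Polynomial.ringHom_ext (fun r => ?_) ?_
    · have h2 : (((unt x₀).comp (tay x₀ y₀)).comp C) = (loc x₀ y₀).comp C := by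
        refine Polynomial.ringHom_ext (fun r => ?_) ?_
        · simp [unt, tay, loc]
        · simp [unt, tay, loc]
      exact congrArg (fun φ : 𝔽[X] →+* 𝔽[X][X] => φ r) h2
    · simp [unt, tay, loc]
      ring
  exact congrArg (fun φ : 𝔽[X][X] →+* 𝔽[X][X] => φ f) h

theorem dvd_unt (x₀ : 𝔽) (m : ℕ) (G : 𝔽[X][X]) (hG : ∀ b a, a + b < m → (G.coeff b).coeff a = 0) :
    C (X - C x₀) ^ m ∣ unt x₀ G := by
  rw [G.as_sum_range_C_mul_X_pow, map_sum]
  refine Finset.dvd_sum fun b _ => ?_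
  rw [map_mul, map_pow]
  have h1 : unt x₀ X = C (X - C x₀) * X := by simp [unt]
  have h2 : unt x₀ (C (G.coeff b)) = C ((eval₂RingHom C (X - C x₀)) (G.coeff b)) := by simp [unt]
  rw [h1, h2]
  have h3 : (X - C x₀) ^ (m - b) ∣ (eval₂RingHom C (X - C x₀)) (G.coeff b) := by
    rw [(G.coeff b).as_sum_range_C_mul_X_pow, map_sum]
    refine Finset.dvd_sum fun a _ => ?_
    by_cases h : a + b < m
    · rw [hG b a h]; simp
    · rw [map_mul, map_pow]
      have h4 : (eval₂RingHom C (X - C x₀)) (X : 𝔽[X]) = X - C x₀ := by simp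
      rw [h4]
      exact Dvd.dvd.mul_left (pow_dvd_pow _ (by omega)) _
  have h5 : (C (X - C x₀) : 𝔽[X][X]) ^ (m - b) ∣ C ((eval₂RingHom C (X - C x₀)) (G.coeff b)) := by
    rw [← C_pow]
    exact _root_.map_dvd C h3
  rw [mul_pow]
  have h6 : (C (X - C x₀) : 𝔽[X][X]) ^ m ∣ C (X - C x₀) ^ (m - b) * C (X - C x₀) ^ b := by
    rw [← pow_add]
    exact pow_dvd_pow _ (by omega)
  calc (C (X - C x₀) : 𝔽[X][X]) ^ m ∣ C (X - C x₀) ^ (m - b) * C (X - C x₀) ^ b := h6
    _ ∣ C ((eval₂RingHom C (X - C x₀)) (G.coeff b)) * (C (X - C x₀) ^ b * X ^ b) :=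
      mul_dvd_mul h5 (dvd_mul_right _ _)

theorem multGe_of_tay (x₀ y₀ : 𝔽) (m : ℕ) (f : 𝔽[X][X])
    (h : ∀ b a, a + b < m → ((tay x₀ y₀ f).coeff b).coeff a = 0) : multGe x₀ y₀ m f := by
  unfold multGe
  rw [← unt_tay]
  exact dvd_unt x₀ m _ h

/-! ### the space of curves -/

section space

variable {κ : Type} [Fintype κ] (s : κ → 𝔽)

/-- curves of degree less than `d` with multiplicities at least `m` at the points `(s, s³)` -/
noncomputable def VS (d : ℕ) (m : κ → ℕ) : Submodule 𝔽 (𝔽[X][X]) where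
  carrier := {f | f ∈ TD d ∧ ∀ k, multGe (s k) (s k ^ 3) (m k) f}
  add_mem' := fun hf hg => ⟨add_mem hf.1 hg.1, fun k => by
    unfold multGe; rw [map_add]; exact dvd_add (hf.2 k) (hg.2 k)⟩
  zero_mem' := ⟨zero_mem _, fun k => by unfold multGe; rw [map_zero]; exact dvd_zero _⟩
  smul_mem' := fun c f hf => ⟨Submodule.smul_mem _ c hf.1, fun k => by
    unfold multGe; rw [loc_smul]
    have : c • loc (s k) (s k ^ 3) f = C (C c) * loc (s k) (s k ^ 3) f := by
      ext b a
      rw [coeff_smul, coeff_smul, coeff_C_mul, coeff_C_mul, smul_eq_mul]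
    rw [this]
    exact Dvd.dvd.mul_left (hf.2 k) _⟩

theorem mem_VS {d : ℕ} {m : κ → ℕ} {f : 𝔽[X][X]} :
    f ∈ VS s d m ↔ f ∈ TD d ∧ ∀ k, multGe (s k) (s k ^ 3) (m k) f := Iff.rfl

/-- the triangle `a + b < n` -/
def tri (n : ℕ) : Finset (Σ _ : ℕ, ℕ) := (Finset.range n).sigma fun b => Finset.range (n - b)

theorem mem_tri {n : ℕ} {x : Σ _ : ℕ, ℕ} : x ∈ tri n ↔ x.2 + x.1 < n := by
  unfold tri
  rw [Finset.mem_sigma, Finset.mem_range, Finset.mem_range]
  omega

theorem card_tri (n : ℕ) : 2 * (tri n).card = n * (n + 1) := by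
  unfold tri
  rw [Finset.card_sigma]
  simp only [Finset.card_range]
  induction n with
  | zero => simp
  | succ n ih =>
    rw [Finset.sum_range_succ']
    have : ∀ i ∈ Finset.range n, n + 1 - (i + 1) = n - i := fun i _ => by omega
    rw [Finset.sum_congr rfl this, Nat.sub_zero, mul_add, ih]
    ring

/-- coefficients of a polynomial of bounded degree -/
noncomputable def coefMap (d : ℕ) : 𝔽[X][X] →ₗ[𝔽] (tri d → 𝔽) where
  toFun f := fun x => (f.coeff x.1.1).coeff x.1.2
  map_add' f g := by ext x; simp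
  map_smul' c f := by ext x; simp

theorem coefMap_injOn (d : ℕ) : ∀ f ∈ TD (𝔽 := 𝔽) d, coefMap d f = 0 → f = 0 := by
  intro f hf h
  ext b a
  by_cases hab : d ≤ a + b
  · rw [hf b a hab]; simp
  · have := congrFun h ⟨⟨b, a⟩, mem_tri.mpr (show a + b < d by omega)⟩
    simpa [coefMap] using this

instance TD_finite (d : ℕ) : Module.Finite 𝔽 (TD (𝔽 := 𝔽) d) := by
  refine Module.Finite.of_injective ((coefMap d).comp (TD (𝔽 := 𝔽) d).subtype) ?_
  rw [injective_iff_map_eq_zero]
  intro f hf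
  exact Subtype.ext (coefMap_injOn d f.1 f.2 hf)

theorem VS_le (d : ℕ) (m : κ → ℕ) : VS s d m ≤ TD d := fun f hf => hf.1

instance VS_finite (d : ℕ) (m : κ → ℕ) : Module.Finite 𝔽 (VS s d m) :=
  Submodule.finiteDimensional_of_le (VS_le s d m)

/-- the polynomial with given coefficients -/
noncomputable def polyOf (d : ℕ) : (tri d → 𝔽) →ₗ[𝔽] 𝔽[X][X] where
  toFun c := ∑ x : tri d, monomial x.1.1 (monomial x.1.2 (c x))
  map_add' c c' := by
    rw [← Finset.sum_add_distrib]
    refine Finset.sum_congr rfl fun x _ => ?_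
    rw [Pi.add_apply, map_add, map_add]
  map_smul' c c' := by
    rw [RingHom.id_apply, Finset.smul_sum]
    refine Finset.sum_congr rfl fun x _ => ?_
    rw [Pi.smul_apply, Polynomial.smul_monomial, Polynomial.smul_monomial]

theorem coeff_polyOf (d : ℕ) (c : tri d → 𝔽) (x : tri d) :
    ((polyOf d c).coeff x.1.1).coeff x.1.2 = c x := by
  classical
  change ((∑ y : tri d, monomial y.1.1 (monomial y.1.2 (c y))).coeff x.1.1).coeff x.1.2 = c x
  rw [finsetSum_coeff, finsetSum_coeff, Finset.sum_eq_single x]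
  · simp
  · intro y _ hy
    rw [coeff_monomial]
    split_ifs with h1
    · rw [coeff_monomial, if_neg]
      intro h2
      apply hy
      apply Subtype.ext
      exact Sigma.ext h1 (heq_of_eq h2)
    · simp
  · intro h; exact absurd (Finset.mem_univ _) h

theorem polyOf_mem (d : ℕ) (c : tri d → 𝔽) : polyOf d c ∈ TD d := by
  intro b a hab
  change ((∑ y : tri d, monomial y.1.1 (monomial y.1.2 (c y))).coeff b).coeff a = 0
  rw [finsetSum_coeff, finsetSum_coeff]
  refine Finset.sum_eq_zero fun y _ => ?_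
  rw [coeff_monomial]
  split_ifs with h1
  · rw [coeff_monomial, if_neg]
    intro h2
    have := mem_tri.mp y.2
    omega
  · simp

/-- lower bound for the dimension -/
theorem finrank_VS_ge (d : ℕ) (m : κ → ℕ) :
    (tri d).card ≤ Module.finrank 𝔽 (VS s d m) + ∑ k, (tri (m k)).card := by
  let Φ : (tri d → 𝔽) →ₗ[𝔽] ((Σ k, tri (m k)) → 𝔽) :=
    { toFun := fun c x => ((tay (s x.1) (s x.1 ^ 3) (polyOf d c)).coeff x.2.1.1).coeff x.2.1.2
      map_add' := fun c c' => by ext x; simp
      map_smul' := fun c c' => by ext x; simp [tay_smul] }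
  have h1 := LinearMap.finrank_range_add_finrank_ker Φ
  have h2 : Module.finrank 𝔽 (LinearMap.range Φ) ≤ ∑ k, (tri (m k)).card := by
    calc Module.finrank 𝔽 (LinearMap.range Φ) ≤ Module.finrank 𝔽 ((Σ k, tri (m k)) → 𝔽) :=
          Submodule.finrank_le _
      _ = ∑ k, (tri (m k)).card := by
        rw [Module.finrank_fintype_fun_eq_card, Fintype.card_sigma]
        simp
  have h3 : Module.finrank 𝔽 (LinearMap.ker Φ) ≤ Module.finrank 𝔽 (VS s d m) := by
    let Ψ : LinearMap.ker Φ →ₗ[𝔽] VS s d m :=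
      { toFun := fun c => ⟨polyOf d c.1, polyOf_mem d c.1, fun k => multGe_of_tay _ _ _ _ (by
          intro b a hab
          have := congrFun (LinearMap.mem_ker.mp c.2) ⟨k, ⟨⟨b, a⟩, mem_tri.mpr hab⟩⟩
          exact this)⟩
        map_add' := fun c c' => Subtype.ext (map_add _ _ _)
        map_smul' := fun c c' => Subtype.ext (map_smul _ _ _) }
    refine LinearMap.finrank_le_finrank_of_injective (f := Ψ) ?_
    intro c c' hcc
    have h4 : polyOf d c.1 = polyOf d c'.1 := congrArg Subtype.val hcc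
    apply Subtype.ext
    ext x
    rw [← coeff_polyOf d c.1 x, ← coeff_polyOf d c'.1 x, h4]
  have h4 : Module.finrank 𝔽 (tri d → 𝔽) = (tri d).card := by
    rw [Module.finrank_fintype_fun_eq_card]; simp
  omega

/-! ### restriction to the cubic -/

/-- restriction to the cubic `y = x³` -/
noncomputable def resC : 𝔽[X][X] →+* 𝔽[X] := evalRingHom (X ^ 3)

theorem resC_smul (c : 𝔽) (f : 𝔽[X][X]) : resC (c • f) = c • resC f := by
  simp [resC, Polynomial.smul_eval]

theorem resC_coeff (f : 𝔽[X][X]) (n : ℕ) :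
    (resC f).coeff n = ∑ b ∈ Finset.range (f.natDegree + 1), if 3 * b ≤ n then (f.coeff b).coeff (n - 3 * b) else 0 := by
  rw [resC, coe_evalRingHom, eval_eq_sum_range, finsetSum_coeff]
  refine Finset.sum_congr rfl fun b _ => ?_
  rw [← pow_mul, coeff_mul_X_pow']

/-- degree of the restriction -/
theorem resC_coeff_zero {d : ℕ} {f : 𝔽[X][X]} (hf : f ∈ TD (d + 1)) {n : ℕ} (hn : 3 * d < n) :
    (resC f).coeff n = 0 := by
  rw [resC_coeff]
  refine Finset.sum_eq_zero fun b _ => ?_
  split_ifs with h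
  · exact hf b _ (by omega)
  · rfl

/-- the subleading coefficient of the restriction vanishes -/
theorem resC_coeff_sub {d : ℕ} {f : 𝔽[X][X]} (hf : f ∈ TD (d + 1)) {n : ℕ} (hn : n + 1 = 3 * d) :
    (resC f).coeff n = 0 := by
  rw [resC_coeff]
  refine Finset.sum_eq_zero fun b _ => ?_
  split_ifs with h
  · exact hf b _ (by omega)
  · rfl

theorem resC_loc {x₀ : 𝔽} {m : ℕ} {f : 𝔽[X][X]} (h : multGe x₀ (x₀ ^ 3) m f) : (X - C x₀) ^ m ∣ resC f := by
  obtain ⟨G, hG⟩ := h
  have h1 : ∀ g : 𝔽[X][X], resC g = (loc x₀ (x₀ ^ 3) g).eval (X ^ 2 + C x₀ * X + C (x₀ ^ 2)) := by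
    intro g
    have h2 : (resC : 𝔽[X][X] →+* 𝔽[X]) =
        (evalRingHom (X ^ 2 + C x₀ * X + C (x₀ ^ 2))).comp (loc x₀ (x₀ ^ 3)) := by
      refine Polynomial.ringHom_ext (fun r => ?_) ?_
      · simp [resC, loc]
      · simp [resC, loc]
        ring
    exact congrArg (fun φ : 𝔽[X][X] →+* 𝔽[X] => φ g) h2
  rw [h1, hG, eval_mul, eval_pow, eval_C]
  exact dvd_mul_right _ _

/-- the equation of the cubic -/
noncomputable def cub : 𝔽[X][X] := X - C (X ^ 3)

theorem exists_of_resC {f : 𝔽[X][X]} (h : resC f = 0) : ∃ g, f = cub * g := by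
  have : IsRoot f (X ^ 3) := h
  obtain ⟨g, hg⟩ := Polynomial.dvd_iff_isRoot.mpr this
  exact ⟨g, hg⟩

theorem multGe_of_cub {x₀ : 𝔽} {m : ℕ} {g : 𝔽[X][X]} (h : multGe x₀ (x₀ ^ 3) m (cub * g)) :
    multGe x₀ (x₀ ^ 3) (m - 1) g := by
  have h1 : loc x₀ (x₀ ^ 3) cub = C (X - C x₀) * (X - C (X ^ 2 + C x₀ * X + C (x₀ ^ 2))) := by
    rw [cub, map_sub, loc_X, loc_C]
    simp only [C_sub, C_add, C_mul, C_pow]
    ring
  have hp : Prime (C (X - C x₀) : 𝔽[X][X]) := prime_C_iff.mpr (prime_X_sub_C _)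
  unfold multGe at h ⊢
  rw [map_mul, h1] at h
  rcases Nat.eq_zero_or_pos m with rfl | hm
  · simp
  · obtain ⟨k, rfl⟩ := Nat.exists_eq_succ_of_ne_zero hm.ne'
    rw [Nat.succ_eq_add_one, pow_succ', mul_assoc] at h
    have h2 := (mul_dvd_mul_iff_left hp.ne_zero).mp h
    rw [Nat.succ_eq_add_one, Nat.add_sub_cancel]
    refine hp.pow_dvd_of_dvd_mul_left k ?_ h2
    intro h3
    have h4 := (Polynomial.C_dvd_iff_dvd_coeff _ _).mp h3 1
    have h5 : (X - C (X ^ 2 + C x₀ * X + C (x₀ ^ 2)) : 𝔽[X][X]).coeff 1 = 1 := by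
      rw [coeff_sub, coeff_X_one, coeff_C]; simp
    rw [h5] at h4
    exact (prime_X_sub_C x₀).not_isUnit (isUnit_of_dvd_one h4)

theorem cub_coeff (g : 𝔽[X][X]) (b a : ℕ) : ((cub * g).coeff b).coeff (a + 3) =
    (if b = 0 then 0 else (g.coeff (b - 1)).coeff (a + 3)) - (g.coeff b).coeff a := by
  rw [cub, sub_mul, coeff_sub, coeff_sub, coeff_C_mul]
  congr 1
  · rcases Nat.eq_zero_or_pos b with rfl | hb
    · simp
    · obtain ⟨k, rfl⟩ := Nat.exists_eq_succ_of_ne_zero hb.ne'
      simp [coeff_X_mul]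
  · rw [coeff_X_pow_mul', if_pos (by omega), Nat.add_sub_cancel]

theorem TD_of_cub {d : ℕ} {g : 𝔽[X][X]} (h : cub * g ∈ TD d) : ∀ b a, d ≤ a + b + 3 → (g.coeff b).coeff a = 0 := by
  -- a bound for the total degree of `g`
  obtain ⟨N, hN⟩ : ∃ N, ∀ b a, N ≤ a + b → (g.coeff b).coeff a = 0 := by
    refine ⟨g.natDegree + 1 + (Finset.range (g.natDegree + 1)).sup (fun b => (g.coeff b).natDegree), ?_⟩
    intro b a hab
    by_cases hb : g.natDegree < b
    · rw [coeff_eq_zero_of_natDegree_lt hb]; simp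
    · have h1 : (g.coeff b).natDegree ≤ (Finset.range (g.natDegree + 1)).sup (fun b => (g.coeff b).natDegree) :=
        Finset.le_sup (f := fun b => (g.coeff b).natDegree) (Finset.mem_range.mpr (by omega))
      exact coeff_eq_zero_of_natDegree_lt (by omega)
  have key : ∀ j, ∀ b a, N ≤ a + b + j → d ≤ a + b + 3 → (g.coeff b).coeff a = 0 := by
    intro j
    induction j with
    | zero => intro b a h1 _; exact hN b a (by omega)
    | succ j ih =>
      intro b a h1 h2
      have h3 := h b (a + 3) (by omega)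
      rw [cub_coeff] at h3
      split_ifs at h3 with hb
      · rw [zero_sub, neg_eq_zero] at h3; exact h3
      · rw [ih (b - 1) (a + 3) (by omega) (by omega), zero_sub, neg_eq_zero] at h3
        exact h3
  intro b a h1
  exact key N b a (by omega) h1

/-- the curves containing the cubic -/
theorem VS_of_cub {d : ℕ} {m : κ → ℕ} {g : 𝔽[X][X]} (h : cub * g ∈ VS s d m) :
    g ∈ VS s (d - 3) (fun k => m k - 1) :=
  ⟨fun b a hab => TD_of_cub h.1 b a (by omega), fun k => multGe_of_cub (h.2 k)⟩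

/-- upper bound for the dimension: restriction to the cubic -/
theorem finrank_VS_le (hs : Function.Injective s) (d r : ℕ) (m : κ → ℕ) (hr : 2 ≤ r)
    (h : 3 * d = ∑ k, m k + r) :
    Module.finrank 𝔽 (VS s (d + 1) m) ≤ r + Module.finrank 𝔽 (VS s (d + 1 - 3) (fun k => m k - 1)) := by
  classical
  set δ := ∑ k, m k with hδ
  let Φ : VS s (d + 1) m →ₗ[𝔽] (Fin r → 𝔽) :=
    { toFun := fun f i => (resC f.1).coeff (δ + if i.1 + 1 < r then i.1 else r)
      map_add' := fun f g => by ext i; simp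
      map_smul' := fun c f => by ext i; simp [resC_smul] }
  have h1 := LinearMap.finrank_range_add_finrank_ker (K := 𝔽) (V := VS s (d + 1) m) Φ
  have h2 : Module.finrank 𝔽 (LinearMap.range Φ) ≤ r := by
    calc Module.finrank 𝔽 (LinearMap.range Φ) ≤ Module.finrank 𝔽 (Fin r → 𝔽) := Submodule.finrank_le _
      _ = r := by simp
  have hker : ∀ f ∈ LinearMap.ker Φ, resC f.1 = 0 := by
    intro f hf
    have hcoef : ∀ n, δ ≤ n → (resC f.1).coeff n = 0 := by
      intro n hn
      by_cases hn1 : 3 * d < n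
      · exact resC_coeff_zero f.2.1 hn1
      · by_cases hn2 : n + 1 = 3 * d
        · exact resC_coeff_sub f.2.1 hn2
        · have h3 := LinearMap.mem_ker.mp hf
          by_cases hn3 : n = 3 * d
          · have h4 := congrFun h3 ⟨r - 1, by omega⟩
            change (resC f.1).coeff (δ + if r - 1 + 1 < r then r - 1 else r) = 0 at h4
            rw [if_neg (by omega)] at h4
            rw [hn3, h]; exact h4
          · have h4 := congrFun h3 ⟨n - δ, by omega⟩
            change (resC f.1).coeff (δ + if n - δ + 1 < r then n - δ else r) = 0 at h4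
            rw [if_pos (by omega)] at h4
            have : δ + (n - δ) = n := by omega
            rwa [this] at h4
    have hdvd : (∏ k, (X - C (s k)) ^ m k) ∣ resC f.1 := by
      refine Finset.prod_dvd_of_coprime ?_ fun k _ => resC_loc (f.2.2 k)
      intro k _ l _ hkl
      refine IsCoprime.pow ?_
      exact isCoprime_X_sub_C_of_isUnit_sub (isUnit_iff_ne_zero.mpr (sub_ne_zero.mpr fun h => hkl (hs h)))
    by_contra hne
    have hmon : (∏ k, (X - C (s k)) ^ m k).Monic := monic_prod_of_monic _ _ fun k _ => (monic_X_sub_C _).pow _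
    have hdeg : (∏ k, (X - C (s k)) ^ m k).natDegree = δ := by
      rw [natDegree_prod_of_monic _ _ fun k _ => (monic_X_sub_C _).pow _]
      refine Finset.sum_congr rfl fun k _ => ?_
      rw [(monic_X_sub_C _).natDegree_pow, natDegree_X_sub_C, mul_one]
    have h3 : δ ≤ (resC f.1).natDegree := by
      rw [← hdeg]
      exact natDegree_le_of_dvd hdvd hne
    exact hne (leadingCoeff_eq_zero.mp (hcoef _ h3))
  have h3 : Module.finrank 𝔽 (LinearMap.ker Φ) ≤
      Module.finrank 𝔽 (VS s (d + 1 - 3) (fun k => m k - 1)) := by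
    have hex : ∀ f : LinearMap.ker Φ, ∃ g, f.1.1 = cub * g := fun f => exists_of_resC (hker f.1 f.2)
    choose G hG using hex
    have hcub : (cub : 𝔽[X][X]) ≠ 0 := (prime_X_sub_C _).ne_zero
    have hmem : ∀ f, G f ∈ VS s (d + 1 - 3) (fun k => m k - 1) := fun f =>
      VS_of_cub s (by rw [← hG f]; exact f.1.2)
    let Ψ : LinearMap.ker Φ →ₗ[𝔽] VS s (d + 1 - 3) (fun k => m k - 1) :=
      { toFun := fun f => ⟨G f, hmem f⟩
        map_add' := fun f g => Subtype.ext (by
          apply mul_left_cancel₀ hcub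
          change cub * G (f + g) = cub * (G f + G g)
          rw [mul_add, ← hG, ← hG, ← hG]; rfl)
        map_smul' := fun c f => Subtype.ext (by
          apply mul_left_cancel₀ hcub
          change cub * G (c • f) = cub * (c • G f)
          rw [mul_smul_comm, ← hG, ← hG]; rfl) }
    refine LinearMap.finrank_le_finrank_of_injective (f := Ψ) ?_
    intro f g hfg
    have h4 : G f = G g := congrArg Subtype.val hfg
    apply Subtype.ext
    apply Subtype.ext
    rw [hG, hG, h4]
  omega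

/-- if every curve of the system contains the cubic -/
theorem finrank_VS_le_of_resC (d : ℕ) (m : κ → ℕ) (h : ∀ f ∈ VS s d m, resC f = 0) :
    Module.finrank 𝔽 (VS s d m) ≤ Module.finrank 𝔽 (VS s (d - 3) (fun k => m k - 1)) := by
  have hex : ∀ f : VS s d m, ∃ g, f.1 = cub * g := fun f => exists_of_resC (h f.1 f.2)
  choose G hG using hex
  have hcub : (cub : 𝔽[X][X]) ≠ 0 := (prime_X_sub_C _).ne_zero
  have hmem : ∀ f, G f ∈ VS s (d - 3) (fun k => m k - 1) := fun f =>
    VS_of_cub s (by rw [← hG f]; exact f.2)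
  let Ψ : VS s d m →ₗ[𝔽] VS s (d - 3) (fun k => m k - 1) :=
    { toFun := fun f => ⟨G f, hmem f⟩
      map_add' := fun f g => Subtype.ext (by
        apply mul_left_cancel₀ hcub
        change cub * G (f + g) = cub * (G f + G g)
        rw [mul_add, ← hG, ← hG, ← hG]; rfl)
      map_smul' := fun c f => Subtype.ext (by
        apply mul_left_cancel₀ hcub
        change cub * G (c • f) = cub * (c • G f)
        rw [mul_smul_comm, ← hG, ← hG]; rfl) }
  refine LinearMap.finrank_le_finrank_of_injective (f := Ψ) ?_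
  intro f g hfg
  have h4 : G f = G g := congrArg Subtype.val hfg
  apply Subtype.ext
  rw [hG, hG, h4]

/-- a polynomial space without nonzero elements -/
theorem finrank_VS_zero (m : κ → ℕ) : Module.finrank 𝔽 (VS s 0 m) = 0 := by
  have : VS s 0 m = ⊥ := by
    rw [eq_bot_iff]
    intro f hf
    have : f = 0 := by
      ext b a
      rw [hf.1 b a (by omega)]; simp
    rw [this]; exact zero_mem _
  rw [this, finrank_bot]

end space

/-- the weights -/
def wt : Fin 12 → ℕ := ![1, 1, 2, 2, 2, 2, 2, 1, 1, 2, 1, 1]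

theorem sum_wt (k j : ℕ) : ∑ i, (wt i * k - j) = 6 * (2 * k - j) + 6 * (k - j) := by
  simp only [Fin.sum_univ_succ, Fin.sum_univ_zero, wt, Matrix.cons_val_zero, Matrix.cons_val_succ,
    Fin.succ_zero_eq_one, one_mul]
  omega

/-- existence of curves of degree `6 k + 1` not containing the cubic -/
theorem exists_curve (s : Fin 12 → 𝔽) (hs : Function.Injective s) (k : ℕ) (hk : 1 ≤ k) :
    ∃ f ∈ VS s (6 * k + 2) (fun i => wt i * k), resC f ≠ 0 := by
  by_contra hcon
  push Not at hcon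
  set U : ℕ → ℕ := fun j => Module.finrank 𝔽 (VS s (6 * k + 2 - 3 * j) (fun i => wt i * k - j)) with hU
  have hstep : ∀ j, j ≤ 2 * k → U j ≤ (3 * (6 * k + 1 - 3 * j) - (6 * (2 * k - j) + 6 * (k - j))) + U (j + 1) := by
    intro j hj
    have h1 := finrank_VS_le s hs (6 * k + 1 - 3 * j)
      (3 * (6 * k + 1 - 3 * j) - (6 * (2 * k - j) + 6 * (k - j))) (fun i => wt i * k - j) (by omega)
      (by rw [sum_wt]; omega)
    have e1 : 6 * k + 1 - 3 * j + 1 = 6 * k + 2 - 3 * j := by omega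
    have e2 : 6 * k + 2 - 3 * j - 3 = 6 * k + 2 - 3 * (j + 1) := by omega
    rw [e1, e2] at h1
    exact h1
  have hlast : U (2 * k + 1) = 0 := by
    simp only [hU]
    have : 6 * k + 2 - 3 * (2 * k + 1) = 0 := by omega
    rw [this]
    exact finrank_VS_zero s _
  -- first part
  have hA : ∀ u, u ≤ k → 2 * U (2 * k - u) ≤ 3 * (u + 1) * (u + 2) := by
    intro u
    induction u with
    | zero =>
      intro _
      have := hstep (2 * k) le_rfl
      rw [hlast] at this
      simp only [Nat.sub_zero] at *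
      omega
    | succ u ih =>
      intro hu
      have h1 := ih (by omega)
      have h2 := hstep (2 * k - (u + 1)) (by omega)
      have e1 : 2 * k - (u + 1) + 1 = 2 * k - u := by omega
      rw [e1] at h2
      have e2 : 3 * (6 * k + 1 - 3 * (2 * k - (u + 1))) - (6 * (2 * k - (2 * k - (u + 1))) +
          6 * (k - (2 * k - (u + 1)))) = 3 * (u + 1) + 3 := by omega
      rw [e2] at h2
      nlinarith
  have hB : ∀ t, t + 1 ≤ k → 2 * U (k - t) + 3 * (k - t) * (k - t) + 3 * (k - t) ≤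
      3 * (k + 1) * (k + 2) + 3 * k * k + 3 * k := by
    intro t
    induction t with
    | zero =>
      intro _
      have h1 := hA k le_rfl
      have e1 : 2 * k - k = k := by omega
      rw [e1] at h1
      simp only [Nat.sub_zero]
      omega
    | succ t ih =>
      intro ht
      have h1 := ih (by omega)
      have h2 := hstep (k - (t + 1)) (by omega)
      have e1 : k - (t + 1) + 1 = k - t := by omega
      rw [e1] at h2
      obtain ⟨a, ha⟩ : ∃ a, k = t + 1 + a := ⟨k - (t + 1), by omega⟩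
      have e2 : k - (t + 1) = a := by omega
      have e3 : k - t = a + 1 := by omega
      have e4 : 3 * (6 * k + 1 - 3 * (k - (t + 1))) - (6 * (2 * k - (k - (t + 1))) +
          6 * (k - (k - (t + 1)))) = 3 * a + 3 := by omega
      rw [e4, e2, e3] at h2
      rw [e3] at h1
      rw [e2]
      nlinarith
  have hU1 : 2 * U 1 ≤ 6 * k * k + 12 * k := by
    have h1 := hB (k - 1) (by omega)
    have e1 : k - (k - 1) = 1 := by omega
    rw [e1] at h1
    nlinarith
  have hU0 : U 0 ≤ U 1 := finrank_VS_le_of_resC s _ _ hcon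
  have hlow := finrank_VS_ge s (6 * k + 2) (fun i => wt i * k)
  have hU0' : Module.finrank 𝔽 (VS s (6 * k + 2) (fun i => wt i * k)) = U 0 := rfl
  rw [hU0'] at hlow
  have hc1 := card_tri (6 * k + 2)
  have hc2 : 2 * ∑ i, (tri (wt i * k)).card = 30 * k * k + 18 * k := by
    rw [Finset.mul_sum]
    simp only [card_tri, Fin.sum_univ_succ, Fin.sum_univ_zero, wt, Matrix.cons_val_zero,
      Matrix.cons_val_succ, Fin.succ_zero_eq_one, one_mul]
    ring
  nlinarith

end Pool.Agent.V5helper94.Kol
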