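import Pool.Agent.V5helper94.Kol.Lower
import Pool.Agent.V5helper94.Kol.Count

/-!
# The arrangement of fourteen planes
-/

set_option linter.unusedSectionVars false
set_option linter.unusedVariables false
set_option linter.unusedSimpArgs false

namespace Pool.Agent.V5helper94.Kol

open Polynomial

/-- the twelve points of the cuspidal cubic -/
def sz : Fin 12 → ℤ := ![-7, -6, -4, -3, -1, 0, 1, 2, 3, 4, 5, 7]

/-- the fourteen lines: triples of parameters with sum zero -/
def tz3 : Fin 14 → Fin 3 → Fin 12 := ![![0, 5, 11], ![0, 7, 10], ![0, 8, 9], ![1, 4, 11], ![1, 6, 10],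
  ![1, 7, 9], ![2, 3, 11], ![2, 4, 10], ![2, 5, 9], ![2, 6, 8], ![3, 4, 9], ![3, 5, 8], ![3, 6, 7],
  ![4, 5, 6]]

/-- second elementary symmetric function -/
def e2z (i : Fin 14) : ℤ := sz (tz3 i 0) * sz (tz3 i 1) + sz (tz3 i 0) * sz (tz3 i 2) +
  sz (tz3 i 1) * sz (tz3 i 2)

/-- third elementary symmetric function -/
def e3z (i : Fin 14) : ℤ := sz (tz3 i 0) * sz (tz3 i 1) * sz (tz3 i 2)

/-- slopes -/
def pz (i : Fin 14) : ℤ := e2z i + 2 * e3z i

/-- constants -/
def qz (i : Fin 14) : ℤ := e3z i

theorem e1_zero (i : Fin 14) : sz (tz3 i 0) + sz (tz3 i 1) + sz (tz3 i 2) = 0 := by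
  revert i; decide

theorem sz_injective : Function.Injective sz := by decide

theorem pz_injective : Function.Injective pz := by decide

theorem pz_ne_zero (i : Fin 14) : pz i ≠ 0 := by revert i; decide

/-- multiplicities of the twelve points -/
def mz : Fin 12 → ℕ := ![3, 3, 4, 4, 4, 4, 4, 3, 3, 4, 3, 3]

/-- incidence -/
def inc (k : Fin 12) (i : Fin 14) : Bool := decide (∃ j, tz3 i j = k)

theorem card_inc (k : Fin 12) : (Finset.univ.filter fun i => inc k i).card = mz k := by
  revert k; decide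

theorem sum_mz_sz : ∑ k, (mz k : ℤ) * sz k = 0 := by decide

theorem sum_sz : ∑ k, sz k = 1 := by decide

theorem sum_mz : ∑ k, mz k = 42 := by decide

theorem mz_eq (k : Fin 12) : mz k = wt k + 2 := by revert k; decide

/-- three concurrent lines meet in one of the twelve points -/
theorem conc_check : ∀ i j l : Fin 14, i ≠ j → i ≠ l → j ≠ l →
    (qz l - qz i) * (pz j - pz i) = (qz j - qz i) * (pz l - pz i) →
    ∃ k : Fin 12, inc k i = true ∧ inc k j = true := by
  decide

/-- every line contains three different multiple points -/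
theorem three_check : ∀ i : Fin 14, ∃ j k l : Fin 14, i ≠ j ∧ i ≠ k ∧ i ≠ l ∧
    (qz j - qz i) * (pz k - pz i) ≠ (qz k - qz i) * (pz j - pz i) ∧
    (qz j - qz i) * (pz l - pz i) ≠ (qz l - qz i) * (pz j - pz i) ∧
    (qz k - qz i) * (pz l - pz i) ≠ (qz l - qz i) * (pz k - pz i) := by
  decide

end Pool.Agent.V5helper94.Kol
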