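import Mathlib

/-!
# Definitions for the counterexample to Kollár's conjecture

* `CechH1Vanishes`, `IsResolution`, `IsRationalSurface`: rational surface singularities.
* `IsSmoothing`: one-parameter smoothings.
* `canonicalAlgebra`: the canonical algebra of a normal local domain of dimension three.
-/

namespace Pool.Agent.V5helper94.Kol

open AlgebraicGeometry CategoryTheory TopologicalSpace Polynomial

/-- The first Cech cohomology group of the structure sheaf of the scheme `Z` with respect to some
finite affine open cover vanishes (for a separated scheme this means `H¹(Z, O_Z) = 0`). -/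
def CechH1Vanishes (Z : Scheme.{0}) : Prop :=
  ∃ (ι : Type) (_ : Finite ι) (U : ι → Z.Opens),
    (∀ i, IsAffineOpen (U i)) ∧ (⨆ i, U i = ⊤) ∧
    ∀ g : ∀ i j : ι, Γ(Z, U i ⊓ U j),
      (∀ i j k : ι,
        (Z.presheaf.map (homOfLE (show U i ⊓ U j ⊓ U k ≤ U i ⊓ U j from inf_le_left)).op).hom (g i j)
        + (Z.presheaf.map (homOfLE (show U i ⊓ U j ⊓ U k ≤ U j ⊓ U k from
            le_inf (inf_le_left.trans inf_le_right) inf_le_right)).op).hom (g j k)
        = (Z.presheaf.map (homOfLE (show U i ⊓ U j ⊓ U k ≤ U i ⊓ U k from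
            le_inf (inf_le_left.trans inf_le_left) inf_le_right)).op).hom (g i k)) →
      ∃ h : ∀ i : ι, Γ(Z, U i), ∀ i j : ι,
        g i j = (Z.presheaf.map (homOfLE (show U i ⊓ U j ≤ U j from inf_le_right)).op).hom (h j)
          - (Z.presheaf.map (homOfLE (show U i ⊓ U j ≤ U i from inf_le_left)).op).hom (h i)

/-- `π : Z ⟶ X` is a resolution of singularities of the scheme `X` over `ℂ`
(with structure morphism `s`): `Z` is integral and smooth over `ℂ`,
and `π` is proper and an isomorphism over a nonempty open subset of `X`. -/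
structure IsResolution {Z X : Scheme.{0}} (s : X ⟶ Spec (.of ℂ)) (π : Z ⟶ X) : Prop where
  integral : IsIntegral Z
  smooth : Smooth (π ≫ s)
  proper : IsProper π
  birational : ∃ U : X.Opens, U ≠ ⊥ ∧ IsIso (π ∣_ U)

/-- `Spec R` is a normal affine surface over `ℂ` all of whose singularities are rational:
`R` is a finitely generated normal domain over `ℂ` of transcendence degree two
and `Spec R` has a resolution `π : Z ⟶ Spec R` with `H¹(Z, O_Z) = 0`
(as `Spec R` is affine, this says `R¹π_* O_Z = 0`). -/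
structure IsRationalSurface (R : Type) [CommRing R] [Algebra ℂ R] : Prop where
  isDomain : IsDomain R
  finiteType : Algebra.FiniteType ℂ R
  normal : IsIntegrallyClosed R
  trdeg : Algebra.trdeg ℂ R = 2
  resolution : ∃ (Z : Scheme.{0}) (π : Z ⟶ Spec (.of R)),
    IsResolution (Spec.map (CommRingCat.ofHom (algebraMap ℂ R))) π ∧ CechH1Vanishes Z

/-- `Spec B → 𝔸¹ = Spec ℂ[X]`, given by `t : B`, is a one-parameter smoothing of its fibre
`Spec (B ⧸ (t))` over the origin: `B` is a finitely generated normal domain over `ℂ`, it is flat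
over `ℂ[X]` (with `X` acting as `t`), and `B[1/t]` is smooth over `ℂ[X]`. -/
structure IsSmoothing (B : Type) [CommRing B] [Algebra ℂ B] (t : B) : Prop where
  isDomain : IsDomain B
  finiteType : Algebra.FiniteType ℂ B
  normal : IsIntegrallyClosed B
  flat : (Polynomial.aeval (R := ℂ) t : ℂ[X] →ₐ[ℂ] B).toRingHom.Flat
  smooth : ((algebraMap B (Localization.Away t)).comp
    (Polynomial.aeval (R := ℂ) t : ℂ[X] →ₐ[ℂ] B).toRingHom).Smooth

section canonical

variable (A K : Type) [CommRing A] [Field K] [Algebra A K] [Algebra ℂ K]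

/-- The image of `⋀³ Ω_{A/ℂ}` in `⋀³ Ω_{K/ℂ}`: all sums of forms `e · da ∧ db ∧ dc` with
`e, a, b, c ∈ A`. -/
noncomputable def regularForms : AddSubgroup (⋀[K]^3 (Ω[K⁄ℂ])) :=
  AddSubgroup.closure {η | ∃ e a b c : A, η = algebraMap A K e •
    exteriorPower.ιMulti K 3 ![KaehlerDifferential.D ℂ K (algebraMap A K a),
      KaehlerDifferential.D ℂ K (algebraMap A K b), KaehlerDifferential.D ℂ K (algebraMap A K c)]}

variable {K}

/-- All `f ∈ K` such that `f ω₀` lies in the image of `⋀³ Ω_{A/ℂ}`. -/
noncomputable def formCoeffs (ω₀ : ⋀[K]^3 (Ω[K⁄ℂ])) : Submodule A K where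
  carrier := {f | f • ω₀ ∈ regularForms A K}
  add_mem' := by
    intro a b ha hb
    simp only [Set.mem_ofPred_eq, add_smul] at *
    exact add_mem ha hb
  zero_mem' := by simp
  smul_mem' := by
    intro r f hf
    simp only [Set.mem_ofPred_eq] at *
    rw [Algebra.smul_def, mul_smul]
    generalize f • ω₀ = η at hf
    induction hf using AddSubgroup.closure_induction with
    | mem η hη =>
      obtain ⟨e, a, b, c, rfl⟩ := hη
      refine AddSubgroup.subset_closure ⟨r * e, a, b, c, ?_⟩
      rw [map_mul, mul_smul]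
    | zero => simp
    | add x y _ _ hx hy => rw [smul_add]; exact add_mem hx hy
    | neg x _ hx => rw [smul_neg]; exact neg_mem hx

/-- The elements `f ∈ K` for which the pluricanonical form `f ω₀^n` is regular in codimension
one on `Spec A`: for every prime `q` of height one, `f ω₀^n` lies in the `n`-th power of
`ω_{A_q} = ⋀³ Ω_{A_q/ℂ}`. For a normal local domain `A` of dimension three, essentially of finite
type over `ℂ` and with fraction field `K`, these are the global sections of the reflexive sheaf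
`ω_A^{[n]} = O(n K_A)`. -/
noncomputable def pluriForms (ω₀ : ⋀[K]^3 (Ω[K⁄ℂ])) (n : ℕ) : Submodule A K where
  carrier := {f | ∀ q : Ideal A, q.IsPrime → q.height = 1 →
    ∃ s : A, s ∉ q ∧ algebraMap A K s * f ∈ (formCoeffs A ω₀) ^ n}
  add_mem' := by
    intro a b ha hb q hq hh
    obtain ⟨s, hs, hsa⟩ := ha q hq hh
    obtain ⟨t, ht, htb⟩ := hb q hq hh
    refine ⟨s * t, fun h => (hq.mem_or_mem h).elim hs ht, ?_⟩
    have h1 : algebraMap A K (s * t) * (a + b) =
      t • (algebraMap A K s * a) + s • (algebraMap A K t * b) := by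
      rw [Algebra.smul_def, Algebra.smul_def, map_mul]; ring
    rw [h1]
    exact add_mem (Submodule.smul_mem _ _ hsa) (Submodule.smul_mem _ _ htb)
  zero_mem' := by
    intro q hq _
    exact ⟨1, fun h => hq.ne_top ((Ideal.eq_top_iff_one q).mpr h), by simp⟩
  smul_mem' := by
    intro r f hf q hq hh
    obtain ⟨s, hs, hsf⟩ := hf q hq hh
    refine ⟨s, hs, ?_⟩
    have h1 : algebraMap A K s * (r • f) = r • (algebraMap A K s * f) := by
      rw [Algebra.smul_def, Algebra.smul_def]; ring
    rw [h1]
    exact Submodule.smul_mem _ _ hsf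

theorem mul_mem_pluriForms (ω₀ : ⋀[K]^3 (Ω[K⁄ℂ])) {m n : ℕ} {f g : K}
    (hf : f ∈ pluriForms A ω₀ m) (hg : g ∈ pluriForms A ω₀ n) : f * g ∈ pluriForms A ω₀ (m + n) := by
  intro q hq hh
  obtain ⟨s, hs, hsf⟩ := hf q hq hh
  obtain ⟨t, ht, htg⟩ := hg q hq hh
  refine ⟨s * t, fun h => (hq.mem_or_mem h).elim hs ht, ?_⟩
  have h1 : algebraMap A K (s * t) * (f * g) =
    (algebraMap A K s * f) * (algebraMap A K t * g) := by
    rw [map_mul]; ring
  rw [h1, pow_add]
  exact Submodule.mul_mem_mul hsf htg

/-- The canonical algebra `⊕ₙ O(n K_A)` of `A`, realised as a subalgebra of `K[X]` by means of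
the isomorphism `⊕ₙ (⋀³ Ω_{K/ℂ})^{⊗ n} ≅ K[X]` given by `ω₀ ↦ X`. -/
noncomputable def canonicalAlgebra (ω₀ : ⋀[K]^3 (Ω[K⁄ℂ])) : Subalgebra A K[X] where
  carrier := {F | ∀ n, F.coeff n ∈ pluriForms A ω₀ n}
  mul_mem' := by
    intro F G hF hG n
    rw [Polynomial.coeff_mul]
    refine Submodule.sum_mem _ fun x hx => ?_
    have h := mul_mem_pluriForms A ω₀ (hF x.1) (hG x.2)
    rwa [Finset.HasAntidiagonal.mem_antidiagonal.mp hx] at h
  add_mem' := by
    intro F G hF hG n
    rw [Polynomial.coeff_add]
    exact Submodule.add_mem _ (hF n) (hG n)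
  algebraMap_mem' := by
    intro r n
    rw [Polynomial.algebraMap_apply, Polynomial.coeff_C]
    split_ifs with h
    · subst h
      intro q hq _
      refine ⟨1, fun h => hq.ne_top ((Ideal.eq_top_iff_one q).mpr h), ?_⟩
      rw [pow_zero, map_one, one_mul]
      exact Submodule.algebraMap_mem r
    · exact Submodule.zero_mem _

end canonical

/-- The final statement: there is a one-parameter smoothing of a rational surface singularity
whose canonical algebra is not finitely generated. -/
def Counterexample : Prop :=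
  ∃ (B : Type) (_ : CommRing B) (_ : Algebra ℂ B) (t : B),
    IsSmoothing B t ∧ IsRationalSurface (B ⧸ Ideal.span {t}) ∧
    ∃ (p : Ideal B) (_ : p.IsMaximal), t ∈ p ∧
    ∃ (A : Type) (_ : CommRing A) (_ : Algebra B A) (_ : IsLocalization.AtPrime A p)
      (K : Type) (_ : Field K) (_ : Algebra A K) (_ : IsFractionRing A K)
      (_ : Algebra ℂ A) (_ : IsScalarTower ℂ B A) (_ : Algebra ℂ K) (_ : IsScalarTower ℂ A K),
      ∀ ω₀ : ⋀[K]^3 (Ω[K⁄ℂ]), ω₀ ≠ 0 → ¬ (canonicalAlgebra A ω₀).FG

end Pool.Agent.V5helper94.Kol
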