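import Pool.Agent.V5helper94.Kol.Arr

/-!
# Derivations of the function field and regular three-forms
-/

set_option linter.unusedSectionVars false
set_option linter.unusedVariables false

namespace Pool.Agent.V5helper94.Kol

open Polynomial nonZeroDivisors TensorProduct

/-- the derivation applying `d` to the coefficients -/
noncomputable def coefD {A : Type} [CommRing A] [Algebra ℂ A] (d : Derivation ℂ A A) :
    Derivation ℂ A[X] A[X] :=
  (PolynomialModule.equivPolynomialSelf (R := A)).toLinearMap.compDer d.mapCoeffs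

theorem coefD_coeff {A : Type} [CommRing A] [Algebra ℂ A] (d : Derivation ℂ A A) (F : A[X]) (n : ℕ) :
    (coefD d F).coeff n = d (F.coeff n) := rfl

theorem coefD_C {A : Type} [CommRing A] [Algebra ℂ A] (d : Derivation ℂ A A) (a : A) :
    coefD d (C a) = C (d a) := by
  ext n
  rw [coefD_coeff, coeff_C, coeff_C]
  split_ifs <;> simp

theorem coefD_X {A : Type} [CommRing A] [Algebra ℂ A] (d : Derivation ℂ A A) :
    coefD d X = 0 := by
  ext n
  rw [coefD_coeff, coeff_X]
  split_ifs <;> simp

/-- extension of a derivation to the fraction field -/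
noncomputable def extD {S : Type} (K : Type) [CommRing S] [Algebra ℂ S] [Field K] [Algebra S K]
    [IsFractionRing S K] [Algebra ℂ K] [IsScalarTower ℂ S K] (d : Derivation ℂ S S) :
    Derivation ℂ K K :=
  haveI : Algebra.FormallyEtale S K := Algebra.FormallyEtale.of_isLocalization (Rₘ := K) S⁰
  (((LinearMap.liftBaseChange K ((Algebra.linearMap S K).comp d.liftKaehlerDifferential)).comp
    (KaehlerDifferential.tensorKaehlerEquivOfFormallyEtale ℂ S K).symm.toLinearMap)).compDer
      (KaehlerDifferential.D ℂ K)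

theorem extD_apply {S : Type} (K : Type) [CommRing S] [Algebra ℂ S] [Field K] [Algebra S K]
    [IsFractionRing S K] [Algebra ℂ K] [IsScalarTower ℂ S K] (d : Derivation ℂ S S) (s : S) :
    extD K d (algebraMap S K s) = algebraMap S K (d s) := by
  have : Algebra.FormallyEtale S K := Algebra.FormallyEtale.of_isLocalization (Rₘ := K) S⁰
  unfold extD
  simp only [LinearMap.compDer]
  change (LinearMap.liftBaseChange K ((Algebra.linearMap S K).comp d.liftKaehlerDifferential))
    ((KaehlerDifferential.tensorKaehlerEquivOfFormallyEtale ℂ S K).symm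
      (KaehlerDifferential.D ℂ K (algebraMap S K s))) = _
  rw [KaehlerDifferential.tensorKaehlerEquivOfFormallyEtale_symm_D_algebraMap]
  rw [LinearMap.liftBaseChange_tmul]
  simp

/-- a derivation extended to the fraction field preserves the local rings -/
theorem extD_locAt {S : Type} {K : Type} [CommRing S] [IsDomain S] [Algebra ℂ S] [Field K] [Algebra S K]
    [IsFractionRing S K] [Algebra ℂ K] [IsScalarTower ℂ S K] (d : Derivation ℂ S S) {h : S}
    (hh : Prime h) {g : K} (hg : g ∈ locAt K h hh) : extD K d g ∈ locAt K h hh := by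
  obtain ⟨F, G, hG, e⟩ := mem_locAt'.mp hg
  have hG0 : algebraMap S K G ≠ 0 := amap_ne_zero (fun h0 => hG (h0 ▸ dvd_zero h))
  have h1 := congrArg (extD K d) e
  rw [Derivation.leibniz, extD_apply, extD_apply, smul_eq_mul, smul_eq_mul] at h1
  have h2 : extD K d g = (algebraMap S K (d F) - g * algebraMap S K (d G)) * (algebraMap S K G)⁻¹ := by
    field_simp
    linear_combination h1
  rw [h2]
  exact Subalgebra.mul_mem _ (Subalgebra.sub_mem _ (Subalgebra.algebraMap_mem _ _)
    (Subalgebra.mul_mem _ hg (Subalgebra.algebraMap_mem _ _))) (inv_mem_locAt hG)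

/-- conjugation of a derivation by an automorphism -/
noncomputable def conjD {K : Type} [Field K] [Algebra ℂ K] (e : K ≃ₐ[ℂ] K) (D : Derivation ℂ K K) :
    Derivation ℂ K K :=
  Derivation.mk' (e.symm.toLinearMap ∘ₗ (D : K →ₗ[ℂ] K) ∘ₗ e.toLinearMap) (by
    intro a b
    change e.symm (D (e (a * b))) = a • e.symm (D (e b)) + b • e.symm (D (e a))
    rw [map_mul, Derivation.leibniz, map_add, smul_eq_mul, smul_eq_mul, map_mul, map_mul,
      AlgEquiv.symm_apply_apply, AlgEquiv.symm_apply_apply, smul_eq_mul, smul_eq_mul])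

theorem conjD_apply {K : Type} [Field K] [Algebra ℂ K] (e : K ≃ₐ[ℂ] K) (D : Derivation ℂ K K) (g : K) :
    e (conjD e D g) = D (e g) := by
  change e (e.symm (D (e g))) = D (e g)
  rw [AlgEquiv.apply_symm_apply]

/-- the three basic derivations of `ℂ[z, x, Y]` -/
noncomputable def dY : Derivation ℂ P3 P3 :=
  Derivation.restrictScalars ℂ (Polynomial.derivative' : Derivation R2 P3 P3)

noncomputable def dx' : Derivation ℂ R2 R2 :=
  Derivation.restrictScalars ℂ (Polynomial.derivative' : Derivation R1 R2 R2)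

noncomputable def dx : Derivation ℂ P3 P3 := coefD dx'

noncomputable def dz' : Derivation ℂ R1 R1 := (Polynomial.derivative' : Derivation ℂ ℂ[X] ℂ[X])

noncomputable def dz : Derivation ℂ P3 P3 := coefD (coefD dz')

theorem dz'_vz : dz' vz = 1 := Polynomial.derivative_X
theorem dz'_kc (c : ℂ) : dz' (kc c) = 0 := Polynomial.derivative_C

theorem dY_X : dY X = 1 := Polynomial.derivative_X
theorem dY_C (r : R2) : dY (C r) = 0 := Polynomial.derivative_C
theorem dx_X : dx X = 0 := coefD_X _
theorem dx_C (r : R2) : dx (C r) = C (dx' r) := coefD_C _ _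
theorem dx'_X : dx' X = 1 := Polynomial.derivative_X
theorem dx'_C (r : R1) : dx' (C r) = 0 := Polynomial.derivative_C
theorem dz_X : dz X = 0 := coefD_X _
theorem dz_CX : dz (C X) = 0 := by rw [dz, coefD_C, coefD_X, C_0]
theorem dz_Cz : dz (C zz) = 1 := by rw [dz, coefD_C, zz, coefD_C, dz'_vz, C_1, C_1]

section forms

variable {K : Type} [Field K] [Algebra ℂ K]

/-- the form `da ∧ db ∧ dc` -/
noncomputable def wd (a b c : K) : ⋀[K]^3 (Ω[K⁄ℂ]) :=
  exteriorPower.ιMulti K 3 ![KaehlerDifferential.D ℂ K a, KaehlerDifferential.D ℂ K b,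
    KaehlerDifferential.D ℂ K c]

/-- the linear form on three-forms attached to three derivations -/
noncomputable def evalForm (D : Fin 3 → Derivation ℂ K K) : ⋀[K]^3 (Ω[K⁄ℂ]) →ₗ[K] K :=
  exteriorPower.alternatingMapLinearEquiv
    ((Matrix.detRowAlternating (R := K) (n := Fin 3)).compLinearMap
      (LinearMap.pi fun i => (D i).liftKaehlerDifferential))

theorem evalForm_wd (D : Fin 3 → Derivation ℂ K K) (a b c : K) :
    evalForm D (wd a b c) = Matrix.det (Matrix.of ![fun i => D i a, fun i => D i b, fun i => D i c]) := by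
  unfold evalForm wd
  rw [exteriorPower.alternatingMapLinearEquiv_apply_ιMulti, AlternatingMap.compLinearMap_apply]
  change Matrix.det _ = _
  congr 1
  ext i j
  fin_cases i <;> simp [Derivation.liftKaehlerDifferential_comp_D]

/-- if `A` and the three derivations preserve a subring `V`, then regular forms have coefficients
in `V` up to the value on `ω₀` -/
theorem evalForm_mem {A : Type} [CommRing A] [Algebra A K] (V : Subring K) (hA : ∀ a : A, algebraMap A K a ∈ V)
    (D : Fin 3 → Derivation ℂ K K) (hD : ∀ i, ∀ g ∈ V, D i g ∈ V) (η : ⋀[K]^3 (Ω[K⁄ℂ]))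
    (hη : η ∈ regularForms A K) : evalForm D η ∈ V := by
  induction hη using AddSubgroup.closure_induction with
  | mem η hη =>
    obtain ⟨e, a, b, c, rfl⟩ := hη
    rw [map_smul, smul_eq_mul]
    refine V.mul_mem (hA e) ?_
    have := evalForm_wd D (algebraMap A K a) (algebraMap A K b) (algebraMap A K c)
    unfold wd at this
    rw [this, Matrix.det_fin_three]
    simp only [Matrix.of_apply, Matrix.cons_val_zero, Matrix.cons_val_one, Matrix.cons_val]
    have h := fun (i : Fin 3) (a : A) => hD i _ (hA a)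
    exact V.sub_mem (V.add_mem (V.add_mem (V.sub_mem (V.sub_mem
      (V.mul_mem (V.mul_mem (h _ _) (h _ _)) (h _ _)) (V.mul_mem (V.mul_mem (h _ _) (h _ _)) (h _ _)))
      (V.mul_mem (V.mul_mem (h _ _) (h _ _)) (h _ _))) (V.mul_mem (V.mul_mem (h _ _) (h _ _)) (h _ _)))
      (V.mul_mem (V.mul_mem (h _ _) (h _ _)) (h _ _))) (V.mul_mem (V.mul_mem (h _ _) (h _ _)) (h _ _))
  | zero => rw [map_zero]; exact V.zero_mem
  | add x y _ _ hx hy => rw [map_add]; exact V.add_mem hx hy
  | neg x _ hx => rw [map_neg]; exact V.neg_mem hx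

theorem formCoeffs_eval {A : Type} [CommRing A] [Algebra A K] (V : Subring K)
    (hA : ∀ a : A, algebraMap A K a ∈ V) (D : Fin 3 → Derivation ℂ K K)
    (hD : ∀ i, ∀ g ∈ V, D i g ∈ V) (ω₀ : ⋀[K]^3 (Ω[K⁄ℂ])) {f : K} (hf : f ∈ formCoeffs A ω₀) :
    f * evalForm D ω₀ ∈ V := by
  have := evalForm_mem V hA D hD _ hf
  rwa [map_smul, smul_eq_mul] at this

/-- powers -/
theorem formCoeffs_pow_eval {A : Type} [CommRing A] [Algebra A K] (V : Subring K)
    (hA : ∀ a : A, algebraMap A K a ∈ V) (D : Fin 3 → Derivation ℂ K K)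
    (hD : ∀ i, ∀ g ∈ V, D i g ∈ V) (ω₀ : ⋀[K]^3 (Ω[K⁄ℂ])) (n : ℕ) :
    ∀ f ∈ (formCoeffs A ω₀) ^ n, f * (evalForm D ω₀) ^ n ∈ V := by
  induction n with
  | zero =>
    intro f hf
    rw [pow_zero] at hf
    obtain ⟨a, rfl⟩ := Submodule.mem_one.mp hf
    rw [pow_zero, mul_one]
    exact hA a
  | succ n ih =>
    intro f hf
    rw [pow_succ] at hf
    refine Submodule.mul_induction_on hf ?_ ?_
    · intro a ha b hb
      have : a * b * evalForm D ω₀ ^ (n + 1) = (a * evalForm D ω₀ ^ n) * (b * evalForm D ω₀) := by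
        rw [pow_succ]; ring
      rw [this]
      exact V.mul_mem (ih a ha) (formCoeffs_eval V hA D hD ω₀ hb)
    · intro a b ha hb
      rw [add_mul]
      exact V.add_mem ha hb

end forms

end Pool.Agent.V5helper94.Kol
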