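import Pool.Agent.V5helper94.Kol.Chart3

/-!
# Smoothness of the ring of the arrangement away from `z = 0`
-/

set_option linter.unusedSectionVars false
set_option linter.unusedVariables false

namespace Pool.Agent.V5helper94.Kol

open Polynomial nonZeroDivisors

/-- criterion for an injective ring homomorphism to be a localisation away from an element -/
theorem smooth_of_away {S T : Type} [CommRing S] [CommRing T] (θ : S →+* T)
    (hinj : Function.Injective θ) (h : S) (hu : IsUnit (θ h))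
    (hs : ∀ t : T, ∃ (s : S) (n : ℕ), t * θ h ^ n = θ s) : θ.Smooth := by
  algebraize [θ]
  have hloc : IsLocalization.Away h T := by
    refine IsLocalization.Away.mk h hu (fun t => ?_) (fun a b hab => ⟨0, ?_⟩)
    · obtain ⟨s, n, e⟩ := hs t
      exact ⟨n, s, e⟩
    · rw [pow_zero, one_mul, one_mul]
      exact hinj hab
  exact RingHom.Smooth.holdsForLocalizationAway T h

theorem C_smooth {S : Type} [CommRing S] : (C : S →+* S[X]).Smooth := by
  have : Algebra.Smooth S S[X] := ⟨inferInstance, inferInstance⟩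
  exact (RingHom.smooth_algebraMap (R := S) (S := S[X])).mpr this

theorem toR1_smooth : (toR1 : ℂ[X] →+* R1).Smooth :=
  RingHom.Smooth.of_bijective toR1.bijective

variable {ι : Type} [Fintype ι] [DecidableEq ι] (p q : ι → ℂ)
variable {K : Type} [Field K] [Algebra P3 K] [IsFractionRing P3 K] [Algebra ℂ K] [IsScalarTower ℂ P3 K]

/-- smoothness of a chart -/
theorem smooth_chart {T : Type} [CommRing T] (j : T →+* K) (hj : Function.Injective j)
    (φ : ℂ[X] →+* T) (hφ : ∀ F, j (φ F) = em K (C (C (toR1 F)))) (θ : P3 →+* T)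
    (hθ : ∀ r : R1, j (θ (C (C r))) = em K (C (C r))) (hinj : Function.Injective θ) (h : P3)
    (hu : IsUnit (θ h)) (hs : ∀ t : T, ∃ (s : P3) (n : ℕ), t * θ h ^ n = θ s) : φ.Smooth := by
  have h1 : φ = (θ.comp (C.comp C)).comp (toR1 : ℂ[X] →+* R1) := by
    refine RingHom.ext fun F => hj ?_
    rw [hφ]
    exact (hθ (toR1 F)).symm
  rw [h1]
  exact toR1_smooth.comp ((C_smooth.comp C_smooth).comp (smooth_of_away θ hinj h hu hs))

variable (K) in
/-- extension of `lam` to the field -/
noncomputable def kap {α : ℂ × ℂ} {i : ι} (h : onL p q α i) : K →+* K :=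
  IsFractionRing.lift (g := (em K).comp (lam α (p i))) ((em_injective K).comp (lam_injective p q h))

theorem kap_em {α : ℂ × ℂ} {i : ι} (h : onL p q α i) (F : P3) :
    kap p q K h (em K F) = em K (lam α (p i) F) := IsFractionRing.lift_algebraMap _ _

theorem kap_tht {α : ℂ × ℂ} {i : ι} (h : onL p q α i) (F : P3) :
    kap p q K h (tht p q K α i F) = em K F := by
  have hX : em K (C X) ≠ 0 := em_ne_zero CX_prime.ne_zero
  have h1 : (kap p q K h).comp (tht p q K α i) = em K := by
    refine P3_hom_ext (fun r => ?_) ?_ ?_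
    · rw [RingHom.comp_apply, tht_CC, kap_em, lam_CC]
    · rw [RingHom.comp_apply, tht_CX, kap_em, lam_lf p q h]
    · rw [RingHom.comp_apply, tht_X, map_mul, map_inv₀, kap_em, kap_em, lam_lf p q h, lam_bb, map_mul]
      field_simp
  exact congrArg (fun φ : P3 →+* K => φ F) h1

theorem tht_injective {α : ℂ × ℂ} {i : ι} (h : onL p q α i) : Function.Injective (tht p q K α i) := by
  intro a b hab
  apply em_injective K
  rw [← kap_tht p q h, hab, kap_tht p q h]

theorem tht_lam' {α : ℂ × ℂ} {i : ι} (h : onL p q α i) (F : P3) :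
    tht p q K α i (lam α (p i) F) = em K F :=
  congrArg (fun φ : P3 →+* K => φ F) (tht_lam p q (K := K) h)

/-- the quotient of two planes through `α` -/
theorem offP_mul_mem (hp : Function.Injective p) {α : ℂ × ℂ} {i : ι} (hα : α ∈ pts p q)
    (h : onL p q α i) (F : P3) (hF : C (bb α.1) ∣ sub α F) :
    em K (offP p q α) * (em K F * (em K (lf p q i))⁻¹) ∈ BB p q K := by
  have h0 : em K (lf p q i) ≠ 0 := em_ne_zero (lf_ne_zero p q i)
  constructor
  · rw [mem_awayAt]
    obtain ⟨G, hG⟩ : lf p q i ∣ PP p q := Finset.dvd_prod_of_mem _ (Finset.mem_univ i)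
    refine ⟨offP p q α * F * G, 1, ?_⟩
    rw [pow_one, hG, map_mul, map_mul, map_mul]
    change _ * (em K (lf p q i) * em K G) = em K (offP p q α) * em K F * em K G
    field_simp
  · intro β hβ
    by_cases hi : onL p q β i
    · by_cases hαβ : β = α
      · subst hαβ
        rw [map_mul]
        refine Subalgebra.mul_mem _ (hsub_em_mem _) ?_
        obtain ⟨H, hH⟩ := hF
        rw [map_mul, map_inv₀, hsub_em, hsub_em, hH, sub_lf_on p q hi, map_mul, map_mul]
        have hb : em K (C (bb β.1)) ≠ 0 := em_ne_zero (Cbb_prime _).ne_zero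
        have : em K (C (bb β.1)) * em K H * (em K (C (bb β.1)) * em K (X + C (cc (p i))))⁻¹ =
            em K H * (em K (X + C (cc (p i))))⁻¹ := by field_simp
        rw [this]
        exact Subalgebra.mul_mem _ (Subalgebra.algebraMap_mem _ _) (inv_mem_locAt (not_Cbb_dvd_lin _ _))
      · obtain ⟨l, hl1, hl2⟩ : ∃ l, onL p q β l ∧ ¬ onL p q α l := by
          by_contra hcon
          push Not at hcon
          obtain ⟨k, l, hkl, hk, hl⟩ := (mem_pts p q hp).mp hβ
          exact hαβ ((eq_ipt p q hp hkl hk hl).trans (eq_ipt p q hp hkl (hcon k hk) (hcon l hl)).symm)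
        obtain ⟨G, hG⟩ := lf_dvd_offP p q hl2
        have : em K (offP p q α) * (em K F * (em K (lf p q i))⁻¹) =
            em K (G * F) * (em K (lf p q l) * (em K (lf p q i))⁻¹) := by
          rw [hG, map_mul, map_mul]; ring
        rw [this, map_mul]
        exact Subalgebra.mul_mem _ (hsub_em_mem _) (hsub_lf_div p q fun _ => hl1)
    · rw [map_mul, map_mul, map_inv₀]
      refine Subalgebra.mul_mem _ (hsub_em_mem _) (Subalgebra.mul_mem _ (hsub_em_mem _) ?_)
      rw [hsub_em]
      exact inv_mem_locAt (sub_lf_off p q hi)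

variable (K) in
/-- the ring `B[1/z]` -/
noncomputable def S1 : Subalgebra (BB p q K) K := awayAt K (tz p q K) (tz_ne_zero p q)

theorem mem_S1 {g : K} : g ∈ S1 p q K ↔ ∃ n : ℕ, g * em K (C zz) ^ n ∈ BB p q K := by
  rw [S1, mem_awayAt]
  constructor
  · rintro ⟨F, n, e⟩
    refine ⟨n, ?_⟩
    have : g * em K (C zz) ^ n = F.1 := e
    rw [this]; exact F.2
  · rintro ⟨n, h⟩
    exact ⟨⟨_, h⟩, n, rfl⟩

theorem BB_le_S1 {g : K} (h : g ∈ BB p q K) : g ∈ S1 p q K := (mem_S1 p q).mpr ⟨0, by simpa using h⟩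

/-- an element of `P3` in `B[1/z]` -/
noncomputable def eS (F : P3) : S1 p q K := ⟨em K F, BB_le_S1 p q (em_mem p q F)⟩

theorem eS_ne_zero {F : P3} (h : F ≠ 0) : eS p q F ≠ (0 : S1 p q K) := by
  intro h0
  exact em_ne_zero (K := K) h (congrArg Subtype.val h0)

/-- `P3 → B[1/z]` as a ring homomorphism -/
noncomputable def eSh : P3 →+* S1 p q K where
  toFun := eS p q
  map_one' := Subtype.ext (map_one (em K))
  map_mul' a b := Subtype.ext (map_mul (em K) a b)
  map_zero' := Subtype.ext (map_zero (em K))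
  map_add' a b := Subtype.ext (map_add (em K) a b)

variable (K) in
/-- the ring `B[1/(z f)]` -/
noncomputable def T1 (f : P3) (hf : f ≠ 0) : Subalgebra (S1 p q K) K :=
  awayAt K (eS p q f : S1 p q K) (eS_ne_zero p q hf)

theorem mem_T1 {f : P3} {hf : f ≠ 0} {g : K} :
    g ∈ T1 p q K f hf ↔ ∃ n m : ℕ, g * em K f ^ n * em K (C zz) ^ m ∈ BB p q K := by
  rw [T1, mem_awayAt]
  constructor
  · rintro ⟨F, n, e⟩
    obtain ⟨m, hm⟩ := (mem_S1 p q).mp F.2
    refine ⟨n, m, ?_⟩
    have : g * em K f ^ n = F.1 := e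
    rw [this]; exact hm
  · rintro ⟨n, m, h⟩
    exact ⟨⟨g * em K f ^ n, (mem_S1 p q).mpr ⟨m, h⟩⟩, n, rfl⟩

theorem em_mem_T1 {f : P3} {hf : f ≠ 0} (F : P3) : em K F ∈ T1 p q K f hf :=
  (mem_T1 p q).mpr ⟨0, 0, by simpa using em_mem p q F⟩

theorem BB_le_T1 {f : P3} {hf : f ≠ 0} {g : K} (h : g ∈ BB p q K) : g ∈ T1 p q K f hf :=
  (mem_T1 p q).mpr ⟨0, 0, by simpa using h⟩

theorem inv_f_mem_T1 {f : P3} {hf : f ≠ 0} : (em K f)⁻¹ ∈ T1 p q K f hf := by
  have h0 : em K f ≠ 0 := em_ne_zero hf
  refine (mem_T1 p q).mpr ⟨1, 0, ?_⟩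
  rw [pow_one, pow_zero, mul_one, inv_mul_cancel₀ h0]
  exact one_mem _

theorem inv_z_mem_T1 {f : P3} {hf : f ≠ 0} : (em K (C zz))⁻¹ ∈ T1 p q K f hf := by
  have h0 : em K (C zz) ≠ 0 := em_ne_zero Czz_prime.ne_zero
  refine (mem_T1 p q).mpr ⟨0, 1, ?_⟩
  rw [pow_one, pow_zero, mul_one, inv_mul_cancel₀ h0]
  exact one_mem _

/-- the structure map of `B[1/z]` -/
noncomputable def str : ℂ[X] →+* S1 p q K :=
  (algebraMap (BB p q K) (S1 p q K)).comp
    (Polynomial.aeval (R := ℂ) (tz p q K) : ℂ[X] →ₐ[ℂ] BB p q K).toRingHom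

theorem isUnit_of_inv {T : Type} {S : Type} [CommRing S] [Algebra S K] (T : Subalgebra S K) {g : K}
    (hg : g ∈ T) (h0 : g ≠ 0) (hi : g⁻¹ ∈ T) : IsUnit (⟨g, hg⟩ : T) := by
  refine IsUnit.of_mul_eq_one ⟨g⁻¹, hi⟩ ?_
  exact Subtype.ext (mul_inv_cancel₀ h0)

theorem S1_loc : IsLocalization.Away (tz p q K) (S1 p q K) := by
  have hz0 : em K (C zz) ≠ 0 := em_ne_zero Czz_prime.ne_zero
  refine IsLocalization.Away.mk _ ?_ ?_ ?_
  · have hinv : (em K (C zz))⁻¹ ∈ S1 p q K := (mem_S1 p q).mpr ⟨1, by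
      rw [pow_one, inv_mul_cancel₀ hz0]; exact one_mem _⟩
    refine IsUnit.of_mul_eq_one ⟨_, hinv⟩ ?_
    exact Subtype.ext (mul_inv_cancel₀ hz0)
  · intro s
    obtain ⟨n, h⟩ := (mem_S1 p q).mp s.2
    exact ⟨n, ⟨_, h⟩, Subtype.ext rfl⟩
  · intro a b hab
    have e : a = b := Subtype.ext (congrArg (fun x : S1 p q K => (x : K)) hab)
    exact ⟨0, by rw [e]⟩

theorem T1_loc (f : P3) (hf : f ≠ 0) : IsLocalization.Away (eS p q f : S1 p q K) (T1 p q K f hf) := by
  have h0 : em K f ≠ 0 := em_ne_zero hf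
  refine IsLocalization.Away.mk _ ?_ ?_ ?_
  · refine IsUnit.of_mul_eq_one ⟨_, inv_f_mem_T1 p q⟩ ?_
    exact Subtype.ext (mul_inv_cancel₀ h0)
  · intro s
    obtain ⟨n, m, h⟩ := (mem_T1 p q).mp s.2
    exact ⟨n, ⟨_, (mem_S1 p q).mpr ⟨m, h⟩⟩, Subtype.ext rfl⟩
  · intro a b hab
    have e : a = b := Subtype.ext (congrArg (fun x : T1 p q K f hf => (x : K)) hab)
    exact ⟨0, by rw [e]⟩

/-- the chart off all the planes -/
theorem smooth_PP : RingHom.Smooth (R := ℂ[X]) (S := T1 p q K (PP p q) (PP_ne_zero p q))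
    ((algebraMap (S1 p q K) (T1 p q K (PP p q) (PP_ne_zero p q))).comp (str p q)) := by
  have hz0 : em K (C zz) ≠ 0 := em_ne_zero Czz_prime.ne_zero
  have hP0 : em K (PP p q) ≠ 0 := em_ne_zero (PP_ne_zero p q)
  refine smooth_chart (K := K) (T1 p q K (PP p q) (PP_ne_zero p q)).val.toRingHom Subtype.val_injective _
    (fun F => aeval_tz p q F)
    ((algebraMap (S1 p q K) (T1 p q K (PP p q) (PP_ne_zero p q))).comp (eSh p q))
    (fun r => rfl) ?_ (C zz * PP p q) ?_ ?_
  · intro a b hab
    exact em_injective K (congrArg Subtype.val hab)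
  · refine isUnit_of_inv (T := ℂ) (T1 p q K (PP p q) (PP_ne_zero p q)) (g := em K (C zz * PP p q))
      (em_mem_T1 p q _) ?_ ?_
    · rw [map_mul]; exact mul_ne_zero hz0 hP0
    · rw [map_mul, mul_inv]
      exact mul_mem (inv_z_mem_T1 p q) (inv_f_mem_T1 p q)
  · intro t
    obtain ⟨n, m, h⟩ := (mem_T1 p q).mp t.2
    obtain ⟨F, k, e⟩ := mem_awayAt.mp h.1
    refine ⟨F * C zz ^ (n + k) * PP p q ^ m, n + k + m, Subtype.ext ?_⟩
    change t.1 * em K (C zz * PP p q) ^ (n + k + m) = em K (F * C zz ^ (n + k) * PP p q ^ m)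
    change t.1 * em K (PP p q) ^ n * em K (C zz) ^ m * em K (PP p q) ^ k = em K F at e
    rw [map_mul, map_mul, map_mul, map_pow, map_pow, ← e]
    ring

open Classical in
/-- the planes through `α` different from `i` -/
noncomputable def onS (α : ℂ × ℂ) (i : ι) : Finset ι := (Finset.univ.filter (fun l => onL p q α l)).erase i

theorem PP_eq {α : ℂ × ℂ} {i : ι} (h : onL p q α i) :
    PP p q = offP p q α * (lf p q i * ∏ l ∈ onS p q α i, lf p q l) := by
  classical
  unfold PP onS offP
  rw [Finset.mul_prod_erase _ _ (by simp [h]), mul_comm]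
  exact (Finset.prod_filter_mul_prod_filter_not _ _ _).symm

theorem mem_onS {α : ℂ × ℂ} {i l : ι} : l ∈ onS p q α i ↔ l ≠ i ∧ onL p q α l := by
  classical
  simp [onS]

/-- the chart at a multiple line -/
theorem smooth_off (hp : Function.Injective p) {α : ℂ × ℂ} (hα : α ∈ pts p q) :
    RingHom.Smooth (R := ℂ[X]) (S := T1 p q K (offP p q α) (offP_ne_zero p q α))
    ((algebraMap (S1 p q K) (T1 p q K (offP p q α) (offP_ne_zero p q α))).comp (str p q)) := by
  obtain ⟨i, _, _, h, _⟩ := (mem_pts p q hp).mp hα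
  set f := offP p q α with hf
  have hf0 : f ≠ 0 := offP_ne_zero p q α
  have hz0 : em K (C zz) ≠ 0 := em_ne_zero Czz_prime.ne_zero
  have hF0 : em K f ≠ 0 := em_ne_zero hf0
  have hl0 : ∀ l, em K (lf p q l) ≠ 0 := fun l => em_ne_zero (lf_ne_zero p q l)
  -- quotients
  have hquot : ∀ (F : P3) (l : ι), C (bb α.1) ∣ sub α F → onL p q α l →
      em K F * (em K (lf p q l))⁻¹ ∈ T1 p q K f hf0 := by
    intro F l hF hl
    refine (mem_T1 p q).mpr ⟨1, 0, ?_⟩
    rw [pow_zero, mul_one, pow_one, mul_comm]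
    exact offP_mul_mem p q hp hα hl F hF
  have hsubl : ∀ l, onL p q α l → C (bb α.1) ∣ sub α (lf p q l) := fun l hl => by
    rw [sub_lf_on p q hl]; exact dvd_mul_right _ _
  -- the map
  have hmem : ∀ F : P3, tht p q K α i F ∈ T1 p q K f hf0 := by
    intro F
    have h1 : ∀ r : R2, tht p q K α i (C r) ∈ T1 p q K f hf0 := by
      intro r
      induction r using Polynomial.induction_on with
      | C r => rw [tht_CC]; exact em_mem_T1 p q _
      | add a b ha hb => rw [C_add, map_add]; exact add_mem ha hb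
      | monomial n r h2 =>
        rw [pow_succ, ← mul_assoc, C_mul, map_mul, tht_CX]
        exact mul_mem h2 (em_mem_T1 p q _)
    induction F using Polynomial.induction_on with
    | C r => exact h1 r
    | add a b ha hb => rw [map_add]; exact add_mem ha hb
    | monomial n r h2 =>
      rw [pow_succ, ← mul_assoc, map_mul _ (C r * X ^ n), tht_X]
      exact mul_mem h2 (hquot _ _ (by rw [sub_C]) h)
  let θ : P3 →+* T1 p q K f hf0 :=
    { toFun := fun F => ⟨tht p q K α i F, hmem F⟩
      map_one' := Subtype.ext (map_one _)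
      map_mul' := fun a b => Subtype.ext (map_mul _ a b)
      map_zero' := Subtype.ext (map_zero _)
      map_add' := fun a b => Subtype.ext (map_add _ a b) }
  -- the element to be inverted
  set g1 : P3 := ∏ l ∈ onS p q α i, (1 + C (cc (p l - p i)) * X) with hg1
  have hthl : ∀ l, onL p q α l → tht p q K α i (1 + C (cc (p l - p i)) * X) =
      em K (lf p q l) * (em K (lf p q i))⁻¹ := by
    intro l hl
    have e1 := tht_lam' p q (K := K) h (lf p q l)
    rw [lam_lf' p q h hl, map_mul _ (C X), tht_CX] at e1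
    rw [← e1]
    have := hl0 i
    field_simp
  have hg1v : tht p q K α i g1 = ∏ l ∈ onS p q α i, (em K (lf p q l) * (em K (lf p q i))⁻¹) := by
    rw [hg1, map_prod]
    exact Finset.prod_congr rfl fun l hl => hthl l ((mem_onS p q).mp hl).2
  have hg1u : tht p q K α i g1 ≠ 0 ∧ (tht p q K α i g1)⁻¹ ∈ T1 p q K f hf0 := by
    rw [hg1v]
    constructor
    · exact Finset.prod_ne_zero_iff.mpr fun l _ => mul_ne_zero (hl0 l) (inv_ne_zero (hl0 i))
    · rw [← Finset.prod_inv_distrib]
      refine Subalgebra.prod_mem _ fun l hl => ?_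
      rw [mul_inv, inv_inv, mul_comm]
      exact hquot _ _ (hsubl i h) ((mem_onS p q).mp hl).2
  set hh : P3 := lam α (p i) (C zz * f) * g1 with hhh
  have hhv : tht p q K α i hh = em K (C zz) * em K f * tht p q K α i g1 := by
    rw [hhh, map_mul, tht_lam' p q h, map_mul]
  refine smooth_chart (K := K) (T1 p q K f hf0).val.toRingHom Subtype.val_injective _
    (fun F => aeval_tz p q F) θ (fun r => tht_CC p q α i r) ?_ hh ?_ ?_
  · intro a b hab
    exact tht_injective p q (K := K) h (congrArg Subtype.val hab)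
  · refine isUnit_of_inv (T := ℂ) (T1 p q K f hf0) (g := tht p q K α i hh) (hmem hh) ?_ ?_
    · rw [hhv]; exact mul_ne_zero (mul_ne_zero hz0 hF0) hg1u.1
    · rw [hhv, mul_inv, mul_inv]
      exact mul_mem (mul_mem (inv_z_mem_T1 p q) (inv_f_mem_T1 p q)) hg1u.2
  · intro t
    obtain ⟨n, m, hb⟩ := (mem_T1 p q).mp t.2
    obtain ⟨F, k, e⟩ := mem_awayAt.mp hb.1
    set G := t.1 * em K f ^ n * em K (C zz) ^ m with hG
    change G * em K (PP p q) ^ k = em K F at e
    have hP0 : em K (PP p q) ≠ 0 := em_ne_zero (PP_ne_zero p q)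
    have hden : den p q (fun _ => k) = PP p q ^ k := by
      unfold den PP
      rw [Finset.prod_pow]; rfl
    have hG2 : G = em K F * (em K (den p q (fun _ => k)))⁻¹ := by
      rw [hden, map_pow, ← e]; field_simp
    have hdiv := (hsub_div_mem_iff (K := K) p q (fun _ => k) α F 0).mp (by
      rw [← hG2, pow_zero, one_mul]; exact hb.2 α hα)
    rw [pow_zero, one_mul] at hdiv
    have hsum : ∑ l, mu p q α l * k = ((onS p q α i).card + 1) * k := by
      classical
      rw [← Finset.sum_mul]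
      congr 1
      have : ∑ l, mu p q α l = (Finset.univ.filter (fun l => onL p q α l)).card := by
        simp [mu]
      rw [this]
      unfold onS
      rw [Finset.card_erase_add_one (by simp [h])]
    rw [hsum] at hdiv
    obtain ⟨H, hH⟩ := pow_dvd_lam α (p i) F _ hdiv
    -- `tht H = G * f^k * g1^k`
    have hkey : tht p q K α i H = G * em K f ^ k * (tht p q K α i g1) ^ k := by
      have e1 := tht_lam' p q (K := K) h F
      rw [hH, map_mul _ (C X ^ _), map_pow, tht_CX, ← e, PP_eq p q h, map_mul, map_mul, map_prod] at e1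
      rw [hg1v, Finset.prod_mul_distrib, Finset.prod_const]
      have h5 := hl0 i
      have h6 : em K (lf p q i) ^ (((onS p q α i).card + 1) * k) ≠ 0 := pow_ne_zero _ h5
      apply mul_left_cancel₀ h6
      rw [e1]
      generalize (∏ l ∈ onS p q α i, em K (lf p q l)) = A
      rw [pow_mul]
      simp only [mul_pow, ← hf]
      have h7 : (em K (lf p q i) ^ ((onS p q α i).card + 1)) ^ k =
        em K (lf p q i) ^ k * (em K (lf p q i) ^ (onS p q α i).card) ^ k := by
        rw [← mul_pow, pow_succ, mul_comm (em K (lf p q i))]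
      rw [h7]
      have h8 : (em K (lf p q i) ^ (onS p q α i).card) ^ k ≠ 0 := pow_ne_zero _ (pow_ne_zero _ h5)
      have h9 : ((em K (lf p q i))⁻¹ ^ (onS p q α i).card) ^ k =
        ((em K (lf p q i) ^ (onS p q α i).card) ^ k)⁻¹ := by
        rw [inv_pow, inv_pow]
      rw [h9]
      field_simp
    refine ⟨H * lam α (p i) (C zz) ^ (n + k) * lam α (p i) f ^ m * g1 ^ (n + m), n + k + m,
      Subtype.ext ?_⟩
    change t.1 * tht p q K α i hh ^ (n + k + m) = tht p q K α i _
    rw [hhv, map_mul, map_mul, map_mul _ H, map_pow, map_pow, map_pow, tht_lam' p q h, tht_lam' p q h,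
      hkey, hG]
    ring

theorem str_smooth [Nontrivial ι] (hp : Function.Injective p) : (str p q (K := K)).Smooth := by
  refine RingHom.OfLocalizationSpanTarget.ofIsLocalization RingHom.Smooth.ofLocalizationSpanTarget
    RingHom.Smooth.respectsIso _
    ({eS p q (PP p q)} ∪ (fun α => eS p q (offP p q α)) '' (pts p q : Set (ℂ × ℂ))) ?_ ?_
  · by_contra hne
    obtain ⟨M, hM, hle⟩ := Ideal.exists_le_maximal _ hne
    have hprime := hM.isPrime
    have hc : (M.comap (eSh p q (K := K))).IsPrime := Ideal.comap_isPrime _ _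
    have hz : C zz ∉ M.comap (eSh p q (K := K)) := by
      intro h
      rw [Ideal.mem_comap] at h
      apply hprime.ne_top
      rw [Ideal.eq_top_iff_one]
      have hz0 : em K (C zz) ≠ 0 := em_ne_zero Czz_prime.ne_zero
      have hinv : (em K (C zz))⁻¹ ∈ S1 p q K := (mem_S1 p q).mpr ⟨1, by
        rw [pow_one, inv_mul_cancel₀ hz0]; exact one_mem _⟩
      have : (1 : S1 p q K) = ⟨_, hinv⟩ * eSh p q (C zz) := Subtype.ext (inv_mul_cancel₀ hz0).symm
      rw [this]
      exact M.mul_mem_left _ h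
    rcases chart_cover p q hp (M.comap (eSh p q (K := K))) hz with h | ⟨α, hα, h⟩
    · exact h (hle (Ideal.subset_span (Or.inl rfl)))
    · exact h (hle (Ideal.subset_span (Or.inr ⟨α, hα, rfl⟩)))
  · rintro ⟨r, hr⟩
    rcases hr with rfl | ⟨α, hα, rfl⟩
    · exact ⟨T1 p q K (PP p q) (PP_ne_zero p q), inferInstance, inferInstance, T1_loc p q _ _,
        smooth_PP p q⟩
    · exact ⟨T1 p q K (offP p q α) (offP_ne_zero p q α), inferInstance, inferInstance, T1_loc p q _ _,
        smooth_off p q hp hα⟩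

/-- smoothness of `B[1/z]` over `ℂ[z]`, for the abstract localisation -/
theorem BB_smooth [Nontrivial ι] (hp : Function.Injective p) :
    ((algebraMap (BB p q K) (Localization.Away (tz p q K))).comp
    (Polynomial.aeval (R := ℂ) (tz p q K) : ℂ[X] →ₐ[ℂ] BB p q K).toRingHom).Smooth := by
  have hloc := S1_loc p q (K := K)
  let e := IsLocalization.algEquiv (Submonoid.powers (tz p q K)) (S1 p q K)
    (Localization.Away (tz p q K))
  have h1 : (algebraMap (BB p q K) (Localization.Away (tz p q K))).comp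
    (Polynomial.aeval (R := ℂ) (tz p q K) : ℂ[X] →ₐ[ℂ] BB p q K).toRingHom =
      (e : S1 p q K →+* _).comp (str p q) := by
    rw [str, ← RingHom.comp_assoc]
    congr 1
    ext x
    exact (e.commutes x).symm
  rw [h1]
  exact RingHom.Smooth.comp (str_smooth p q hp) (RingHom.Smooth.of_bijective e.bijective)

theorem BB_isSmoothing [Nontrivial ι] (hp : Function.Injective p) :
    IsSmoothing (BB p q K) (tz p q K) where
  isDomain := inferInstance
  finiteType := BB_finiteType p q hp
  normal := BB_isIntegrallyClosed p q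
  flat := BB_flat p q
  smooth := BB_smooth p q hp

end Pool.Agent.V5helper94.Kol
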