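import Pool.Agent.V5helper94.Kol.Norm

/-!
# Transcendence degree of the ring of the arrangement
-/

set_option linter.unusedSectionVars false
set_option linter.unusedVariables false
set_option linter.unusedSimpArgs false

namespace Pool.Agent.V5helper94.Kol

open Polynomial Algebra

theorem trdeg_R1 : Algebra.trdeg ℂ R1 = 1 := (Polynomial.trdeg_of_isDomain : Algebra.trdeg ℂ ℂ[X] = 1)

theorem trdeg_P3 : Algebra.trdeg ℂ P3 = 3 := by
  have : FaithfulSMul ℂ R1 := (faithfulSMul_iff_algebraMap_injective ℂ R1).mpr kc_injective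
  have : NoZeroDivisors R1 := inferInstance
  have h1 := trdeg_add_eq ℂ R1 (A := R2)
  have h2 := trdeg_add_eq ℂ R2 (A := P3)
  rw [Polynomial.trdeg_of_isDomain, trdeg_R1] at h1
  rw [Polynomial.trdeg_of_isDomain, ← h1] at h2
  rw [← h2]
  norm_num

variable {K : Type} [Field K] [Algebra P3 K] [IsFractionRing P3 K] [Algebra ℂ K] [IsScalarTower ℂ P3 K]

theorem trdeg_K3 : Algebra.trdeg ℂ K = 3 := by
  have : FaithfulSMul P3 K := (faithfulSMul_iff_algebraMap_injective P3 K).mpr (em_injective K)
  have : Algebra.IsAlgebraic P3 K := IsLocalization.isAlgebraic K (nonZeroDivisors P3)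
  have h2 := trdeg_add_eq ℂ P3 (A := K)
  rw [trdeg_eq_zero (R := P3) (A := K), trdeg_P3, add_zero] at h2
  exact h2.symm

variable {ι : Type} [Fintype ι] [DecidableEq ι] (p q : ι → ℂ)

theorem BB_trdeg : Algebra.trdeg ℂ (BB p q K) = 3 := by
  have : FaithfulSMul ℂ (BB p q K) :=
    (faithfulSMul_iff_algebraMap_injective ℂ (BB p q K)).mpr (algebraMap ℂ (BB p q K)).injective
  have : FaithfulSMul (BB p q K) K :=
    (faithfulSMul_iff_algebraMap_injective (BB p q K) K).mpr Subtype.val_injective
  have : Algebra.IsAlgebraic (BB p q K) K := IsLocalization.isAlgebraic K (nonZeroDivisors (BB p q K))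
  have h2 := trdeg_add_eq ℂ (BB p q K) (A := K)
  rw [trdeg_eq_zero (R := BB p q K) (A := K), add_zero, trdeg_K3] at h2
  exact h2

end Pool.Agent.V5helper94.Kol
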