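import Pool.Agent.V5helper94.Kol.Forms
import Pool.Agent.V5helper94.Kol.Smooth3
import Pool.Agent.V5helper94.Kol.Trdeg
import Pool.Agent.V5helper94.Kol.Blow
import Pool.Agent.V5helper91.Kol.Surf

/-!
# The counterexample
-/

set_option linter.unusedSectionVars false
set_option linter.unusedVariables false
set_option linter.unusedSimpArgs false

namespace Pool.Agent.V5helper94.Kol

open Polynomial AlgebraicGeometry CategoryTheory TopologicalSpace TensorProduct

/-- each plane contains at least three multiple lines -/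
theorem three_le_ne (i : Fin 14) : 3 ≤ ne pc qc i := by
  obtain ⟨j, k, l, hij, hik, hil, h1, h2, h3⟩ := three_check i
  have hmem : ∀ j, i ≠ j → ipt pc qc i j ∈ ptsOn pc qc i := fun j hj =>
    (mem_ptsOn pc qc).mpr ⟨ipt_mem_pts pc qc hj, onL_ipt_left pc qc i j⟩
  have hne : ∀ j k, i ≠ j → i ≠ k → (qz j - qz i) * (pz k - pz i) ≠ (qz k - qz i) * (pz j - pz i) →
      ipt pc qc i j ≠ ipt pc qc i k := by
    intro j k hj hk h e
    apply h
    have e1 : (qc j - qc i) / (pc j - pc i) = (qc k - qc i) / (pc k - pc i) := congrArg Prod.fst e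
    have hj0 : pc j - pc i ≠ 0 := fun h0 => hj (pc_injective (sub_eq_zero.mp h0)).symm
    have hk0 : pc k - pc i ≠ 0 := fun h0 => hk (pc_injective (sub_eq_zero.mp h0)).symm
    rw [div_eq_div_iff hj0 hk0] at e1
    unfold pc qc at e1
    exact_mod_cast e1
  have : 2 < (ptsOn pc qc i).card := Finset.two_lt_card.mpr
    ⟨_, hmem j hij, _, hmem k hik, _, hmem l hil, hne j k hij hik h1, hne j l hij hil h2,
      hne k l hik hil h3⟩
  exact this

theorem isRationalSurface_congr {R R' : Type} [CommRing R] [CommRing R'] [Algebra ℂ R] [Algebra ℂ R']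
    (e : R ≃ₐ[ℂ] R') (h : IsRationalSurface R') : IsRationalSurface R where
  isDomain := by
    have := h.isDomain
    exact e.toMulEquiv.isDomain R'
  finiteType := h.finiteType.equiv e.symm
  normal := by
    have := h.normal
    exact IsIntegrallyClosed.of_equiv e.symm.toRingEquiv
  trdeg := by
    rw [← h.trdeg]
    exact e.trdeg_eq
  resolution := by
    obtain ⟨Z, π, hr, hc⟩ := h.resolution
    let g : Spec (.of R') ⟶ Spec (.of R) := Spec.map (CommRingCat.ofHom e.toRingEquiv.toRingHom)
    have hg : IsIso g := by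
      have : IsIso (CommRingCat.ofHom e.toRingEquiv.toRingHom) :=
        (e.toRingEquiv.toCommRingCatIso).isIso_hom
      infer_instance
    refine ⟨Z, π ≫ g, ⟨hr.integral, ?_, ?_, ?_⟩, hc⟩
    · have h1 : (π ≫ g) ≫ Spec.map (CommRingCat.ofHom (algebraMap ℂ R)) =
          π ≫ Spec.map (CommRingCat.ofHom (algebraMap ℂ R')) := by
        rw [Category.assoc, ← Spec.map_comp, ← CommRingCat.ofHom_comp]
        congr 4
        ext c
        exact e.commutes c
      rw [h1]
      exact hr.smooth
    · have := hr.proper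
      infer_instance
    · obtain ⟨U, hU, hi⟩ := hr.birational
      have hV : g ⁻¹ᵁ ((inv g) ⁻¹ᵁ U) = U := by
        rw [← Scheme.Hom.comp_preimage, IsIso.hom_inv_id, Scheme.Hom.id_preimage]
      refine ⟨(inv g) ⁻¹ᵁ U, ?_, ?_⟩
      · intro h0
        rw [h0] at hV
        apply hU
        rw [← hV]
        rfl
      · rw [morphismRestrict_comp]
        have h1 : IsIso (π ∣_ g ⁻¹ᵁ ((inv g) ⁻¹ᵁ U)) := by rw [hV]; exact hi
        have h2 : IsIso (g ∣_ ((inv g) ⁻¹ᵁ U)) := inferInstance
        exact IsIso.comp_isIso' h1 h2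

section

variable (K : Type) [Field K] [Algebra P3 K] [IsFractionRing P3 K] [Algebra ℂ K] [IsScalarTower ℂ P3 K]
  (K' : Type) [Field K'] [Algebra ℂ K'] [Algebra P2 K'] [IsScalarTower ℂ P2 K'] [IsFractionRing P2 K']

include K' in
theorem special_rational : IsRationalSurface (BB pc qc K ⧸ Ideal.span {tz pc qc K}) := by
  obtain ⟨e⟩ := quot_equiv (K := K) (K' := K') pc qc pc_injective
  exact isRationalSurface_congr e (Pool.Agent.V5helper91.Kol.isRationalSurface_of_blowUp
    blowUp_resolution K' pc pc_injective pc_ne_zero _ three_le_ne)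

/-- finite generation descends along faithfully flat ring extensions -/
theorem not_finiteType_of_flat {A R : Type} [CommRing A] [CommRing R] [Algebra A R]
    (S : Subalgebra A R) (h : ¬ S.FG) (A' : Type) [CommRing A'] [Algebra A A']
    (hA : Module.FaithfullyFlat A A') : ¬ Algebra.FiniteType A' (A' ⊗[A] S) := by
  intro h1
  have h2 : Algebra.FiniteType A S := .of_finiteType_tensorProduct_of_faithfullyFlat A'
  exact h ((Subalgebra.fg_iff_finiteType S).mpr h2)

include K K' in
theorem counterexample_aux : ∃ (B : Type) (_ : CommRing B) (_ : Algebra ℂ B) (t : B),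
    IsSmoothing B t ∧ Algebra.trdeg ℂ B = 3 ∧ IsRationalSurface (B ⧸ Ideal.span {t}) ∧
    ∃ (p : Ideal B) (_ : p.IsMaximal), t ∈ p ∧
    ∃ (A : Type) (_ : CommRing A) (_ : Algebra B A) (_ : IsLocalization.AtPrime A p)
      (K : Type) (_ : Field K) (_ : Algebra A K) (_ : IsFractionRing A K)
      (_ : Algebra ℂ A) (_ : IsScalarTower ℂ B A) (_ : Algebra ℂ K) (_ : IsScalarTower ℂ A K),
      ∀ ω₀ : ⋀[K]^3 (Ω[K⁄ℂ]), ω₀ ≠ 0 →
        ¬ (canonicalAlgebra A ω₀).FG ∧
        ∀ (A' : Type) (_ : CommRing A') (_ : Algebra A A'), Module.FaithfullyFlat A A' →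
          ¬ Algebra.FiniteType A' (A' ⊗[A] canonicalAlgebra A ω₀) :=
  ⟨BB pc qc K, inferInstance, inferInstance, tz pc qc K, BB_isSmoothing pc qc pc_injective,
    BB_trdeg pc qc, special_rational K K', vtx K, vtx_isMaximal, tz_mem_vtx, AA pc qc (vtx K),
    inferInstance, inferInstance, Localization.subalgebra.isLocalization_ofField K _ _,
    K, inferInstance, inferInstance, AA_isFractionRing pc qc (vtx K), inferInstance, inferInstance,
    inferInstance, inferInstance, fun ω₀ h => ⟨not_FG ω₀ h, fun A' _ _ hA =>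
      not_finiteType_of_flat _ (not_FG ω₀ h) A' hA⟩⟩

end

end Pool.Agent.V5helper94.Kol
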