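import Mathlib

/-!
# Smoothings of rational surface singularities and their canonical algebras

* `CechVanishing`, `IsResol`, `IsRationalSurf`: normal surfaces with rational singularities.
* `IsOneParameterSmoothing`: one-parameter smoothings.
* `OneForms`, `ThreeForms`, `regForms`, `coeffModule`, `pluricanonical`, `canonicalRing`:
  the canonical algebra of a normal local domain of dimension three.
* `NotFG`: a subalgebra is not finitely generated, even after faithfully flat base change.
-/

namespace Pool.Agent.V5helper94.Kol.Stmt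

open AlgebraicGeometry CategoryTheory TopologicalSpace Polynomial TensorProduct

/-! ### Rational surface singularities -/

/-- the restriction to `U` of a function on the open set `V ⊇ U` of the scheme `Z` -/
noncomputable def res (Z : Scheme.{0}) {U V : Z.Opens} (h : U ≤ V) (f : Γ(Z, V)) : Γ(Z, U) :=
  (Z.presheaf.map (homOfLE h).op).hom f

/-- The first Cech cohomology group of the structure sheaf of the scheme `Z` with respect to some
finite affine open cover vanishes (for a separated scheme this means `H¹(Z, O_Z) = 0`): every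
family of functions `g i j` on `U i ∩ U j` with `g i j + g j k = g i k` on `U i ∩ U j ∩ U k` is of
the form `g i j = h j - h i` for functions `h i` on `U i`. -/
def CechVanishing (Z : Scheme.{0}) : Prop :=
  ∃ (ι : Type) (_ : Finite ι) (U : ι → Z.Opens),
    (∀ i, IsAffineOpen (U i)) ∧ (⨆ i, U i = ⊤) ∧
    ∀ g : ∀ i j : ι, Γ(Z, U i ⊓ U j),
      (∀ i j k : ι,
        res Z (show U i ⊓ U j ⊓ U k ≤ U i ⊓ U j from inf_le_left) (g i j) +
        res Z (show U i ⊓ U j ⊓ U k ≤ U j ⊓ U k from
          le_inf (inf_le_left.trans inf_le_right) inf_le_right) (g j k) =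
        res Z (show U i ⊓ U j ⊓ U k ≤ U i ⊓ U k from
          le_inf (inf_le_left.trans inf_le_left) inf_le_right) (g i k)) →
      ∃ h : ∀ i : ι, Γ(Z, U i), ∀ i j : ι,
        g i j = res Z (show U i ⊓ U j ≤ U j from inf_le_right) (h j) -
          res Z (show U i ⊓ U j ≤ U i from inf_le_left) (h i)

/-- `π : Z ⟶ X` is a resolution of singularities of the scheme `X` over `ℂ`
(with structure morphism `s`): `Z` is integral and smooth over `ℂ`,
and `π` is proper and an isomorphism over a nonempty open subset of `X`. -/
structure IsResol {Z X : Scheme.{0}} (s : X ⟶ Spec (.of ℂ)) (π : Z ⟶ X) : Prop where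
  integral : IsIntegral Z
  smooth : Smooth (π ≫ s)
  proper : IsProper π
  birational : ∃ U : X.Opens, U ≠ ⊥ ∧ IsIso (π ∣_ U)

/-- `Spec R` is a normal affine surface over `ℂ` all of whose singularities are rational:
`R` is a finitely generated normal domain over `ℂ` of transcendence degree two
and `Spec R` has a resolution `π : Z ⟶ Spec R` with `H¹(Z, O_Z) = 0`
(as `Spec R` is affine, this says `R¹π_* O_Z = 0`). -/
structure IsRationalSurf (R : Type) [CommRing R] [Algebra ℂ R] : Prop where
  isDomain : IsDomain R
  finiteType : Algebra.FiniteType ℂ R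
  normal : IsIntegrallyClosed R
  trdeg : Algebra.trdeg ℂ R = 2
  resolution : ∃ (Z : Scheme.{0}) (π : Z ⟶ Spec (.of R)),
    IsResol (Spec.map (CommRingCat.ofHom (algebraMap ℂ R))) π ∧ CechVanishing Z

/-! ### One-parameter smoothings -/

/-- `Spec B → 𝔸¹ = Spec ℂ[X]`, given by `t : B`, is a one-parameter smoothing of its fibre
`Spec (B ⧸ (t))` over the origin, with three-dimensional normal total space: `B` is a finitely
generated normal domain over `ℂ` of transcendence degree three, it is flat over `ℂ[X]`
(with `X` acting as `t`), and `B[1/t]` is smooth over `ℂ[X]`. -/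
structure IsOneParameterSmoothing (B : Type) [CommRing B] [Algebra ℂ B] (t : B) : Prop where
  isDomain : IsDomain B
  finiteType : Algebra.FiniteType ℂ B
  normal : IsIntegrallyClosed B
  trdeg : Algebra.trdeg ℂ B = 3
  flat : (Polynomial.aeval (R := ℂ) t : ℂ[X] →ₐ[ℂ] B).toRingHom.Flat
  smooth : ((algebraMap B (Localization.Away t)).comp
    (Polynomial.aeval (R := ℂ) t : ℂ[X] →ₐ[ℂ] B).toRingHom).Smooth

/-! ### The canonical algebra -/

section canonical

section forms

variable (K : Type) [Field K] [Algebra ℂ K]

/-- `Ω_{K/ℂ}` -/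
def OneForms : Type := Ω[K⁄ℂ]

noncomputable instance instOneAdd : AddCommGroup (OneForms K) :=
  (inferInstance : AddCommGroup (Ω[K⁄ℂ]))
noncomputable instance instOneMod : Module K (OneForms K) := (inferInstance : Module K (Ω[K⁄ℂ]))

variable {K} in
/-- the differential of `f` -/
noncomputable def dd (f : K) : OneForms K := KaehlerDifferential.D ℂ K f

/-- `⋀³ Ω_{K/ℂ}` -/
def ThreeForms : Type := ⋀[K]^3 (OneForms K)

noncomputable instance instThreeAdd : AddCommGroup (ThreeForms K) :=
  (inferInstance : AddCommGroup (⋀[K]^3 (OneForms K)))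
noncomputable instance instThreeMod : Module K (ThreeForms K) :=
  (inferInstance : Module K (⋀[K]^3 (OneForms K)))

variable {K} in
/-- the three-form `da ∧ db ∧ dc` -/
noncomputable def wedge (a b c : K) : ThreeForms K := exteriorPower.ιMulti K 3 ![dd a, dd b, dd c]

end forms

variable (A K : Type) [CommRing A] [Field K] [Algebra A K] [Algebra ℂ K]

/-- The image of `⋀³ Ω_{A/ℂ}` in `⋀³ Ω_{K/ℂ}`: all sums of forms `e · da ∧ db ∧ dc` with
`e, a, b, c ∈ A`. -/
noncomputable def regForms : AddSubgroup (ThreeForms K) :=
  AddSubgroup.closure {η | ∃ e a b c : A, η = algebraMap A K e •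
    wedge (algebraMap A K a) (algebraMap A K b) (algebraMap A K c)}

variable {K}

/-- All `f ∈ K` such that `f ω₀` lies in the image of `⋀³ Ω_{A/ℂ}`. -/
noncomputable def coeffModule (ω₀ : ThreeForms K) : Submodule A K where
  carrier := {f | f • ω₀ ∈ regForms A K}
  add_mem' := by
    intro a b ha hb
    simp only [Set.mem_ofPred_eq, add_smul] at *
    exact add_mem ha hb
  zero_mem' := by simp
  smul_mem' := by
    intro r f hf
    simp only [Set.mem_ofPred_eq] at *
    rw [Algebra.smul_def, mul_smul]
    generalize f • ω₀ = η at hf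
    induction hf using AddSubgroup.closure_induction with
    | mem η hη =>
      obtain ⟨e, a, b, c, rfl⟩ := hη
      refine AddSubgroup.subset_closure ⟨r * e, a, b, c, ?_⟩
      rw [map_mul, mul_smul]
    | zero => simp
    | add x y _ _ hx hy => rw [smul_add]; exact add_mem hx hy
    | neg x _ hx => rw [smul_neg]; exact neg_mem hx

/-- The elements `f ∈ K` for which the pluricanonical form `f ω₀^n` is regular in codimension
one on `Spec A`: for every prime `q` of height one, `f ω₀^n` lies in the `n`-th power of
`ω_{A_q} = ⋀³ Ω_{A_q/ℂ}`. For a normal local domain `A` of dimension three, essentially of finite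
type over `ℂ` and with fraction field `K`, these are the global sections of the reflexive sheaf
`ω_A^{[n]} = O(n K_A)`, the double dual of the `n`-th tensor power of the canonical module. -/
noncomputable def pluricanonical (ω₀ : ThreeForms K) (n : ℕ) : Submodule A K where
  carrier := {f | ∀ q : Ideal A, q.IsPrime → q.height = 1 →
    ∃ s : A, s ∉ q ∧ algebraMap A K s * f ∈ (coeffModule A ω₀) ^ n}
  add_mem' := by
    intro a b ha hb q hq hh
    obtain ⟨s, hs, hsa⟩ := ha q hq hh
    obtain ⟨t, ht, htb⟩ := hb q hq hh
    refine ⟨s * t, fun h => (hq.mem_or_mem h).elim hs ht, ?_⟩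
    have h1 : algebraMap A K (s * t) * (a + b) =
      t • (algebraMap A K s * a) + s • (algebraMap A K t * b) := by
      rw [Algebra.smul_def, Algebra.smul_def, map_mul]; ring
    rw [h1]
    exact add_mem (Submodule.smul_mem _ _ hsa) (Submodule.smul_mem _ _ htb)
  zero_mem' := by
    intro q hq _
    exact ⟨1, fun h => hq.ne_top ((Ideal.eq_top_iff_one q).mpr h), by simp⟩
  smul_mem' := by
    intro r f hf q hq hh
    obtain ⟨s, hs, hsf⟩ := hf q hq hh
    refine ⟨s, hs, ?_⟩
    have h1 : algebraMap A K s * (r • f) = r • (algebraMap A K s * f) := by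
      rw [Algebra.smul_def, Algebra.smul_def]; ring
    rw [h1]
    exact Submodule.smul_mem _ _ hsf

theorem mul_mem_pluricanonical (ω₀ : ThreeForms K) {m n : ℕ} {f g : K}
    (hf : f ∈ pluricanonical A ω₀ m) (hg : g ∈ pluricanonical A ω₀ n) :
    f * g ∈ pluricanonical A ω₀ (m + n) := by
  intro q hq hh
  obtain ⟨s, hs, hsf⟩ := hf q hq hh
  obtain ⟨t, ht, htg⟩ := hg q hq hh
  refine ⟨s * t, fun h => (hq.mem_or_mem h).elim hs ht, ?_⟩
  have h1 : algebraMap A K (s * t) * (f * g) =
    (algebraMap A K s * f) * (algebraMap A K t * g) := by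
    rw [map_mul]; ring
  rw [h1, pow_add]
  exact Submodule.mul_mem_mul hsf htg

/-- The canonical algebra `⊕ₙ O(n K_A)` of `A`, realised as a subalgebra of `K[X]` by means of
the isomorphism `⊕ₙ (⋀³ Ω_{K/ℂ})^{⊗ n} ≅ K[X]` given by `ω₀ ↦ X`: all polynomials whose `n`-th
coefficient `f` is such that `f ω₀^n` is regular in codimension one. -/
noncomputable def canonicalRing (ω₀ : ThreeForms K) : Subalgebra A K[X] where
  carrier := {F | ∀ n, F.coeff n ∈ pluricanonical A ω₀ n}
  mul_mem' := by
    intro F G hF hG n
    rw [Polynomial.coeff_mul]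
    refine Submodule.sum_mem _ fun x hx => ?_
    have h := mul_mem_pluricanonical A ω₀ (hF x.1) (hG x.2)
    rwa [Finset.HasAntidiagonal.mem_antidiagonal.mp hx] at h
  add_mem' := by
    intro F G hF hG n
    rw [Polynomial.coeff_add]
    exact Submodule.add_mem _ (hF n) (hG n)
  algebraMap_mem' := by
    intro r n
    rw [Polynomial.algebraMap_apply, Polynomial.coeff_C]
    split_ifs with h
    · subst h
      intro q hq _
      refine ⟨1, fun h => hq.ne_top ((Ideal.eq_top_iff_one q).mpr h), ?_⟩
      rw [pow_zero, map_one, one_mul]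
      exact Submodule.algebraMap_mem r
    · exact Submodule.zero_mem _

end canonical

/-- The subalgebra `S` of `R` is not finitely generated over `A`, and it does not become finitely
generated after a faithfully flat extension `A → A'` (for instance the henselisation or the
completion of a local ring `A`). -/
def NotFG {A R : Type} [CommRing A] [CommRing R] [Algebra A R] (S : Subalgebra A R) : Prop :=
  ¬ S.FG ∧ ∀ (A' : Type) (_ : CommRing A') (_ : Algebra A A'), Module.FaithfullyFlat A A' →
    ¬ Algebra.FiniteType A' (A' ⊗[A] S)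

end Pool.Agent.V5helper94.Kol.Stmt
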