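import Pool.Agent.V5helper94.Kol.Final
import Pool.Agent.V5helper94.Kol.Stmt

/-!
# The counterexample, in terms of the definitions of the statement
-/

namespace Pool.Agent.V5helper94.Kol

open TensorProduct Stmt

theorem cech_of {Z : AlgebraicGeometry.Scheme.{0}} (h : CechH1Vanishes Z) : CechVanishing Z := h

theorem resol_of {Z X : AlgebraicGeometry.Scheme.{0}}
    {s : X ⟶ AlgebraicGeometry.Spec (.of ℂ)} {π : Z ⟶ X} (h : IsResolution s π) : IsResol s π :=
  ⟨h.integral, h.smooth, h.proper, h.birational⟩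

theorem surf_of {R : Type} [CommRing R] [Algebra ℂ R] (h : IsRationalSurface R) :
    IsRationalSurf R where
  isDomain := h.isDomain
  finiteType := h.finiteType
  normal := h.normal
  trdeg := h.trdeg
  resolution := by
    obtain ⟨Z, π, h1, h2⟩ := h.resolution
    exact ⟨Z, π, resol_of h1, cech_of h2⟩

theorem smoothing_of {B : Type} [CommRing B] [Algebra ℂ B] {t : B} (h : IsSmoothing B t)
    (h3 : Algebra.trdeg ℂ B = 3) : IsOneParameterSmoothing B t :=
  ⟨h.isDomain, h.finiteType, h.normal, h3, h.flat, h.smooth⟩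

theorem canonicalRing_eq {A K : Type} [CommRing A] [Field K] [Algebra A K] [Algebra ℂ K]
    (ω₀ : ThreeForms K) : canonicalRing A ω₀ = canonicalAlgebra A (K := K) (ω₀ : ⋀[K]^3 (Ω[K⁄ℂ])) :=
  rfl

/-- the counterexample -/
theorem final :
    ∃ (B : Type) (_ : CommRing B) (_ : Algebra ℂ B) (t : B),
      IsOneParameterSmoothing B t ∧ IsRationalSurf (B ⧸ Ideal.span {t}) ∧
      ∃ (p : Ideal B) (_ : p.IsMaximal), t ∈ p ∧
      ∃ (A : Type) (_ : CommRing A) (_ : Algebra B A) (_ : IsLocalization.AtPrime A p)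
        (K : Type) (_ : Field K) (_ : Algebra A K) (_ : IsFractionRing A K)
        (_ : Algebra ℂ A) (_ : IsScalarTower ℂ B A) (_ : Algebra ℂ K) (_ : IsScalarTower ℂ A K),
        ∀ ω₀ : ThreeForms K, ω₀ ≠ 0 → NotFG (canonicalRing A ω₀) := by
  obtain ⟨B, i1, i2, t, h1, h2, h3, p, i3, h4, A, i4, i5, i6, K, i7, i8, i9, i10, i11, i12, i13, h⟩ :=
    counterexample_aux (FractionRing P3) (FractionRing P2)
  exact ⟨B, i1, i2, t, smoothing_of h1 h2, surf_of h3, p, i3, h4, A, i4, i5, i6, K, i7, i8, i9,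
    i10, i11, i12, i13, fun ω₀ h0 => h ω₀ h0⟩

end Pool.Agent.V5helper94.Kol
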