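import Pool.Agent.V5helper94.Kol.NonFG

/-!
# Independence of the choice of a rational three-form
-/

set_option linter.unusedSectionVars false
set_option linter.unusedVariables false
set_option linter.unusedSimpArgs false

namespace Pool.Agent.V5helper94.Kol

open Polynomial

section

variable {K : Type} [Field K] [Algebra P3 K] [IsFractionRing P3 K] [Algebra ℂ K] [IsScalarTower ℂ P3 K]

variable (K) in
/-- the three coordinate differentials -/
noncomputable def bd : Fin 3 → Ω[K⁄ℂ] := ![KaehlerDifferential.D ℂ K (em K (C zz)),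
  KaehlerDifferential.D ℂ K (em K (C X)), KaehlerDifferential.D ℂ K (em K X)]

theorem D_em_mem (F : P3) : KaehlerDifferential.D ℂ K (em K F) ∈ Submodule.span K (Set.range (bd K)) := by
  have h := em_mem_adjoin (K := K) F
  generalize em K F = y at h
  induction h using Algebra.adjoin_induction with
  | mem x hx =>
    refine Submodule.subset_span ?_
    rcases hx with h | h | h
    · exact ⟨0, by rw [h]; rfl⟩
    · exact ⟨1, by rw [h]; rfl⟩
    · exact ⟨2, by rw [h]; rfl⟩
  | algebraMap r => rw [Derivation.map_algebraMap]; exact Submodule.zero_mem _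
  | add x y _ _ hx hy => rw [map_add]; exact Submodule.add_mem _ hx hy
  | mul x y _ _ hx hy =>
    rw [Derivation.leibniz]
    exact Submodule.add_mem _ (Submodule.smul_mem _ _ hy) (Submodule.smul_mem _ _ hx)

theorem span_bd : Submodule.span K (Set.range (bd K)) = ⊤ := by
  rw [← top_le_iff, ← KaehlerDifferential.span_range_derivation ℂ K, Submodule.span_le]
  rintro _ ⟨f, rfl⟩
  obtain ⟨F, G, hG, e⟩ := IsFractionRing.div_surjective P3 f
  have hG0 : em K G ≠ 0 := em_ne_zero (nonZeroDivisors.ne_zero hG)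
  have h1 : em K F = em K G * f := by rw [← e]; change _ = em K G * (em K F / em K G); field_simp
  have h2 := congrArg (KaehlerDifferential.D ℂ K) h1
  rw [Derivation.leibniz] at h2
  have h3 : KaehlerDifferential.D ℂ K f = (em K G)⁻¹ •
      (KaehlerDifferential.D ℂ K (em K F) - f • KaehlerDifferential.D ℂ K (em K G)) := by
    rw [h2, add_sub_cancel_right, smul_smul, inv_mul_cancel₀ hG0, one_smul]
  change KaehlerDifferential.D ℂ K f ∈ Submodule.span K (Set.range (bd K))
  rw [h3]
  exact Submodule.smul_mem _ _ (Submodule.sub_mem _ (D_em_mem F) (Submodule.smul_mem _ _ (D_em_mem G)))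

theorem exists_smul_om (ω : ⋀[K]^3 (Ω[K⁄ℂ])) : ∃ c : K, c • om K = ω := by
  rw [← Submodule.mem_span_singleton]
  have h : (⊤ : Submodule K (⋀[K]^3 (Ω[K⁄ℂ]))) ≤ Submodule.span K {om K} := by
    rw [← exteriorPower.ιMulti_span_of_span K 3 (Ω[K⁄ℂ]) span_bd, Submodule.span_le]
    rintro _ ⟨a, ha, rfl⟩
    have h1 : ∀ i, ∃ j, bd K j = a i := fun i => ha ⟨i, rfl⟩
    choose σ hσ using h1
    have h2 : a = bd K ∘ σ := by
      ext i
      exact (hσ i).symm
    change exteriorPower.ιMulti K 3 a ∈ Submodule.span K {om K}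
    by_cases hi : Function.Injective σ
    · have hb : Function.Bijective σ := Finite.injective_iff_bijective.mp hi
      have h3 := (exteriorPower.ιMulti K 3 (M := Ω[K⁄ℂ])).map_perm (bd K) (Equiv.ofBijective σ hb)
      have h4 : a = (bd K) ∘ (Equiv.ofBijective σ hb) := h2
      rw [h4, h3]
      refine Submodule.smul_of_tower_mem _ _ ?_
      exact Submodule.subset_span rfl
    · have h3 := (exteriorPower.ιMulti K 3 (M := Ω[K⁄ℂ])).map_eq_zero_of_not_injective a (by
        rw [h2]
        intro h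
        exact hi (Function.Injective.of_comp h))
      rw [h3]
      exact Submodule.zero_mem _
  exact h trivial

end

section scale

variable {A K : Type} [CommRing A] [Field K] [Algebra A K] [Algebra ℂ K]

theorem mem_formCoeffs_smul {ω : ⋀[K]^3 (Ω[K⁄ℂ])} {c f : K} :
    f ∈ formCoeffs A (c • ω) ↔ f * c ∈ formCoeffs A ω := by
  change f • c • ω ∈ regularForms A K ↔ (f * c) • ω ∈ regularForms A K
  rw [smul_smul]

theorem formCoeffs_smul_le (ω : ⋀[K]^3 (Ω[K⁄ℂ])) (c : K) :
    Submodule.span A {c} * formCoeffs A (c • ω) ≤ formCoeffs A ω := by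
  rw [Submodule.mul_le]
  intro m hm f hf
  obtain ⟨a, rfl⟩ := Submodule.mem_span_singleton.mp hm
  rw [smul_mul_assoc]
  refine Submodule.smul_mem _ _ ?_
  rw [mul_comm]
  exact mem_formCoeffs_smul.mp hf

theorem mem_pow_of_smul {ω : ⋀[K]^3 (Ω[K⁄ℂ])} {c f : K} {n : ℕ} (hf : f ∈ formCoeffs A (c • ω) ^ n) :
    c ^ n * f ∈ formCoeffs A ω ^ n := by
  have h1 : (Submodule.span A {c} * formCoeffs A (c • ω)) ^ n ≤ formCoeffs A ω ^ n :=
    pow_le_pow_left' (formCoeffs_smul_le ω c) n
  rw [mul_pow, Submodule.span_pow, Set.singleton_pow] at h1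
  exact h1 (Submodule.mul_mem_mul (Submodule.subset_span rfl) hf)

theorem pluriForms_smul {ω : ⋀[K]^3 (Ω[K⁄ℂ])} {c f : K} {n : ℕ} (hf : f ∈ pluriForms A (c • ω) n) :
    c ^ n * f ∈ pluriForms A ω n := by
  intro q hq hh
  obtain ⟨s, hs, h⟩ := hf q hq hh
  refine ⟨s, hs, ?_⟩
  rw [mul_left_comm]
  exact mem_pow_of_smul h

/-- rescaling the variable -/
noncomputable def scl (A : Type) {K : Type} [CommRing A] [Field K] [Algebra A K] (c : K) : K[X] →ₐ[A] K[X] :=
  (Polynomial.aeval (C c * X : K[X]) : K[X] →ₐ[K] K[X]).restrictScalars A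

theorem coeff_scl (c : K) (F : K[X]) (n : ℕ) : (scl A c F).coeff n = c ^ n * F.coeff n := by
  change (Polynomial.aeval (C c * X : K[X]) F).coeff n = _
  rw [Polynomial.aeval_def, Polynomial.algebraMap_eq]
  change (F.comp (C c * X)).coeff n = _
  rw [Polynomial.comp_C_mul_X_coeff, mul_comm]

theorem canonicalAlgebra_map {ω : ⋀[K]^3 (Ω[K⁄ℂ])} {c : K} (hc : c ≠ 0) :
    (canonicalAlgebra A (c • ω)).map (scl A c) = canonicalAlgebra A ω := by
  apply le_antisymm
  · rintro _ ⟨F, hF, rfl⟩ n
    change (scl A c F).coeff n ∈ _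
    rw [coeff_scl]
    exact pluriForms_smul (hF n)
  · intro F hF
    refine ⟨scl A c⁻¹ F, fun n => ?_, ?_⟩
    · rw [coeff_scl]
      refine pluriForms_smul (ω := c • ω) ?_
      rw [smul_smul, inv_mul_cancel₀ hc, one_smul]
      exact hF n
    · ext n
      change (scl A c (scl A c⁻¹ F)).coeff n = _
      rw [coeff_scl, coeff_scl, ← mul_assoc, ← mul_pow, mul_inv_cancel₀ hc, one_pow, one_mul]

end scale

section

variable {K : Type} [Field K] [Algebra P3 K] [IsFractionRing P3 K] [Algebra ℂ K] [IsScalarTower ℂ P3 K]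

theorem not_FG (ω₀ : ⋀[K]^3 (Ω[K⁄ℂ])) (h : ω₀ ≠ 0) : ¬ (canonicalAlgebra (AA pc qc (vtx K)) ω₀).FG := by
  obtain ⟨c, rfl⟩ := exists_smul_om ω₀
  have hc : c ≠ 0 := by
    rintro rfl
    exact h (zero_smul _ _)
  intro hFG
  have h1 := hFG.map (scl (AA pc qc (vtx K)) c)
  rw [canonicalAlgebra_map hc] at h1
  exact om_not_FG h1

end

end Pool.Agent.V5helper94.Kol
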