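import Pool.Agent.V5helper94.Kol.Arr

/-!
# Generators of the ring of the arrangement
-/

set_option linter.unusedSectionVars false
set_option linter.unusedVariables false

namespace Pool.Agent.V5helper94.Kol

open Polynomial nonZeroDivisors

variable {ι : Type} [Fintype ι] [DecidableEq ι] (p q : ι → ℂ)

/-- the linear form of the plane `i` -/
noncomputable def lf (i : ι) : P3 := pl (p i) (q i)

theorem lf_ne_zero (i : ι) : lf p q i ≠ 0 := pl_ne_zero _ _

theorem lf_prime (i : ι) : Prime (lf p q i) := pl_prime _ _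

theorem sub_lf_on {α : ℂ × ℂ} {i : ι} (h : onL p q α i) :
    sub α (lf p q i) = C (bb α.1) * (X + C (cc (p i))) := by
  rw [lf, sub_pl, h, sub_self, cc_zero]; simp

theorem sub_lf_off {α : ℂ × ℂ} {i : ι} (h : ¬ onL p q α i) :
    ¬ C (bb α.1) ∣ sub α (lf p q i) := by
  rw [lf, sub_pl]
  intro hd
  have h1 : (C (bb α.1) : P3) ∣ C (cc (α.2 + p i * α.1 - q i) * zz) := by
    have := dvd_sub hd (dvd_mul_right (C (bb α.1)) (X + C (cc (p i))))
    simpa using this
  exact not_C_dvd_C (not_bb_dvd_zz (sub_ne_zero.mpr h)) h1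

theorem not_Cbb_dvd_lin (δ a : ℂ) : ¬ (C (bb δ) : P3) ∣ X + C (cc a) := by
  intro h
  have h1 := (Polynomial.C_dvd_iff_dvd_coeff _ _).mp h 1
  simp at h1
  exact (bb_prime δ).not_isUnit (isUnit_of_dvd_one h1)

/-- order of the restriction: the part of `sub α (lf i)` prime to `bb`. -/
noncomputable def rest (α : ℂ × ℂ) (i : ι) : P3 :=
  open Classical in if onL p q α i then X + C (cc (p i)) else sub α (lf p q i)

theorem not_dvd_rest (α : ℂ × ℂ) (i : ι) : ¬ C (bb α.1) ∣ rest p q α i := by
  unfold rest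
  split_ifs with h
  · exact not_Cbb_dvd_lin _ _
  · exact sub_lf_off p q h

/-- multiplicity of the plane `i` along the line `α` -/
noncomputable def mu (α : ℂ × ℂ) (i : ι) : ℕ :=
  open Classical in if onL p q α i then 1 else 0

theorem sub_lf (α : ℂ × ℂ) (i : ι) :
    sub α (lf p q i) = C (bb α.1) ^ (mu p q α i) * rest p q α i := by
  unfold rest mu
  split_ifs with h
  · rw [sub_lf_on p q h, pow_one]
  · rw [pow_zero, one_mul]

variable {K : Type} [Field K] [Algebra P3 K] [IsFractionRing P3 K]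

theorem sub_ne_zero' {α : ℂ × ℂ} {F : P3} (h : F ≠ 0) : sub α F ≠ 0 :=
  (map_ne_zero_iff _ (sub_injective α)).mpr h

theorem hsub_lf_div {α : ℂ × ℂ} {i j : ι} (h : onL p q α i → onL p q α j) :
    hsub α (em K (lf p q j) * (em K (lf p q i))⁻¹) ∈ LL K α.1 := by
  rw [map_mul, map_inv₀, hsub_em, hsub_em]
  have hb : em K (C (bb α.1)) ≠ 0 := em_ne_zero (Cbb_prime _).ne_zero
  by_cases hi : onL p q α i
  · rw [sub_lf_on p q hi, sub_lf_on p q (h hi), map_mul, map_mul]
    have : em K (C (bb α.1)) * em K (X + C (cc (p j))) *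
        (em K (C (bb α.1)) * em K (X + C (cc (p i))))⁻¹ =
        em K (X + C (cc (p j))) * (em K (X + C (cc (p i))))⁻¹ := by
      field_simp
    rw [this]
    exact Subalgebra.mul_mem _ (Subalgebra.algebraMap_mem _ _)
      (inv_mem_locAt (not_Cbb_dvd_lin _ _))
  · exact Subalgebra.mul_mem _ (Subalgebra.algebraMap_mem _ _) (inv_mem_locAt (sub_lf_off p q hi))

theorem hsub_em_mem {α : ℂ × ℂ} (F : P3) : hsub α (em K F) ∈ LL K α.1 := by
  rw [hsub_em]; exact Subalgebra.algebraMap_mem _ _

/-- a plane different from `i` through the line `α` (if there is one) -/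
noncomputable def rep (i : ι) (α : ℂ × ℂ) : ι :=
  open Classical in if h : ∃ j, j ≠ i ∧ onL p q α j then h.choose else i

theorem onL_rep {i : ι} {α : ℂ × ℂ} (hi : onL p q α i) : onL p q α (rep p q i α) := by
  unfold rep
  split_ifs with h
  · exact h.choose_spec.2
  · exact hi

theorem rep_ne (hp : Function.Injective p) {i : ι} {α : ℂ × ℂ} (hα : α ∈ pts p q) :
    rep p q i α ≠ i := by
  unfold rep
  have h : ∃ j, j ≠ i ∧ onL p q α j := by
    obtain ⟨j, k, hjk, hj, hk⟩ := (mem_pts p q hp).mp hα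
    by_cases h1 : j = i
    · exact ⟨k, fun h2 => hjk (h1.trans h2.symm), hk⟩
    · exact ⟨j, h1, hj⟩
  rw [dif_pos h]
  exact h.choose_spec.1

open Classical in
/-- the multiple lines contained in the plane `i` -/
noncomputable def ptsOn (i : ι) : Finset (ℂ × ℂ) := (pts p q).filter fun α => onL p q α i

theorem mem_ptsOn {i : ι} {α : ℂ × ℂ} : α ∈ ptsOn p q i ↔ α ∈ pts p q ∧ onL p q α i := by
  classical
  unfold ptsOn
  rw [Finset.mem_filter]

variable (K) in
/-- the generator attached to the plane `i` -/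
noncomputable def ww (i : ι) : K :=
  (∏ α ∈ ptsOn p q i, em K (lf p q (rep p q i α))) * (em K (lf p q i))⁻¹

theorem ww_mem_away (i : ι) : ww p q K i ∈ awayAt K (PP p q) (PP_ne_zero p q) := by
  rw [mem_awayAt]
  refine ⟨(∏ α ∈ ptsOn p q i, lf p q (rep p q i α)) * ∏ j ∈ Finset.univ.erase i, lf p q j, 1, ?_⟩
  have h1 : PP p q = lf p q i * ∏ j ∈ Finset.univ.erase i, lf p q j := by
    rw [Finset.mul_prod_erase Finset.univ _ (Finset.mem_univ i)]; rfl
  rw [h1, pow_one, ww]
  have h0 : em K (lf p q i) ≠ 0 := em_ne_zero (lf_ne_zero p q i)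
  simp only [map_mul, map_prod]
  field_simp

theorem hsub_ww_mem (i : ι) {α : ℂ × ℂ} (hα : α ∈ pts p q) : hsub α (ww p q K i) ∈ LL K α.1 := by
  unfold ww
  by_cases hi : onL p q α i
  · rw [← Finset.mul_prod_erase _ _ ((mem_ptsOn p q).mpr ⟨hα, hi⟩), mul_right_comm, map_mul]
    refine Subalgebra.mul_mem _ (hsub_lf_div p q fun h => onL_rep p q h) ?_
    rw [map_prod]
    exact Subalgebra.prod_mem _ fun β _ => hsub_em_mem _
  · rw [map_mul, map_prod, map_inv₀]
    refine Subalgebra.mul_mem _ (Subalgebra.prod_mem _ fun β _ => hsub_em_mem _) ?_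
    rw [hsub_em]
    exact inv_mem_locAt (sub_lf_off p q hi)

section BBmem

variable [Algebra ℂ K] [IsScalarTower ℂ P3 K]

theorem ww_mem (i : ι) : ww p q K i ∈ BB p q K :=
  ⟨ww_mem_away p q i, fun α hα => hsub_ww_mem p q i hα⟩

theorem em_mem (F : P3) : em K F ∈ BB p q K :=
  ⟨Subalgebra.algebraMap_mem _ _, fun α _ => hsub_em_mem _⟩

theorem algebraMap_cc (c : ℂ) : algebraMap ℂ K c = em K (C (cc c)) := by
  rw [IsScalarTower.algebraMap_apply ℂ P3 K]; rfl

theorem R1_induction {M : R1 → Prop} (r : R1) (h1 : ∀ c : ℂ, M (kc c))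
    (h2 : ∀ a b, M a → M b → M (a + b))
    (h3 : ∀ (n : ℕ) (c : ℂ), M (kc c * vz ^ n) → M (kc c * vz ^ (n + 1))) : M r :=
  Polynomial.induction_on (motive := M) r h1 h2 h3

theorem em_mem_adjoin (F : P3) :
    em K F ∈ Algebra.adjoin ℂ ({em K (C zz), em K (C X), em K X} : Set K) := by
  have h1 : ∀ r : R1, em K (C (C r)) ∈ Algebra.adjoin ℂ ({em K (C zz), em K (C X), em K X} : Set K) := by
    intro r
    refine R1_induction (M := fun r => em K (C (C r)) ∈
      Algebra.adjoin ℂ ({em K (C zz), em K (C X), em K X} : Set K)) r ?_ ?_ ?_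
    · intro c
      have := algebraMap_cc (K := K) c
      rw [cc] at this
      rw [← this]
      exact Subalgebra.algebraMap_mem _ _
    · intro a b ha hb
      rw [C_add, C_add, map_add]; exact add_mem ha hb
    · intro n c h
      rw [pow_succ, ← mul_assoc, C_mul, C_mul, map_mul]
      exact mul_mem h (Algebra.subset_adjoin (by simp [zz]))
  have h2 : ∀ r : R2, em K (C r) ∈ Algebra.adjoin ℂ ({em K (C zz), em K (C X), em K X} : Set K) := by
    intro r
    induction r using Polynomial.induction_on with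
    | C a => exact h1 a
    | add a b ha hb => rw [C_add, map_add]; exact add_mem ha hb
    | monomial n a h =>
      rw [pow_succ, ← mul_assoc, C_mul, map_mul]
      exact mul_mem h (Algebra.subset_adjoin (by simp))
  induction F using Polynomial.induction_on with
  | C a => exact h2 a
  | add a b ha hb => rw [map_add]; exact add_mem ha hb
  | monomial n a h =>
    rw [pow_succ, ← mul_assoc, map_mul]
    exact mul_mem h (Algebra.subset_adjoin (by simp))

end BBmem

/-! ### pole reduction -/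

/-- denominators -/
noncomputable def den (e : ι → ℕ) : P3 := ∏ i, lf p q i ^ e i

theorem den_ne_zero (e : ι → ℕ) : den p q e ≠ 0 :=
  Finset.prod_ne_zero_iff.mpr fun i _ => pow_ne_zero _ (lf_ne_zero p q i)

theorem den_eq (e : ι → ℕ) (i : ι) :
    den p q e = lf p q i ^ e i * ∏ j ∈ Finset.univ.erase i, lf p q j ^ e j :=
  (Finset.mul_prod_erase Finset.univ _ (Finset.mem_univ i)).symm

theorem sub_den (e : ι → ℕ) (α : ℂ × ℂ) :
    sub α (den p q e) = C (bb α.1) ^ (∑ i, mu p q α i * e i) * ∏ i, rest p q α i ^ e i := by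
  unfold den
  rw [map_prod, ← Finset.prod_pow_eq_pow_sum, ← Finset.prod_mul_distrib]
  refine Finset.prod_congr rfl fun i _ => ?_
  rw [map_pow, sub_lf, mul_pow, ← pow_mul]

theorem not_dvd_prod_rest (e : ι → ℕ) (α : ℂ × ℂ) : ¬ C (bb α.1) ∣ ∏ i, rest p q α i ^ e i := by
  intro h
  obtain ⟨i, _, hi⟩ := (Cbb_prime α.1).dvd_finsetProd_iff _ |>.mp h
  exact not_dvd_rest p q α i ((Cbb_prime α.1).dvd_of_dvd_pow hi)

/-- numerators: membership of `F / den e` in the local ring of the exceptional divisor -/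
theorem hsub_div_mem_iff (e : ι → ℕ) (α : ℂ × ℂ) (F : P3) (n : ℕ) :
    em K (C (bb α.1)) ^ n * hsub α (em K F * (em K (den p q e))⁻¹) ∈ LL K α.1 ↔
      C (bb α.1) ^ (∑ i, mu p q α i * e i) ∣ C (bb α.1) ^ n * sub α F := by
  have hb : em K (C (bb α.1)) ≠ 0 := em_ne_zero (Cbb_prime _).ne_zero
  have hr := not_dvd_prod_rest p q e α
  have hr0 : em K (∏ i, rest p q α i ^ e i) ≠ 0 := em_ne_zero fun h0 => hr (h0 ▸ dvd_zero _)
  rw [← mul_mem_locAt_iff (K := K) (hh := Cbb_prime α.1)]
  rw [map_mul, map_inv₀, hsub_em, hsub_em, sub_den, map_mul (em K), map_mul (em K), map_pow, map_pow]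
  constructor
  · intro h
    have h2 := Subalgebra.mul_mem _ h (Subalgebra.algebraMap_mem _ (∏ i, rest p q α i ^ e i))
    change _ * em K (∏ i, rest p q α i ^ e i) ∈ locAt K (C (bb α.1)) (Cbb_prime α.1) at h2
    generalize em K (∏ i, rest p q α i ^ e i) = r at hr0 h2 ⊢
    convert h2 using 1
    field_simp
  · intro h
    have h2 := Subalgebra.mul_mem _ h (inv_mem_locAt (hh := Cbb_prime α.1) hr)
    change _ * (em K (∏ i, rest p q α i ^ e i))⁻¹ ∈ LL K α.1 at h2
    generalize em K (∏ i, rest p q α i ^ e i) = r at hr0 h2 ⊢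
    convert h2 using 1
    field_simp

theorem eval_lf (i l : ι) {β : ℂ × ℂ} (hi : onL p q β i) (hl : onL p q β l) :
    (lf p q l).eval (aa (p i) (q i)) = cc (p l - p i) * bb β.1 := by
  simp only [onL] at hi hl
  rw [lf, pl, eval_sub, eval_X, eval_C, bb_eq, aa, aa, ← hi, ← hl]
  simp only [cc_add, cc_sub, cc_mul]
  ring

theorem eval_sub_eq (i : ι) {α : ℂ × ℂ} (hi : onL p q α i) (F : P3) :
    (sub α F).eval (- cc (p i)) = F.eval (aa (p i) (q i)) := by
  rw [sub, phi_eq_comp, eval_comp]
  congr 1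
  simp only [onL] at hi
  simp only [eval_add, eval_C, eval_mul, eval_X, ee, bb_eq, aa, ← hi, cc_add, cc_mul]
  ring

/-- the numerator is highly divisible on the plane `i` -/
theorem pow_dvd_eval (e : ι → ℕ) (i : ι) {α : ℂ × ℂ} (hi : onL p q α i) (F : P3)
    (h : C (bb α.1) ^ (∑ i, mu p q α i * e i) ∣ sub α F) :
    bb α.1 ^ (∑ i, mu p q α i * e i) ∣ F.eval (aa (p i) (q i)) := by
  rw [← eval_sub_eq p q i hi]
  obtain ⟨G, hG⟩ := h
  rw [hG, eval_mul, eval_pow, eval_C]
  exact dvd_mul_right _ _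

theorem isRelPrime_bb {α β : ℂ × ℂ} (h : α.1 ≠ β.1) (m n : ℕ) :
    IsRelPrime (bb α.1 ^ m) (bb β.1 ^ n) := by
  refine IsRelPrime.pow ?_
  exact (bb_prime α.1).irreducible.isRelPrime_iff_not_dvd.mpr (not_bb_dvd_bb h)

/-- the part of the product at the line `β` -/
theorem dvd_eval (hp : Function.Injective p) (e : ι → ℕ) (i : ι) (F : P3)
    (h : ∀ α ∈ pts p q, C (bb α.1) ^ (∑ i, mu p q α i * e i) ∣ sub α F) :
    ((∏ β ∈ ptsOn p q i, (lf p q (rep p q i β)) ^ e i) *
      ∏ l ∈ Finset.univ.erase i, lf p q l ^ e l).eval (aa (p i) (q i)) ∣ F.eval (aa (p i) (q i)) := by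
  classical
  rw [eval_mul, eval_prod, eval_prod]
  have hfib : ∏ l ∈ Finset.univ.erase i, eval (aa (p i) (q i)) (lf p q l ^ e l) =
      ∏ β ∈ ptsOn p q i, ∏ l ∈ (Finset.univ.erase i).filter (fun l => ipt p q i l = β),
        eval (aa (p i) (q i)) (lf p q l ^ e l) := by
    rw [Finset.prod_fiberwise_of_maps_to]
    intro l hl
    rw [mem_ptsOn]
    exact ⟨ipt_mem_pts p q (Finset.ne_of_mem_erase hl).symm, onL_ipt_left p q i l⟩
  rw [hfib, ← Finset.prod_mul_distrib]
  have key : ∀ β ∈ ptsOn p q i, eval (aa (p i) (q i)) (lf p q (rep p q i β) ^ e i) *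
      ∏ l ∈ (Finset.univ.erase i).filter (fun l => ipt p q i l = β),
        eval (aa (p i) (q i)) (lf p q l ^ e l) ∣ bb β.1 ^ (∑ l, mu p q β l * e l) := by
    intro β hβ
    obtain ⟨hβ1, hβ2⟩ := (mem_ptsOn p q).mp hβ
    have hs : ∑ l, mu p q β l * e l = e i + ∑ l ∈ (Finset.univ.erase i).filter
        (fun l => ipt p q i l = β), e l := by
      rw [← Finset.add_sum_erase Finset.univ _ (Finset.mem_univ i)]
      congr 1
      · simp [mu, hβ2]
      · rw [Finset.sum_filter]
        refine Finset.sum_congr rfl fun l hl => ?_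
        have hl' := (Finset.ne_of_mem_erase hl).symm
        by_cases h1 : onL p q β l
        · rw [if_pos (eq_ipt p q hp hl' hβ2 h1).symm]
          simp [mu, h1]
        · rw [if_neg]
          · simp [mu, h1]
          · rintro rfl
            exact h1 (onL_ipt_right p q hp hl')
    rw [hs, pow_add, ← Finset.prod_pow_eq_pow_sum]
    refine mul_dvd_mul ?_ ?_
    · rw [eval_pow, eval_lf p q i _ hβ2 (onL_rep p q hβ2), mul_pow]
      exact (IsUnit.mul_left_dvd ((cc_isUnit (sub_ne_zero.mpr
        (fun h => rep_ne p q hp hβ1 (hp h)))).pow _)).mpr dvd_rfl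
    · refine Finset.prod_dvd_prod_of_dvd _ _ fun l hl => ?_
      rw [Finset.mem_filter] at hl
      have hl' := (Finset.ne_of_mem_erase hl.1).symm
      have h1 : onL p q β l := hl.2 ▸ onL_ipt_right p q hp hl'
      rw [eval_pow, eval_lf p q i _ hβ2 h1, mul_pow]
      exact (IsUnit.mul_left_dvd ((cc_isUnit (sub_ne_zero.mpr
        (fun h => hl' (hp h).symm))).pow _)).mpr dvd_rfl
  refine Finset.prod_dvd_of_isRelPrime ?_ ?_
  · intro β hβ γ hγ hne
    have hβ' := (mem_ptsOn p q).mp hβ
    have hγ' := (mem_ptsOn p q).mp hγ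
    have h1 : β.1 ≠ γ.1 := fun h2 => hne (eq_of_fst p q i hβ'.2 hγ'.2 h2)
    exact ((isRelPrime_bb h1 _ _).of_dvd_left (key β hβ)).of_dvd_right (key γ hγ)
  · intro β hβ
    have hβ' := (mem_ptsOn p q).mp hβ
    exact (key β hβ).trans (pow_dvd_eval p q e i hβ'.2 F (h β hβ'.1))

section main

variable [Algebra ℂ K] [IsScalarTower ℂ P3 K]

variable (K) in
/-- the subalgebra generated by the generators -/
noncomputable def GG : Subalgebra ℂ K :=
  Algebra.adjoin ℂ ({em K (C zz), em K (C X), em K X} ∪ Set.range (ww p q K))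

theorem em_mem_GG (F : P3) : em K F ∈ GG p q K :=
  Algebra.adjoin_mono Set.subset_union_left (em_mem_adjoin F)

theorem ww_mem_GG (i : ι) : ww p q K i ∈ GG p q K :=
  Algebra.subset_adjoin (Or.inr ⟨i, rfl⟩)

theorem mem_GG_aux (hp : Function.Injective p) (n : ℕ) : ∀ (e : ι → ℕ), ∑ i, e i = n → ∀ F : P3,
    (∀ α ∈ pts p q, hsub α (em K F * (em K (den p q e))⁻¹) ∈ LL K α.1) →
    em K F * (em K (den p q e))⁻¹ ∈ GG p q K := by
  induction n with
  | zero =>
    intro e he F hF
    have h0 : ∀ i, e i = 0 := by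
      intro i
      exact (Finset.sum_eq_zero_iff.mp he) i (Finset.mem_univ i)
    have h1 : den p q e = 1 := by
      unfold den
      exact Finset.prod_eq_one fun i _ => by rw [h0 i, pow_zero]
    rw [h1, map_one, inv_one, mul_one]
    exact em_mem_GG p q F
  | succ n ih =>
    intro e he F hF
    obtain ⟨i, hi⟩ : ∃ i, e i ≠ 0 := by
      by_contra hcon
      push Not at hcon
      simp [hcon] at he
    have hdiv : ∀ α ∈ pts p q, C (bb α.1) ^ (∑ i, mu p q α i * e i) ∣ sub α F := by
      intro α hα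
      have := (hsub_div_mem_iff (K := K) p q e α F 0).mp (by simpa using hF α hα)
      simpa using this
    obtain ⟨G, hG⟩ := dvd_eval p q hp e i F hdiv
    have hroot : (F - C G * ((∏ β ∈ ptsOn p q i, (lf p q (rep p q i β)) ^ e i) *
      ∏ l ∈ Finset.univ.erase i, lf p q l ^ e l)).IsRoot (aa (p i) (q i)) := by
      rw [Polynomial.IsRoot, eval_sub, eval_mul, eval_C, hG]
      ring
    obtain ⟨F', hF'⟩ := Polynomial.dvd_iff_isRoot.mpr hroot
    obtain ⟨k, hk⟩ := Nat.exists_eq_succ_of_ne_zero hi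
    have hden : den p q e = lf p q i * den p q (Function.update e i k) := by
      rw [den_eq p q e i, den_eq p q (Function.update e i k) i, Function.update_self, hk,
        Nat.succ_eq_add_one, pow_succ']
      rw [mul_assoc]
      congr 2
      refine Finset.prod_congr rfl fun j hj => ?_
      rw [Function.update_of_ne (Finset.ne_of_mem_erase hj)]
    have h0 : em K (lf p q i) ≠ 0 := em_ne_zero (lf_ne_zero p q i)
    have h0' : em K (den p q (Function.update e i k)) ≠ 0 := em_ne_zero (den_ne_zero p q _)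
    have hw : em K ((∏ β ∈ ptsOn p q i, (lf p q (rep p q i β)) ^ e i) *
        ∏ l ∈ Finset.univ.erase i, lf p q l ^ e l) * (em K (den p q e))⁻¹ = ww p q K i ^ e i := by
      rw [den_eq p q e i, ww, mul_pow, Finset.prod_pow, map_mul, map_mul, map_pow, map_pow, map_prod]
      have h2 : em K (∏ j ∈ Finset.univ.erase i, lf p q j ^ e j) ≠ 0 :=
        em_ne_zero (Finset.prod_ne_zero_iff.mpr fun j _ => pow_ne_zero _ (lf_ne_zero p q j))
      have h3 : em K (lf p q i) ^ e i ≠ 0 := pow_ne_zero _ h0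
      rw [inv_pow]
      generalize em K (lf p q i) ^ e i = r at h3 ⊢
      field_simp
    have hsplit : em K F * (em K (den p q e))⁻¹ = em K (C G) * ww p q K i ^ e i +
        em K F' * (em K (den p q (Function.update e i k)))⁻¹ := by
      rw [← hw]
      have h3 : em K F = em K (C G) * em K ((∏ β ∈ ptsOn p q i, (lf p q (rep p q i β)) ^ e i) *
        ∏ l ∈ Finset.univ.erase i, lf p q l ^ e l) + em K (lf p q i) * em K F' := by
        rw [← map_mul, ← map_mul, ← map_add]
        congr 1
        have : lf p q i * F' = F - C G * ((∏ β ∈ ptsOn p q i, (lf p q (rep p q i β)) ^ e i) *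
          ∏ l ∈ Finset.univ.erase i, lf p q l ^ e l) := hF'.symm
        rw [this]
        ring
      rw [h3, hden, map_mul (em K) (lf p q i)]
      field_simp
    rw [hsplit]
    refine add_mem (mul_mem (em_mem_GG p q _) (pow_mem (ww_mem_GG p q i) _)) ?_
    refine ih _ ?_ F' ?_
    · rw [Finset.sum_update_of_mem (Finset.mem_univ i)]
      rw [← Finset.add_sum_erase _ _ (Finset.mem_univ i), hk] at he
      rw [Finset.sdiff_singleton_eq_erase]
      omega
    · intro α hα
      have h4 := hF α hα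
      rw [hsplit, map_add] at h4
      have h5 : hsub α (em K (C G) * ww p q K i ^ e i) ∈ LL K α.1 := by
        rw [map_mul, map_pow]
        exact Subalgebra.mul_mem _ (hsub_em_mem _) (Subalgebra.pow_mem _ (hsub_ww_mem p q i hα) _)
      have h6 := Subalgebra.sub_mem _ h4 h5
      rwa [add_sub_cancel_left] at h6

/-- The ring of the arrangement is generated by `z, x, Y` and the elements `ww i`. -/
theorem BB_eq_GG (hp : Function.Injective p) : BB p q K = GG p q K := by
  apply le_antisymm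
  · intro g hg
    obtain ⟨F, n, hF⟩ := mem_awayAt.mp hg.1
    have hden : den p q (fun _ => n) = PP p q ^ n := by
      unfold den PP
      rw [Finset.prod_pow]; rfl
    have h0 : em K (PP p q) ≠ 0 := em_ne_zero (PP_ne_zero p q)
    have hg2 : g = em K F * (em K (den p q (fun _ => n)))⁻¹ := by
      rw [hden, map_pow, ← hF]
      field_simp
    rw [hg2]
    refine mem_GG_aux p q hp _ (fun _ => n) rfl F fun α hα => ?_
    rw [← hg2]
    exact hg.2 α hα
  · refine Algebra.adjoin_le ?_
    rintro g (hg | ⟨i, rfl⟩)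
    · rcases hg with rfl | rfl | rfl
      · exact em_mem p q _
      · exact em_mem p q _
      · exact em_mem p q _
    · exact ww_mem p q i

theorem BB_fg (hp : Function.Injective p) : (BB p q K).FG := by
  rw [BB_eq_GG p q hp]
  have hfin : (({em K (C zz), em K (C X), em K X} : Set K) ∪ Set.range (ww p q K)).Finite :=
    (Set.toFinite _).union (Set.finite_range _)
  exact ⟨hfin.toFinset, by rw [Set.Finite.coe_toFinset]; rfl⟩

theorem BB_finiteType (hp : Function.Injective p) : Algebra.FiniteType ℂ (BB p q K) :=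
  Subalgebra.fg_iff_finiteType _ |>.mp (BB_fg p q hp)

end main

end Pool.Agent.V5helper94.Kol
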