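import Pool.Agent.V5helper94.Kol.Upper2

/-!
# Lower bound for the pluricanonical forms
-/

set_option linter.unusedSectionVars false
set_option linter.unusedVariables false
set_option linter.unusedSimpArgs false

namespace Pool.Agent.V5helper94.Kol

open Polynomial nonZeroDivisors

variable {ι : Type} [Fintype ι] [DecidableEq ι] (p q : ι → ℂ)
variable {K : Type} [Field K] [Algebra P3 K] [IsFractionRing P3 K] [Algebra ℂ K] [IsScalarTower ℂ P3 K]

section zprime

variable (𝔭 : Ideal (BB p q K)) [𝔭.IsPrime] (htz : tz p q K ∈ 𝔭)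

theorem BB_unit_LZ {s : BB p q K} (hs : s ∉ 𝔭) (htz : tz p q K ∈ 𝔭) : (s : K)⁻¹ ∈ LZ K := by
  refine inv_mem_of_not_mul (BB_le_LZ p q s.2) fun h => hs ?_
  have h1 := div_zz_mem p q s.2 h
  have hz : em K (C zz) ≠ 0 := em_ne_zero Czz_prime.ne_zero
  have : s = ⟨_, h1⟩ * tz p q K := Subtype.ext (by
    change (s : K) = (s : K) * (em K (C zz))⁻¹ * em K (C zz)
    field_simp)
  rw [this]
  exact 𝔭.mul_mem_left _ htz

include htz in
theorem AA_le_LZ {g : K} (hg : g ∈ AA p q 𝔭) : g ∈ LZ K := by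
  obtain ⟨a, s, hs, e⟩ := (mem_AA p q 𝔭).mp hg
  have hs0 : (s : K) ≠ 0 := fun h0 => hs (by
    have : s = 0 := Subtype.ext h0
    rw [this]; exact 𝔭.zero_mem)
  have : g = a * (s : K)⁻¹ := by rw [← e]; field_simp
  rw [this]
  exact mul_mem (BB_le_LZ p q a.2) (BB_unit_LZ p q 𝔭 hs htz)

theorem AA_div_zz {g : K} (hg : g ∈ AA p q 𝔭) (h : g * (em K (C zz))⁻¹ ∈ LZ K) :
    g * (em K (C zz))⁻¹ ∈ AA p q 𝔭 := by
  obtain ⟨a, s, hs, e⟩ := (mem_AA p q 𝔭).mp hg
  have hs0 : (s : K) ≠ 0 := fun h0 => hs (by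
    have : s = 0 := Subtype.ext h0
    rw [this]; exact 𝔭.zero_mem)
  have h1 : (a : K) * (em K (C zz))⁻¹ ∈ BB p q K := by
    refine div_zz_mem p q a.2 ?_
    rw [← e, mul_right_comm]
    exact mul_mem h (BB_le_LZ p q s.2)
  refine (mem_AA p q 𝔭).mpr ⟨⟨_, h1⟩, s, hs, ?_⟩
  change g * (em K (C zz))⁻¹ * s = a * (em K (C zz))⁻¹
  rw [← e]; ring

include htz in
theorem z_prime_AA : Prime (toAA p q 𝔭 (tz p q K)) := by
  have hz : em K (C zz) ≠ 0 := em_ne_zero Czz_prime.ne_zero
  refine ⟨?_, ?_, ?_⟩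
  · intro h
    exact hz (congrArg Subtype.val h)
  · intro h
    obtain ⟨u, hu⟩ := h.exists_right_inv
    have h1 : em K (C zz) * (u : K) = 1 := congrArg Subtype.val hu
    obtain ⟨a, s, hs, e⟩ := (mem_AA p q 𝔭).mp u.2
    apply hs
    have : s = tz p q K * a := Subtype.ext (by
      change (s : K) = em K (C zz) * (a : K)
      rw [← e, ← mul_assoc, h1, one_mul])
    rw [this]
    exact 𝔭.mul_mem_right _ htz
  · rintro a b ⟨c, hc⟩
    have h1 : (a : K) * (b : K) * (em K (C zz))⁻¹ ∈ locAt K (C zz) Czz_prime := by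
      have h2 : (a : K) * (b : K) = em K (C zz) * (c : K) := congrArg Subtype.val hc
      rw [h2]
      have : em K (C zz) * (c : K) * (em K (C zz))⁻¹ = c := by field_simp
      rw [this]
      exact AA_le_LZ p q 𝔭 htz c.2
    rcases mul_inv_prime (AA_le_LZ p q 𝔭 htz a.2) (AA_le_LZ p q 𝔭 htz b.2) h1 with h | h
    · left
      refine ⟨⟨_, AA_div_zz p q 𝔭 a.2 h⟩, Subtype.ext ?_⟩
      change (a : K) = em K (C zz) * ((a : K) * (em K (C zz))⁻¹)
      field_simp
    · right
      refine ⟨⟨_, AA_div_zz p q 𝔭 b.2 h⟩, Subtype.ext ?_⟩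
      change (b : K) = em K (C zz) * ((b : K) * (em K (C zz))⁻¹)
      field_simp

end zprime

theorem em_lf (i : ι) : em K (lf p q i) =
    em K X + algebraMap ℂ K (p i) * em K (C X) - algebraMap ℂ K (q i) * em K (C zz) := by
  have h : lf p q i = X + C (cc (p i)) * C X - C (cc (q i)) * C zz := by
    rw [lf, pl, aa, C_sub, C_mul, C_mul]
    ring
  rw [algebraMap_cc, algebraMap_cc, h, map_sub, map_add, map_mul, map_mul]

theorem one_mem_formCoeffs (𝔭 : Ideal (BB p q K)) [𝔭.IsPrime] :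
    (1 : K) ∈ formCoeffs (AA p q 𝔭) (om K) := by
  change (1 : K) • om K ∈ regularForms (AA p q 𝔭) K
  rw [one_smul]
  refine AddSubgroup.subset_closure ⟨1, toAA p q 𝔭 ⟨em K (C zz), em_mem p q _⟩,
    toAA p q 𝔭 ⟨em K (C X), em_mem p q _⟩, toAA p q 𝔭 ⟨em K X, em_mem p q _⟩, ?_⟩
  rw [map_one, one_smul]
  rfl

theorem lower_main [Nontrivial ι] (hp : Function.Injective p) (𝔭 : Ideal (BB p q K)) [𝔭.IsPrime]
    (htz : tz p q K ∈ 𝔭) (n : ℕ) (g : K) (hg1 : g ∈ awayAt K (PP p q) (PP_ne_zero p q))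
    (hg2 : ∀ α ∈ pts p q, em K (C (bb α.1)) ^ n * hsub α g ∈ LL K α.1) :
    g ∈ pluriForms (AA p q 𝔭) (om K) n := by
  intro 𝔮 h𝔮 hh
  -- comparison with polynomials
  let ψ : P3 →+* AA p q 𝔭 :=
    { toFun := fun F => toAA p q 𝔭 ⟨em K F, em_mem p q F⟩
      map_one' := Subtype.ext (map_one (em K))
      map_mul' := fun a b => Subtype.ext (map_mul (em K) a b)
      map_zero' := Subtype.ext (map_zero (em K))
      map_add' := fun a b => Subtype.ext (map_add (em K) a b) }
  have hψ : ∀ F, algebraMap (AA p q 𝔭) K (ψ F) = em K F := fun F => rfl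
  have hcase : ψ (PP p q) ∉ 𝔮 ∨ ∃ α ∈ pts p q, ψ (offP p q α) ∉ 𝔮 := by
    by_cases hP : ψ (PP p q) ∈ 𝔮
    · have hz : ψ (C zz) ∉ 𝔮 := by
        intro hz
        have h1 := Ideal.eq_span_singleton_of_height_eq_one hh hz (z_prime_AA p q 𝔭 htz)
        rw [h1, Ideal.mem_span_singleton] at hP
        obtain ⟨c, hc⟩ := hP
        have h2 : em K (PP p q) = em K (C zz) * (c : K) := congrArg Subtype.val hc
        refine not_mul_inv_mem (K := K) Czz_prime (not_zz_dvd_PP p q) ?_
        rw [h2]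
        have hz0 : em K (C zz) ≠ 0 := em_ne_zero Czz_prime.ne_zero
        have : em K (C zz) * (c : K) * (em K (C zz))⁻¹ = c := by field_simp
        rw [this]
        exact AA_le_LZ p q 𝔭 htz c.2
      have : (𝔮.comap ψ).IsPrime := Ideal.comap_isPrime ψ 𝔮
      rcases chart_cover p q hp (𝔮.comap ψ) hz with h | ⟨α, hα, h⟩
      · exact Or.inl h
      · exact Or.inr ⟨α, hα, h⟩
    · exact Or.inl hP
  rcases hcase with hP | ⟨α, hα, hO⟩
  · obtain ⟨F, k, e⟩ := mem_awayAt.mp hg1
    change g * em K (PP p q) ^ k = em K F at e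
    refine ⟨ψ (PP p q) ^ k, fun h => hP (h𝔮.mem_of_pow_mem _ h), ?_⟩
    have h1 : (1 : K) ∈ formCoeffs (AA p q 𝔭) (om K) ^ n := by
      have := Submodule.pow_mem_pow _ (one_mem_formCoeffs p q 𝔭) n
      rwa [one_pow] at this
    have h2 := Submodule.smul_mem _ (ψ F) h1
    rw [Algebra.smul_def, mul_one, hψ] at h2
    rw [map_pow, hψ, mul_comm, e]
    exact h2
  · obtain ⟨i, j, hij, hi, hj⟩ := (mem_pts p q hp).mp hα
    have hl0 : em K (lf p q i) ≠ 0 := em_ne_zero (lf_ne_zero p q i)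
    set κ : K := algebraMap ℂ K (p i - p j) with hκ
    have hκ0 : κ ≠ 0 := by
      rw [hκ, Ne, map_eq_zero_iff _ (algebraMap ℂ K).injective]
      exact sub_ne_zero.mpr fun h => hij (hp h)
    have hw := offP_mul_mem p q (K := K) hp hα hi (lf p q j) (by
      rw [sub_lf_on p q hj]; exact dvd_mul_right _ _)
    have hkey := coeff_key (A := AA p q 𝔭) (om K) (ψ (C zz)) (ψ (lf p q i)) (ψ (offP p q α)) 0
      (toAA p q 𝔭 ⟨_, hw⟩) (em K (lf p q j)) κ hl0 (by
        change em K (offP p q α) * (em K (lf p q j) * (em K (lf p q i))⁻¹) * em K (lf p q i) =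
          em K (offP p q α) * em K (lf p q j)
        field_simp) (by
        rw [hψ, hψ, em_lf, em_lf]
        exact wd_linear _ _ _ _ _ _ _)
    rw [hψ, hψ] at hkey
    have hkn := Submodule.pow_mem_pow _ hkey n
    -- the element `f^n g l^n`
    have hbb : em K (offP p q α) ^ n * g * em K (lf p q i) ^ n ∈ BB p q K := by
      constructor
      · exact mul_mem (mul_mem (pow_mem (Subalgebra.algebraMap_mem _ _) _) hg1)
          (pow_mem (Subalgebra.algebraMap_mem _ _) _)
      · intro β hβ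
        by_cases hαβ : β = α
        · subst hαβ
          have h1 : hsub β (em K (offP p q β) ^ n * g * em K (lf p q i) ^ n) =
              em K (sub β (offP p q β)) ^ n * (em K (C (bb β.1)) ^ n * hsub β g) *
                em K (X + C (cc (p i))) ^ n := by
            rw [map_mul, map_mul, map_pow, map_pow, hsub_em, hsub_em, sub_lf_on p q hi, map_mul (em K)]
            ring
          rw [h1]
          exact mul_mem (mul_mem (pow_mem (Subalgebra.algebraMap_mem _ _) _) (hg2 β hβ))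
            (pow_mem (Subalgebra.algebraMap_mem _ _) _)
        · obtain ⟨l, hl1, hl2⟩ : ∃ l, onL p q β l ∧ ¬ onL p q α l := by
            by_contra hcon
            push Not at hcon
            obtain ⟨k, l, hkl, hk, hl⟩ := (mem_pts p q hp).mp hβ
            exact hαβ ((eq_ipt p q hp hkl hk hl).trans (eq_ipt p q hp hkl (hcon k hk) (hcon l hl)).symm)
          obtain ⟨G, hG⟩ := lf_dvd_offP p q hl2
          have h1 : hsub β (em K (offP p q α) ^ n * g * em K (lf p q i) ^ n) =
              em K ((X + C (cc (p l))) * sub β G) ^ n * (em K (C (bb β.1)) ^ n * hsub β g) *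
                em K (sub β (lf p q i)) ^ n := by
            rw [map_mul, map_mul, map_pow, map_pow, hsub_em, hsub_em, hG, map_mul (sub β),
              sub_lf_on p q hl1, map_mul (em K), map_mul (em K), map_mul (em K)]
            ring
          rw [h1]
          exact mul_mem (mul_mem (pow_mem (Subalgebra.algebraMap_mem _ _) _) (hg2 β hβ))
            (pow_mem (Subalgebra.algebraMap_mem _ _) _)
    refine ⟨ψ (offP p q α) ^ (3 * n), fun h => hO (h𝔮.mem_of_pow_mem _ h), ?_⟩
    have hc : (algebraMap ℂ K (p i - p j)⁻¹) ^ n * (em K (offP p q α) ^ n * g * em K (lf p q i) ^ n) ∈ BB p q K :=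
      mul_mem (pow_mem (Subalgebra.algebraMap_mem _ _) _) hbb
    have h2 := Submodule.smul_mem _ (toAA p q 𝔭 ⟨_, hc⟩) hkn
    rw [Algebra.smul_def] at h2
    have h3 : algebraMap (AA p q 𝔭) K (ψ (offP p q α) ^ (3 * n)) * g =
        algebraMap (AA p q 𝔭) K (toAA p q 𝔭 ⟨_, hc⟩) *
          (em K (offP p q α) ^ 2 * κ * (em K (lf p q i))⁻¹) ^ n := by
      rw [map_pow, hψ]
      change _ = (algebraMap ℂ K (p i - p j)⁻¹) ^ n *
        (em K (offP p q α) ^ n * g * em K (lf p q i) ^ n) * _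
      rw [map_inv₀, ← hκ, mul_pow, mul_pow, inv_pow, inv_pow]
      have h5 : em K (lf p q i) ^ n ≠ 0 := pow_ne_zero _ hl0
      have h6 : κ ^ n ≠ 0 := pow_ne_zero _ hκ0
      have h7 : em K (offP p q α) ^ (3 * n) = em K (offP p q α) ^ n * (em K (offP p q α) ^ 2) ^ n := by
        rw [← pow_mul, ← pow_add]; congr 1; ring
      rw [h7]
      generalize em K (lf p q i) ^ n = A at *
      generalize κ ^ n = B at *
      field_simp
    rw [h3]
    exact h2

end Pool.Agent.V5helper94.Kol
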