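import Pool.Agent.V5helper94.Kol.Vert

/-!
# The canonical algebra of the special ring is not finitely generated
-/

set_option linter.unusedSectionVars false
set_option linter.unusedVariables false
set_option linter.unusedSimpArgs false

namespace Pool.Agent.V5helper94.Kol

open Polynomial

variable {K : Type} [Field K] [Algebra P3 K] [IsFractionRing P3 K] [Algebra ℂ K] [IsScalarTower ℂ P3 K]

/-- the order of `g` along the cone over the cuspidal cubic is at least `v` -/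
def Wge (v : ℤ) (g : K) : Prop :=
  ∃ (F G : P3) (a b : ℕ) (H : P2), g * em K G = em K F ∧ X ^ a ∣ th F ∧ th G = X ^ b * H ∧
    H.coeff 0 ≠ 0 ∧ v ≤ (a : ℤ) - b

theorem Wge_zero (v : ℤ) : Wge v (0 : K) := by
  refine ⟨0, 1, v.toNat, 0, 1, by simp, by simp, by simp, by simp, ?_⟩
  simp

theorem Wge_mono {v w : ℤ} (h : v ≤ w) {g : K} (hg : Wge w g) : Wge v g := by
  obtain ⟨F, G, a, b, H, h1, h2, h3, h4, h5⟩ := hg
  exact ⟨F, G, a, b, H, h1, h2, h3, h4, h.trans h5⟩

theorem Wge_add {v : ℤ} {g g' : K} (h : Wge v g) (h' : Wge v g') : Wge v (g + g') := by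
  obtain ⟨F, G, a, b, H, h1, h2, h3, h4, h5⟩ := h
  obtain ⟨F', G', a', b', H', h1', h2', h3', h4', h5'⟩ := h'
  refine ⟨F * G' + F' * G, G * G', min (a + b') (a' + b), b + b', H * H', ?_, ?_, ?_, ?_, ?_⟩
  · rw [map_add, map_mul, map_mul, map_mul, ← h1, ← h1']; ring
  · rw [map_add, map_mul, map_mul]
    refine dvd_add ?_ ?_
    · refine (pow_dvd_pow _ (min_le_left _ _)).trans ?_
      rw [pow_add]
      exact mul_dvd_mul h2 ⟨H', h3'⟩
    · refine (pow_dvd_pow _ (min_le_right _ _)).trans ?_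
      rw [pow_add]
      exact mul_dvd_mul h2' ⟨H, h3⟩
  · rw [map_mul, h3, h3']; ring
  · rw [mul_coeff_zero]; exact mul_ne_zero h4 h4'
  · push_cast
    omega

theorem Wge_mul {v v' : ℤ} {g g' : K} (h : Wge v g) (h' : Wge v' g') : Wge (v + v') (g * g') := by
  obtain ⟨F, G, a, b, H, h1, h2, h3, h4, h5⟩ := h
  obtain ⟨F', G', a', b', H', h1', h2', h3', h4', h5'⟩ := h'
  refine ⟨F * F', G * G', a + a', b + b', H * H', ?_, ?_, ?_, ?_, ?_⟩
  · rw [map_mul, map_mul, ← h1, ← h1']; ring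
  · rw [map_mul, pow_add]; exact mul_dvd_mul h2 h2'
  · rw [map_mul, h3, h3']; ring
  · rw [mul_coeff_zero]; exact mul_ne_zero h4 h4'
  · push_cast
    omega

/-- pluricanonical forms have a pole of order at most `4 n`, and less than `4 n` if `n ≥ 1` -/
theorem pluri_Wge {f : K} {n : ℕ} (hf : f ∈ pluriForms (AA pc qc (vtx K)) (om K) n) :
    Wge (if n = 0 then 0 else 1 - 4 * (n : ℤ)) f := by
  obtain ⟨s, hs, h1, h2⟩ := upper_main pc qc pc_injective (vtx K) (Set.range al)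
    (by rintro _ ⟨k, rfl⟩; exact al_mem_pts k)
    (by rintro _ ⟨k, rfl⟩ g hg; exact vtx_center k g hg) n hf
  obtain ⟨N, F, hN, e, h3, h4, c, h5, h6⟩ := key h1 (fun k => h2 _ ⟨k, rfl⟩)
  obtain ⟨G, M, H, e', h7, h8⟩ := not_mem_vtx hs
  obtain ⟨a, ha1, ha2⟩ : ∃ a : ℕ, X ^ a ∣ th F ∧
      (if n = 0 then 0 else 1 - 4 * (n : ℤ)) ≤ (a : ℤ) - 14 * N := by
    by_cases hn : n = 0
    · refine ⟨14 * N, X_pow_dvd_th fun d hd => h4 d (by omega), ?_⟩
      rw [if_pos hn]
      push_cast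
      omega
    · refine ⟨14 * N - 4 * n + 1, X_pow_dvd_th fun d hd => ?_, ?_⟩
      · rcases Nat.lt_or_ge d (14 * N - 4 * n) with h | h
        · exact h4 d h
        · have : d = 14 * N - 4 * n := by omega
          rw [this, h5, h6 (by omega), C_0, zero_mul]
      · rw [if_neg hn]
        push_cast
        omega
  refine ⟨F * PP pc qc ^ M, G * PP pc qc ^ N, a + 14 * M, 14 * M + 14 * N, H * C (DP ^ N),
    ?_, ?_, ?_, ?_, ?_⟩
  · rw [map_mul, map_mul, ← e, ← e', map_pow, map_pow]; ring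
  · rw [map_mul, pow_add, th_PP_pow]
    exact mul_dvd_mul ha1 (dvd_mul_left _ _)
  · rw [map_mul, h7, th_PP_pow]; ring
  · rw [mul_coeff_zero, coeff_C_zero]
    exact mul_ne_zero h8 (DPN_ne N)
  · push_cast
    omega

/-- the condition on the coefficients which is implied by finite generation -/
def Tcond (M : ℕ) (n : ℕ) (g : K) : Prop := ∃ v : ℤ, (n : ℤ) - 4 * M * n ≤ M * v ∧ Wge v g

theorem Tcond_zero {M : ℕ} (hM : 1 ≤ M) (n : ℕ) : Tcond M n (0 : K) :=
  ⟨n, by
    have : (1 : ℤ) ≤ M := by exact_mod_cast hM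
    nlinarith [mul_nonneg (by linarith : (0 : ℤ) ≤ (M : ℤ)) (Int.natCast_nonneg n),
      mul_nonneg (by linarith : (0 : ℤ) ≤ (M : ℤ) - 1) (Int.natCast_nonneg n)], Wge_zero _⟩

theorem Tcond_add {M n : ℕ} {g g' : K} (h : Tcond M n g) (h' : Tcond M n g') :
    Tcond M n (g + g') := by
  obtain ⟨v, h1, h2⟩ := h
  obtain ⟨v', h1', h2'⟩ := h'
  rcases le_total v v' with h | h
  · exact ⟨v, h1, Wge_add h2 (Wge_mono h h2')⟩
  · exact ⟨v', h1', Wge_add (Wge_mono h h2) h2'⟩

theorem Tcond_mul {M n n' : ℕ} {g g' : K} (h : Tcond M n g) (h' : Tcond M n' g') :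
    Tcond M (n + n') (g * g') := by
  obtain ⟨v, h1, h2⟩ := h
  obtain ⟨v', h1', h2'⟩ := h'
  refine ⟨v + v', ?_, Wge_mul h2 h2'⟩
  push_cast
  linarith

theorem Tcond_of_pluri {M n : ℕ} (hn : n ≤ M) {g : K}
    (hg : g ∈ pluriForms (AA pc qc (vtx K)) (om K) n) : Tcond M n g := by
  refine ⟨_, ?_, pluri_Wge hg⟩
  split_ifs with h
  · subst h; simp
  · have : (n : ℤ) ≤ M := by exact_mod_cast hn
    nlinarith

/-- an element of order exactly `1 - 8 k` in degree `2 k` -/
theorem Tcond_gk {k M : ℕ} {F : P3} {h : ℂ[X]} (h0 : h ≠ 0) (hF : th F = C h * X ^ (6 * k + 1))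
    (hT : Tcond M (2 * k) (em K F * (em K (PP pc qc ^ k))⁻¹)) : 2 * k ≤ M := by
  obtain ⟨v, h1, F', G, a, b, H, h2, h3, h4, h5, h6⟩ := hT
  have hP : em K (PP pc qc ^ k) ≠ 0 := em_ne_zero (pow_ne_zero _ (PP_ne_zero pc qc))
  have e : F * G = F' * PP pc qc ^ k := by
    apply em_injective K
    rw [map_mul, map_mul, ← h2]
    field_simp
  have e2 := congrArg th e
  rw [map_mul, map_mul, hF, h4, th_PP_pow] at e2
  obtain ⟨E, hE⟩ := h3
  rw [hE] at e2
  have h7 : X ^ (a + 14 * k) ∣ (X : P2) ^ (6 * k + 1 + b) * (C h * H) := by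
    refine ⟨E * C (DP ^ k), ?_⟩
    calc X ^ (6 * k + 1 + b) * (C h * H) = C h * X ^ (6 * k + 1) * (X ^ b * H) := by
          rw [pow_add]; ring
      _ = _ := by rw [e2]; ring
  have h8 : a + 14 * k ≤ 6 * k + 1 + b := by
    by_contra hlt
    push Not at hlt
    have h9 := (X_pow_dvd_iff.mp h7) (6 * k + 1 + b) hlt
    rw [coeff_X_pow_mul', if_pos le_rfl, Nat.sub_self, mul_coeff_zero, coeff_C_zero] at h9
    exact mul_ne_zero h0 h5 h9
  have h10 : v ≤ 1 - 8 * k := by omega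
  have h11 : (M : ℤ) * v ≤ M * (1 - 8 * k) := mul_le_mul_of_nonneg_left h10 (Int.natCast_nonneg M)
  have h12 : (2 * k : ℤ) ≤ M := by
    push_cast at h1
    nlinarith
  exact_mod_cast h12

/-- polynomials all of whose coefficients satisfy the condition -/
def Talg {M : ℕ} (hM : 1 ≤ M) : Subalgebra (AA pc qc (vtx K)) K[X] where
  carrier := {F | ∀ n, Tcond M n (F.coeff n)}
  mul_mem' := by
    intro F G hF hG n
    rw [coeff_mul]
    refine Finset.sum_induction _ (Tcond M n) (fun _ _ => Tcond_add) (Tcond_zero hM n) fun x hx => ?_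
    have h := Tcond_mul (hF x.1) (hG x.2)
    rwa [Finset.HasAntidiagonal.mem_antidiagonal.mp hx] at h
  add_mem' := by
    intro F G hF hG n
    rw [coeff_add]
    exact Tcond_add (hF n) (hG n)
  algebraMap_mem' := by
    intro r n
    rcases Nat.eq_zero_or_pos n with h | h
    · subst h
      refine Tcond_of_pluri (Nat.zero_le _) ?_
      exact (canonicalAlgebra (AA pc qc (vtx K)) (om K)).algebraMap_mem r 0
    · rw [Polynomial.algebraMap_apply, Polynomial.coeff_C, if_neg (by omega)]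
      exact Tcond_zero hM n

theorem om_not_FG : ¬ (canonicalAlgebra (AA pc qc (vtx K)) (om K)).FG := by
  rintro ⟨S, hS⟩
  obtain ⟨M, hM, hSM⟩ : ∃ M : ℕ, 1 ≤ M ∧ ∀ F ∈ S, F.natDegree ≤ M :=
    ⟨S.sup natDegree + 1, Nat.le_add_left _ _, fun F hF => (Finset.le_sup hF).trans (Nat.le_add_right _ _)⟩
  have hle : canonicalAlgebra (AA pc qc (vtx K)) (om K) ≤ Talg hM := by
    rw [← hS]
    refine Algebra.adjoin_le fun F hF n => ?_
    rcases le_or_gt n M with h | h
    · refine Tcond_of_pluri h ?_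
      have : F ∈ canonicalAlgebra (AA pc qc (vtx K)) (om K) := by
        rw [← hS]; exact Algebra.subset_adjoin hF
      exact this n
    · rw [coeff_eq_zero_of_natDegree_lt ((hSM F hF).trans_lt h)]
      exact Tcond_zero hM n
  obtain ⟨F, h, h0, hF, hd⟩ := partB M hM
  have hg : em K F * (em K (PP pc qc ^ M))⁻¹ ∈ pluriForms (AA pc qc (vtx K)) (om K) (2 * M) := by
    refine lower_main pc qc pc_injective (vtx K) tz_mem_vtx (2 * M) _ ?_ ?_
    · rw [mem_awayAt]
      refine ⟨F, M, ?_⟩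
      have hP : em K (PP pc qc) ≠ 0 := PPK_ne_zero
      rw [map_pow]
      change em K F * (em K (PP pc qc) ^ M)⁻¹ * (em K (PP pc qc)) ^ M = _
      field_simp
    · intro α hα
      rw [← den_const, hsub_div_mem_iff]
      exact hd α hα
  have h1 : monomial (2 * M) (em K F * (em K (PP pc qc ^ M))⁻¹) ∈
      canonicalAlgebra (AA pc qc (vtx K)) (om K) := by
    intro n
    rw [coeff_monomial]
    split_ifs with hn
    · rw [← hn]; exact hg
    · exact Submodule.zero_mem _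
  have h2 := hle h1 (2 * M)
  rw [coeff_monomial, if_pos rfl] at h2
  have h3 := Tcond_gk h0 hF h2
  omega

end Pool.Agent.V5helper94.Kol
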