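import Pool.Agent.V5helper94.Kol.Gens

/-!
# Normality, flatness and the special fibre of the ring of the arrangement
-/

set_option linter.unusedSectionVars false
set_option linter.unusedVariables false

namespace Pool.Agent.V5helper94.Kol

open Polynomial nonZeroDivisors

variable {ι : Type} [Fintype ι] [DecidableEq ι] (p q : ι → ℂ)
variable {K : Type} [Field K] [Algebra P3 K] [IsFractionRing P3 K] [Algebra ℂ K] [IsScalarTower ℂ P3 K]

instance BB_isFractionRing : IsFractionRing (BB p q K) K := by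
  refine IsFractionRing.of_field (BB p q K) K fun z => ?_
  obtain ⟨x, y, _, e⟩ := IsFractionRing.div_surjective P3 z
  exact ⟨⟨em K x, em_mem p q x⟩, ⟨em K y, em_mem p q y⟩, e.symm⟩

theorem BB_isIntegrallyClosed : IsIntegrallyClosed (BB p q K) := by
  rw [isIntegrallyClosed_iff K]
  intro f hf
  have h1 : f ∈ awayAt K (PP p q) (PP_ne_zero p q) := by
    obtain ⟨l, hl⟩ := mem_of_isIntegral_map (L := awayAt K (PP p q) (PP_ne_zero p q)) (K' := K)
      (RingHom.id K) (fun a => ⟨⟨a.1, a.2.1⟩, rfl⟩) hf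
    rw [RingHom.id_apply] at hl
    rw [← hl]
    exact l.2
  have h2 : ∀ α ∈ pts p q, hsub α f ∈ LL K α.1 := by
    intro α hα
    obtain ⟨l, hl⟩ := mem_of_isIntegral_map (L := locAt K (C (bb α.1)) (Cbb_prime α.1)) (K' := K)
      (hsub α) (fun a => ⟨⟨hsub α a.1, a.2.2 α hα⟩, rfl⟩) hf
    rw [← hl]
    exact l.2
  exact ⟨⟨f, h1, h2⟩, rfl⟩

/-! ### the special fibre -/

/-- evaluation of `ℂ[z]` at zero -/
noncomputable def ev0 : R1 →+* ℂ := (Polynomial.aeval (0 : ℂ) : ℂ[X] →ₐ[ℂ] ℂ).toRingHom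

theorem ev0_kc (c : ℂ) : ev0 (kc c) = c :=
  Polynomial.aeval_C (R := ℂ) (A := ℂ) (0 : ℂ) c

theorem ev0_vz : ev0 vz = 0 := Polynomial.aeval_X (R := ℂ) (A := ℂ) (0 : ℂ)

/-- identification of `ℂ[X]` with `R1` -/
noncomputable def toR1 : ℂ[X] ≃+* R1 := RingEquiv.refl _

theorem toR1_X : toR1 X = vz := rfl
theorem toR1_C (c : ℂ) : toR1 (C c) = kc c := rfl
theorem ev0_toR1 (F : ℂ[X]) : ev0 (toR1 F) = F.coeff 0 := (Polynomial.coeff_zero_eq_aeval_zero F).symm

theorem dvd_of_ev0 {r : R1} (h : ev0 r = 0) : vz ∣ r := by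
  obtain ⟨F, rfl⟩ := toR1.surjective r
  rw [ev0_toR1, ← Polynomial.X_dvd_iff] at h
  obtain ⟨G, rfl⟩ := h
  exact ⟨toR1 G, by rw [map_mul, toR1_X]⟩

/-- reduction modulo `z` -/
noncomputable def rz : R2 →+* ℂ[X] := Polynomial.mapRingHom ev0
/-- reduction modulo `z` -/
noncomputable def r0 : P3 →+* P2 := Polynomial.mapRingHom rz

theorem r0_X : r0 X = X := by simp [r0]
theorem r0_C (r : R2) : r0 (C r) = C (rz r) := by simp [r0]
theorem rz_X : rz X = X := by simp [rz]
theorem rz_cc (c : ℂ) : rz (cc c) = C c := by simp [rz, cc, ev0_kc]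
theorem rz_zz : rz zz = 0 := by simp [rz, zz, ev0_vz]

theorem dvd_of_r0 {F : P3} (h : r0 F = 0) : C zz ∣ F := by
  rw [Polynomial.C_dvd_iff_dvd_coeff]
  intro i
  unfold zz
  rw [Polynomial.C_dvd_iff_dvd_coeff]
  intro j
  apply dvd_of_ev0
  have h1 := congrArg (fun G : P2 => (G.coeff i).coeff j) h
  simpa [r0, rz] using h1

theorem r0_eq_zero_iff {F : P3} : r0 F = 0 ↔ C zz ∣ F := by
  refine ⟨dvd_of_r0, ?_⟩
  rintro ⟨G, rfl⟩
  rw [map_mul, r0_C, rz_zz, map_zero, zero_mul]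

theorem r0_lf (i : ι) : r0 (lf p q i) = X + C (C (p i) * X) := by
  rw [lf, pl, map_sub, r0_X, r0_C, aa, map_sub, map_mul, map_mul, rz_cc, rz_cc, rz_zz, rz_X, mul_zero,
    zero_sub, C_neg, sub_neg_eq_add]

theorem r0_lf_ne_zero (i : ι) : r0 (lf p q i) ≠ 0 := by
  rw [r0_lf]
  intro h
  have := congrArg (fun G : P2 => G.coeff 1) h
  simp at this

theorem not_zz_dvd_lf (i : ι) : ¬ C zz ∣ lf p q i := fun h => r0_lf_ne_zero p q i (r0_eq_zero_iff.mpr h)

theorem not_zz_dvd_PP : ¬ C zz ∣ PP p q := by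
  intro h
  obtain ⟨i, _, hi⟩ := Czz_prime.dvd_finsetProd_iff _ |>.mp h
  exact not_zz_dvd_lf p q i hi

variable (K) in
/-- the local ring along `z = 0` -/
noncomputable def LZ : Subalgebra P3 K := locAt K (C zz) Czz_prime

theorem BB_le_LZ {g : K} (hg : g ∈ BB p q K) : g ∈ LZ K := by
  obtain ⟨F, n, hF⟩ := mem_awayAt.mp hg.1
  refine mem_locAt'.mpr ⟨F, PP p q ^ n, fun h => not_zz_dvd_PP p q (Czz_prime.dvd_of_dvd_pow h), ?_⟩
  rw [map_pow]
  exact hF

instance LZ_isLocalization : IsLocalization (notDvd (C zz) Czz_prime) (LZ K) :=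
  Localization.subalgebra.isLocalization_ofField K _ (notDvd_le _ _)

section special

variable {K' : Type} [Field K'] [Algebra P2 K'] [IsFractionRing P2 K'] [Algebra ℂ K']
  [IsScalarTower ℂ P2 K']

variable (K K') in
/-- restriction to `z = 0` on the local ring -/
noncomputable def rhoZ : LZ K →+* K' :=
  IsLocalization.lift (M := notDvd (C zz) Czz_prime) (g := (algebraMap P2 K').comp r0) (by
    intro y
    rw [isUnit_iff_ne_zero, RingHom.comp_apply]
    refine amap_ne_zero fun h => y.2 (r0_eq_zero_iff.mp h))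

theorem rho_em (F : P3) : rhoZ K K' ⟨em K F, Subalgebra.algebraMap_mem _ F⟩ = algebraMap P2 K' (r0 F) :=
  IsLocalization.lift_eq (M := notDvd (C zz) Czz_prime) (S := LZ K) _ F

theorem rho_eq {g : K} (hg : g ∈ LZ K) {F G : P3} (h : g * em K G = em K F) :
    rhoZ K K' ⟨g, hg⟩ * algebraMap P2 K' (r0 G) = algebraMap P2 K' (r0 F) := by
  rw [← rho_em (K := K), ← rho_em (K := K), ← map_mul]
  congr 1
  exact Subtype.ext h

/-- the kernel of the restriction -/
theorem rho_eq_zero {g : K} (hg : g ∈ LZ K) (h : rhoZ K K' ⟨g, hg⟩ = 0) :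
    g * (em K (C zz))⁻¹ ∈ LZ K := by
  obtain ⟨F, G, hG, e⟩ := mem_locAt'.mp hg
  have h1 := rho_eq (K' := K') hg e
  rw [h, zero_mul, eq_comm] at h1
  have h2 : r0 F = 0 := IsFractionRing.injective P2 K' (by rw [h1, map_zero])
  obtain ⟨F', rfl⟩ := r0_eq_zero_iff.mp h2
  have hz : em K (C zz) ≠ 0 := em_ne_zero Czz_prime.ne_zero
  refine mem_locAt'.mpr ⟨F', G, hG, ?_⟩
  rw [map_mul] at e
  change g * em K G = em K (C zz) * em K F' at e
  change g * (em K (C zz))⁻¹ * em K G = em K F'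
  rw [mul_right_comm, e]
  field_simp

theorem rho_zz_mul {g : K} (hg : g ∈ LZ K) (h : g * (em K (C zz))⁻¹ ∈ LZ K) :
    rhoZ K K' ⟨g, hg⟩ = 0 := by
  have hz : em K (C zz) ≠ 0 := em_ne_zero Czz_prime.ne_zero
  have : (⟨g, hg⟩ : LZ K) = ⟨g * (em K (C zz))⁻¹, h⟩ * ⟨em K (C zz), Subalgebra.algebraMap_mem _ _⟩ := by
    apply Subtype.ext
    change g = g * (em K (C zz))⁻¹ * em K (C zz)
    field_simp
  rw [this, map_mul, rho_em, r0_C, rz_zz, map_zero, map_zero, mul_zero]

/-- division by `z` inside the ring of the arrangement -/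
theorem div_zz_mem {g : K} (hg : g ∈ BB p q K) (h : g * (em K (C zz))⁻¹ ∈ LZ K) :
    g * (em K (C zz))⁻¹ ∈ BB p q K := by
  have hz : em K (C zz) ≠ 0 := em_ne_zero Czz_prime.ne_zero
  constructor
  · obtain ⟨F, n, hF⟩ := mem_awayAt.mp hg.1
    change g * em K (PP p q) ^ n = em K F at hF
    have h1 : em K F * (em K (C zz) ^ 1)⁻¹ ∈ LZ K := by
      rw [← hF, pow_one, mul_right_comm]
      exact Subalgebra.mul_mem _ h (Subalgebra.pow_mem _ (Subalgebra.algebraMap_mem _ _) _)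
    obtain ⟨F', hF'⟩ := (mul_mem_locAt_iff (K := K) (hh := Czz_prime) 1 F).mp h1
    rw [pow_one] at hF'
    refine mem_awayAt.mpr ⟨F', n, ?_⟩
    change g * (em K (C zz))⁻¹ * em K (PP p q) ^ n = em K F'
    rw [mul_right_comm, hF, hF', map_mul]
    field_simp
  · intro α hα
    rw [map_mul, map_inv₀, hsub_em, sub_C]
    exact Subalgebra.mul_mem _ (hg.2 α hα) (inv_mem_locAt (not_C_dvd_C not_bb_dvd_zz'))

variable (K K') in
/-- restriction of the ring of the arrangement to `z = 0` -/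
noncomputable def rhoB : BB p q K →ₐ[ℂ] K' where
  toFun g := rhoZ K K' ⟨g.1, BB_le_LZ p q g.2⟩
  map_one' := (rhoZ K K').map_one
  map_mul' a b := (rhoZ K K').map_mul ⟨a.1, BB_le_LZ p q a.2⟩ ⟨b.1, BB_le_LZ p q b.2⟩
  map_zero' := (rhoZ K K').map_zero
  map_add' a b := (rhoZ K K').map_add ⟨a.1, BB_le_LZ p q a.2⟩ ⟨b.1, BB_le_LZ p q b.2⟩
  commutes' c := by
    have h1 : (⟨(algebraMap ℂ (BB p q K) c).1, BB_le_LZ p q (algebraMap ℂ (BB p q K) c).2⟩ : LZ K) =
      ⟨em K (C (cc c)), Subalgebra.algebraMap_mem _ _⟩ := Subtype.ext (algebraMap_cc (K := K) c)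
    rw [h1, rho_em, r0_C, rz_cc, IsScalarTower.algebraMap_apply ℂ P2 K']
    rfl

variable (K) in
/-- `z` as an element of the ring -/
noncomputable def tz : BB p q K := ⟨em K (C zz), em_mem p q _⟩

theorem tz_ne_zero : tz p q K ≠ 0 := by
  intro h
  exact em_ne_zero (K := K) Czz_prime.ne_zero (congrArg Subtype.val h)

theorem rhoB_eq_zero_iff (g : BB p q K) : rhoB p q K K' g = 0 ↔ g ∈ Ideal.span {tz p q K} := by
  have hz : em K (C zz) ≠ 0 := em_ne_zero Czz_prime.ne_zero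
  rw [Ideal.mem_span_singleton']
  constructor
  · intro h
    refine ⟨⟨_, div_zz_mem p q g.2 (rho_eq_zero (K' := K') _ h)⟩, ?_⟩
    apply Subtype.ext
    change g.1 * (em K (C zz))⁻¹ * em K (C zz) = g.1
    field_simp
  · rintro ⟨a, rfl⟩
    rw [map_mul]
    have : rhoB p q K K' (tz p q K) = 0 := by
      change rhoZ K K' ⟨em K (C zz), _⟩ = 0
      rw [rho_em, r0_C, rz_zz, map_zero, map_zero]
    rw [this, mul_zero]

theorem rhoB_em (F : P3) : rhoB p q K K' ⟨em K F, em_mem p q F⟩ = algebraMap P2 K' (r0 F) := rho_em F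

theorem rhoB_lf (i : ι) : rhoB p q K K' ⟨em K (lf p q i), em_mem p q _⟩ = lin2 K' (p i) := by
  rw [rhoB_em, r0_lf, map_add, lin2, y2, x2, C_mul, map_mul]
  congr 2
  rw [IsScalarTower.algebraMap_apply ℂ P2 K']; rfl

theorem lin2_ne_zero (a : ℂ) : lin2 K' a ≠ 0 := by
  have : lin2 K' a = algebraMap P2 K' (X + C (C a * X)) := by
    rw [map_add, lin2, y2, x2, C_mul, map_mul]
    congr 2
    rw [IsScalarTower.algebraMap_apply ℂ P2 K']; rfl
  rw [this]
  refine amap_ne_zero fun h => ?_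
  have := congrArg (fun G : P2 => G.coeff 1) h
  simp at this

theorem rhoB_ww (i : ι) : rhoB p q K K' ⟨ww p q K i, ww_mem p q i⟩ * lin2 K' (p i) =
    ∏ α ∈ ptsOn p q i, lin2 K' (p (rep p q i α)) := by
  rw [← rhoB_lf p q (K := K), ← map_mul]
  have h1 : (⟨ww p q K i, ww_mem p q i⟩ : BB p q K) * ⟨em K (lf p q i), em_mem p q _⟩ =
      ∏ α ∈ ptsOn p q i, (⟨em K (lf p q (rep p q i α)), em_mem p q _⟩ : BB p q K) := by
    apply Subtype.ext
    have h0 : em K (lf p q i) ≠ 0 := em_ne_zero (lf_ne_zero p q i)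
    rw [SubmonoidClass.coe_finsetProd]
    change ww p q K i * em K (lf p q i) = ∏ α ∈ ptsOn p q i, em K (lf p q (rep p q i α))
    rw [ww]
    field_simp
  rw [h1, map_prod]
  exact Finset.prod_congr rfl fun α _ => rhoB_lf p q _

/-- expansion of a product of linear forms along one of them -/
theorem prod_expand (l x : K') (S : Finset (ℂ × ℂ)) (c : ℂ × ℂ → ℂ) (T : Subalgebra ℂ K') (hl : l ∈ T)
    (hx : x ∈ T) : ∃ R ∈ T, ∏ α ∈ S, (l + algebraMap ℂ K' (c α) * x) =
      algebraMap ℂ K' (∏ α ∈ S, c α) * x ^ S.card + l * R := by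
  classical
  induction S using Finset.induction_on with
  | empty => exact ⟨0, T.zero_mem, by simp⟩
  | insert a S ha ih =>
    obtain ⟨R, hR, e⟩ := ih
    refine ⟨(algebraMap ℂ K' (∏ α ∈ S, c α) * x ^ S.card + l * R) + algebraMap ℂ K' (c a) * x * R,
      ?_, ?_⟩
    · exact add_mem (add_mem (mul_mem (T.algebraMap_mem _) (pow_mem hx _)) (mul_mem hl hR))
        (mul_mem (mul_mem (T.algebraMap_mem _) hx) hR)
    · rw [Finset.prod_insert ha, e, Finset.prod_insert ha, Finset.card_insert_of_notMem ha, map_mul,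
        pow_succ]
      ring

variable (K') in
theorem x2_mem {κ : Type} (p : κ → ℂ) (e : κ → ℕ) : x2 K' ∈ surfaceRing K' p e :=
  Algebra.subset_adjoin (by simp)

variable (K') in
theorem y2_mem {κ : Type} (p : κ → ℂ) (e : κ → ℕ) : y2 K' ∈ surfaceRing K' p e :=
  Algebra.subset_adjoin (by simp)

variable (K') in
theorem lin2_mem {κ : Type} (p : κ → ℂ) (e : κ → ℕ) (a : ℂ) : lin2 K' a ∈ surfaceRing K' p e :=
  add_mem (y2_mem K' p e) (mul_mem (Subalgebra.algebraMap_mem _ _) (x2_mem K' p e))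

/-- the number of multiple lines in the plane `i` -/
noncomputable def ne (i : ι) : ℕ := (ptsOn p q i).card

theorem lin2_prod (i : ι) (T : Subalgebra ℂ K') (hx : x2 K' ∈ T) (hy : y2 K' ∈ T) :
    ∃ R ∈ T, ∏ α ∈ ptsOn p q i, lin2 K' (p (rep p q i α)) =
      algebraMap ℂ K' (∏ α ∈ ptsOn p q i, (p (rep p q i α) - p i)) * x2 K' ^ (ne p q i) +
        lin2 K' (p i) * R := by
  obtain ⟨R, hR, e⟩ := prod_expand (lin2 K' (p i)) (x2 K') (ptsOn p q i)
    (fun α => p (rep p q i α) - p i) T (add_mem hy (mul_mem (T.algebraMap_mem _) hx)) hx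
  refine ⟨R, hR, ?_⟩
  rw [← show (ptsOn p q i).card = ne p q i from rfl, ← e]
  refine Finset.prod_congr rfl fun α _ => ?_
  rw [lin2, lin2, map_sub]
  ring

theorem ww_image (i : ι) (T : Subalgebra ℂ K') (hx : x2 K' ∈ T) (hy : y2 K' ∈ T) :
    ∃ R ∈ T, rhoB p q K K' ⟨ww p q K i, ww_mem p q i⟩ =
      algebraMap ℂ K' (∏ α ∈ ptsOn p q i, (p (rep p q i α) - p i)) *
        (x2 K' ^ (ne p q i) / lin2 K' (p i)) + R := by
  obtain ⟨R, hR, e⟩ := lin2_prod p q (K' := K') i T hx hy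
  refine ⟨R, hR, ?_⟩
  have h1 := rhoB_ww p q (K := K) (K' := K') i
  rw [e] at h1
  have h0 := lin2_ne_zero (K' := K') (p i)
  rw [← mul_div_assoc, eq_comm, div_add' _ _ _ h0, div_eq_iff h0, h1]
  ring

theorem rhoB_range (hp : Function.Injective p) :
    (rhoB p q K K').range = surfaceRing K' p (ne p q) := by
  apply le_antisymm
  · rintro _ ⟨g, rfl⟩
    have key : ∀ g ∈ GG p q K, ∀ h : g ∈ BB p q K, rhoB p q K K' ⟨g, h⟩ ∈ surfaceRing K' p (ne p q) := by
      intro g hg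
      refine Algebra.adjoin_induction (p := fun g _ => ∀ h : g ∈ BB p q K,
        rhoB p q K K' ⟨g, h⟩ ∈ surfaceRing K' p (ne p q)) ?_ ?_ ?_ ?_ hg
      · rintro g (hg | ⟨i, rfl⟩) h
        · rcases hg with rfl | rfl | rfl
          · rw [rhoB_em, r0_C, rz_zz, map_zero, map_zero]; exact zero_mem _
          · rw [rhoB_em, r0_C, rz_X]; exact x2_mem K' p _
          · rw [rhoB_em, r0_X]; exact y2_mem K' p _
        · obtain ⟨R, hR, e⟩ := ww_image p q (K := K) i (surfaceRing K' p (ne p q))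
            (x2_mem K' p _) (y2_mem K' p _)
          rw [e]
          exact add_mem (mul_mem (Subalgebra.algebraMap_mem _ _)
            (Algebra.subset_adjoin (Or.inr ⟨i, rfl⟩))) hR
      · intro r h
        have : (⟨algebraMap ℂ K r, h⟩ : BB p q K) = algebraMap ℂ (BB p q K) r := rfl
        rw [this, AlgHom.commutes]
        exact Subalgebra.algebraMap_mem _ _
      · intro a b ha hb h1 h2 h
        rw [← BB_eq_GG p q hp] at *
        have := add_mem (h1 (BB_eq_GG p q hp (K := K) ▸ ha)) (h2 (BB_eq_GG p q hp (K := K) ▸ hb))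
        rw [← map_add] at this
        exact this
      · intro a b ha hb h1 h2 h
        have := mul_mem (h1 (BB_eq_GG p q hp (K := K) ▸ ha)) (h2 (BB_eq_GG p q hp (K := K) ▸ hb))
        rw [← map_mul] at this
        exact this
    exact key g.1 (BB_eq_GG p q hp (K := K) ▸ g.2) g.2
  · refine Algebra.adjoin_le ?_
    have hx : x2 K' ∈ (rhoB p q K K').range :=
      ⟨⟨em K (C X), em_mem p q _⟩, by
        change rhoB p q K K' _ = _
        rw [rhoB_em, r0_C, rz_X]; rfl⟩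
    have hy : y2 K' ∈ (rhoB p q K K').range :=
      ⟨⟨em K X, em_mem p q _⟩, by
        change rhoB p q K K' _ = _
        rw [rhoB_em, r0_X]; rfl⟩
    rintro g (hg | ⟨i, rfl⟩)
    · rcases hg with rfl | rfl
      · exact hx
      · exact hy
    · obtain ⟨R, hR, e⟩ := ww_image p q (K := K) i (rhoB p q K K').range hx hy
      have hc : ∏ α ∈ ptsOn p q i, (p (rep p q i α) - p i) ≠ 0 := by
        refine Finset.prod_ne_zero_iff.mpr fun α hα => sub_ne_zero.mpr fun h => ?_
        exact rep_ne p q hp ((mem_ptsOn p q).mp hα).1 (hp h)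
      have h1 : x2 K' ^ (ne p q i) / lin2 K' (p i) =
          algebraMap ℂ K' (∏ α ∈ ptsOn p q i, (p (rep p q i α) - p i))⁻¹ *
            (rhoB p q K K' ⟨ww p q K i, ww_mem p q i⟩ - R) := by
        rw [e, add_sub_cancel_right, ← mul_assoc, ← map_mul, inv_mul_cancel₀ hc, map_one, one_mul]
      change x2 K' ^ (ne p q i) / lin2 K' (p i) ∈ _
      rw [h1]
      exact mul_mem (Subalgebra.algebraMap_mem _ _) (sub_mem ⟨_, rfl⟩ hR)

/-- the special fibre is the surface ring -/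
theorem quot_equiv (hp : Function.Injective p) :
    Nonempty ((BB p q K ⧸ Ideal.span {tz p q K}) ≃ₐ[ℂ] surfaceRing K' p (ne p q)) := by
  have hker : RingHom.ker (rhoB p q K K') = Ideal.span {tz p q K} := by
    ext g
    rw [RingHom.mem_ker, rhoB_eq_zero_iff]
  have e1 := Ideal.quotientKerAlgEquivOfSurjective (AlgHom.rangeRestrict_surjective (rhoB p q K K'))
  have hker2 : RingHom.ker (rhoB p q K K').rangeRestrict = Ideal.span {tz p q K} := by
    rw [← hker]
    ext g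
    rw [RingHom.mem_ker, RingHom.mem_ker]
    constructor
    · intro h; exact congrArg Subtype.val h
    · intro h; exact Subtype.ext h
  have e2 : (BB p q K ⧸ Ideal.span {tz p q K}) ≃ₐ[ℂ]
    (BB p q K ⧸ RingHom.ker (rhoB p q K K').rangeRestrict) := Ideal.quotientEquivAlgOfEq ℂ hker2.symm
  have e3 : (rhoB p q K K').range ≃ₐ[ℂ] surfaceRing K' p (ne p q) :=
    Subalgebra.equivOfEq _ _ (rhoB_range p q hp)
  exact ⟨(e2.trans e1).trans e3⟩

end special

theorem aeval_tz (F : ℂ[X]) :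
    ((Polynomial.aeval (R := ℂ) (tz p q K) F : BB p q K) : K) = em K (C (C (toR1 F))) := by
  induction F using Polynomial.induction_on with
  | C c => rw [Polynomial.aeval_C, toR1_C]; exact algebraMap_cc c
  | add a b ha hb => rw [map_add, map_add, C_add, C_add, map_add, ← ha, ← hb]; rfl
  | monomial n c h =>
    have e1 : (Polynomial.aeval (R := ℂ) (tz p q K)) (C c * X ^ (n + 1)) =
        (Polynomial.aeval (R := ℂ) (tz p q K)) (C c * X ^ n) * tz p q K := by
      rw [pow_succ, ← mul_assoc, map_mul _ (C c * X ^ n), aeval_X]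
    have e2 : (C (C (toR1 (C c * X ^ (n + 1)))) : P3) = C (C (toR1 (C c * X ^ n))) * C zz := by
      rw [pow_succ, ← mul_assoc, map_mul toR1 (C c * X ^ n), C_mul, C_mul]; rfl
    rw [e1, e2, map_mul (em K), ← h]
    rfl

theorem aeval_tz_injective :
    Function.Injective (Polynomial.aeval (R := ℂ) (tz p q K) : ℂ[X] →ₐ[ℂ] BB p q K) := by
  rw [← AlgHom.coe_toRingHom, injective_iff_map_eq_zero]
  intro F hF
  have h2 := aeval_tz p q (K := K) F
  have h3 : ((Polynomial.aeval (R := ℂ) (tz p q K) : ℂ[X] →ₐ[ℂ] BB p q K) F).1 = 0 :=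
    congrArg Subtype.val hF
  rw [h3] at h2
  have h4 : (C (C (toR1 F)) : P3) = 0 := em_injective K (by rw [← h2, map_zero])
  rw [C_eq_zero, C_eq_zero] at h4
  exact toR1.injective (h4.trans (map_zero _).symm)

theorem BB_flat : (Polynomial.aeval (R := ℂ) (tz p q K) : ℂ[X] →ₐ[ℂ] BB p q K).toRingHom.Flat := by
  have hinj := aeval_tz_injective p q (K := K)
  algebraize [(Polynomial.aeval (R := ℂ) (tz p q K) : ℂ[X] →ₐ[ℂ] BB p q K).toRingHom]
  have : Module.IsTorsionFree ℂ[X] (BB p q K) := by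
    have h1 : Function.Injective (algebraMap ℂ[X] (BB p q K)) := hinj
    have := (faithfulSMul_iff_algebraMap_injective ℂ[X] (BB p q K)).mpr h1
    infer_instance
  rw [RingHom.Flat]
  infer_instance

end Pool.Agent.V5helper94.Kol
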