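import Pool.Agent.V5helper94.Kol.Theta

/-!
# Upper bound for the order along the cone
-/

set_option linter.unusedSectionVars false
set_option linter.unusedVariables false
set_option linter.unusedSimpArgs false

namespace Pool.Agent.V5helper94.Kol

open Polynomial

/-- `∏ (s - s_k)^{m_k N - n}` -/
noncomputable def DN (N n : ℕ) : ℂ[X] := ∏ k, (X - C (sc k)) ^ (mz k * N - n)

theorem DN_monic (N n : ℕ) : (DN N n).Monic := monic_prod_of_monic _ _ fun k _ => (monic_X_sub_C _).pow _

theorem mz_ge (k : Fin 12) : 3 ≤ mz k := by revert k; decide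

theorem DN_natDegree {N n : ℕ} (h : n ≤ N) : (DN N n).natDegree = 42 * N - 12 * n := by
  unfold DN
  rw [natDegree_prod_of_monic _ _ fun k _ => (monic_X_sub_C _).pow _]
  have h1 : ∀ k ∈ (Finset.univ : Finset (Fin 12)),
      ((X - C (sc k)) ^ (mz k * N - n)).natDegree = mz k * N - n := by
    intro k _
    rw [(monic_X_sub_C _).natDegree_pow, natDegree_X_sub_C, mul_one]
  rw [Finset.sum_congr rfl h1]
  have h2 : ∑ k, (mz k * N - n) + ∑ _k : Fin 12, n = ∑ k, mz k * N := by
    rw [← Finset.sum_add_distrib]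
    refine Finset.sum_congr rfl fun k _ => ?_
    have := mz_ge k
    have : n ≤ mz k * N := by nlinarith
    omega
  rw [← Finset.sum_mul, sum_mz, Finset.sum_const, Finset.card_univ, Fintype.card_fin, smul_eq_mul] at h2
  omega

theorem DN_nextCoeff {N n : ℕ} (h : n ≤ N) : (DN N n).nextCoeff = n := by
  unfold DN
  rw [Monic.nextCoeff_prod _ _ fun k _ => (monic_X_sub_C _).pow _]
  have h1 : ∀ k ∈ (Finset.univ : Finset (Fin 12)), ((X - C (sc k)) ^ (mz k * N - n)).nextCoeff =
      - ((mz k : ℂ) * sc k) * N + sc k * n := by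
    intro k _
    rw [(monic_X_sub_C _).nextCoeff_pow, nextCoeff_X_sub_C, nsmul_eq_mul]
    have := mz_ge k
    have : n ≤ mz k * N := by nlinarith
    rw [Nat.cast_sub this, Nat.cast_mul]
    ring
  rw [Finset.sum_congr rfl h1, Finset.sum_add_distrib, ← Finset.sum_mul, ← Finset.sum_mul,
    Finset.sum_neg_distrib]
  have h2 : ∑ k, (mz k : ℂ) * sc k = 0 := by
    have := sum_mz_sz
    unfold sc
    exact_mod_cast this
  have h3 : ∑ k, sc k = 1 := by
    have := sum_sz
    unfold sc
    exact_mod_cast this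
  rw [h2, h3]
  ring

theorem DN_dvd {N n : ℕ} {F : P3}
    (h : ∀ k, C (bb (al k).1) ^ (mz k * N) ∣ C (bb (al k).1) ^ n * sub (al k) F) (d : ℕ) :
    DN N n ∣ (th F).coeff d := by
  unfold DN
  refine Finset.prod_dvd_of_coprime ?_ fun k _ => ?_
  · intro k _ l _ hkl
    refine IsCoprime.pow ?_
    exact isCoprime_X_sub_C_of_isUnit_sub (isUnit_iff_ne_zero.mpr
      (sub_ne_zero.mpr fun h => hkl (sc_injective h)))
  · have h1 := pow_dvd_th k (mz k * N) n F (h k)
    rw [← C_pow] at h1
    exact (Polynomial.C_dvd_iff_dvd_coeff _ _).mp h1 d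

theorem partA {N n : ℕ} (hN : n ≤ N) {F : P3}
    (h : ∀ k, C (bb (al k).1) ^ (mz k * N) ∣ C (bb (al k).1) ^ n * sub (al k) F) :
    (∀ d, d < 14 * N - 4 * n → (th F).coeff d = 0) ∧
    ∃ c : ℂ, (th F).coeff (14 * N - 4 * n) = C c * DN N n ∧ (1 ≤ n → c = 0) := by
  have hdeg : ∀ d, ((th F).coeff d).natDegree ≤ 3 * d := by
    intro d
    by_cases h0 : (th F).coeff d = 0
    · rw [h0, natDegree_zero]; exact Nat.zero_le _
    · exact (th_mem_degCond F d _ (leadingCoeff_ne_zero.mpr h0)).1
  constructor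
  · intro d hd
    by_contra h0
    have h1 := natDegree_le_of_dvd (DN_dvd h d) h0
    rw [DN_natDegree hN] at h1
    have := hdeg d
    omega
  · obtain ⟨Q, hQ⟩ := DN_dvd h (14 * N - 4 * n)
    have hd := hdeg (14 * N - 4 * n)
    have hQ0 : Q.natDegree = 0 := by
      by_cases hz : Q = 0
      · rw [hz, natDegree_zero]
      · rw [hQ, (DN_monic N n).natDegree_mul' hz, DN_natDegree hN] at hd
        omega
    obtain ⟨c, hc⟩ := natDegree_eq_zero.mp hQ0
    refine ⟨c, by rw [hQ, ← hc]; ring, fun hn => ?_⟩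
    have hpos : 0 < (DN N n).natDegree := by rw [DN_natDegree hN]; omega
    have h2 : ((th F).coeff (14 * N - 4 * n)).coeff (42 * N - 12 * n - 1) = 0 := by
      by_contra hne
      have := (th_mem_degCond F _ _ hne).2
      omega
    rw [hQ, ← hc, coeff_mul_C] at h2
    have h3 : (DN N n).coeff (42 * N - 12 * n - 1) = n := by
      rw [← DN_nextCoeff hN, nextCoeff_of_natDegree_pos hpos, DN_natDegree hN]
    rw [h3] at h2
    rcases mul_eq_zero.mp h2 with h4 | h4
    · exfalso
      have : n = 0 := by exact_mod_cast h4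
      omega
    · exact h4

theorem DN_zero (N : ℕ) : DN N 0 = DP ^ N := by
  unfold DN DP
  rw [← Finset.prod_pow]
  refine Finset.prod_congr rfl fun k _ => ?_
  rw [Nat.sub_zero, pow_mul]

end Pool.Agent.V5helper94.Kol
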