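import Pool.Agent.V5helper94.Kol.PartA

/-!
# Pluricanonical forms of large order along the cone
-/

set_option linter.unusedSectionVars false
set_option linter.unusedVariables false
set_option linter.unusedSimpArgs false

namespace Pool.Agent.V5helper94.Kol

open Polynomial nonZeroDivisors

/-- `z - 2 x` -/
noncomputable def z0 : R2 := zz - cc 2 * X

theorem th_z0 : th (C z0) = X := by
  have e : (C 2 : ℂ[X]) = 2 := rfl
  rw [z0, C_sub, C_mul, map_sub, map_mul, th_zz, th_cc, th_CX]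
  rw [e, C_add, C_mul, C_1]
  ring

theorem z0_ne_zero : (C z0 : P3) ≠ 0 := by
  intro h
  have := th_z0
  rw [h, map_zero] at this
  exact X_ne_zero this.symm

/-- one term of the homogenisation -/
noncomputable def tm (d : ℕ) (c : ℂ) (a b : ℕ) : P3 := C (cc c) * C X ^ a * X ^ b * C z0 ^ (d - a - b)

/-- homogenisation of degree `d` -/
noncomputable def homg (d : ℕ) (f : P2) : P3 :=
  ∑ b ∈ Finset.range (f.natDegree + 1), ∑ a ∈ Finset.range ((f.coeff b).natDegree + 1),
    tm d ((f.coeff b).coeff a) a b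

theorem P2_sum (f : P2) : f = ∑ b ∈ Finset.range (f.natDegree + 1),
    ∑ a ∈ Finset.range ((f.coeff b).natDegree + 1), C (C ((f.coeff b).coeff a)) * C X ^ a * X ^ b := by
  conv_lhs => rw [f.as_sum_range_C_mul_X_pow]
  refine Finset.sum_congr rfl fun b _ => ?_
  conv_lhs => rw [(f.coeff b).as_sum_range_C_mul_X_pow]
  rw [map_sum, Finset.sum_mul]
  refine Finset.sum_congr rfl fun a _ => ?_
  rw [C_mul, C_pow]

theorem th_homg {d : ℕ} {f : P2} (hf : f ∈ TD (𝔽 := ℂ) (d + 1)) : th (homg d f) = C (resC f) * X ^ d := by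
  conv_rhs => rw [P2_sum f]
  unfold homg
  rw [map_sum, map_sum, map_sum, Finset.sum_mul]
  refine Finset.sum_congr rfl fun b _ => ?_
  rw [map_sum, map_sum, map_sum, Finset.sum_mul]
  refine Finset.sum_congr rfl fun a _ => ?_
  by_cases h0 : (f.coeff b).coeff a = 0
  · rw [h0, tm, cc_zero]; simp
  · have hab : a + b ≤ d := by
      by_contra hcon
      exact h0 (hf b a (by omega))
    have h1 : resC (C (C ((f.coeff b).coeff a)) * C X ^ a * X ^ b) =
        C ((f.coeff b).coeff a) * X ^ a * (X ^ 3) ^ b := by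
      simp [resC]
    rw [h1, tm, map_mul, map_mul, map_mul, map_pow, map_pow, map_pow, th_cc, th_CX, th_X, th_z0]
    have h2 : (X : P2) ^ d = X ^ a * X ^ b * X ^ (d - a - b) := by
      rw [← pow_add, ← pow_add]; congr 1; omega
    rw [h2]
    simp only [C_mul, C_pow, mul_pow]
    ring

section field

variable {K : Type} [Field K] [Algebra P3 K] [IsFractionRing P3 K] [Algebra ℂ K] [IsScalarTower ℂ P3 K]

variable (K) in
/-- evaluation at `(x / z₀, Y / z₀)` -/
noncomputable def evz : P2 →+* K :=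
  eval₂RingHom (eval₂RingHom (algebraMap ℂ K) (em K (C X) * (em K (C z0))⁻¹))
    (em K X * (em K (C z0))⁻¹)

theorem evz_CC (c : ℂ) : evz K (C (C c)) = algebraMap ℂ K c := by simp [evz]
theorem evz_CX : evz K (C X) = em K (C X) * (em K (C z0))⁻¹ := by simp [evz]
theorem evz_X : evz K X = em K X * (em K (C z0))⁻¹ := by simp [evz]

theorem em_homg {d : ℕ} {f : P2} (hf : f ∈ TD (𝔽 := ℂ) (d + 1)) :
    em K (homg d f) = em K (C z0) ^ d * evz K f := by
  have hz : em K (C z0) ≠ 0 := em_ne_zero z0_ne_zero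
  conv_rhs => rw [P2_sum f]
  unfold homg
  rw [map_sum, map_sum, Finset.mul_sum]
  refine Finset.sum_congr rfl fun b _ => ?_
  rw [map_sum, map_sum, Finset.mul_sum]
  refine Finset.sum_congr rfl fun a _ => ?_
  by_cases h0 : (f.coeff b).coeff a = 0
  · rw [h0, tm, cc_zero]; simp
  · have hab : a + b ≤ d := by
      by_contra hcon
      exact h0 (hf b a (by omega))
    have h1 : evz K (C (C ((f.coeff b).coeff a)) * C X ^ a * X ^ b) =
        algebraMap ℂ K ((f.coeff b).coeff a) * (em K (C X) * (em K (C z0))⁻¹) ^ a *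
          (em K X * (em K (C z0))⁻¹) ^ b := by
      rw [map_mul, map_mul, map_pow, map_pow, evz_CC, evz_CX, evz_X]
    rw [h1, tm, map_mul, map_mul, map_mul, map_pow, map_pow, map_pow, algebraMap_cc]
    have h2 : em K (C z0) ^ d = em K (C z0) ^ a * em K (C z0) ^ b * em K (C z0) ^ (d - a - b) := by
      rw [← pow_add, ← pow_add]; congr 1; omega
    rw [h2]
    generalize em K (C z0) ^ (d - a - b) = W
    rw [mul_pow, mul_pow, inv_pow, inv_pow]
    have h3 : em K (C z0) ^ a ≠ 0 := pow_ne_zero _ hz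
    have h4 : em K (C z0) ^ b ≠ 0 := pow_ne_zero _ hz
    field_simp

theorem not_dvd_z0 (k : Fin 12) : ¬ (C (bb (al k).1) : P3) ∣ C z0 := by
  have h0 := odd_ne k
  refine not_C_dvd_C fun h => ?_
  have h1 : z0 = cc ((1 + 2 * sc k)⁻¹) * zz - cc 2 * bb (al k).1 := by
    rw [z0, bb_eq]
    have h2 : cc ((1 + 2 * sc k)⁻¹) = 1 - cc 2 * cc (al k).1 := by
      rw [← cc_mul, ← cc_one, ← cc_sub]
      congr 1
      unfold al
      simp only
      generalize hs : sc k = s at *
      field_simp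
      ring
    rw [h2]; ring
  rw [h1] at h
  have h3 : bb (al k).1 ∣ cc ((1 + 2 * sc k)⁻¹) * zz := by
    have := dvd_add h (Dvd.intro_left (cc 2) rfl : bb (al k).1 ∣ cc 2 * bb (al k).1)
    simpa using this
  exact not_bb_dvd_zz (inv_ne_zero h0) h3

/-- the local parameter `(1 + 2 s) (x - δ z) / z₀` -/
noncomputable def bp (K : Type) [Field K] [Algebra P3 K] (k : Fin 12) : K :=
  algebraMap P3 K (C (cc (1 + 2 * sc k))) * algebraMap P3 K (C (bb (al k).1)) * (algebraMap P3 K (C z0))⁻¹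

/-- local evaluation -/
noncomputable def evl (K : Type) [Field K] [Algebra P3 K] [Algebra ℂ K] (k : Fin 12) : P2 →+* K :=
  eval₂RingHom (eval₂RingHom (algebraMap ℂ K) (algebraMap ℂ K (sc k) + bp K k))
    ((algebraMap P3 K X + algebraMap ℂ K (2 * sc k ^ 3)) * algebraMap ℂ K (1 + 2 * sc k)⁻¹)

theorem evl_CC (k : Fin 12) (c : ℂ) : evl K k (C (C c)) = algebraMap ℂ K c := by simp [evl]
theorem evl_CX (k : Fin 12) : evl K k (C X) = algebraMap ℂ K (sc k) + bp K k := by simp [evl]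
theorem evl_X (k : Fin 12) : evl K k X =
    (em K X + algebraMap ℂ K (2 * sc k ^ 3)) * algebraMap ℂ K (1 + 2 * sc k)⁻¹ := by simp [evl]

theorem field_x {x z s t T w : K} (ht : t ≠ 0) (ht1 : t = 1 + T * s) (hw : w ≠ 0) (hw1 : w = z - T * x) :
    x * w⁻¹ = s + t * (x - s * t⁻¹ * z) * w⁻¹ := by
  have h1 : t * (x - s * t⁻¹ * z) = t * x - s * z := by field_simp
  rw [h1]
  field_simp
  rw [hw1, ht1]
  ring

theorem field_Y {x z s t T w Y : K} (ht : t ≠ 0) (ht1 : t = 1 + T * s) (hw : w ≠ 0) (hw1 : w = z - T * x) :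
    (s ^ 3 * t⁻¹ * z + (x - s * t⁻¹ * z) * Y) * w⁻¹ =
      s ^ 3 + t * (x - s * t⁻¹ * z) * w⁻¹ * ((Y + T * s ^ 3) * t⁻¹) := by
  have h1 : t * (x - s * t⁻¹ * z) = t * x - s * z := by field_simp
  have h2 : s ^ 3 * t⁻¹ * z + (x - s * t⁻¹ * z) * Y = (s ^ 3 * z + (t * x - s * z) * Y) * t⁻¹ := by
    field_simp
  rw [h1, h2]
  field_simp
  rw [hw1]
  linear_combination (-(s ^ 3 * z)) * ht1

theorem evl_loc (k : Fin 12) (f : P2) :
    hsub (al k) (evz K f) = evl K k (loc (sc k) (sc k ^ 3) f) := by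
  have h0 := odd_ne k
  have hz : em K (C z0) ≠ 0 := em_ne_zero z0_ne_zero
  have hc0 : algebraMap ℂ K (1 + 2 * sc k) ≠ 0 := by
    rw [Ne, map_eq_zero_iff _ (algebraMap ℂ K).injective]; exact h0
  have hzK : em K (C z0) = em K (C zz) - algebraMap ℂ K 2 * em K (C X) := by
    rw [z0, C_sub, C_mul, map_sub, map_mul, algebraMap_cc]
  have hbK : em K (C (bb (al k).1)) = em K (C X) - algebraMap ℂ K (sc k) *
      algebraMap ℂ K (1 + 2 * sc k)⁻¹ * em K (C zz) := by
    rw [bb_eq, C_sub, C_mul, map_sub, map_mul, ← algebraMap_cc, ← map_mul]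
    rfl
  have heK : em K (C (ee (al k).2)) = algebraMap ℂ K (sc k) ^ 3 *
      algebraMap ℂ K (1 + 2 * sc k)⁻¹ * em K (C zz) := by
    rw [ee, C_mul, map_mul, ← algebraMap_cc, ← map_pow, ← map_mul]
    rfl
  have hbp : bp K k = algebraMap ℂ K (1 + 2 * sc k) * em K (C (bb (al k).1)) * (em K (C z0))⁻¹ := by
    rw [bp, algebraMap_cc]
  have hinv : algebraMap ℂ K (1 + 2 * sc k)⁻¹ = (algebraMap ℂ K (1 + 2 * sc k))⁻¹ := map_inv₀ _ _
  have hc1 : algebraMap ℂ K (1 + 2 * sc k) = 1 + algebraMap ℂ K 2 * algebraMap ℂ K (sc k) := by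
    rw [map_add, map_one, map_mul]
  have hx : em K (C X) * (em K (C z0))⁻¹ = algebraMap ℂ K (sc k) + bp K k := by
    rw [hbp, hbK, hinv]
    exact field_x hc0 hc1 hz hzK
  have h : (hsub (al k)).comp (evz K) = (evl K k).comp (loc (sc k) (sc k ^ 3)) := by
    refine Polynomial.ringHom_ext (fun r => ?_) ?_
    · have h2 : (((hsub (al k)).comp (evz K)).comp C) = ((evl K k).comp (loc (sc k) (sc k ^ 3))).comp C := by
        refine Polynomial.ringHom_ext (fun c => ?_) ?_
        · simp only [RingHom.comp_apply, loc_C]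
          rw [evz_CC, evl_CC, algebraMap_cc, hsub_em, sub_C]
        · simp only [RingHom.comp_apply, loc_C]
          rw [evz_CX, evl_CX, map_mul, map_inv₀, hsub_em, hsub_em, sub_C, sub_C, hx]
      exact congrArg (fun φ : ℂ[X] →+* K => φ r) h2
    · simp only [RingHom.comp_apply, loc_X]
      have e2 : evl K k (C (C (sc k ^ 3)) + C (X - C (sc k)) * X) =
          algebraMap ℂ K (sc k ^ 3) + bp K k *
            ((em K X + algebraMap ℂ K (2 * sc k ^ 3)) * algebraMap ℂ K (1 + 2 * sc k)⁻¹) := by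
        rw [map_add, map_mul, C_sub, map_sub, evl_CC, evl_CC, evl_CX, evl_X, add_sub_cancel_left]
      rw [evz_X, e2, map_mul, map_inv₀, hsub_em, hsub_em, sub_C, sub_X, map_add, map_mul, heK, hbp]
      rw [hbK, hinv, map_pow, map_mul, map_pow]
      exact field_Y hc0 hc1 hz hzK
  exact congrArg (fun φ : P2 →+* K => φ f) h

theorem bp_mem (k : Fin 12) : bp K k ∈ LL K (al k).1 :=
  mul_mem (mul_mem (Subalgebra.algebraMap_mem _ _) (Subalgebra.algebraMap_mem _ _))
    (inv_mem_locAt (not_dvd_z0 k))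

theorem algC_mem_LL (c : ℂ) (δ : ℂ) : algebraMap ℂ K c ∈ LL K δ := by
  rw [algebraMap_cc]
  exact Subalgebra.algebraMap_mem _ _

theorem evl_mem (k : Fin 12) (f : P2) : evl K k f ∈ LL K (al k).1 := by
  have h2 : ∀ r : ℂ[X], evl K k (C r) ∈ LL K (al k).1 := by
    intro r
    induction r using Polynomial.induction_on with
    | C a =>
      rw [evl_CC]; exact algC_mem_LL a _
    | add a b ha hb => rw [C_add, map_add]; exact add_mem ha hb
    | monomial n a h =>
      rw [pow_succ, ← mul_assoc, C_mul, map_mul]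
      rw [evl_CX]
      exact mul_mem h (add_mem (algC_mem_LL _ _) (bp_mem k))
  induction f using Polynomial.induction_on with
  | C a => exact h2 a
  | add a b ha hb => rw [map_add]; exact add_mem ha hb
  | monomial n a h =>
    rw [pow_succ, ← mul_assoc, map_mul _ (C a * X ^ n)]
    rw [evl_X]
    exact mul_mem h (mul_mem (add_mem (Subalgebra.algebraMap_mem _ _) (algC_mem_LL _ _)) (algC_mem_LL _ _))

end field

theorem dvd_homg (k : Fin 12) {d m : ℕ} {f : P2} (hf : f ∈ TD (𝔽 := ℂ) (d + 1))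
    (hm : multGe (sc k) (sc k ^ 3) m f) : C (bb (al k).1) ^ m ∣ sub (al k) (homg d f) := by
  rw [← mul_mem_locAt_iff (K := FractionRing P3) (hh := Cbb_prime (al k).1)]
  obtain ⟨H, hH⟩ := hm
  have h1 : em (FractionRing P3) (sub (al k) (homg d f)) =
      em (FractionRing P3) (C z0) ^ d * (bp (FractionRing P3) k ^ m * evl (FractionRing P3) k H) := by
    rw [← hsub_em, em_homg hf, map_mul, map_pow, hsub_em, sub_C, evl_loc, hH, map_mul, map_pow]
    congr 3
    rw [C_sub, map_sub, evl_CC, evl_CX, add_sub_cancel_left]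
  have hb0 : em (FractionRing P3) (C (bb (al k).1)) ≠ 0 := em_ne_zero (Cbb_prime _).ne_zero
  change em (FractionRing P3) (sub (al k) (homg d f)) * (em (FractionRing P3) (C (bb (al k).1)) ^ m)⁻¹ ∈
    LL (FractionRing P3) (al k).1
  have h2 : em (FractionRing P3) (sub (al k) (homg d f)) *
      (em (FractionRing P3) (C (bb (al k).1)) ^ m)⁻¹ =
      em (FractionRing P3) (C z0) ^ d * ((em (FractionRing P3) (C (cc (1 + 2 * sc k))) *
        (em (FractionRing P3) (C z0))⁻¹) ^ m * evl (FractionRing P3) k H) := by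
    rw [h1]
    have h3 : bp (FractionRing P3) k = em (FractionRing P3) (C (bb (al k).1)) *
      (em (FractionRing P3) (C (cc (1 + 2 * sc k))) * (em (FractionRing P3) (C z0))⁻¹) := by
      rw [bp]; ring
    rw [h3, mul_pow]
    have h4 : em (FractionRing P3) (C (bb (al k).1)) ^ m ≠ 0 := pow_ne_zero _ hb0
    field_simp
  rw [h2]
  exact mul_mem (pow_mem (Subalgebra.algebraMap_mem _ _) _) (mul_mem (pow_mem (mul_mem
    (Subalgebra.algebraMap_mem _ _) (inv_mem_locAt (not_dvd_z0 k))) _) (evl_mem k H))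

/-- forms of degree `6 k + 1` -/
theorem partB (k : ℕ) (hk : 1 ≤ k) : ∃ (F : P3) (h : ℂ[X]), h ≠ 0 ∧ th F = C h * X ^ (6 * k + 1) ∧
    ∀ α ∈ pts pc qc, C (bb α.1) ^ (∑ i, mu pc qc α i * k) ∣ C (bb α.1) ^ (2 * k) * sub α F := by
  obtain ⟨f, hf, hne⟩ := exists_curve sc sc_injective k hk
  refine ⟨homg (6 * k + 1) f, resC f, hne, th_homg hf.1, fun α hα => ?_⟩
  rw [← Finset.sum_mul]
  by_cases h : ∃ j, α = al j
  · obtain ⟨j, rfl⟩ := h
    rw [sum_mu_al, mz_eq]
    have h1 := dvd_homg j hf.1 (hf.2 j)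
    have h2 : (wt j + 2) * k = 2 * k + wt j * k := by ring
    rw [h2, pow_add]
    exact mul_dvd_mul_left _ h1
  · push Not at h
    have h1 := sum_mu_le h
    exact (pow_dvd_pow _ (Nat.mul_le_mul_right k h1)).trans (dvd_mul_right _ _)

end Pool.Agent.V5helper94.Kol
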