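import Mathlib

/-!
# The Rees algebra of a fractional ideal, as a graded ring
-/

namespace Pool.Agent.V5helper94.Kol

open AlgebraicGeometry Polynomial

variable {R K : Type} [CommRing R] [Field K] [Algebra R K] (J : Submodule R K)

/-- The Rees algebra `⊕ J ^ n X ^ n ⊆ K[X]`. -/
noncomputable def rees : Subalgebra R K[X] where
  carrier := {f | ∀ n, f.coeff n ∈ J ^ n}
  mul_mem' := by
    intro F G hF hG n
    rw [Polynomial.coeff_mul]
    refine Submodule.sum_mem _ fun x hx => ?_
    have h := Submodule.mul_mem_mul (hF x.1) (hG x.2)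
    rwa [← pow_add, Finset.HasAntidiagonal.mem_antidiagonal.mp hx] at h
  add_mem' := by
    intro F G hF hG n
    rw [Polynomial.coeff_add]
    exact Submodule.add_mem _ (hF n) (hG n)
  algebraMap_mem' := by
    intro r n
    rw [Polynomial.algebraMap_apply, Polynomial.coeff_C]
    split_ifs with h
    · subst h
      rw [pow_zero, Submodule.mem_one]
      exact ⟨r, rfl⟩
    · exact Submodule.zero_mem _

variable {J} in
theorem mem_rees {f : K[X]} : f ∈ rees J ↔ ∀ n, f.coeff n ∈ J ^ n := Iff.rfl

variable {J} in
theorem monomial_mem_rees {n : ℕ} {c : K} (hc : c ∈ J ^ n) : monomial n c ∈ rees J := by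
  intro m
  rw [coeff_monomial]
  split_ifs with h
  · subst h; exact hc
  · exact Submodule.zero_mem _

/-- The element `c X ^ n` of the Rees algebra, for `c ∈ J ^ n`. -/
noncomputable def mono (n : ℕ) (c : K) (hc : c ∈ J ^ n) : rees J :=
  ⟨monomial n c, monomial_mem_rees hc⟩

/-- The degree `n` part of the Rees algebra. -/
noncomputable def reesPart (n : ℕ) : Submodule R (rees J) where
  carrier := {a | ∀ m, m ≠ n → a.1.coeff m = 0}
  add_mem' := by
    intro a b ha hb m hm
    have : (a + b).1 = a.1 + b.1 := rfl
    rw [this, coeff_add, ha m hm, hb m hm, add_zero]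
  zero_mem' := by
    intro m _
    have : (0 : rees J).1 = 0 := rfl
    rw [this, coeff_zero]
  smul_mem' := by
    intro r a ha m hm
    have : (r • a).1 = r • a.1 := rfl
    rw [this, coeff_smul, ha m hm, smul_zero]

variable {J}

theorem mem_reesPart {n : ℕ} {a : rees J} :
    a ∈ reesPart J n ↔ ∀ m, m ≠ n → a.1.coeff m = 0 := Iff.rfl

theorem mono_mem {n : ℕ} {c : K} (hc : c ∈ J ^ n) : mono J n c hc ∈ reesPart J n := by
  intro m hm
  exact coeff_monomial_of_ne c hm

theorem eq_mono {n : ℕ} {a : rees J} (ha : a ∈ reesPart J n) :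
    a = mono J n (a.1.coeff n) (a.2 n) := by
  apply Subtype.ext
  ext m
  change a.1.coeff m = (monomial n (a.1.coeff n)).coeff m
  rw [coeff_monomial]
  split_ifs with h
  · rw [h]
  · exact ha m (Ne.symm h)

theorem mono_mul {m n : ℕ} {c d : K} (hc : c ∈ J ^ m) (hd : d ∈ J ^ n) :
    mono J m c hc * mono J n d hd =
      mono J (m + n) (c * d) (by rw [pow_add]; exact Submodule.mul_mem_mul hc hd) := by
  apply Subtype.ext
  exact monomial_mul_monomial m n c d

theorem mono_pow {m : ℕ} {c : K} (hc : c ∈ J ^ m) (k : ℕ) :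
    mono J m c hc ^ k =
      mono J (m * k) (c ^ k) (by rw [pow_mul]; exact Submodule.pow_mem_pow _ hc k) := by
  apply Subtype.ext
  exact monomial_pow m c k

theorem coeff_mul_same {m n : ℕ} {a b : rees J} (ha : a ∈ reesPart J m)
    (hb : b ∈ reesPart J n) : (a * b).1.coeff (m + n) = a.1.coeff m * b.1.coeff n := by
  rw [eq_mono ha, eq_mono hb, mono_mul]
  change (monomial (m + n) _).coeff (m + n) = (monomial m _).coeff m * (monomial n _).coeff n
  rw [coeff_monomial_same, coeff_monomial_same, coeff_monomial_same]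

theorem sum_mono (a : rees J) :
    a = ∑ n ∈ a.1.support, mono J n (a.1.coeff n) (a.2 n) := by
  apply Subtype.ext
  have h : (∑ n ∈ a.1.support, mono J n (a.1.coeff n) (a.2 n)).1 =
      ∑ n ∈ a.1.support, monomial n (a.1.coeff n) := by
    rw [AddSubmonoidClass.coe_finsetSum]
    rfl
  rw [h]
  exact a.1.as_sum_support

instance : SetLike.GradedMonoid (reesPart J) where
  one_mem := by
    intro m hm
    change (1 : K[X]).coeff m = 0
    rw [coeff_one, if_neg hm]
  mul_mem := by
    intro i j a b ha hb
    rw [eq_mono ha, eq_mono hb, mono_mul]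
    exact mono_mem _

theorem coeff_coe (z : DirectSum ℕ (fun i => reesPart J i)) (n : ℕ) :
    ((DirectSum.coeAddMonoidHom (reesPart J) z).1).coeff n = ((z n).1).1.coeff n := by
  classical
  induction z using DirectSum.induction_on with
  | zero => simp
  | of i x =>
    rw [DirectSum.coeAddMonoidHom_of, DirectSum.coe_of_apply]
    split_ifs with h
    · rfl
    · exact x.2 n (fun h' => h h'.symm)
  | add x y hx hy =>
    rw [map_add, DirectSum.add_apply]
    change (_ + _ : K[X]).coeff n = (_ + _ : K[X]).coeff n
    rw [coeff_add, coeff_add, hx, hy]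

theorem reesPart_internal : DirectSum.IsInternal (reesPart J) := by
  classical
  constructor
  · intro x y hxy
    refine DFinsupp.ext fun n => Subtype.ext (Subtype.ext (Polynomial.ext fun m => ?_))
    by_cases hm : m = n
    · subst hm
      rw [← coeff_coe, ← coeff_coe, hxy]
    · rw [(x n).2 m hm, (y n).2 m hm]
  · intro a
    refine ⟨∑ n ∈ a.1.support, DirectSum.of (fun i => reesPart J i) n
      ⟨mono J n (a.1.coeff n) (a.2 n), mono_mem _⟩, ?_⟩
    rw [map_sum]
    simp only [DirectSum.coeAddMonoidHom_of]
    exact (sum_mono a).symm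

noncomputable instance : GradedRing (reesPart J) where
  toDecomposition := reesPart_internal.chooseDecomposition

end Pool.Agent.V5helper94.Kol
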