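import Pool.Agent.V5helper94.Kol.Rees

/-!
# The Rees algebra: degree zero part, finite generation
-/

namespace Pool.Agent.V5helper94.Kol

open AlgebraicGeometry Polynomial

variable {R K : Type} [CommRing R] [Field K] [Algebra R K] {J : Submodule R K}

variable (J) in
/-- The map from `R` to the degree zero part of the Rees algebra. -/
noncomputable def reesZero : R →+* reesPart J 0 where
  toFun r := ⟨algebraMap R (rees J) r, by
    intro m hm
    change (algebraMap R K[X] r).coeff m = 0
    rw [Polynomial.algebraMap_apply, coeff_C, if_neg hm]⟩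
  map_one' := Subtype.ext (map_one _)
  map_mul' a b := Subtype.ext (map_mul _ a b)
  map_zero' := Subtype.ext (map_zero _)
  map_add' a b := Subtype.ext (map_add _ a b)

theorem reesZero_coe (r : R) : ((reesZero J r : reesPart J 0) : rees J) = algebraMap R (rees J) r := rfl

theorem reesZero_bijective (hinj : Function.Injective (algebraMap R K)) :
    Function.Bijective (reesZero J) := by
  constructor
  · intro a b hab
    apply hinj
    have h1 : algebraMap R (rees J) a = algebraMap R (rees J) b := congrArg Subtype.val hab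
    have h2 : (algebraMap R K[X] a).coeff 0 = (algebraMap R K[X] b).coeff 0 :=
      congrArg (fun z : rees J => z.1.coeff 0) h1
    rwa [Polynomial.algebraMap_apply, Polynomial.algebraMap_apply, coeff_C_zero, coeff_C_zero] at h2
  · intro a
    have h := a.1.2 0
    rw [pow_zero, Submodule.mem_one] at h
    obtain ⟨r, hr⟩ := h
    refine ⟨r, Subtype.ext (Subtype.ext (Polynomial.ext fun m => ?_))⟩
    change (algebraMap R K[X] r).coeff m = _
    rw [Polynomial.algebraMap_apply, coeff_C]
    split_ifs with hm
    · rw [hm, hr]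
    · exact (a.2 m hm).symm

theorem mono_add {n : ℕ} {c d : K} (hc : c ∈ J ^ n) (hd : d ∈ J ^ n) :
    mono J n (c + d) (add_mem hc hd) = mono J n c hc + mono J n d hd :=
  Subtype.ext ((monomial n).map_add c d)

theorem mono_smul {n : ℕ} {c : K} (r : R) (hc : c ∈ J ^ n) :
    mono J n (r • c) (Submodule.smul_mem _ r hc) =
      algebraMap R (rees J) r * mono J n c hc := by
  apply Subtype.ext
  change monomial n (r • c) = algebraMap R K[X] r * monomial n c
  rw [← Algebra.smul_def, smul_monomial]

theorem mono_zero (n : ℕ) : mono J n 0 (zero_mem _) = 0 := Subtype.ext (monomial_zero_right n)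

/-- The Rees algebra is generated by `J X` over the degree zero part. -/
theorem mono_mem_adjoin (S : Set K) (hS : Submodule.span R S = J) (n : ℕ) (c : K) (hc : c ∈ J ^ n) :
    mono J n c hc ∈ Algebra.adjoin (reesPart J 0)
      {a : rees J | ∃ (s : K) (hs : s ∈ J ^ 1), s ∈ S ∧ a = mono J 1 s hs} := by
  set B := Algebra.adjoin (reesPart J 0)
      {a : rees J | ∃ (s : K) (hs : s ∈ J ^ 1), s ∈ S ∧ a = mono J 1 s hs} with hB
  have hR : ∀ r : R, algebraMap R (rees J) r ∈ B := fun r => B.algebraMap_mem (reesZero J r)
  induction n generalizing c with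
  | zero =>
    have h := hc
    rw [pow_zero, Submodule.mem_one] at h
    obtain ⟨r, rfl⟩ := h
    exact hR r
  | succ n ih =>
    have h1 : ∀ d (hd : d ∈ J ^ 1), mono J 1 d hd ∈ B := by
      intro d hd
      have hd' : d ∈ Submodule.span R S := by rw [hS]; rwa [pow_one] at hd
      induction hd' using Submodule.span_induction with
      | mem s hs => exact Algebra.subset_adjoin ⟨s, hd, hs, rfl⟩
      | zero => rw [mono_zero]; exact zero_mem _
      | add x y hx hy ihx ihy =>
        rw [hS] at hx hy
        rw [mono_add (by rwa [pow_one]) (by rwa [pow_one])]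
        exact add_mem (ihx _) (ihy _)
      | smul r x hx ihx =>
        rw [hS] at hx
        rw [mono_smul r (by rwa [pow_one])]
        exact mul_mem (hR r) (ihx _)
    have hc' : c ∈ J ^ n * J ^ 1 := by rwa [← pow_add]
    induction hc' using Submodule.mul_induction_on' with
    | mem_mul_mem a ha b hb =>
      rw [← mono_mul ha hb]
      exact mul_mem (ih a ha) (h1 b hb)
    | add x hx y hy ihx ihy =>
      rw [← pow_add] at hx hy
      rw [mono_add hx hy]
      exact add_mem (ihx _) (ihy _)

theorem rees_finiteType (hJ : J.FG) : Algebra.FiniteType (reesPart J 0) (rees J) := by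
  obtain ⟨S, hS⟩ := hJ
  have hfin : {a : rees J | ∃ (s : K) (hs : s ∈ J ^ 1), s ∈ (S : Set K) ∧ a = mono J 1 s hs}.Finite := by
    have hsub : ∀ s : S, (s : K) ∈ J ^ 1 := fun s => by
      rw [pow_one, ← hS]; exact Submodule.subset_span s.2
    refine (Set.finite_range (fun s : S => mono J 1 (s : K) (hsub s))).subset ?_
    rintro a ⟨s, hs, hsS, rfl⟩
    exact ⟨⟨s, hsS⟩, rfl⟩
  refine ⟨⟨hfin.toFinset, ?_⟩⟩
  rw [Set.Finite.coe_toFinset]
  refine top_le_iff.mp fun a _ => ?_
  rw [sum_mono a]
  exact sum_mem fun n _ => mono_mem_adjoin _ hS n _ _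

end Pool.Agent.V5helper94.Kol
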