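import Pool.Agent.V5helper94.Kol.Rees2

/-!
# Homogeneous localizations of the Rees algebra inside `K`, and integrality of `Proj`
-/

namespace Pool.Agent.V5helper94.Kol

open AlgebraicGeometry Polynomial HomogeneousLocalization

variable {R K : Type} [CommRing R] [Field K] [Algebra R K] {J : Submodule R K}

variable (J) in
/-- Evaluation at `X = 1`. -/
noncomputable def evalK : rees J →+* K :=
  (Polynomial.evalRingHom (1 : K)).comp (rees J).val.toRingHom

theorem evalK_mono {n : ℕ} {c : K} (hc : c ∈ J ^ n) : evalK J (mono J n c hc) = c := by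
  change (monomial n c).eval 1 = c
  rw [eval_monomial, one_pow, mul_one]

theorem evalK_of_mem {n : ℕ} {a : rees J} (ha : a ∈ reesPart J n) :
    evalK J a = a.1.coeff n := by
  conv_lhs => rw [eq_mono ha, evalK_mono]

theorem evalK_mem_pow {n : ℕ} {a : rees J} (ha : a ∈ reesPart J n) : evalK J a ∈ J ^ n := by
  rw [evalK_of_mem ha]; exact a.2 n

theorem eq_zero_of_evalK {n : ℕ} {a : rees J} (ha : a ∈ reesPart J n) (h : evalK J a = 0) :
    a = 0 := by
  rw [evalK_of_mem ha] at h
  refine Subtype.ext (Polynomial.ext fun m => ?_)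
  by_cases hm : m = n
  · rw [hm, h]; rfl
  · exact ha m hm

theorem evalK_ne_zero {n : ℕ} {a : rees J} (ha : a ∈ reesPart J n) (h : a ≠ 0) :
    evalK J a ≠ 0 := fun h' => h (eq_zero_of_evalK ha h')

theorem evalK_algebraMap (r : R) : evalK J (algebraMap R (rees J) r) = algebraMap R K r := by
  change (algebraMap R K[X] r).eval 1 = _
  rw [Polynomial.algebraMap_apply, eval_C]

/-- The embedding of the homogeneous localization in `K`. -/
noncomputable def awayK (f : rees J) (hf : evalK J f ≠ 0) : Away (reesPart J) f →+* K :=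
  (Localization.awayLift (evalK J) f (IsUnit.mk0 _ hf)).comp
    (algebraMap (Away (reesPart J) f) (Localization.Away f))

theorem awayK_apply (f : rees J) (hf : evalK J f ≠ 0) (a : Away (reesPart J) f) :
    awayK f hf a = Localization.awayLift (evalK J) f (IsUnit.mk0 _ hf) a.val := rfl

theorem awayK_mk {f : rees J} (hf : evalK J f ≠ 0) {d : ℕ} (hfd : f ∈ reesPart J d) (n : ℕ)
    (x : rees J) (hx : x ∈ reesPart J (n • d)) :
    awayK f hf (Away.mk (reesPart J) hfd n x hx) = evalK J x / evalK J f ^ n := by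
  rw [awayK_apply, Away.val_mk, Localization.awayLift_mk (v := (evalK J f)⁻¹)
    (hv := mul_inv_cancel₀ hf), inv_pow, div_eq_mul_inv]

theorem awayK_injective {f : rees J} (hf : evalK J f ≠ 0) {d : ℕ} (hfd : f ∈ reesPart J d) :
    Function.Injective (awayK f hf) := by
  rw [injective_iff_map_eq_zero]
  intro a ha
  obtain ⟨n, x, hx, rfl⟩ := Away.mk_surjective (reesPart J) hfd a
  rw [awayK_mk, div_eq_zero_iff] at ha
  have hx0 : x = 0 := eq_zero_of_evalK hx (ha.resolve_right (pow_ne_zero _ hf))
  subst hx0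
  ext
  rw [Away.val_mk, val_zero, Localization.mk_zero]

theorem mem_range_awayK {f : rees J} (hf : evalK J f ≠ 0) {d : ℕ} (hfd : f ∈ reesPart J d)
    {y : K} : (∃ a, awayK f hf a = y) ↔ ∃ n : ℕ, y * evalK J f ^ n ∈ J ^ (n * d) := by
  constructor
  · rintro ⟨a, rfl⟩
    obtain ⟨n, x, hx, rfl⟩ := Away.mk_surjective (reesPart J) hfd a
    refine ⟨n, ?_⟩
    rw [awayK_mk, div_mul_cancel₀ _ (pow_ne_zero _ hf)]
    exact evalK_mem_pow hx
  · rintro ⟨n, hn⟩
    refine ⟨Away.mk (reesPart J) hfd n (mono J (n * d) _ hn) (mono_mem hn), ?_⟩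
    rw [awayK_mk, evalK_mono, mul_div_cancel_right₀ _ (pow_ne_zero _ hf)]

theorem awayK_awayMap {f g x : rees J} (hf : evalK J f ≠ 0) (hxK : evalK J x ≠ 0) {e : ℕ}
    (hg : g ∈ reesPart J e) (hx : x = f * g) (a : Away (reesPart J) f) :
    awayK x hxK (awayMap (reesPart J) hg hx a) = awayK f hf a := by
  rw [awayK_apply, awayK_apply, val_awayMap]
  have h : (Localization.awayLift (evalK J) x (IsUnit.mk0 _ hxK)).comp
      (Localization.awayLift (algebraMap (rees J) (Localization.Away x)) f
        (isUnit_of_dvd_unit (map_dvd _ ⟨_, hx⟩) (IsLocalization.Away.algebraMap_isUnit x))) =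
      Localization.awayLift (evalK J) f (IsUnit.mk0 _ hf) := by
    apply IsLocalization.ringHom_ext (M := Submonoid.powers f)
    ext b
    simp [Localization.awayLift, IsLocalization.Away.lift_eq]
  exact congr($h a.val)

theorem awayK_fromZero {f : rees J} (hf : evalK J f ≠ 0) (a : reesPart J 0) :
    awayK f hf (fromZeroRingHom (reesPart J) _ a) = evalK J a := by
  rw [awayK_apply]
  change Localization.awayLift (evalK J) f (IsUnit.mk0 _ hf)
    (Localization.mk (a : rees J) ⟨1, _⟩) = _
  have h := Localization.awayLift_mk (evalK J) f (a : rees J) (evalK J f)⁻¹ (mul_inv_cancel₀ hf) 0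
  simp only [pow_zero, mul_one] at h
  exact h

end Pool.Agent.V5helper94.Kol
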