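import Pool.Agent.V5helper94.Kol.Rees3

/-!
# `Proj` of the Rees algebra: covers and integrality
-/

namespace Pool.Agent.V5helper94.Kol

open AlgebraicGeometry Polynomial HomogeneousLocalization CategoryTheory TopologicalSpace

variable {R K : Type} [CommRing R] [Field K] [Algebra R K] {J : Submodule R K}

theorem mono_mem_ideal (I : Ideal (rees J)) (h : ∀ c (hc : c ∈ J ^ 1), mono J 1 c hc ∈ I) (n : ℕ)
    (c : K) (hc : c ∈ J ^ (n + 1)) : mono J (n + 1) c hc ∈ I := by
  have hc' : c ∈ J ^ n * J ^ 1 := by rwa [← pow_add]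
  induction hc' using Submodule.mul_induction_on' with
  | mem_mul_mem a ha b hb =>
    rw [← mono_mul ha hb]
    exact I.mul_mem_left _ (h b hb)
  | add x hx y hy ihx ihy =>
    rw [← pow_add] at hx hy
    rw [mono_add hx hy]
    exact add_mem (ihx _) (ihy _)

theorem irrelevant_le (I : HomogeneousIdeal (reesPart J))
    (h : ∀ c (hc : c ∈ J ^ 1), mono J 1 c hc ∈ I.toIdeal) :
    HomogeneousIdeal.irrelevant (reesPart J) ≤ I := by
  refine (HomogeneousIdeal.toIdeal_irrelevant_le _).mpr fun i hi x hx => ?_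
  obtain ⟨n, rfl⟩ : ∃ n, i = n + 1 := ⟨i - 1, by omega⟩
  rw [eq_mono hx]
  exact mono_mem_ideal _ h n _ _

/-- The degree `n` part of a homogeneous prime ideal, as a submodule of `K`. -/
noncomputable def primePart (I : Ideal (rees J)) (n : ℕ) : Submodule R K where
  carrier := {c | ∃ hc : c ∈ J ^ n, mono J n c hc ∈ I}
  add_mem' := by
    rintro a b ⟨ha, ha'⟩ ⟨hb, hb'⟩
    exact ⟨add_mem ha hb, by rw [mono_add ha hb]; exact add_mem ha' hb'⟩
  zero_mem' := ⟨zero_mem _, by rw [mono_zero]; exact zero_mem _⟩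
  smul_mem' := by
    rintro r a ⟨ha, ha'⟩
    exact ⟨Submodule.smul_mem _ r ha, by rw [mono_smul r ha]; exact I.mul_mem_left _ ha'⟩

theorem mem_primePart {I : Ideal (rees J)} {n : ℕ} {c : K} :
    c ∈ primePart I n ↔ ∃ hc : c ∈ J ^ n, mono J n c hc ∈ I := Iff.rfl

/-- The hypothesis that the charts cover. -/
theorem iSup_eq_top {ι : Type} (F : ι → K) (hF : ∀ i, F i ∈ J ^ 1)
    (cover : ∀ P : ℕ → Submodule R K, (∀ n, P n ≤ J ^ n) →
      (∀ m n : ℕ, ∀ a ∈ J ^ m, ∀ b ∈ P n, a * b ∈ P (m + n)) →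
      (∀ m n : ℕ, ∀ a ∈ J ^ m, ∀ b ∈ J ^ n, a * b ∈ P (m + n) → a ∈ P m ∨ b ∈ P n) →
      ¬ J ≤ P 1 → ∃ i, F i ∉ P 1) :
    ⨆ i, Proj.basicOpen (reesPart J) (mono J 1 (F i) (hF i)) = ⊤ := by
  refine top_le_iff.mp fun x _ => Opens.mem_iSup.mpr ?_
  have hx : (x.asHomogeneousIdeal.toIdeal).IsPrime := x.isPrime
  have key := cover (primePart x.asHomogeneousIdeal.toIdeal) ?_ ?_ ?_ ?_
  · obtain ⟨i, hi⟩ := key
    refine ⟨i, ?_⟩
    rw [Proj.mem_basicOpen]
    intro h
    exact hi ⟨hF i, h⟩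
  · rintro n c ⟨hc, _⟩
    exact hc
  · rintro m n a ha b ⟨hb, hb'⟩
    refine ⟨by rw [pow_add]; exact Submodule.mul_mem_mul ha hb, ?_⟩
    rw [← mono_mul ha hb]
    exact Ideal.mul_mem_left _ _ hb'
  · rintro m n a ha b hb ⟨h1, h2⟩
    rw [← mono_mul ha hb] at h2
    rcases hx.mem_or_mem h2 with h | h
    · exact Or.inl ⟨ha, h⟩
    · exact Or.inr ⟨hb, h⟩
  · intro hJ
    apply x.not_irrelevant_le
    apply irrelevant_le
    intro c hc
    obtain ⟨_, h⟩ := hJ (by rwa [pow_one] at hc : c ∈ J)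
    exact h

/-- The generic point of `Proj`. -/
noncomputable def genPt (c : K) (hc : c ∈ J ^ 1) (hc0 : c ≠ 0) : Proj (reesPart J) where
  asHomogeneousIdeal := ⊥
  isPrime := by
    rw [HomogeneousIdeal.toIdeal_bot]
    exact Ideal.isPrime_bot
  not_irrelevant_le := by
    intro h
    have h1 : mono J 1 c hc ∈ (HomogeneousIdeal.irrelevant (reesPart J)).toIdeal :=
      HomogeneousIdeal.mem_irrelevant_of_mem _ Nat.one_pos (mono_mem hc)
    have h3 : mono J 1 c hc = 0 := h h1
    have h4 := evalK_mono hc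
    rw [h3, map_zero] at h4
    exact hc0 h4.symm

theorem genPt_mem {c : K} {hc : c ∈ J ^ 1} {hc0 : c ≠ 0} {f : rees J} (hf : f ≠ 0) :
    genPt c hc hc0 ∈ Proj.basicOpen (reesPart J) f := by
  rw [Proj.mem_basicOpen]
  intro h
  exact hf h

theorem genPt_mem_open {c : K} {hc : c ∈ J ^ 1} {hc0 : c ≠ 0} (U : (Proj (reesPart J)).Opens)
    (hU : (U : Set (Proj (reesPart J))).Nonempty) : genPt c hc hc0 ∈ U := by
  obtain ⟨x, hx⟩ := hU
  obtain ⟨V, ⟨f, rfl⟩, hxf, hfU⟩ :=
    (Opens.isBasis_iff_nbhd.mp (Proj.isBasis_basicOpen (reesPart J))) hx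
  refine hfU (genPt_mem ?_)
  rintro rfl
  rw [Proj.mem_basicOpen] at hxf
  exact hxf (zero_mem _)

theorem isIntegral_proj {c : K} (hc : c ∈ J ^ 1) (hc0 : c ≠ 0) :
    IsIntegral (Proj (reesPart J)) := by
  have h1 : IrreducibleSpace (Proj (reesPart J)) := by
    have : PreirreducibleSpace (Proj (reesPart J)) := by
      constructor
      intro U V hU hV hU' hV'
      refine ⟨genPt c hc hc0, trivial, ?_, ?_⟩
      · exact genPt_mem_open ⟨U, hU⟩ (by simpa using hU')
      · exact genPt_mem_open ⟨V, hV⟩ (by simpa using hV')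
    exact { toNonempty := ⟨genPt c hc hc0⟩ }
  have h2 : IsReduced (Proj (reesPart J)) := by
    have : ∀ i, IsReduced ((Proj.affineOpenCover (reesPart J)).openCover.X i) := by
      intro i
      change IsReduced (Spec (.of (Away (reesPart J) (i.2 : rees J))))
      by_cases h : (i.2 : rees J) = 0
      · have : Subsingleton (Away (reesPart J) (i.2 : rees J)) :=
          HomogeneousLocalization.subsingleton _ ⟨1, by simp [h]⟩
        infer_instance
      · have := awayK_injective (evalK_ne_zero i.2.2 h) i.2.2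
        have : _root_.IsReduced (Away (reesPart J) (i.2 : rees J)) :=
          isReduced_of_injective _ this
        infer_instance
    exact IsReduced.of_openCover _ (Proj.affineOpenCover (reesPart J)).openCover
  exact isIntegral_of_irreducibleSpace_of_isReduced _

end Pool.Agent.V5helper94.Kol
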