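import Pool.Agent.V5helper94.Kol.Rees4

/-!
# The blow-up morphism: proper and birational
-/

namespace Pool.Agent.V5helper94.Kol

open AlgebraicGeometry Polynomial HomogeneousLocalization CategoryTheory TopologicalSpace

variable {R K : Type} [CommRing R] [Field K] [Algebra R K] {J : Submodule R K}

variable (J) in
/-- The blow-up morphism. -/
noncomputable def projTo : Proj (reesPart J) ⟶ Spec (.of R) :=
  Proj.toSpecZero (reesPart J) ≫ Spec.map (CommRingCat.ofHom (reesZero J))

theorem isIso_ofHom {A B : Type} [CommRing A] [CommRing B] (f : A →+* B)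
    (hf : Function.Bijective f) : IsIso (CommRingCat.ofHom f) :=
  (ConcreteCategory.isIso_iff_bijective _).mpr hf

theorem isProper_projTo (hJ : J.FG) (hinj : Function.Injective (algebraMap R K)) :
    IsProper (projTo J) := by
  have h1 := rees_finiteType hJ
  have h2 : IsIso (CommRingCat.ofHom (S := reesPart J 0) (reesZero J)) :=
    isIso_ofHom _ (reesZero_bijective hinj)
  have h3 : IsProper (Proj.toSpecZero (reesPart J)) := inferInstance
  have h5 : IsProper (Spec.map (CommRingCat.ofHom (S := reesPart J 0) (reesZero J))) :=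
    inferInstance
  exact MorphismProperty.comp_mem _ _ _ h3 h5

/-- The structure map of the homogeneous localization over `R`. -/
noncomputable def toAway (f : rees J) : R →+* Away (reesPart J) f :=
  (fromZeroRingHom (reesPart J) (Submonoid.powers f)).comp (reesZero J)

theorem awayK_toAway {f : rees J} (hf : evalK J f ≠ 0) (r : R) :
    awayK f hf (toAway f r) = algebraMap R K r := by
  change awayK f hf (fromZeroRingHom (reesPart J) _ (reesZero J r)) = _
  rw [awayK_fromZero, reesZero_coe, evalK_algebraMap]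

theorem awayι_projTo {f : rees J} {m : ℕ} (hf : f ∈ reesPart J m) (hm : 0 < m) :
    Proj.awayι (reesPart J) f hf hm ≫ projTo J = Spec.map (CommRingCat.ofHom (toAway f)) := by
  rw [projTo, Proj.awayι_toSpecZero_assoc, ← Spec.map_comp]
  rfl

theorem isIso_morphismRestrict_of {Z X W : Scheme.{0}} (π : Z ⟶ X) (U : X.Opens) (j : W ⟶ Z)
    [IsOpenImmersion j] (hj : j.opensRange = π ⁻¹ᵁ U) [IsOpenImmersion (j ≫ π)]
    (h : (j ≫ π).opensRange = U) : IsIso (π ∣_ U) := by
  have hr : Set.range j = Set.range (π ⁻¹ᵁ U).ι := by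
    rw [Scheme.Opens.range_ι, ← hj]
    rfl
  let e := IsOpenImmersion.isoOfRangeEq j (π ⁻¹ᵁ U).ι hr
  have he : e.hom ≫ (π ⁻¹ᵁ U).ι = j := IsOpenImmersion.isoOfRangeEq_hom_fac _ _ _
  have h1 : (π ∣_ U) ≫ U.ι = e.inv ≫ (j ≫ π) := by
    rw [morphismRestrict_ι, ← he, Category.assoc, Iso.inv_hom_id_assoc]
  have h2 : IsOpenImmersion ((π ∣_ U) ≫ U.ι) := by
    rw [h1]; infer_instance
  have h3 : IsOpenImmersion (π ∣_ U) := IsOpenImmersion.of_comp _ U.ι
  rw [isIso_iff_isOpenImmersion_and_surjective]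
  refine ⟨h3, ⟨fun y => ?_⟩⟩
  have hy : U.ι y ∈ (j ≫ π).opensRange := by rw [h]; exact y.2
  obtain ⟨w, hw⟩ := hy
  refine ⟨e.hom w, ?_⟩
  apply U.ι.isOpenEmbedding.injective
  have h4 : U.ι ((π ∣_ U) (e.hom w)) = (e.hom ≫ (π ∣_ U) ≫ U.ι) w := by simp
  rw [h4, h1, Iso.hom_inv_id_assoc]
  exact hw

/-- `R → Away (s² X)` is the localization of `R` away from `s`. -/
theorem isLocalization_away (hle : ∀ g ∈ J, g ∈ (algebraMap R K).range)
    (hinj : Function.Injective (algebraMap R K)) (s : R)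
    (hs : algebraMap R K s ∈ J) (hs0 : algebraMap R K s ≠ 0) (f : rees J)
    (hfd : f ∈ reesPart J 1) (hfK : evalK J f = algebraMap R K s * algebraMap R K s) :
    @IsLocalization.Away R _ s (Away (reesPart J) f) _ (toAway f).toAlgebra := by
  have hf0 : evalK J f ≠ 0 := by rw [hfK]; exact mul_ne_zero hs0 hs0
  have hinj' := awayK_injective hf0 hfd
  have hmap : ∀ r : R, awayK f hf0 (toAway f r) = algebraMap R K r := awayK_toAway hf0
  have hJn : ∀ n, J ^ n ≤ 1 := by
    intro n
    have h1 : J ≤ 1 := by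
      intro g hg
      obtain ⟨r, hr⟩ := hle g hg
      rw [Submodule.mem_one]
      exact ⟨r, hr⟩
    exact (pow_le_pow_left' h1 n).trans (one_pow n).le
  have hu : IsUnit (toAway f s) := by
    have : ∃ a, awayK f hf0 a = (algebraMap R K s)⁻¹ := by
      rw [mem_range_awayK hf0 hfd]
      refine ⟨1, ?_⟩
      rw [hfK, one_mul, pow_one, pow_one, ← mul_assoc, inv_mul_cancel₀ hs0, one_mul]
      exact hs
    obtain ⟨a, ha⟩ := this
    have h1 : toAway f s * a = 1 := by
      apply hinj'
      rw [map_mul, hmap, ha, map_one, mul_inv_cancel₀ hs0]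
    have h2 : a * toAway f s = 1 := by
      have h3 : a * toAway f s = toAway f s * a := mul_comm a (toAway f s)
      rw [h3, h1]
    exact ⟨⟨toAway f s, a, h1, h2⟩, rfl⟩
  let _ : Algebra R (Away (reesPart J) f) := (toAway f).toAlgebra
  refine (isLocalization_iff _ _).mpr ⟨?_, ?_, ?_⟩
  · rintro ⟨_, n, rfl⟩
    change IsUnit (toAway f (s ^ n))
    rw [map_pow]
    exact hu.pow n
  · intro a
    obtain ⟨n, hn⟩ := (mem_range_awayK hf0 hfd).mp ⟨a, rfl⟩
    have h1 := hJn _ hn
    rw [Submodule.mem_one] at h1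
    obtain ⟨r, hr⟩ := h1
    refine ⟨⟨r, ⟨s ^ (2 * n), _, rfl⟩⟩, hinj' ?_⟩
    change awayK f hf0 (a * toAway f (s ^ (2 * n))) = awayK f hf0 (toAway f r)
    rw [map_mul, map_pow, map_pow, hmap, hmap, hr, hfK, pow_mul, pow_two]
  · intro a b hab
    refine ⟨1, ?_⟩
    have : awayK f hf0 (toAway f a) = awayK f hf0 (toAway f b) := congrArg (awayK f hf0) hab
    rw [hmap, hmap] at this
    rw [hinj this]

end Pool.Agent.V5helper94.Kol
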