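import Pool.Agent.V5helper94.Kol.Rees5

/-!
# The blow-up morphism is birational
-/

namespace Pool.Agent.V5helper94.Kol

open AlgebraicGeometry Polynomial HomogeneousLocalization CategoryTheory TopologicalSpace

variable {R K : Type} [CommRing R] [Field K] [Algebra R K] {J : Submodule R K}

theorem preimage_basicOpen (hle : ∀ g ∈ J, g ∈ (algebraMap R K).range) (s : R)
    (hs : algebraMap R K s ∈ J) (f : rees J)
    (hfd : f ∈ reesPart J 1) (hfK : evalK J f = algebraMap R K s * algebraMap R K s) :
    projTo J ⁻¹ᵁ (PrimeSpectrum.basicOpen s : (Spec (.of R)).Opens) =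
      Proj.basicOpen (reesPart J) f := by
  ext x
  obtain ⟨c, hc, hcx⟩ : ∃ (c : K) (hc : c ∈ J ^ 1), mono J 1 c hc ∉ x.asHomogeneousIdeal := by
    by_contra! h
    exact x.not_irrelevant_le (irrelevant_le _ h)
  set f' := mono J 1 c hc with hf'
  have hfd' : f' ∈ reesPart J 1 := mono_mem hc
  have hfK' : evalK J f' = c := evalK_mono hc
  have hc0 : c ≠ 0 := by
    rintro rfl
    apply hcx
    rw [hf', mono_zero]
    exact zero_mem _
  have hf0' : evalK J f' ≠ 0 := by rwa [hfK']
  have hinj' := awayK_injective hf0' hfd'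
  have hx : x ∈ (Proj.awayι (reesPart J) f' hfd' Nat.one_pos).opensRange := by
    rw [Proj.opensRange_awayι]
    exact hcx
  obtain ⟨y, rfl⟩ := hx
  have h1 : Proj.awayι (reesPart J) f' hfd' Nat.one_pos y ∈
      (projTo J ⁻¹ᵁ (PrimeSpectrum.basicOpen s : (Spec (.of R)).Opens)) ↔
      toAway f' s ∉ y.asIdeal := by
    change (Proj.awayι (reesPart J) f' hfd' Nat.one_pos ≫ projTo J) y ∈
      (PrimeSpectrum.basicOpen s : (Spec (.of R)).Opens) ↔ _
    rw [awayι_projTo]
    rfl
  have h2 : Proj.awayι (reesPart J) f' hfd' Nat.one_pos y ∈ Proj.basicOpen (reesPart J) f ↔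
      Away.isLocalizationElem hfd' hfd ∉ y.asIdeal := by
    change y ∈ Proj.awayι (reesPart J) f' hfd' Nat.one_pos ⁻¹ᵁ Proj.basicOpen (reesPart J) f ↔ _
    rw [Proj.awayι_preimage_basicOpen (reesPart J) hfd' Nat.one_pos hfd Nat.one_pos]
    rfl
  refine h1.trans (Iff.trans ?_ h2.symm)
  have he : awayK f' hf0' (Away.isLocalizationElem hfd' hfd) =
      algebraMap R K s * algebraMap R K s / c := by
    rw [awayK_mk, pow_one, pow_one, hfK, hfK']
  obtain ⟨t, ht⟩ : ∃ t, awayK f' hf0' t = algebraMap R K s / c := by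
    rw [mem_range_awayK hf0' hfd']
    refine ⟨1, ?_⟩
    rw [hfK', one_mul, pow_one, pow_one, div_mul_cancel₀ _ hc0]
    exact hs
  obtain ⟨c', hc'⟩ := hle c (by rwa [pow_one] at hc)
  have e1 : Away.isLocalizationElem hfd' hfd = toAway f' s * t := by
    apply hinj'
    rw [map_mul, he, ht, awayK_toAway, mul_div_assoc]
  have e2 : toAway f' s * toAway f' s = toAway f' c' * Away.isLocalizationElem hfd' hfd := by
    apply hinj'
    rw [map_mul, map_mul, he, awayK_toAway, awayK_toAway, hc', mul_div_cancel₀]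
    exact hc0
  refine not_congr ⟨fun h => ?_, fun h => ?_⟩
  · rw [e1]
    exact Ideal.mul_mem_right _ _ h
  · have h3 : toAway f' s * toAway f' s ∈ y.asIdeal := by
      rw [e2]
      exact Ideal.mul_mem_left _ _ h
    exact (y.isPrime.mem_or_mem h3).elim id id

theorem birational_projTo (hle : ∀ g ∈ J, g ∈ (algebraMap R K).range)
    (hinj : Function.Injective (algebraMap R K)) (c : K) (hc : c ∈ J) (hc0 : c ≠ 0) :
    ∃ U : (Spec (.of R)).Opens, U ≠ ⊥ ∧ IsIso (projTo J ∣_ U) := by
  obtain ⟨s, rfl⟩ := hle c hc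
  have hle1 : algebraMap R K s * algebraMap R K s ∈ J ^ 1 := by
    rw [pow_one, ← Algebra.smul_def]
    exact Submodule.smul_mem _ _ hc
  set f := mono J 1 _ hle1 with hf
  have hfd : f ∈ reesPart J 1 := mono_mem _
  have hfK : evalK J f = algebraMap R K s * algebraMap R K s := evalK_mono _
  refine ⟨PrimeSpectrum.basicOpen s, ?_, ?_⟩
  · have : IsDomain R := hinj.isDomain _
    intro h
    have h' := (PrimeSpectrum.basicOpen_eq_bot_iff s).mp h
    apply hc0
    rw [h'.eq_zero, map_zero]
  · have hloc := isLocalization_away hle hinj s hc hc0 f hfd hfK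
    have hop : IsOpenImmersion (Spec.map (CommRingCat.ofHom (toAway f))) :=
      @IsOpenImmersion.of_isLocalization R (Away (reesPart J) f) _ _ (toAway f).toAlgebra s hloc
    have hrange : (Spec.map (CommRingCat.ofHom (toAway f))).opensRange =
        PrimeSpectrum.basicOpen s := by
      rw [SetLike.ext'_iff]
      exact @PrimeSpectrum.localization_away_comap_range R _ (Away (reesPart J) f) _
        (toAway f).toAlgebra s hloc
    have h1 : IsOpenImmersion (Proj.awayι (reesPart J) f hfd Nat.one_pos ≫ projTo J) := by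
      rw [awayι_projTo]; exact hop
    apply isIso_morphismRestrict_of (projTo J) _ (Proj.awayι (reesPart J) f hfd Nat.one_pos)
    · rw [Proj.opensRange_awayι, preimage_basicOpen hle s hc f hfd hfK]
    · rw [← hrange]
      congr 1
      exact awayι_projTo _ _

end Pool.Agent.V5helper94.Kol
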