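import Pool.Agent.V5helper94.Kol.Rees6

/-!
# The blow-up morphism: smoothness
-/

namespace Pool.Agent.V5helper94.Kol

open AlgebraicGeometry Polynomial HomogeneousLocalization CategoryTheory TopologicalSpace

variable {R K : Type} [CommRing R] [Field K] [Algebra R K] {J : Submodule R K}

theorem ringHom_smooth_of_range [Algebra ℂ K] {A : Type} [CommRing A] (φ : ℂ →+* A) (κ : A →+* K)
    (hκ : Function.Injective κ) (hφ : ∀ c, κ (φ c) = algebraMap ℂ K c) (S : Subalgebra ℂ K)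
    (hS : ∀ y, y ∈ S ↔ ∃ a, κ a = y) (hsm : Algebra.Smooth ℂ S) : φ.Smooth := by
  let _ : Algebra ℂ A := φ.toAlgebra
  let κ' : A →ₐ[ℂ] K := { κ with commutes' := hφ }
  have hr : κ'.range = S := by
    ext y
    rw [hS]
    rfl
  let e : S ≃ₐ[ℂ] A := (Subalgebra.equivOfEq _ _ hr.symm).trans (AlgEquiv.ofInjective κ' hκ).symm
  have : Algebra.Smooth ℂ A := Algebra.Smooth.of_equiv e
  exact this

theorem smooth_projTo [Algebra ℂ R] [Algebra ℂ K] [IsScalarTower ℂ R K] {ι : Type} (F : ι → K)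
    (hF : ∀ i, F i ∈ J ^ 1) (hF0 : ∀ i, F i ≠ 0)
    (hcov : ⨆ i, Proj.basicOpen (reesPart J) (mono J 1 (F i) (hF i)) = ⊤)
    (S : ι → Subalgebra ℂ K) (hS : ∀ i y, y ∈ S i ↔ ∃ n : ℕ, y * F i ^ n ∈ J ^ n)
    (hsm : ∀ i, Algebra.Smooth ℂ (S i)) :
    Smooth (projTo J ≫ Spec.map (CommRingCat.ofHom (algebraMap ℂ R))) := by
  rw [IsZariskiLocalAtSource.iff_of_iSup_eq_top (P := @Smooth) _ hcov]
  intro i
  set f := mono J 1 (F i) (hF i) with hf
  have hfd : f ∈ reesPart J 1 := mono_mem _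
  have hfK : evalK J f = F i := evalK_mono _
  have hf0 : evalK J f ≠ 0 := by rw [hfK]; exact hF0 i
  rw [← MorphismProperty.cancel_left_of_respectsIso (P := @Smooth)
    (Proj.basicOpenIsoSpec (reesPart J) f hfd Nat.one_pos).inv, ← Category.assoc,
    ← Proj.awayι, ← Category.assoc, awayι_projTo, ← Spec.map_comp, ← CommRingCat.ofHom_comp,
    HasRingHomProperty.Spec_iff (P := @Smooth)]
  refine ringHom_smooth_of_range _ (awayK f hf0) (awayK_injective hf0 hfd) ?_ (S i) ?_ (hsm i)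
  · intro c
    change awayK f hf0 (toAway f (algebraMap ℂ R c)) = _
    rw [awayK_toAway, ← IsScalarTower.algebraMap_apply]
  · intro y
    rw [hS, mem_range_awayK hf0 hfd, hfK]
    simp only [mul_one]

end Pool.Agent.V5helper94.Kol
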