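import Pool.Agent.V5helper94.Kol.Rees7

/-!
# Sections of the structure sheaf of the blow-up inside `K`, and the Cech argument
-/

namespace Pool.Agent.V5helper94.Kol

open AlgebraicGeometry Polynomial HomogeneousLocalization CategoryTheory TopologicalSpace

section abstract_cech

/-- The combinatorial Cech argument. -/
theorem cech_abstract {K : Type} [Field K] {ι : Type} [Finite ι] (r : ι → ℕ)
    (hr : Function.Injective r) (C : ι → AddSubgroup K) (D : ι → ι → Set K)
    (hCD : ∀ i j x y, x ∈ C i → y ∈ D i j → x + y ∈ D i j)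
    (split : ∀ m, (∃ b, r b < r m) → ∃ prev, r prev < r m ∧ ∀ f ∈ D prev m,
      ∃ f1 ∈ C m, ∃ f2 : K, (∀ b, r b < r m → f2 ∈ C b) ∧ f = f1 + f2)
    (G : ι → ι → K) (hG : ∀ i j, G i j ∈ D i j) (hc : ∀ i j k, G i j + G j k = G i k) :
    ∃ h : ι → K, (∀ i, h i ∈ C i) ∧ ∀ i j, G i j = h j - h i := by
  classical
  have hself : ∀ i, G i i = 0 := fun i => by simpa using hc i i i
  have hanti : ∀ i j, G i j = - G j i := fun i j => by
    have := hc i j i
    rw [hself] at this
    exact eq_neg_of_add_eq_zero_left this
  have key : ∀ m : ℕ, ∃ h : ι → K, (∀ i, r i < m → h i ∈ C i) ∧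
      ∀ i j, r i < m → r j < m → G i j = h j - h i := by
    intro m
    induction m with
    | zero => exact ⟨0, fun i hi => absurd hi (Nat.not_lt_zero _), fun i j hi => absurd hi (Nat.not_lt_zero _)⟩
    | succ m ih =>
      obtain ⟨h, h1, h2⟩ := ih
      by_cases hm : ∃ i0, r i0 = m
      · obtain ⟨i0, rfl⟩ := hm
        have hlt : ∀ i, r i < r i0 + 1 → i = i0 ∨ r i < r i0 := by
          intro i hi
          rcases Nat.lt_succ_iff_lt_or_eq.mp hi with h | h
          · exact Or.inr h
          · exact Or.inl (hr h)
        by_cases hb : ∃ b, r b < r i0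
        · obtain ⟨prev, hp, hsplit⟩ := split i0 hb
          obtain ⟨e1, he1, e2, he2, he⟩ := hsplit (h prev + G prev i0)
            (hCD _ _ _ _ (h1 prev hp) (hG prev i0))
          refine ⟨fun i => if i = i0 then e1 else h i - e2, ?_, ?_⟩
          · intro i hi
            rcases hlt i hi with rfl | hi'
            · simpa using he1
            · have hne : i ≠ i0 := by rintro rfl; exact lt_irrefl _ hi'
              simp only [hne, if_false]
              exact sub_mem (h1 i hi') (he2 i hi')
          · have hb0 : ∀ b, r b < r i0 → G b i0 = e1 - (h b - e2) := by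
              intro b hb
              rw [← hc b prev i0, h2 b prev hb hp]
              linear_combination he
            intro i j hi hj
            rcases hlt i hi with rfl | hi' <;> rcases hlt j hj with rfl | hj'
            · simp [hself]
            · have hne : j ≠ i := by rintro rfl; exact lt_irrefl _ hj'
              simp only [hne, if_false, if_true]
              rw [hanti, hb0 j hj']
              ring
            · have hne : i ≠ j := by rintro rfl; exact lt_irrefl _ hi'
              simp only [hne, if_false, if_true]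
              exact hb0 i hi'
            · have hne : i ≠ i0 := by rintro rfl; exact lt_irrefl _ hi'
              have hne' : j ≠ i0 := by rintro rfl; exact lt_irrefl _ hj'
              simp only [hne, hne', if_false]
              rw [h2 i j hi' hj']
              ring
        · push Not at hb
          refine ⟨fun _ => 0, ?_, ?_⟩
          · intro i _
            exact zero_mem _
          · intro i j hi hj
            rcases hlt i hi with rfl | hi'
            · rcases hlt j hj with rfl | hj'
              · simp [hself]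
              · exact absurd hj' (not_lt.mpr (hb j))
            · exact absurd hi' (not_lt.mpr (hb i))
      · have hlt : ∀ i, r i < m + 1 → r i < m := by
          intro i hi
          rcases Nat.lt_succ_iff_lt_or_eq.mp hi with h | h
          · exact h
          · exact absurd ⟨i, h⟩ hm
        exact ⟨h, fun i hi => h1 i (hlt i hi), fun i j hi hj => h2 i j (hlt i hi) (hlt j hj)⟩
  obtain ⟨M, hM⟩ : ∃ M, ∀ i, r i < M := by
    obtain ⟨M, hM⟩ := (Set.finite_range r).bddAbove
    exact ⟨M + 1, fun i => Nat.lt_succ_of_le (hM ⟨i, rfl⟩)⟩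
  obtain ⟨h, h1, h2⟩ := key M
  exact ⟨h, fun i => h1 i (hM i), fun i j => h2 i j (hM i) (hM j)⟩

end abstract_cech

variable {R K : Type} [CommRing R] [Field K] [Algebra R K] {J : Submodule R K}

/-- Sections over `D₊(w)` inside `K`. -/
noncomputable def kappa (w : rees J) (hw : evalK J w ≠ 0) {d : ℕ} (hwd : w ∈ reesPart J d)
    (hd : 0 < d) : Γ(Proj (reesPart J), Proj.basicOpen (reesPart J) w) →+* K :=
  (awayK w hw).comp (Proj.basicOpenIsoAway (reesPart J) w hwd hd).inv.hom

theorem kappa_awayToSection {w : rees J} (hw : evalK J w ≠ 0) {d : ℕ} (hwd : w ∈ reesPart J d)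
    (hd : 0 < d) (a : Away (reesPart J) w) :
    kappa w hw hwd hd ((Proj.awayToSection (reesPart J) w).hom a) = awayK w hw a := by
  have h : (Proj.basicOpenIsoAway (reesPart J) w hwd hd).inv.hom
      ((Proj.awayToSection (reesPart J) w).hom a) = a := by
    rw [← Proj.basicOpenIsoAway_hom (reesPart J) w hwd hd]
    exact congr($((Proj.basicOpenIsoAway (reesPart J) w hwd hd).hom_inv_id).hom a)
  change awayK w hw _ = _
  rw [h]

theorem kappa_injective {w : rees J} (hw : evalK J w ≠ 0) {d : ℕ} (hwd : w ∈ reesPart J d)
    (hd : 0 < d) : Function.Injective (kappa w hw hwd hd) := by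
  have h : Function.Injective (Proj.basicOpenIsoAway (reesPart J) w hwd hd).inv.hom :=
    ((ConcreteCategory.isIso_iff_bijective _).mp
      (inferInstance : IsIso (Proj.basicOpenIsoAway (reesPart J) w hwd hd).inv)).1
  exact (awayK_injective hw hwd).comp h

theorem awayToSection_surjective {f : rees J} {d : ℕ} (hfd : f ∈ reesPart J d)
    (hd : 0 < d) : Function.Surjective (Proj.awayToSection (reesPart J) f).hom := by
  rw [← Proj.basicOpenIsoAway_hom (reesPart J) f hfd hd]
  exact ((ConcreteCategory.isIso_iff_bijective _).mp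
      (inferInstance : IsIso (Proj.basicOpenIsoAway (reesPart J) f hfd hd).hom)).2

/-- Sections over `U ⊇ D₊(w)` inside `K`. -/
noncomputable def rho (w : rees J) (hw : evalK J w ≠ 0) {d : ℕ} (hwd : w ∈ reesPart J d)
    (hd : 0 < d) (U : (Proj (reesPart J)).Opens) (hU : Proj.basicOpen (reesPart J) w ≤ U) :
    Γ(Proj (reesPart J), U) →+* K :=
  (kappa w hw hwd hd).comp ((Proj (reesPart J)).presheaf.map (homOfLE hU).op).hom

theorem rho_res {w : rees J} (hw : evalK J w ≠ 0) {d : ℕ} (hwd : w ∈ reesPart J d)
    (hd : 0 < d) {U V : (Proj (reesPart J)).Opens} (hV : Proj.basicOpen (reesPart J) w ≤ V)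
    (hVU : V ≤ U) (s : Γ(Proj (reesPart J), U)) :
    rho w hw hwd hd V hV (((Proj (reesPart J)).presheaf.map (homOfLE hVU).op).hom s) =
      rho w hw hwd hd U (hV.trans hVU) s := by
  have h : (Proj (reesPart J)).presheaf.map (homOfLE hVU).op ≫
      (Proj (reesPart J)).presheaf.map (homOfLE hV).op =
      (Proj (reesPart J)).presheaf.map (homOfLE (hV.trans hVU)).op := by
    rw [← Functor.map_comp]
    rfl
  exact congrArg (kappa w hw hwd hd) congr($(h).hom s)

theorem rho_injective {w : rees J} (hw : evalK J w ≠ 0) {d : ℕ} (hwd : w ∈ reesPart J d)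
    (hd : 0 < d) {U : (Proj (reesPart J)).Opens} (hU : Proj.basicOpen (reesPart J) w ≤ U)
    {c : K} (hc : c ∈ J ^ 1) (hc0 : c ≠ 0) :
    Function.Injective (rho w hw hwd hd U hU) := by
  have h1 : IsIntegral (Proj (reesPart J)) := isIntegral_proj hc hc0
  have h2 : Nonempty (Proj.basicOpen (reesPart J) w) :=
    ⟨⟨genPt c hc hc0, genPt_mem (by rintro rfl; exact hw (map_zero _))⟩⟩
  have h3 := map_injective_of_isIntegral (Proj (reesPart J)) (homOfLE hU)
  exact (kappa_injective hw hwd hd).comp h3

theorem range_rho {w : rees J} (hw : evalK J w ≠ 0) {d : ℕ} (hwd : w ∈ reesPart J d)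
    (hd : 0 < d) {U : (Proj (reesPart J)).Opens} (hU : Proj.basicOpen (reesPart J) w ≤ U)
    {f g : rees J} {m e : ℕ} (hfm : f ∈ reesPart J m) (hm : 0 < m) (hge : g ∈ reesPart J e)
    (hfg : w = f * g) (hUf : U = Proj.basicOpen (reesPart J) f) (y : K) :
    (∃ s, rho w hw hwd hd U hU s = y) ↔ ∃ n : ℕ, y * evalK J f ^ n ∈ J ^ (n * m) := by
  subst hUf
  have hf0 : evalK J f ≠ 0 := by
    intro h
    rw [hfg, map_mul, h, zero_mul] at hw
    exact hw rfl
  have key : ∀ a, rho w hw hwd hd _ hU ((Proj.awayToSection (reesPart J) f).hom a) =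
      awayK f hf0 a := by
    intro a
    have h1 := Proj.awayMap_awayToSection (reesPart J) hge hfg
    have h2 : ((Proj (reesPart J)).presheaf.map (homOfLE hU).op).hom
        ((Proj.awayToSection (reesPart J) f).hom a) =
        (Proj.awayToSection (reesPart J) w).hom (awayMap (reesPart J) hge hfg a) :=
      congr($(h1).hom a).symm
    change kappa w hw hwd hd (((Proj (reesPart J)).presheaf.map (homOfLE hU).op).hom _) = _
    rw [h2, kappa_awayToSection, awayK_awayMap hf0]
  rw [← mem_range_awayK hf0 hfm]
  constructor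
  · rintro ⟨s, rfl⟩
    obtain ⟨a, rfl⟩ := awayToSection_surjective hfm hm s
    exact ⟨a, (key a).symm⟩
  · rintro ⟨a, rfl⟩
    exact ⟨_, key a⟩

end Pool.Agent.V5helper94.Kol
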