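import Pool.Agent.V5helper94.Kol.Defs

/-!
# The surface ring `ℂ[x, y][x^{e_i} / (y + p_i x)]`
-/

namespace Pool.Agent.V5helper94.Kol

open Polynomial

/-- `ℂ[x][y]` -/
abbrev P2 : Type := Polynomial (Polynomial ℂ)

section

variable (K : Type) [Field K] [Algebra ℂ K] [Algebra P2 K]

/-- `x` in `ℂ(x, y)` -/
noncomputable def x2 : K := algebraMap P2 K (C X)

/-- `y` in `ℂ(x, y)` -/
noncomputable def y2 : K := algebraMap P2 K X

/-- `y + a x` in `ℂ(x, y)` -/
noncomputable def lin2 (a : ℂ) : K := y2 K + algebraMap ℂ K a * x2 K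

/-- The ring `ℂ[x, y][x^{e_i} / (y + p_i x) : i ∈ ι]` -/
noncomputable def surfaceRing {ι : Type} (p : ι → ℂ) (e : ι → ℕ) : Subalgebra ℂ K :=
  Algebra.adjoin ℂ ({x2 K, y2 K} ∪ Set.range fun i => x2 K ^ (e i) / lin2 K (p i))

end

end Pool.Agent.V5helper94.Kol
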