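import Pool.Agent.V5helper94.Kol.Data

/-!
# Restriction to the cone over the cuspidal cubic
-/

set_option linter.unusedSectionVars false
set_option linter.unusedVariables false
set_option linter.unusedSimpArgs false

namespace Pool.Agent.V5helper94.Kol

open Polynomial

/-- slopes as complex numbers -/
noncomputable def pc (i : Fin 14) : ℂ := (pz i : ℂ)
/-- constants as complex numbers -/
noncomputable def qc (i : Fin 14) : ℂ := (qz i : ℂ)
/-- parameters of the twelve points -/
noncomputable def sc (k : Fin 12) : ℂ := (sz k : ℂ)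

theorem pc_injective : Function.Injective pc := fun i j h => pz_injective (by
  unfold pc at h; exact_mod_cast h)

theorem pc_ne_zero (i : Fin 14) : pc i ≠ 0 := by
  unfold pc; exact_mod_cast pz_ne_zero i

theorem sc_injective : Function.Injective sc := fun i j h => sz_injective (by
  unfold sc at h; exact_mod_cast h)

theorem odd_ne (k : Fin 12) : (1 + 2 * sc k) ≠ 0 := by
  unfold sc
  have : (1 + 2 * sz k : ℤ) ≠ 0 := by omega
  exact_mod_cast this

/-- the twelve points -/
noncomputable def al (k : Fin 12) : ℂ × ℂ := (sc k / (1 + 2 * sc k), sc k ^ 3 / (1 + 2 * sc k))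

theorem cubic_factor (i : Fin 14) (s : ℂ) : s ^ 3 + pc i * s - qc i * (1 + 2 * s) =
    (s - sc (tz3 i 0)) * (s - sc (tz3 i 1)) * (s - sc (tz3 i 2)) := by
  have h := e1_zero i
  have h1 : sc (tz3 i 0) + sc (tz3 i 1) + sc (tz3 i 2) = 0 := by
    unfold sc; exact_mod_cast h
  have hp : pc i = (sc (tz3 i 0) * sc (tz3 i 1) + sc (tz3 i 0) * sc (tz3 i 2) +
      sc (tz3 i 1) * sc (tz3 i 2)) + 2 * (sc (tz3 i 0) * sc (tz3 i 1) * sc (tz3 i 2)) := by
    unfold pc sc pz e2z e3z; push_cast; ring
  have hq : qc i = sc (tz3 i 0) * sc (tz3 i 1) * sc (tz3 i 2) := by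
    unfold qc sc qz e3z; push_cast; ring
  rw [hp, hq]
  linear_combination (-s ^ 2) * (-1) * h1

theorem onL_al (k : Fin 12) (i : Fin 14) : onL pc qc (al k) i ↔ inc k i = true := by
  have h0 := odd_ne k
  have h1 : onL pc qc (al k) i ↔ sc k ^ 3 + pc i * sc k - qc i * (1 + 2 * sc k) = 0 := by
    unfold onL al
    simp only
    have h2 : (sc k ^ 3 / (1 + 2 * sc k) + pc i * (sc k / (1 + 2 * sc k))) * (1 + 2 * sc k) =
        sc k ^ 3 + pc i * sc k := by
      generalize 1 + 2 * sc k = t at h0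
      field_simp
    constructor
    · intro h
      rw [← h2, h, sub_self]
    · intro h
      apply mul_right_cancel₀ h0
      rw [h2]
      linear_combination h
  rw [h1, cubic_factor, mul_eq_zero, mul_eq_zero, sub_eq_zero, sub_eq_zero, sub_eq_zero]
  unfold inc
  rw [decide_eq_true_iff]
  constructor
  · rintro ((h | h) | h)
    · exact ⟨0, (sc_injective h).symm⟩
    · exact ⟨1, (sc_injective h).symm⟩
    · exact ⟨2, (sc_injective h).symm⟩
  · rintro ⟨j, rfl⟩
    fin_cases j
    · exact Or.inl (Or.inl rfl)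
    · exact Or.inl (Or.inr rfl)
    · exact Or.inr rfl

theorem al_mem_pts (k : Fin 12) : al k ∈ pts pc qc := by
  have h : ∀ k : Fin 12, ∃ i j : Fin 14, i ≠ j ∧ inc k i = true ∧ inc k j = true := by decide
  obtain ⟨i, j, hij, hi, hj⟩ := h k
  exact (mem_pts pc qc pc_injective).mpr ⟨i, j, hij, (onL_al k i).mpr hi, (onL_al k j).mpr hj⟩

theorem sum_mu_al (k : Fin 12) : ∑ i, mu pc qc (al k) i = mz k := by
  classical
  rw [← card_inc k, Finset.card_filter]
  refine Finset.sum_congr rfl fun i _ => ?_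
  unfold mu
  by_cases h : inc k i = true
  · rw [if_pos ((onL_al k i).mpr h), if_pos h]
  · rw [if_neg (fun h2 => h ((onL_al k i).mp h2)), if_neg h]

/-- a multiple line which is not one of the twelve is a double line -/
theorem sum_mu_le {α : ℂ × ℂ} (hα : ∀ k, α ≠ al k) : ∑ i, mu pc qc α i ≤ 2 := by
  classical
  have h1 : ∑ i, mu pc qc α i = (Finset.univ.filter fun i => onL pc qc α i).card := by
    rw [Finset.card_filter]; rfl
  rw [h1]
  by_contra hcon
  push Not at hcon
  obtain ⟨i, j, l, hi, hj, hl, hij, hil, hjl⟩ := Finset.two_lt_card_iff.mp hcon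
  simp only [Finset.mem_filter, Finset.mem_univ, true_and] at hi hj hl
  have hc : (qz l - qz i) * (pz j - pz i) = (qz j - qz i) * (pz l - pz i) := by
    have : (qc l - qc i) * (pc j - pc i) = (qc j - qc i) * (pc l - pc i) := by
      simp only [onL] at hi hj hl
      rw [← hi, ← hj, ← hl]; ring
    unfold pc qc at this
    exact_mod_cast this
  obtain ⟨k, hk1, hk2⟩ := conc_check i j l hij hil hjl hc
  apply hα k
  rw [eq_ipt pc qc pc_injective hij hi hj,
    ← eq_ipt pc qc pc_injective hij ((onL_al k i).mpr hk1) ((onL_al k j).mpr hk2)]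

/-! ### the restriction -/

/-- `z ↦ (1 + 2 s) λ` -/
noncomputable def th1 : R1 →+* P2 :=
  ((Polynomial.aeval (C (1 + C 2 * X) * X : P2) : ℂ[X] →ₐ[ℂ] P2) : ℂ[X] →+* P2)

theorem th1_vz : th1 vz = C (1 + C 2 * X) * X := Polynomial.aeval_X (R := ℂ) (A := P2) _

theorem th1_kc (c : ℂ) : th1 (kc c) = C (C c) := by
  have h : th1 (kc c) = algebraMap ℂ P2 c := Polynomial.aeval_C (R := ℂ) (A := P2) _ c
  rw [h]; rfl

/-- restriction to the cone `(z, x, Y) = λ (1 + 2 s, s, s³)` -/
noncomputable def th : P3 →+* P2 :=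
  eval₂RingHom (eval₂RingHom th1 (C X * X)) (C (X ^ 3) * X)

theorem th_CC (r : R1) : th (C (C r)) = th1 r := by simp [th]
theorem th_CX : th (C X) = C X * X := by simp [th]
theorem th_X : th X = C (X ^ 3) * X := by simp [th]
theorem th_cc (c : ℂ) : th (C (cc c)) = C (C c) := by rw [cc, th_CC, th1_kc]
theorem th_zz : th (C zz) = C (1 + C 2 * X) * X := by rw [zz, th_CC, th1_vz]

theorem th_lf (i : Fin 14) : th (lf pc qc i) =
    C ((X - C (sc (tz3 i 0))) * (X - C (sc (tz3 i 1))) * (X - C (sc (tz3 i 2)))) * X := by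
  have h : lf pc qc i = X + C (cc (pc i)) * C X - C (cc (qc i)) * C zz := by
    rw [lf, pl, aa, C_sub, C_mul, C_mul]
    ring
  rw [h, map_sub, map_add, map_mul, map_mul, th_cc, th_cc, th_zz, th_X, th_CX]
  have h2 : (X : ℂ[X]) ^ 3 + C (pc i) * X - C (qc i) * (1 + C 2 * X) =
      (X - C (sc (tz3 i 0))) * (X - C (sc (tz3 i 1))) * (X - C (sc (tz3 i 2))) := by
    apply Polynomial.funext
    intro s
    have := cubic_factor i s
    simp only [eval_sub, eval_add, eval_mul, eval_pow, eval_X, eval_C, eval_one]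
    linear_combination this
  rw [← h2]
  simp only [C_sub, C_add, C_mul, C_pow, C_1]
  ring

/-- the polynomial `∏ (s - s_k)^{m_k}` -/
noncomputable def DP : ℂ[X] := ∏ k, (X - C (sc k)) ^ mz k

theorem card_fib (k : Fin 12) :
    (Finset.univ.filter fun x : Fin 14 × Fin 3 => tz3 x.1 x.2 = k).card = mz k := by
  revert k; decide

theorem lines_prod : (∏ i : Fin 14, ((X - C (sc (tz3 i 0))) * (X - C (sc (tz3 i 1))) *
    (X - C (sc (tz3 i 2))) : ℂ[X])) = DP := by
  have h1 : (∏ i : Fin 14, ((X - C (sc (tz3 i 0))) * (X - C (sc (tz3 i 1))) *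
    (X - C (sc (tz3 i 2))) : ℂ[X])) = ∏ x : Fin 14 × Fin 3, (X - C (sc (tz3 x.1 x.2))) := by
    rw [Fintype.prod_prod_type]
    refine Finset.prod_congr rfl fun i _ => ?_
    rw [Fin.prod_univ_three]
  rw [h1, ← Finset.prod_fiberwise (g := fun x : Fin 14 × Fin 3 => tz3 x.1 x.2)]
  unfold DP
  refine Finset.prod_congr rfl fun k _ => ?_
  rw [← card_fib k, ← Finset.prod_const]
  refine Finset.prod_congr rfl fun x hx => ?_
  rw [Finset.mem_filter] at hx
  rw [hx.2]

theorem th_PP : th (PP pc qc) = C DP * X ^ 14 := by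
  unfold PP
  rw [map_prod]
  have : ∀ i ∈ (Finset.univ : Finset (Fin 14)), th (pl (pc i) (qc i)) =
      C ((X - C (sc (tz3 i 0))) * (X - C (sc (tz3 i 1))) * (X - C (sc (tz3 i 2)))) * X :=
    fun i _ => th_lf i
  rw [Finset.prod_congr rfl this, Finset.prod_mul_distrib, Finset.prod_const, ← map_prod, lines_prod]
  rfl

theorem DP_monic : DP.Monic := monic_prod_of_monic _ _ fun k _ => (monic_X_sub_C _).pow _

theorem DP_ne_zero : DP ≠ 0 := DP_monic.ne_zero

theorem th_PP_ne_zero : th (PP pc qc) ≠ 0 := by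
  rw [th_PP]
  exact mul_ne_zero (C_ne_zero.mpr DP_ne_zero) (pow_ne_zero _ X_ne_zero)

/-! ### local factorisation of the restriction -/

/-- the restriction in the local chart at `al k` -/
noncomputable def thl (k : Fin 12) : P3 →+* P2 :=
  eval₂RingHom (eval₂RingHom th1 (C X * X))
    (C (X ^ 2 + C (sc k) * X + C (sc k ^ 2) + C (2 * sc k) * X ^ 2 + C (2 * sc k ^ 2) * X))

theorem thl_C (k : Fin 12) (r : R2) : thl k (C r) = th (C r) := by simp [th, thl]

theorem thl_X (k : Fin 12) : thl k X =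
    C (X ^ 2 + C (sc k) * X + C (sc k ^ 2) + C (2 * sc k) * X ^ 2 + C (2 * sc k ^ 2) * X) := by
  simp [thl]

theorem th_bb (k : Fin 12) : th (C (bb (al k).1)) =
    C (C (1 + 2 * sc k)⁻¹) * C (X - C (sc k)) * X := by
  have h0 := odd_ne k
  rw [bb_eq, C_sub, C_mul, map_sub, map_mul, th_CX, th_cc, th_zz]
  have h1 : (C ((al k).1) : ℂ[X]) = C (sc k) * C (1 + 2 * sc k)⁻¹ := by
    rw [← C_mul]; congr 1
  have h2 : (C (1 + 2 * sc k)⁻¹ : ℂ[X]) * (1 + 2 * C (sc k)) = 1 := by
    have : (1 + 2 * C (sc k) : ℂ[X]) = C (1 + 2 * sc k) := by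
      rw [C_add, C_mul, C_1]; rfl
    rw [this, ← C_mul, inv_mul_cancel₀ h0, C_1]
  have h3 : (X : ℂ[X]) - C (sc k) * C (1 + 2 * sc k)⁻¹ * (1 + C 2 * X) =
      C (1 + 2 * sc k)⁻¹ * (X - C (sc k)) := by
    have e : (C 2 : ℂ[X]) = 2 := rfl
    rw [e]
    linear_combination (X * (-1)) * h2
  calc C X * X - C (C (al k).1) * (C (1 + C 2 * X) * X)
      = C (X - C ((al k).1) * (1 + C 2 * X)) * X := by
        simp only [C_sub, C_mul]; ring
    _ = _ := by rw [h1, h3, C_mul]

theorem thl_sub (k : Fin 12) (F : P3) : thl k (sub (al k) F) = th F := by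
  have h0 := odd_ne k
  have h : (thl k).comp (sub (al k)).toRingHom = th := by
    refine P3_hom_ext (fun r => ?_) ?_ ?_
    · rw [RingHom.comp_apply]
      change thl k (sub (al k) (C (C r))) = _
      rw [sub_C, thl_C]
    · rw [RingHom.comp_apply]
      change thl k (sub (al k) (C X)) = _
      rw [sub_C, thl_C]
    · rw [RingHom.comp_apply]
      change thl k (sub (al k) X) = _
      rw [sub_X, map_add, map_mul, thl_C, thl_C, th_bb, thl_X, ee, C_mul, map_mul, th_cc, th_zz, th_X]
      have h1 : (C ((al k).2) : ℂ[X]) = C (sc k) ^ 3 * C (1 + 2 * sc k)⁻¹ := by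
        rw [← C_pow, ← C_mul]; congr 1
      have h2 : (C (1 + 2 * sc k)⁻¹ : ℂ[X]) * (1 + 2 * C (sc k)) = 1 := by
        have : (1 + 2 * C (sc k) : ℂ[X]) = C (1 + 2 * sc k) := by
          rw [C_add, C_mul, C_1]; rfl
        rw [this, ← C_mul, inv_mul_cancel₀ h0, C_1]
      have h3 : C ((al k).2) * (1 + C 2 * X) + C (1 + 2 * sc k)⁻¹ * (X - C (sc k)) *
          (X ^ 2 + C (sc k) * X + C (sc k ^ 2) + C (2 * sc k) * X ^ 2 + C (2 * sc k ^ 2) * X) =
          (X : ℂ[X]) ^ 3 := by
        rw [h1]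
        have e : (C 2 : ℂ[X]) = 2 := rfl
        simp only [C_mul, C_pow, e]
        linear_combination (X ^ 3) * h2
      calc C (C (al k).2) * (C (1 + C 2 * X) * X) + C (C (1 + 2 * sc k)⁻¹) * C (X - C (sc k)) * X *
            C (X ^ 2 + C (sc k) * X + C (sc k ^ 2) + C (2 * sc k) * X ^ 2 + C (2 * sc k ^ 2) * X)
          = C (C ((al k).2) * (1 + C 2 * X) + C (1 + 2 * sc k)⁻¹ * (X - C (sc k)) *
          (X ^ 2 + C (sc k) * X + C (sc k ^ 2) + C (2 * sc k) * X ^ 2 + C (2 * sc k ^ 2) * X)) * X := by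
            simp only [C_add, C_mul]; ring
        _ = _ := by rw [h3]
  exact congrArg (fun φ : P3 →+* P2 => φ F) h

/-- divisibility of the restriction -/
theorem pow_dvd_th (k : Fin 12) (m n : ℕ) (F : P3)
    (h : C (bb (al k).1) ^ m ∣ C (bb (al k).1) ^ n * sub (al k) F) :
    C (X - C (sc k)) ^ (m - n) ∣ th F := by
  rcases le_or_gt m n with hmn | hmn
  · rw [Nat.sub_eq_zero_of_le hmn, pow_zero]
    exact one_dvd _
  · obtain ⟨c, rfl⟩ : ∃ c, m = n + c := ⟨m - n, by omega⟩
    rw [pow_add] at h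
    have h1 := (mul_dvd_mul_iff_left (pow_ne_zero n (Cbb_prime (al k).1).ne_zero)).mp h
    obtain ⟨G, hG⟩ := h1
    rw [Nat.add_sub_cancel_left, ← thl_sub k F, hG, map_mul, map_pow, thl_C, th_bb]
    have : (C (C (1 + 2 * sc k)⁻¹) * C (X - C (sc k)) * X) ^ c * thl k G =
        C (X - C (sc k)) ^ c * ((C (C (1 + 2 * sc k)⁻¹) * X) ^ c * thl k G) := by
      rw [mul_pow, mul_pow, mul_pow]; ring
    rw [this]
    exact dvd_mul_right _ _

/-! ### the degrees -/

/-- the coefficients of the restriction -/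
def degCond : Subring P2 where
  carrier := {G | ∀ d k, (G.coeff d).coeff k ≠ 0 → k ≤ 3 * d ∧ k + 1 ≠ 3 * d}
  mul_mem' := by
    intro f g hf hg d k h
    rw [coeff_mul, finsetSum_coeff] at h
    obtain ⟨x, hx, h1⟩ := Finset.exists_ne_zero_of_sum_ne_zero h
    rw [coeff_mul] at h1
    obtain ⟨y, hy, h2⟩ := Finset.exists_ne_zero_of_sum_ne_zero h1
    have h3 := hf x.1 y.1 (left_ne_zero_of_mul h2)
    have h4 := hg x.2 y.2 (right_ne_zero_of_mul h2)
    have h5 := Finset.HasAntidiagonal.mem_antidiagonal.mp hx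
    have h6 := Finset.HasAntidiagonal.mem_antidiagonal.mp hy
    omega
  one_mem' := by
    intro d k h
    rw [coeff_one] at h
    split_ifs at h with h1
    · rw [coeff_one] at h
      split_ifs at h with h2
      · omega
      · exact absurd rfl h
    · exact absurd (coeff_zero _) h
  add_mem' := by
    intro f g hf hg d k h
    rw [coeff_add, coeff_add] at h
    by_cases h1 : (f.coeff d).coeff k = 0
    · rw [h1, zero_add] at h
      exact hg d k h
    · exact hf d k h1
  zero_mem' := by
    intro d k h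
    exact absurd (by simp) h
  neg_mem' := by
    intro f hf d k h
    rw [coeff_neg, coeff_neg, neg_ne_zero] at h
    exact hf d k h

theorem monomial_mem_degCond (r : ℂ[X]) (d : ℕ) (h : ∀ k, r.coeff k ≠ 0 → k ≤ 3 * d ∧ k + 1 ≠ 3 * d) :
    C r * X ^ d ∈ degCond := by
  intro e k hk
  rw [coeff_C_mul_X_pow] at hk
  split_ifs at hk with h1
  · subst h1; exact h k hk
  · exact absurd (coeff_zero _) hk

theorem CC_mem_degCond (c : ℂ) : (C (C c) : P2) ∈ degCond := by
  have := monomial_mem_degCond (C c) 0 (by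
    intro k hk
    rw [coeff_C] at hk
    split_ifs at hk with h1
    · omega
    · exact absurd rfl hk)
  rwa [pow_zero, mul_one] at this

theorem th_mem_degCond (F : P3) : th F ∈ degCond := by
  have hz : (C (1 + C 2 * X) * X : P2) ∈ degCond := by
    have := monomial_mem_degCond (1 + C 2 * X) 1 (by
      intro k hk
      rw [coeff_add, coeff_one, coeff_C_mul, coeff_X] at hk
      split_ifs at hk with h1 h2 h2
      · omega
      · omega
      · omega
      · simp at hk)
    rwa [pow_one] at this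
  have hx : (C X * X : P2) ∈ degCond := by
    have := monomial_mem_degCond X 1 (by
      intro k hk
      rw [coeff_X] at hk
      split_ifs at hk with h1
      · omega
      · exact absurd rfl hk)
    rwa [pow_one] at this
  have hY : (C (X ^ 3) * X : P2) ∈ degCond := by
    have := monomial_mem_degCond (X ^ 3) 1 (by
      intro k hk
      rw [coeff_X_pow] at hk
      split_ifs at hk with h1
      · omega
      · exact absurd rfl hk)
    rwa [pow_one] at this
  have h1 : ∀ r : R1, th (C (C r)) ∈ degCond := by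
    intro r
    refine R1_induction (M := fun r => th (C (C r)) ∈ degCond) r ?_ ?_ ?_
    · intro c
      rw [th_CC, th1_kc]
      exact CC_mem_degCond c
    · intro a b ha hb
      rw [C_add, C_add, map_add]
      exact add_mem ha hb
    · intro n c h
      rw [pow_succ, ← mul_assoc, C_mul, C_mul, map_mul]
      refine mul_mem h ?_
      have : th (C (C vz)) = C (1 + C 2 * X) * X := by rw [th_CC, th1_vz]
      rw [this]
      exact hz
  have h2 : ∀ r : R2, th (C r) ∈ degCond := by
    intro r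
    induction r using Polynomial.induction_on with
    | C a => exact h1 a
    | add a b ha hb => rw [C_add, map_add]; exact add_mem ha hb
    | monomial n a h =>
      rw [pow_succ, ← mul_assoc, C_mul, map_mul, th_CX]
      exact mul_mem h hx
  induction F using Polynomial.induction_on with
  | C a => exact h2 a
  | add a b ha hb => rw [map_add]; exact add_mem ha hb
  | monomial n a h =>
    rw [pow_succ, ← mul_assoc, map_mul _ (C a * X ^ n), th_X]
    exact mul_mem h hY

end Pool.Agent.V5helper94.Kol
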