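import Pool.Agent.V5helper94.Kol.Center

/-!
# Upper bound for the pluricanonical forms on a localisation of the ring of the arrangement
-/

set_option linter.unusedSectionVars false
set_option linter.unusedVariables false
set_option linter.unusedSimpArgs false

namespace Pool.Agent.V5helper94.Kol

open Polynomial nonZeroDivisors

variable {ι : Type} [Fintype ι] [DecidableEq ι] (p q : ι → ℂ)
variable {K : Type} [Field K] [Algebra P3 K] [IsFractionRing P3 K] [Algebra ℂ K] [IsScalarTower ℂ P3 K]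

/-- the localisation of the ring of the arrangement at a prime, inside the field -/
noncomputable def AA (𝔭 : Ideal (BB p q K)) [𝔭.IsPrime] : Subalgebra (BB p q K) K :=
  Localization.subalgebra.ofField K 𝔭.primeCompl 𝔭.primeCompl_le_nonZeroDivisors

section AAlemmas

variable (𝔭 : Ideal (BB p q K)) [𝔭.IsPrime]

theorem mem_AA {g : K} : g ∈ AA p q 𝔭 ↔ ∃ a s : BB p q K, s ∉ 𝔭 ∧ g * s = a := by
  constructor
  · rintro ⟨a, s, hs, rfl⟩
    have hs0 : (s : K) ≠ 0 := fun h0 => hs (by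
      have : s = 0 := Subtype.ext h0
      rw [this]; exact 𝔭.zero_mem)
    refine ⟨a, s, hs, ?_⟩
    change (a : K) * (s : K)⁻¹ * s = a
    field_simp
  · rintro ⟨a, s, hs, e⟩
    have hs0 : (s : K) ≠ 0 := fun h0 => hs (by
      have : s = 0 := Subtype.ext h0
      rw [this]; exact 𝔭.zero_mem)
    refine ⟨a, s, hs, ?_⟩
    change g = (a : K) * (s : K)⁻¹
    rw [← e]
    field_simp

theorem BB_le_AA {g : K} (h : g ∈ BB p q K) : g ∈ AA p q 𝔭 :=
  (AA p q 𝔭).algebraMap_mem ⟨g, h⟩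

/-- elements of the ring in the localisation -/
noncomputable def toAA (g : BB p q K) : AA p q 𝔭 := ⟨g.1, BB_le_AA p q 𝔭 g.2⟩

/-- inverses -/
theorem inv_mem_AA {s : BB p q K} (hs : s ∉ 𝔭) : (s : K)⁻¹ ∈ AA p q 𝔭 := by
  have hs0 : (s : K) ≠ 0 := fun h0 => hs (by
    have : s = 0 := Subtype.ext h0
    rw [this]; exact 𝔭.zero_mem)
  refine (mem_AA p q 𝔭).mpr ⟨1, s, hs, ?_⟩
  rw [inv_mul_cancel₀ hs0]; rfl

theorem AA_inj : Function.Injective (algebraMap (AA p q 𝔭) K) := Subtype.val_injective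

instance AA_isFractionRing : IsFractionRing (AA p q 𝔭) K :=
  Localization.subalgebra.isFractionRing_ofField K _ _

end AAlemmas

theorem disc_locAt {h : P3} (hh : Prime h) (g : K) (hg : g ≠ 0) :
    ∃ m : ℕ, g * (em K h ^ m)⁻¹ ∉ locAt K h hh := by
  obtain ⟨F, G, hG, e⟩ := IsFractionRing.div_surjective P3 g
  have hG0 : em K G ≠ 0 := em_ne_zero (nonZeroDivisors.ne_zero hG)
  have hF0 : F ≠ 0 := by
    rintro rfl
    rw [map_zero, zero_div] at e
    exact hg e.symm
  obtain ⟨m, hm⟩ := FiniteMultiplicity.of_not_isUnit hh.not_isUnit hF0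
  refine ⟨m + 1, fun hmem => hm ?_⟩
  rw [← mul_mem_locAt_iff (K := K) (hh := hh)]
  have h2 := Subalgebra.mul_mem _ hmem (Subalgebra.algebraMap_mem _ G)
  convert h2 using 1
  rw [← e]
  change _ = em K F / em K G * (em K h ^ (m + 1))⁻¹ * em K G
  field_simp

theorem not_mul_inv_mem {h : P3} (hh : Prime h) {G : P3} (hG : ¬ h ∣ G) :
    em K G * (em K h)⁻¹ ∉ locAt K h hh := by
  intro hm
  have := (mul_mem_locAt_iff (K := K) (hh := hh) 1 G).mp (by rw [pow_one]; exact hm)
  rw [pow_one] at this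
  exact hG this

theorem isCentered_h (𝔭 : Ideal (BB p q K)) [𝔭.IsPrime] {h : P3} (hh : Prime h)
    (hle : ∀ a : AA p q 𝔭, (a : K) ∈ locAt K h hh) :
    IsCentered (K := K) (AA p q 𝔭) (locAt K h hh).toSubring (toAA p q 𝔭 ⟨em K h, em_mem p q h⟩) where
  inj := AA_inj p q 𝔭
  le := hle
  ne := fun h0 => em_ne_zero (K := K) hh.ne_zero (congrArg Subtype.val h0)
  inv := fun g hg hn => inv_mem_of_not_mul hg hn
  prime := fun g hg g' hg' hm => mul_inv_prime hg hg' hm
  unit := inv_h_not_mem (hh := hh)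
  disc := fun g hg => disc_locAt hh g hg
  gen := by
    intro g hg
    obtain ⟨F, G, hG, e⟩ := mem_locAt'.mp hg
    exact ⟨toAA p q 𝔭 ⟨em K F, em_mem p q F⟩, toAA p q 𝔭 ⟨em K G, em_mem p q G⟩,
      not_mul_inv_mem hh hG, e⟩

/-! ### the exceptional divisors -/

section exc

variable {p q} in
theorem exists_gen (hp : Function.Injective p) {α : ℂ × ℂ} (hα : α ∈ pts p q) :
    ∃ N ∈ BB p q K, (hsub α N ∈ LL K α.1) ∧ (hsub α N)⁻¹ ∈ LL K α.1 ∧ N ≠ 0 ∧
      ∃ Y' : K, hsub α Y' = em K X ∧ N * Y' ∈ BB p q K := by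
  obtain ⟨i, j, hij, hi, hj⟩ := (mem_pts p q hp).mp hα
  have hl0 : ∀ l, em K (lf p q l) ≠ 0 := fun l => em_ne_zero (lf_ne_zero p q l)
  have hb0 : em K (C (bb α.1)) ≠ 0 := em_ne_zero (Cbb_prime _).ne_zero
  have hlfj : lf p q j = lf p q i + C (cc (p j - p i)) * C (bb α.1) := by
    rw [lf_eq p q hi, lf_eq p q hj, cc_sub, C_sub]; ring
  have hw := offP_mul_mem p q (K := K) hp hα hi (lf p q j) (by
    rw [sub_lf_on p q hj]; exact dvd_mul_right _ _)
  set κ : P3 := C (cc (p j - p i)) with hκ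
  have hκu : IsUnit κ := (cc_isUnit (sub_ne_zero.mpr fun h => hij (hp h).symm)).map C
  set N : K := em K (offP p q α) * (em K (lf p q j) * (em K (lf p q i))⁻¹) - em K (offP p q α) with hN
  have hNmem : N ∈ BB p q K := sub_mem hw (em_mem p q _)
  have hN2 : N = em K (offP p q α) * em K κ * em K (C (bb α.1)) * (em K (lf p q i))⁻¹ := by
    rw [hN, hlfj, map_add, map_mul]
    have := hl0 i
    field_simp
    ring
  have hX0 : em K (X + C (cc (p i))) ≠ 0 :=
    em_ne_zero fun h0 => not_Cbb_dvd_lin 0 (p i) (h0 ▸ dvd_zero _)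
  have hN3 : hsub α N = em K (sub α (offP p q α)) * em K κ * (em K (X + C (cc (p i))))⁻¹ := by
    rw [hN2, map_mul, map_mul, map_mul, map_inv₀, hsub_em, hsub_em, hsub_em, hsub_em, sub_C,
      sub_lf_on p q hi, hκ, sub_C, map_mul (em K) (C (bb α.1))]
    field_simp
  have hoff : ¬ C (bb α.1) ∣ sub α (offP p q α) := by
    classical
    unfold offP
    rw [map_prod]
    intro h
    obtain ⟨l, hl, hl2⟩ := (Cbb_prime α.1).dvd_finsetProd_iff _ |>.mp h
    simp only [Finset.mem_filter, Finset.mem_univ, true_and] at hl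
    exact sub_lf_off p q hl hl2
  have hκd : ¬ C (bb α.1) ∣ κ := fun h => (Cbb_prime α.1).not_isUnit (isUnit_of_dvd_unit h hκu)
  have hκ0 : em K κ ≠ 0 := em_ne_zero hκu.ne_zero
  have hN0 : N ≠ 0 := by
    rw [hN2]
    exact mul_ne_zero (mul_ne_zero (mul_ne_zero (em_ne_zero (offP_ne_zero p q α)) hκ0) hb0)
      (inv_ne_zero (hl0 i))
  refine ⟨N, hNmem, ?_, ?_, hN0, (em K X - em K (C (ee α.2))) * (em K (C (bb α.1)))⁻¹, ?_, ?_⟩
  · rw [hN3, ← map_mul]
    exact Subalgebra.mul_mem _ (Subalgebra.algebraMap_mem _ _) (inv_mem_locAt (not_Cbb_dvd_lin _ _))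
  · rw [hN3, mul_inv, mul_inv, inv_inv]
    exact Subalgebra.mul_mem _ (Subalgebra.mul_mem _ (inv_mem_locAt hoff) (inv_mem_locAt hκd))
      (Subalgebra.algebraMap_mem _ _)
  · rw [map_mul, map_inv₀, map_sub, hsub_em, hsub_em, hsub_em, sub_X, sub_C, sub_C, map_add,
      add_sub_cancel_left, map_mul]
    field_simp
  · have hX : em K X - em K (C (ee α.2)) = em K (lf p q i) - em K (C (cc (p i))) * em K (C (bb α.1)) := by
      rw [← map_sub, ← map_mul, ← map_sub, lf_eq p q hi]; congr 1; ring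
    have : N * ((em K X - em K (C (ee α.2))) * (em K (C (bb α.1)))⁻¹) =
        em K (offP p q α * κ) - em K (C (cc (p i))) * N := by
      rw [hX, hN2, map_mul]
      have := hl0 i
      field_simp
    rw [this]
    exact sub_mem (em_mem p q _) (mul_mem (em_mem p q _) hNmem)

variable {p q} in
theorem exists_lift (hp : Function.Injective p) {α : ℂ × ℂ} (hα : α ∈ pts p q) :
    ∃ N ∈ BB p q K, (hsub α N)⁻¹ ∈ LL K α.1 ∧ N ≠ 0 ∧
      ∀ F : P3, ∃ g : K, hsub α g = em K F ∧ ∃ d : ℕ, N ^ d * g ∈ BB p q K := by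
  obtain ⟨N, hN1, hN2, hN3, hN4, Y', hY1, hY2⟩ := exists_gen (K := K) hp hα
  refine ⟨N, hN1, hN3, hN4, ?_⟩
  intro F
  induction F using Polynomial.induction_on with
  | C r => exact ⟨em K (C r), by rw [hsub_em, sub_C], 0, by rw [pow_zero, one_mul]; exact em_mem p q _⟩
  | add F G hF hG =>
    obtain ⟨g, hg, d, hd⟩ := hF
    obtain ⟨g', hg', d', hd'⟩ := hG
    refine ⟨g + g', by rw [map_add, map_add, hg, hg'], d + d', ?_⟩
    have : N ^ (d + d') * (g + g') = N ^ d' * (N ^ d * g) + N ^ d * (N ^ d' * g') := by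
      rw [pow_add]; ring
    rw [this]
    exact add_mem (mul_mem (pow_mem hN1 _) hd) (mul_mem (pow_mem hN1 _) hd')
  | monomial n r h =>
    obtain ⟨g, hg, d, hd⟩ := h
    refine ⟨g * Y', ?_, d + 1, ?_⟩
    · rw [map_mul, hg, hY1, ← map_mul, pow_succ, mul_assoc]
    · have : N ^ (d + 1) * (g * Y') = (N ^ d * g) * (N * Y') := by rw [pow_succ]; ring
      rw [this]
      exact mul_mem hd hY2

theorem hsub_bb (α : ℂ × ℂ) : hsub α (em K (C (bb α.1))) = em K (C (bb α.1)) := by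
  rw [hsub_em, sub_C]

omit [Algebra ℂ K] [IsScalarTower ℂ P3 K] in
theorem hsub_injective (α : ℂ × ℂ) : Function.Injective (hsub (K := K) α) := (hsub (K := K) α).injective

variable (K) in
/-- the valuation ring of the exceptional divisor over `α` -/
noncomputable def VV (α : ℂ × ℂ) : Subring K := (LL K α.1).toSubring.comap (hsub α)

theorem mem_VV {α : ℂ × ℂ} {g : K} : g ∈ VV K α ↔ hsub α g ∈ LL K α.1 := Iff.rfl

theorem mem_VV_div {α : ℂ × ℂ} {g : K} :
    g * (em K (C (bb α.1)))⁻¹ ∈ VV K α ↔ hsub α g * (em K (C (bb α.1)))⁻¹ ∈ LL K α.1 := by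
  rw [mem_VV, map_mul, map_inv₀, hsub_bb]

theorem isCentered_α (hp : Function.Injective p) (𝔭 : Ideal (BB p q K)) [𝔭.IsPrime] {α : ℂ × ℂ}
    (hα : α ∈ pts p q) (hle : ∀ a : AA p q 𝔭, (a : K) ∈ VV K α) :
    IsCentered (K := K) (AA p q 𝔭) (VV K α) (toAA p q 𝔭 ⟨em K (C (bb α.1)), em_mem p q _⟩) where
  inj := AA_inj p q 𝔭
  le := hle
  ne := fun h0 => em_ne_zero (K := K) (Cbb_prime α.1).ne_zero (congrArg Subtype.val h0)
  inv := by
    intro g hg hn
    change g * (em K (C (bb α.1)))⁻¹ ∉ VV K α at hn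
    rw [mem_VV_div] at hn
    rw [mem_VV, map_inv₀]
    exact inv_mem_of_not_mul hg hn
  prime := by
    intro g hg g' hg' hm
    change g * g' * (em K (C (bb α.1)))⁻¹ ∈ VV K α at hm
    rw [mem_VV_div, map_mul] at hm
    change g * (em K (C (bb α.1)))⁻¹ ∈ VV K α ∨ g' * (em K (C (bb α.1)))⁻¹ ∈ VV K α
    rw [mem_VV_div, mem_VV_div]
    exact mul_inv_prime hg hg' hm
  unit := by
    change (em K (C (bb α.1)))⁻¹ ∉ VV K α
    rw [mem_VV, map_inv₀, hsub_bb]
    exact inv_h_not_mem (hh := Cbb_prime α.1)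
  disc := by
    intro g hg
    obtain ⟨m, hm⟩ := disc_locAt (K := K) (Cbb_prime α.1) (hsub α g) ((_root_.map_ne_zero (hsub α)).mpr hg)
    refine ⟨m, ?_⟩
    change g * (em K (C (bb α.1)) ^ m)⁻¹ ∉ VV K α
    rw [mem_VV, map_mul, map_inv₀, map_pow, hsub_bb]
    exact hm
  gen := by
    intro g hg
    obtain ⟨N, hN1, hN2, hN0, hN⟩ := exists_lift (K := K) hp hα
    obtain ⟨F, G, hG, e⟩ := mem_locAt'.mp hg
    change hsub α g * em K G = em K F at e
    obtain ⟨g1, hg1, d, hd⟩ := hN F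
    obtain ⟨g2, hg2, d', hd'⟩ := hN G
    have hb0 : em K (C (bb α.1)) ≠ 0 := em_ne_zero (Cbb_prime _).ne_zero
    have e2 : g * g2 = g1 := by
      apply hsub_injective α
      rw [map_mul, hg1, hg2, e]
    refine ⟨toAA p q 𝔭 ⟨N ^ d' * (N ^ d * g1), mul_mem (pow_mem hN1 _) hd⟩,
      toAA p q 𝔭 ⟨N ^ d * (N ^ d' * g2), mul_mem (pow_mem hN1 _) hd'⟩, ?_, ?_⟩
    · change N ^ d * (N ^ d' * g2) * (em K (C (bb α.1)))⁻¹ ∉ VV K α
      rw [mem_VV_div]
      intro hm
      have hNu : hsub α N ≠ 0 := (_root_.map_ne_zero (hsub α)).mpr hN0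
      have h1 := Subalgebra.mul_mem _ (Subalgebra.pow_mem _ hN2 (d + d')) hm
      have h2 : (hsub α N)⁻¹ ^ (d + d') * (hsub α (N ^ d * (N ^ d' * g2)) * (em K (C (bb α.1)))⁻¹) =
          em K G * (em K (C (bb α.1)))⁻¹ := by
        rw [map_mul, map_mul, map_pow, map_pow, hg2, inv_pow, pow_add]
        field_simp
      rw [h2] at h1
      exact not_mul_inv_mem (Cbb_prime α.1) hG h1
    · change g * (N ^ d * (N ^ d' * g2)) = N ^ d' * (N ^ d * g1)
      rw [← e2]; ring

/-- the substitution as an automorphism of the field -/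
theorem hsub_surjective (hp : Function.Injective p) {α : ℂ × ℂ} (hα : α ∈ pts p q) :
    Function.Surjective (hsub (K := K) α) := by
  obtain ⟨N, hN1, hN2, hN0, hN⟩ := exists_lift (K := K) hp hα
  intro g
  obtain ⟨F, G, hG, e⟩ := IsFractionRing.div_surjective P3 g
  obtain ⟨g1, hg1, _⟩ := hN F
  obtain ⟨g2, hg2, _⟩ := hN G
  exact ⟨g1 / g2, by rw [map_div₀, hg1, hg2]; exact e⟩

/-- the substitution as an automorphism over the complex numbers -/
noncomputable def hsubE (hp : Function.Injective p) {α : ℂ × ℂ} (hα : α ∈ pts p q) : K ≃ₐ[ℂ] K :=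
  AlgEquiv.ofBijective
    { hsub (K := K) α with
      commutes' := fun c => by
        change hsub α (algebraMap ℂ K c) = _
        rw [algebraMap_cc, hsub_em, sub_C] }
    ⟨hsub_injective α, hsub_surjective p q hp hα⟩

theorem hsubE_apply (hp : Function.Injective p) {α : ℂ × ℂ} (hα : α ∈ pts p q) (g : K) :
    hsubE p q hp hα g = hsub α g := rfl

variable (K) in
/-- the basic three-form `dz ∧ dx ∧ dY` -/
noncomputable def om : ⋀[K]^3 (Ω[K⁄ℂ]) := wd (em K (C zz)) (em K (C X)) (em K X)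

variable (K) in
/-- the three coordinate derivations -/
noncomputable def DD : Fin 3 → Derivation ℂ K K := ![extD K dz, extD K dx, extD K dY]

theorem evalForm_DD : evalForm (DD K) (om K) = 1 := by
  rw [om, evalForm_wd, Matrix.det_fin_three]
  simp only [DD, Matrix.of_apply, Matrix.cons_val_zero, Matrix.cons_val_one, Matrix.cons_val,
    extD_apply, dz_Cz, dz_CX, dz_X, dx_C, dx'_X, dx_X, dY_X, dY_C, map_one, map_zero, C_1]
  ring

theorem om_ne_zero : om K ≠ 0 := by
  intro h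
  have := evalForm_DD (K := K)
  rw [h, map_zero] at this
  exact zero_ne_one this

/-- derivations adapted to the exceptional divisor -/
noncomputable def DE (hp : Function.Injective p) {α : ℂ × ℂ} (hα : α ∈ pts p q) :
    Fin 3 → Derivation ℂ K K := fun i => conjD (hsubE p q hp hα) (DD K i)

theorem hsub_DE (hp : Function.Injective p) {α : ℂ × ℂ} (hα : α ∈ pts p q) (i : Fin 3) (g : K) :
    hsub α (DE p q hp hα i g) = DD K i (hsub α g) := conjD_apply (hsubE p q hp hα) (DD K i) g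

theorem DD_locAt {h : P3} (hh : Prime h) (i : Fin 3) (g : K) (hg : g ∈ locAt K h hh) :
    DD K i g ∈ locAt K h hh := by
  fin_cases i
  · exact extD_locAt _ hh hg
  · exact extD_locAt _ hh hg
  · exact extD_locAt _ hh hg

theorem evalForm_DE (hp : Function.Injective p) {α : ℂ × ℂ} (hα : α ∈ pts p q) :
    evalForm (DE p q hp hα) (om K) = em K (C (bb α.1)) := by
  apply hsub_injective α
  rw [om, evalForm_wd, Matrix.det_fin_three, hsub_bb]
  simp only [Matrix.of_apply, Matrix.cons_val_zero, Matrix.cons_val_one, Matrix.cons_val, map_add,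
    map_sub, map_mul, hsub_DE, hsub_em, sub_C, sub_X, DD]
  simp only [Derivation.leibniz, map_add, ← map_mul, extD_apply, dz_Cz, dz_CX, dz_X, dx_C, dx'_X, dx_X, dY_X, dY_C,
    map_one, map_zero, C_1, Matrix.cons_val_zero, Matrix.cons_val_one, Matrix.cons_val]
  have h1 : dx' zz = 0 := dx'_C _
  simp [h1]

end exc

end Pool.Agent.V5helper94.Kol
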