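import Pool.Agent.V5helper94.Kol.Upper

/-!
# Upper bound for the pluricanonical forms: the main statement
-/

set_option linter.unusedSectionVars false
set_option linter.unusedVariables false
set_option linter.unusedSimpArgs false

namespace Pool.Agent.V5helper94.Kol

open Polynomial nonZeroDivisors

variable {ι : Type} [Fintype ι] [DecidableEq ι] (p q : ι → ℂ)
variable {K : Type} [Field K] [Algebra P3 K] [IsFractionRing P3 K] [Algebra ℂ K] [IsScalarTower ℂ P3 K]

theorem upper_exc (hp : Function.Injective p) (𝔭 : Ideal (BB p q K)) [𝔭.IsPrime] {α : ℂ × ℂ}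
    (hα : α ∈ pts p q)
    (hcen : ∀ g : BB p q K, hsub α (g : K) * (em K (C (bb α.1)))⁻¹ ∈ LL K α.1 → g ∈ 𝔭) (n : ℕ) {f : K}
    (hf : f ∈ pluriForms (AA p q 𝔭) (om K) n) :
    em K (C (bb α.1)) ^ n * hsub α f ∈ LL K α.1 := by
  have hle : ∀ a : AA p q 𝔭, (a : K) ∈ VV K α := by
    intro a
    obtain ⟨g, s, hs, e⟩ := (mem_AA p q 𝔭).mp a.2
    have hs0 : (s : K) ≠ 0 := fun h0 => hs (by
      have : s = 0 := Subtype.ext h0
      rw [this]; exact 𝔭.zero_mem)
    have h1 : (hsub α (s : K))⁻¹ ∈ LL K α.1 :=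
      inv_mem_of_not_mul (s.2.2 α hα) (fun h => hs (hcen s h))
    have h2 : (a : K) = g * (s : K)⁻¹ := by rw [← e]; field_simp
    rw [h2, mem_VV, map_mul, map_inv₀]
    exact Subalgebra.mul_mem _ (g.2.2 α hα) h1
  have h1 := pluri_upper (isCentered_α p q hp 𝔭 hα hle) (DE p q hp hα) (by
    intro i g hg
    rw [mem_VV, hsub_DE]
    exact DD_locAt _ i _ hg) (om K) n hf
  rw [evalForm_DE, mem_VV, map_mul, map_pow, hsub_bb, mul_comm] at h1
  exact h1

theorem away_le_locAt {h : P3} (hh : Prime h) (hd : ¬ h ∣ PP p q) {g : K}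
    (hg : g ∈ awayAt K (PP p q) (PP_ne_zero p q)) : g ∈ locAt K h hh := by
  obtain ⟨F, n, e⟩ := mem_awayAt.mp hg
  exact mem_locAt'.mpr ⟨F, PP p q ^ n, fun h1 => hd (hh.dvd_of_dvd_pow h1), by rw [map_pow]; exact e⟩

theorem inv_mem_away {h : P3} (hd : h ∣ PP p q) : (em K h)⁻¹ ∈ awayAt K (PP p q) (PP_ne_zero p q) := by
  obtain ⟨G, hG⟩ := hd
  have hh0 : h ≠ 0 := fun h0 => PP_ne_zero p q (by rw [hG, h0, zero_mul])
  refine mem_awayAt.mpr ⟨G, 1, ?_⟩
  have := em_ne_zero (K := K) hh0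
  rw [pow_one, hG, map_mul]
  change (em K h)⁻¹ * (em K h * em K G) = em K G
  field_simp

/-- dividing by a prime -/
theorem div_mem_away {h : P3} (hh : Prime h) (hd : ¬ h ∣ PP p q) {g : K}
    (hg : g * em K h ∈ awayAt K (PP p q) (PP_ne_zero p q)) (hl : g ∈ locAt K h hh) :
    g ∈ awayAt K (PP p q) (PP_ne_zero p q) := by
  obtain ⟨F, n, e⟩ := mem_awayAt.mp hg
  change g * em K h * em K (PP p q) ^ n = em K F at e
  have hh0 := em_ne_zero (K := K) hh.ne_zero
  have h1 : em K F * (em K h ^ 1)⁻¹ ∈ locAt K h hh := by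
    rw [← e, pow_one]
    have : g * em K h * em K (PP p q) ^ n * (em K h)⁻¹ = g * em K (PP p q ^ n) := by
      rw [map_pow]; field_simp
    rw [this]
    exact Subalgebra.mul_mem _ hl (Subalgebra.algebraMap_mem _ _)
  obtain ⟨E, hE⟩ := (mul_mem_locAt_iff (K := K) (hh := hh) 1 F).mp h1
  refine mem_awayAt.mpr ⟨E, n, ?_⟩
  change g * em K (PP p q) ^ n = em K E
  apply mul_right_cancel₀ hh0
  rw [mul_right_comm, e, hE, pow_one, map_mul, mul_comm]

theorem upper_away (hp : Function.Injective p) (𝔭 : Ideal (BB p q K)) [𝔭.IsPrime] (n : ℕ) (G : P3) :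
    G ≠ 0 → ∀ f : K, f ∈ pluriForms (AA p q 𝔭) (om K) n →
    f * em K G ∈ awayAt K (PP p q) (PP_ne_zero p q) →
    ∃ s : BB p q K, s ∉ 𝔭 ∧ (s : K) * f ∈ awayAt K (PP p q) (PP_ne_zero p q) := by
  have hsmul : ∀ (g : BB p q K) (f : K), f ∈ pluriForms (AA p q 𝔭) (om K) n →
      (g : K) * f ∈ pluriForms (AA p q 𝔭) (om K) n := by
    intro g f hf
    have := Submodule.smul_mem _ (toAA p q 𝔭 g) hf
    rwa [Algebra.smul_def] at this
  induction G using UniqueFactorizationMonoid.induction_on_prime with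
  | h₁ => intro h0; exact absurd rfl h0
  | h₂ u hu =>
    intro _ f hf hfG
    refine ⟨1, fun h => ‹𝔭.IsPrime›.ne_top ((Ideal.eq_top_iff_one _).mpr h), ?_⟩
    obtain ⟨v, hv⟩ := hu.exists_right_inv
    have : ((1 : BB p q K) : K) * f = f * em K u * em K v := by
      rw [mul_assoc, ← map_mul, hv, map_one, mul_one]
      change (1 : K) * f = f
      rw [one_mul]
    rw [this]
    exact mul_mem hfG (Subalgebra.algebraMap_mem _ _)
  | h₃ G h hG0 hh ih =>
    intro _ f hf hfG
    have hG' : G ≠ 0 := hG0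
    have hh0 := em_ne_zero (K := K) hh.ne_zero
    have hf' : f * em K G ∈ pluriForms (AA p q 𝔭) (om K) n := by
      rw [mul_comm]
      exact hsmul ⟨em K G, em_mem p q G⟩ f hf
    have hf'' : f * em K G * em K h ∈ awayAt K (PP p q) (PP_ne_zero p q) := by
      rw [map_mul] at hfG
      have : f * em K G * em K h = f * (em K h * em K G) := by ring
      rw [this]
      exact hfG
    by_cases hd : h ∣ PP p q
    · refine ih hG' f hf ?_
      have : f * em K G = f * em K G * em K h * (em K h)⁻¹ := by field_simp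
      rw [this]
      exact mul_mem hf'' (inv_mem_away p q hd)
    · by_cases hs : ∃ s : BB p q K, s ∉ 𝔭 ∧ (s : K) * (em K h)⁻¹ ∈ locAt K h hh
      · obtain ⟨s, hs1, hs2⟩ := hs
        have h3 : (s : K) * f * em K G ∈ awayAt K (PP p q) (PP_ne_zero p q) := by
          have h4 : (s : K) * (em K h)⁻¹ ∈ awayAt K (PP p q) (PP_ne_zero p q) := by
            refine div_mem_away p q hh hd ?_ hs2
            have : (s : K) * (em K h)⁻¹ * em K h = s := by field_simp
            rw [this]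
            exact s.2.1
          have : (s : K) * f * em K G = (s : K) * (em K h)⁻¹ * (f * em K G * em K h) := by
            field_simp
          rw [this]
          exact mul_mem h4 hf''
        obtain ⟨s', hs', hs''⟩ := ih hG' _ (hsmul s f hf) h3
        refine ⟨s' * s, fun h => (‹𝔭.IsPrime›.mem_or_mem h).elim hs' hs1, ?_⟩
        have : ((s' * s : BB p q K) : K) * f = (s' : K) * ((s : K) * f) := by
          change (s' : K) * (s : K) * f = _
          ring
        rw [this]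
        exact hs''
      · push Not at hs
        have hle : ∀ a : AA p q 𝔭, (a : K) ∈ locAt K h hh := by
          intro a
          obtain ⟨g, s, hs1, e⟩ := (mem_AA p q 𝔭).mp a.2
          have hs0 : (s : K) ≠ 0 := fun h0 => hs1 (by
            have : s = 0 := Subtype.ext h0
            rw [this]; exact 𝔭.zero_mem)
          have h1 : (s : K)⁻¹ ∈ locAt K h hh :=
            inv_mem_of_not_mul (away_le_locAt p q hh hd s.2.1) (hs s hs1)
          have h2 : (a : K) = g * (s : K)⁻¹ := by rw [← e]; field_simp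
          rw [h2]
          exact mul_mem (away_le_locAt p q hh hd g.2.1) h1
        have h1 := pluri_upper (isCentered_h p q 𝔭 hh hle) (DD K)
          (fun i g hg => DD_locAt hh i g hg) (om K) n hf'
        rw [evalForm_DD, one_pow, mul_one] at h1
        exact ih hG' f hf (div_mem_away p q hh hd hf'' h1)

theorem upper_main (hp : Function.Injective p) (𝔭 : Ideal (BB p q K)) [𝔭.IsPrime]
    (Q : Set (ℂ × ℂ)) (hQ : ∀ α ∈ Q, α ∈ pts p q)
    (hcen : ∀ α ∈ Q, ∀ g : BB p q K, hsub α (g : K) * (em K (C (bb α.1)))⁻¹ ∈ LL K α.1 → g ∈ 𝔭) (n : ℕ)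
    {f : K} (hf : f ∈ pluriForms (AA p q 𝔭) (om K) n) :
    ∃ s : BB p q K, s ∉ 𝔭 ∧ (s : K) * f ∈ awayAt K (PP p q) (PP_ne_zero p q) ∧
      ∀ α ∈ Q, em K (C (bb α.1)) ^ n * hsub α ((s : K) * f) ∈ LL K α.1 := by
  obtain ⟨F, G, hG, e⟩ := IsFractionRing.div_surjective P3 f
  have hG0 : em K G ≠ 0 := em_ne_zero (nonZeroDivisors.ne_zero hG)
  obtain ⟨s, hs, hsf⟩ := upper_away p q hp 𝔭 n G (nonZeroDivisors.ne_zero hG) f hf (by
    rw [← e]
    change em K F / em K G * em K G ∈ _
    rw [div_mul_cancel₀ _ hG0]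
    exact Subalgebra.algebraMap_mem _ _)
  refine ⟨s, hs, hsf, fun α hα => ?_⟩
  have h1 := upper_exc p q hp 𝔭 (hQ α hα) (hcen α hα) n hf
  have : em K (C (bb α.1)) ^ n * hsub α ((s : K) * f) =
      hsub α (s : K) * (em K (C (bb α.1)) ^ n * hsub α f) := by rw [map_mul]; ring
  rw [this]
  exact Subalgebra.mul_mem _ (s.2.2 α (hQ α hα)) h1

end Pool.Agent.V5helper94.Kol
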