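import Pool.Agent.V5helper94.Kol.PartB
import Pool.Agent.V5helper94.Kol.Upper2
import Pool.Agent.V5helper94.Kol.Lower
import Pool.Agent.V5helper94.Kol.PartA

/-!
# The vertex of the special ring
-/

set_option linter.unusedSectionVars false
set_option linter.unusedVariables false
set_option linter.unusedSimpArgs false

namespace Pool.Agent.V5helper94.Kol

open Polynomial

variable {K : Type} [Field K] [Algebra P3 K] [IsFractionRing P3 K] [Algebra ℂ K] [IsScalarTower ℂ P3 K]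

theorem den_const (N : ℕ) : den pc qc (fun _ => N) = PP pc qc ^ N := by
  unfold den PP
  rw [Finset.prod_pow]
  rfl

theorem PPK_ne_zero : em K (PP pc qc) ≠ 0 := em_ne_zero (PP_ne_zero pc qc)

theorem repr_div {g : K} {F : P3} {N : ℕ} (e : g * em K (PP pc qc) ^ N = em K F) :
    g = em K F * (em K (den pc qc (fun _ => N)))⁻¹ := by
  have h0 : em K (PP pc qc) ^ N ≠ 0 := pow_ne_zero _ PPK_ne_zero
  rw [den_const, map_pow, ← e, mul_assoc, mul_inv_cancel₀ h0, mul_one]

/-- the numerators and the curve of vertices -/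
theorem key {g : K} {n : ℕ} (hg1 : g ∈ awayAt K (PP pc qc) (PP_ne_zero pc qc))
    (hg2 : ∀ k, em K (C (bb (al k).1)) ^ n * hsub (al k) g ∈ LL K (al k).1) :
    ∃ (N : ℕ) (F : P3), n ≤ N ∧ g * em K (PP pc qc) ^ N = em K F ∧
      (∀ k, C (bb (al k).1) ^ (mz k * N) ∣ C (bb (al k).1) ^ n * sub (al k) F) ∧
      (∀ d, d < 14 * N - 4 * n → (th F).coeff d = 0) ∧
      ∃ c : ℂ, (th F).coeff (14 * N - 4 * n) = C c * DN N n ∧ (1 ≤ n → c = 0) := by
  obtain ⟨F, N, e⟩ := mem_awayAt.mp hg1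
  have e2 : g * em K (PP pc qc) ^ (N + n) = em K (F * PP pc qc ^ n) := by
    rw [map_mul, map_pow, ← e, pow_add]
    change g * (em K (PP pc qc) ^ N * em K (PP pc qc) ^ n) = g * em K (PP pc qc) ^ N * em K (PP pc qc) ^ n
    ring
  have h : ∀ k, C (bb (al k).1) ^ (mz k * (N + n)) ∣ C (bb (al k).1) ^ n * sub (al k) (F * PP pc qc ^ n) := by
    intro k
    have h1 := hg2 k
    rw [repr_div e2, hsub_div_mem_iff, ← Finset.sum_mul, sum_mu_al] at h1
    exact h1
  exact ⟨N + n, F * PP pc qc ^ n, Nat.le_add_left _ _, e2, h, partA (Nat.le_add_left _ _) h⟩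

/-- elements of the ring -/
theorem key0 {g : K} (hg : g ∈ BB pc qc K) :
    ∃ (N : ℕ) (F : P3), g * em K (PP pc qc) ^ N = em K F ∧
      (∀ k, C (bb (al k).1) ^ (mz k * N) ∣ sub (al k) F) ∧
      (∀ d, d < 14 * N → (th F).coeff d = 0) ∧
      ∃ c : ℂ, (th F).coeff (14 * N) = C c * DP ^ N := by
  obtain ⟨N, F, _, e, h1, h2, c, h3, _⟩ := key (n := 0) hg.1 (fun k => by
    rw [pow_zero, one_mul]; exact hg.2 _ (al_mem_pts k))
  refine ⟨N, F, e, fun k => ?_, fun d hd => h2 d (by omega), c, ?_⟩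
  · have := h1 k
    rwa [pow_zero, one_mul] at this
  · rw [DN_zero] at h3
    exact h3

theorem X_pow_dvd_th {F : P3} {N : ℕ} (h : ∀ d, d < N → (th F).coeff d = 0) : X ^ N ∣ th F :=
  X_pow_dvd_iff.mpr h

theorem th_PP_pow (N : ℕ) : th (PP pc qc ^ N) = C (DP ^ N) * X ^ (14 * N) := by
  rw [map_pow, th_PP, mul_pow, ← pow_mul, C_pow]

theorem DPN_ne (N : ℕ) : DP ^ N ≠ 0 := pow_ne_zero _ DP_ne_zero

variable (K) in
/-- the ideal of the vertex -/
noncomputable def vtx : Ideal (BB pc qc K) where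
  carrier := {g | ∃ (F : P3) (N : ℕ), (g : K) * em K (PP pc qc) ^ N = em K F ∧ X ^ (14 * N + 1) ∣ th F}
  zero_mem' := ⟨0, 0, by simp, by simp⟩
  add_mem' := by
    rintro g g' ⟨F, N, e, h⟩ ⟨F', N', e', h'⟩
    refine ⟨F * PP pc qc ^ N' + F' * PP pc qc ^ N, N + N', ?_, ?_⟩
    · change ((g : K) + g') * _ = _
      rw [map_add, map_mul, map_mul, map_pow, map_pow, ← e, ← e', pow_add]
      ring
    · rw [map_add, map_mul, map_mul, th_PP_pow, th_PP_pow]
      refine dvd_add ?_ ?_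
      · have : (X : P2) ^ (14 * (N + N') + 1) = X ^ (14 * N + 1) * X ^ (14 * N') := by
          rw [← pow_add]; congr 1; ring
        rw [this]
        exact mul_dvd_mul h (dvd_mul_left _ _)
      · have : (X : P2) ^ (14 * (N + N') + 1) = X ^ (14 * N' + 1) * X ^ (14 * N) := by
          rw [← pow_add]; congr 1; ring
        rw [this]
        exact mul_dvd_mul h' (dvd_mul_left _ _)
  smul_mem' := by
    rintro a g ⟨F, N, e, h⟩
    obtain ⟨M, G, e', -, h', -⟩ := key0 a.2
    refine ⟨G * F, M + N, ?_, ?_⟩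
    · change ((a : K) * g) * _ = _
      rw [map_mul, ← e, ← e', pow_add]
      ring
    · rw [map_mul]
      have : (X : P2) ^ (14 * (M + N) + 1) = X ^ (14 * M) * X ^ (14 * N + 1) := by
        rw [← pow_add]; congr 1; ring
      rw [this]
      exact mul_dvd_mul (X_pow_dvd_th h') h

theorem mem_vtx {g : BB pc qc K} : g ∈ vtx K ↔
    ∃ (F : P3) (N : ℕ), (g : K) * em K (PP pc qc) ^ N = em K F ∧ X ^ (14 * N + 1) ∣ th F := Iff.rfl

theorem vtx_ne_top : (1 : BB pc qc K) ∉ vtx K := by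
  rintro ⟨F, N, e, h⟩
  have h1 : F = PP pc qc ^ N := by
    apply em_injective K
    rw [← e, map_pow]
    change (1 : K) * _ = _
    rw [one_mul]
  rw [h1, th_PP_pow, pow_succ, mul_comm] at h
  have h2 := (mul_dvd_mul_iff_right (pow_ne_zero (14 * N) (X_ne_zero : (X : P2) ≠ 0))).mp h
  rw [X_dvd_iff, coeff_C_zero] at h2
  exact DPN_ne N h2

theorem exists_const (g : BB pc qc K) {N : ℕ} {F : P3} (e : (g : K) * em K (PP pc qc) ^ N = em K F)
    (h : ∀ d, d < 14 * N → (th F).coeff d = 0) {c : ℂ} (hc : (th F).coeff (14 * N) = C c * DP ^ N) :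
    g - algebraMap ℂ (BB pc qc K) c ∈ vtx K := by
  refine ⟨F - C (cc c) * PP pc qc ^ N, N, ?_, ?_⟩
  · change ((g : K) - algebraMap ℂ K c) * _ = _
    rw [map_sub, map_mul, map_pow, ← e, algebraMap_cc]
    ring
  · rw [X_pow_dvd_iff]
    intro d hd
    rw [map_sub, map_mul, th_cc, th_PP_pow, coeff_sub, ← mul_assoc, ← C_mul, coeff_C_mul_X_pow]
    rcases Nat.lt_or_ge d (14 * N) with h1 | h1
    · rw [h d h1, if_neg (by omega), sub_zero]
    · have : d = 14 * N := by omega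
      subst this
      rw [if_pos rfl, hc, sub_self]

theorem exists_sub_mem (g : BB pc qc K) : ∃ c : ℂ, g - algebraMap ℂ (BB pc qc K) c ∈ vtx K := by
  obtain ⟨N, F, e, -, h, c, hc⟩ := key0 g.2
  exact ⟨c, exists_const g e h hc⟩

instance vtx_isMaximal : (vtx K).IsMaximal := by
  rw [Ideal.isMaximal_iff]
  refine ⟨vtx_ne_top, fun J x hJ hx hxJ => ?_⟩
  obtain ⟨c, hc⟩ := exists_sub_mem x
  have hc0 : c ≠ 0 := by
    rintro rfl
    rw [map_zero, sub_zero] at hc
    exact hx hc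
  have h1 : algebraMap ℂ (BB pc qc K) c ∈ J := by
    have := J.sub_mem hxJ (hJ hc)
    rwa [sub_sub_cancel] at this
  have h2 := J.mul_mem_left (algebraMap ℂ (BB pc qc K) c⁻¹) h1
  rwa [← map_mul, inv_mul_cancel₀ hc0, map_one] at h2

instance vtx_isPrime : (vtx K).IsPrime := vtx_isMaximal.isPrime

theorem tz_mem_vtx : tz pc qc K ∈ vtx K := by
  refine ⟨C zz, 0, ?_, ?_⟩
  · rw [pow_zero, mul_one]; rfl
  · rw [th_zz, mul_zero, zero_add, pow_one]
    exact dvd_mul_left _ _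

/-- elements outside of the vertex ideal -/
theorem not_mem_vtx {s : BB pc qc K} (hs : s ∉ vtx K) :
    ∃ (G : P3) (b : ℕ) (H : P2), (s : K) * em K (PP pc qc) ^ b = em K G ∧ th G = X ^ (14 * b) * H ∧
      H.coeff 0 ≠ 0 := by
  obtain ⟨N, F, e, -, h, c, hc⟩ := key0 s.2
  obtain ⟨H, hH⟩ := X_pow_dvd_th h
  refine ⟨F, N, H, e, hH, fun h0 => hs ⟨F, N, e, ?_⟩⟩
  rw [hH, pow_succ]
  exact mul_dvd_mul_left _ (X_dvd_iff.mpr h0)

/-- the exceptional divisors over the special lines contain the vertex -/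
theorem vtx_center (k : Fin 12) (g : BB pc qc K)
    (hg : hsub (al k) (g : K) * (em K (C (bb (al k).1)))⁻¹ ∈ LL K (al k).1) : g ∈ vtx K := by
  obtain ⟨N, F, e, h1, h2, c, hc⟩ := key0 g.2
  have hb : em K (C (bb (al k).1)) ≠ 0 := em_ne_zero (Cbb_prime _).ne_zero
  have h3 : C (bb (al k).1) ^ (mz k * N + 1) ∣ sub (al k) F := by
    rw [← mul_mem_locAt_iff (K := K) (hh := Cbb_prime (al k).1)]
    have h4 : em K (sub (al k) F) = hsub (al k) (g : K) * (em K (C (bb (al k).1)) ^ (mz k * N) *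
        em K (∏ i, rest pc qc (al k) i ^ N)) := by
      rw [← map_pow, ← map_mul, ← hsub_em, ← e, map_mul]
      congr 1
      have h5 := sub_den pc qc (fun _ => N) (al k)
      rw [← Finset.sum_mul, sum_mu_al, den_const] at h5
      rw [← h5, map_pow, hsub_em, map_pow, map_pow]
    change em K (sub (al k) F) * (em K (C (bb (al k).1)) ^ (mz k * N + 1))⁻¹ ∈ LL K (al k).1
    rw [h4]
    have h6 : hsub (al k) (g : K) * (em K (C (bb (al k).1)) ^ (mz k * N) *
        em K (∏ i, rest pc qc (al k) i ^ N)) * (em K (C (bb (al k).1)) ^ (mz k * N + 1))⁻¹ =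
        hsub (al k) (g : K) * (em K (C (bb (al k).1)))⁻¹ * em K (∏ i, rest pc qc (al k) i ^ N) := by
      rw [pow_succ]
      field_simp
    rw [h6]
    exact mul_mem hg (Subalgebra.algebraMap_mem _ _)
  have h7 : C (X - C (sc k)) ^ (mz k * N + 1 - 0) ∣ th F := pow_dvd_th k (mz k * N + 1) 0 F (by
    rw [pow_zero, one_mul]; exact h3)
  rw [Nat.sub_zero, ← C_pow] at h7
  have h8 := (Polynomial.C_dvd_iff_dvd_coeff _ _).mp h7 (14 * N)
  rw [hc] at h8
  have h9 : DP ^ N = (X - C (sc k)) ^ (mz k * N) *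
      ∏ j ∈ Finset.univ.erase k, (X - C (sc j)) ^ (mz j * N) := by
    rw [← DN_zero]
    unfold DN
    rw [← Finset.mul_prod_erase Finset.univ _ (Finset.mem_univ k)]
    simp
  rw [h9, pow_succ, mul_left_comm] at h8
  have h10 := (mul_dvd_mul_iff_left (pow_ne_zero _ (X_sub_C_ne_zero (sc k)))).mp h8
  rw [dvd_iff_isRoot, IsRoot, eval_mul, eval_C, eval_prod] at h10
  have hc0 : c = 0 := by
    rcases mul_eq_zero.mp h10 with h | h
    · exact h
    · exfalso
      rw [Finset.prod_eq_zero_iff] at h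
      obtain ⟨j, hj, h⟩ := h
      rw [eval_pow, eval_sub, eval_X, eval_C] at h
      have h11 : sc k - sc j = 0 := by
        by_contra hne
        exact pow_ne_zero _ hne h
      exact (Finset.ne_of_mem_erase hj) (sc_injective (sub_eq_zero.mp h11)).symm
  rw [hc0] at hc
  have h12 := exists_const g e h2 hc
  rwa [map_zero, sub_zero] at h12

end Pool.Agent.V5helper94.Kol
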